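import Pool.Agent.Lib.MP_f4f1a8_lc.Defs

/-! MP_f4f1a8_lc, row Dyad: the dyadic class of first coordinates. -/

namespace Pool.Agent.Lib.MP_f4f1a8_lc.KR

open Finset

/-- with any threshold `t` -/
theorem dyad_gen {n k : ℕ} (d g : Fin k → ℕ)
    (W : Finset ((Fin n → Bool) × (Fin k → (Fin n → Bool)))) (hW : W.Nonempty)
    (hd : ∀ w ∈ W, ∀ i, hammingDist w.1 (w.2 i) ≤ d i)
    (hg : ∀ (i : Fin k) (y : Fin n → Bool), (W.filter (fun w => w.2 i = y)).card ≤ 2 ^ g i) :
    ∃ A : Finset (Fin n → Bool), A.Nonempty ∧ (∀ x ∈ A, ∃ w ∈ W, w.1 = x) ∧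
      ∀ t : ℕ, ∀ i, ∀ A' ⊆ A, A.card ≤ t * A'.card →
        W.card ≤ 2 * t * (k * n + 1) * (2 ^ g i * (nbr A' (d i)).card) := by
  classical
  -- the multiplicity of a first coordinate
  set r : (Fin n → Bool) → ℕ := fun x => (W.filter (fun w => w.1 = x)).card with hr
  have hr_pos : ∀ w ∈ W, r w.1 ≠ 0 := by
    intro w hw
    have : 0 < (W.filter (fun w' => w'.1 = w.1)).card :=
      card_pos.2 ⟨w, mem_filter.2 ⟨hw, rfl⟩⟩
    simp only [hr]
    omega
  have hr_le : ∀ x, r x ≤ 2 ^ (k * n) := by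
    intro x
    have h1 : (W.filter (fun w => w.1 = x)).card ≤
        (univ : Finset (Fin k → (Fin n → Bool))).card := by
      refine card_le_card_of_injOn (fun w => w.2) (fun _ _ => by simp) ?_
      intro w hw w' hw' h
      have e1 := (mem_filter.1 (mem_coe.1 hw)).2
      have e2 := (mem_filter.1 (mem_coe.1 hw')).2
      exact Prod.ext (e1.trans e2.symm) h
    have h2 : (univ : Finset (Fin k → (Fin n → Bool))).card = 2 ^ (k * n) := by
      rw [card_univ, Fintype.card_fun, Fintype.card_fun, Fintype.card_bool, Fintype.card_fin,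
        Fintype.card_fin, ← pow_mul, mul_comm n k]
    simp only [hr]
    omega
  have hlog : ∀ w ∈ W, Nat.log 2 (r w.1) ∈ range (k * n + 1) := by
    intro w _
    rw [mem_range]
    have := Nat.log_mono_right (b := 2) (hr_le w.1)
    rw [Nat.log_pow (by norm_num)] at this
    omega
  -- the heaviest dyadic class
  obtain ⟨j, _, hj⟩ : ∃ j ∈ range (k * n + 1),
      W.card ≤ (k * n + 1) * (W.filter (fun w => Nat.log 2 (r w.1) = j)).card := by
    refine exists_le_of_sum_le (nonempty_range_iff.2 (by omega)) ?_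
    rw [sum_const, card_range, smul_eq_mul, ← mul_sum,
      ← card_eq_sum_card_fiberwise (f := fun w => Nat.log 2 (r w.1)) (s := W)
        (t := range (k * n + 1)) (fun w hw => by exact_mod_cast hlog w hw)]
  set A : Finset (Fin n → Bool) := (W.image Prod.fst).filter (fun x => Nat.log 2 (r x) = j) with hA
  have hmem : ∀ x ∈ A, 2 ^ j ≤ r x ∧ r x < 2 ^ (j + 1) ∧ ∃ w ∈ W, w.1 = x := by
    intro x hx
    rw [hA, mem_filter, mem_image] at hx
    obtain ⟨⟨w, hw, rfl⟩, hx⟩ := hx
    have h0 := hr_pos w hw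
    refine ⟨?_, ?_, w, hw, rfl⟩
    · rw [← hx]; exact Nat.pow_log_le_self 2 h0
    · rw [← hx]; exact Nat.lt_pow_succ_log_self (by norm_num) _
  have hWj : (W.filter (fun w => Nat.log 2 (r w.1) = j)).card ≤ 2 ^ (j + 1) * A.card := by
    refine card_le_mul_card_image_of_maps_to (f := Prod.fst) ?_ (2 ^ (j + 1)) ?_
    · intro w hw
      rw [mem_filter] at hw
      rw [hA, mem_filter]
      exact ⟨mem_image_of_mem _ hw.1, hw.2⟩
    · intro x hx
      refine le_trans (card_le_card ?_) (hmem x hx).2.1.le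
      intro w hw
      rw [mem_filter, mem_filter] at hw
      rw [mem_filter]
      exact ⟨hw.1.1, hw.2⟩
  have hWpos : 0 < W.card := card_pos.2 hW
  refine ⟨A, ?_, fun x hx => (hmem x hx).2.2, ?_⟩
  · rw [nonempty_iff_ne_empty]
    intro h0
    rw [h0, card_empty, mul_zero] at hWj
    have : (W.filter (fun w => Nat.log 2 (r w.1) = j)).card = 0 := by omega
    rw [this, mul_zero] at hj
    omega
  · intro t i A' hA' hc
    have h1 : 2 ^ j * A'.card ≤ (W.filter (fun w => w.1 ∈ A')).card := by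
      refine mul_card_image_le_card_of_maps_to (f := Prod.fst) ?_ (2 ^ j) ?_
      · intro w hw
        exact (mem_filter.1 hw).2
      · intro x hx
        refine le_trans (hmem x (hA' hx)).1 (card_le_card ?_)
        intro w hw
        rw [mem_filter] at hw
        rw [mem_filter, mem_filter]
        exact ⟨⟨hw.1, by rw [hw.2]; exact hx⟩, hw.2⟩
    have h2 : (W.filter (fun w => w.1 ∈ A')).card ≤ 2 ^ g i * (nbr A' (d i)).card := by
      refine card_le_mul_card_image_of_maps_to (f := fun w => w.2 i) ?_ (2 ^ g i) ?_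
      · intro w hw
        rw [mem_filter] at hw
        simp only [nbr, mem_filter, mem_univ, true_and]
        exact ⟨w.1, hw.2, hd w hw.1 i⟩
      · intro y _
        refine le_trans (card_le_card ?_) (hg i y)
        intro w hw
        rw [mem_filter, mem_filter] at hw
        rw [mem_filter]
        exact ⟨hw.1.1, hw.2⟩
    calc W.card ≤ (k * n + 1) * (W.filter (fun w => Nat.log 2 (r w.1) = j)).card := hj
      _ ≤ (k * n + 1) * (2 ^ (j + 1) * A.card) := Nat.mul_le_mul_left _ hWj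
      _ ≤ (k * n + 1) * (2 ^ (j + 1) * (t * A'.card)) :=
          Nat.mul_le_mul_left _ (Nat.mul_le_mul_left _ hc)
      _ = 2 * t * (k * n + 1) * (2 ^ j * A'.card) := by rw [pow_succ]; ring
      _ ≤ 2 * t * (k * n + 1) * (2 ^ g i * (nbr A' (d i)).card) :=
          Nat.mul_le_mul_left _ (h1.trans h2)

theorem dyad {n k : ℕ} (d g : Fin k → ℕ)
    (W : Finset ((Fin n → Bool) × (Fin k → (Fin n → Bool)))) (hW : W.Nonempty)
    (hd : ∀ w ∈ W, ∀ i, hammingDist w.1 (w.2 i) ≤ d i)
    (hg : ∀ (i : Fin k) (y : Fin n → Bool), (W.filter (fun w => w.2 i = y)).card ≤ 2 ^ g i) :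
    ∃ A : Finset (Fin n → Bool), A.Nonempty ∧ (∀ x ∈ A, ∃ w ∈ W, w.1 = x) ∧
      ∀ i, ∀ A' ⊆ A, A.card ≤ 2 * (n + 1) * A'.card →
        W.card ≤ 4 * (n + 1) * (k * n + 1) * (2 ^ g i * (nbr A' (d i)).card) := by
  obtain ⟨A, h1, h2, h3⟩ := dyad_gen d g W hW hd hg
  refine ⟨A, h1, h2, fun i A' hA' hc => ?_⟩
  have := h3 (2 * (n + 1)) i A' hA' hc
  rwa [show 2 * (2 * (n + 1)) = 4 * (n + 1) by ring] at this

end Pool.Agent.Lib.MP_f4f1a8_lc.KR
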