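import Mathlib

/-! MP_f4f1a8_lc, row Enc: packed codes of lists of numbers. -/

namespace Pool.Agent.Lib.MP_f4f1a8_lc.KR

/-- the digit number `i` of `K` in base `2 ^ t` -/
def dg (t K i : ℕ) : ℕ := K / 2 ^ (t * i) % 2 ^ t

theorem primrec_dg : Primrec (fun a : ℕ × ℕ × ℕ => dg a.1 a.2.1 a.2.2) := by
  have hpow : Primrec₂ (fun a b : ℕ => a ^ b) := Primrec₂.unpaired'.1 Nat.Primrec.pow
  have h1 : Primrec (fun a : ℕ × ℕ × ℕ => a.1) := Primrec.fst
  have h2 : Primrec (fun a : ℕ × ℕ × ℕ => a.2.1) := Primrec.fst.comp Primrec.snd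
  have h3 : Primrec (fun a : ℕ × ℕ × ℕ => a.2.2) := Primrec.snd.comp Primrec.snd
  exact Primrec.nat_mod.comp
    (Primrec.nat_div.comp h2 (hpow.comp (Primrec.const 2) (Primrec.nat_mul.comp h1 h3)))
    (hpow.comp (Primrec.const 2) h1)

theorem exists_pack (k t : ℕ) (f : Fin k → ℕ) (hf : ∀ i, f i < 2 ^ t) :
    ∃ K : ℕ, K < 2 ^ (t * k) ∧ ∀ i : Fin k, dg t K i = f i := by
  let g : Fin k → Fin (2 ^ t) := fun i => ⟨f i, hf i⟩
  refine ⟨(finFunctionFinEquiv g : ℕ), ?_, fun i => ?_⟩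
  · have h := (finFunctionFinEquiv g).isLt
    rw [pow_mul]
    exact h
  · have h : finFunctionFinEquiv.symm (finFunctionFinEquiv g) i = g i := by
      rw [Equiv.symm_apply_apply]
    have h2 := congrArg Fin.val h
    rw [finFunctionFinEquiv_symm_apply_val] at h2
    unfold dg
    rw [pow_mul]
    exact h2

end Pool.Agent.Lib.MP_f4f1a8_lc.KR
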