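import Pool.Agent.Lib.MP_f4f1a8_lc.Basic
import Pool.Agent.Lib.MP_f4f1a8_lc.Descr
import Pool.Agent.Lib.MP_f4f1a8_lc.PCode
import Pool.Agent.Lib.MP_f4f1a8_lc.KR.Enc

/-! MP_f4f1a8_lc, row Kept (helper51): typical tuples, uniform in the number of parts. -/

namespace Pool.Agent.Lib.MP_f4f1a8_lc.KR

open Finset

namespace Kp

open Descr

variable {Q : ℕ → List Bool → ℕ → Prop} {π : ℕ → List Bool → List Bool}

open Classical in
/-- number of new strings before stage `m` with part `i` equal to `y` -/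
noncomputable def ct (Q : ℕ → List Bool → ℕ → Prop) (π : ℕ → List Bool → List Bool)
    (p i : ℕ) (y : List Bool) (m : ℕ) : ℕ :=
  ((List.range m).filter (fun m' => New Q p m' ∧ π i (yy m') = y)).length

theorem primrec_ct (hQ : PrimrecPred fun a : ℕ × List Bool × ℕ => Q a.1 a.2.1 a.2.2)
    (hπ : Primrec₂ π) :
    Primrec (fun a : ((ℕ × ℕ) × List Bool) × ℕ => ct Q π a.1.1.1 a.1.1.2 a.1.2 a.2) := by
  classical
  have hR : PrimrecRel (fun (m' : ℕ) (b : (ℕ × ℕ) × List Bool) =>
      New Q b.1.1 m' ∧ π b.1.2 (yy m') = b.2) := by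
    refine PrimrecPred.and ?_ ?_
    · exact (primrec_new hQ).comp (Primrec.fst.comp (Primrec.fst.comp Primrec.snd)) Primrec.fst
    · exact Primrec.eq.comp (hπ.comp (Primrec.snd.comp (Primrec.fst.comp Primrec.snd))
        (primrec_yy.comp Primrec.fst)) (Primrec.snd.comp Primrec.snd)
  have h2 : Primrec (fun a : ((ℕ × ℕ) × List Bool) × ℕ =>
      ((List.range a.2).filter
        (fun m' => decide (New Q a.1.1.1 m' ∧ π a.1.1.2 (yy m') = a.1.2))).length) :=
    Primrec.list_length.comp ((PrimrecRel.listFilter hR).comp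
      (Primrec.list_range.comp Primrec.snd) Primrec.fst)
  exact h2

theorem ct_succ (p i : ℕ) (y : List Bool) (m : ℕ) [Decidable (New Q p m ∧ π i (yy m) = y)] :
    ct Q π p i y (m + 1) = ct Q π p i y m + (if New Q p m ∧ π i (yy m) = y then 1 else 0) := by
  classical
  unfold ct
  rw [List.range_succ, List.filter_append, List.length_append]
  congr 1
  by_cases h : New Q p m ∧ π i (yy m) = y <;> simp [h]

theorem ct_mono (p i : ℕ) (y : List Bool) : Monotone (ct Q π p i y) := by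
  classical
  refine monotone_nat_of_le_succ fun m => ?_
  rw [ct_succ]; omega

theorem ct_lt {p i : ℕ} {y : List Bool} {m m' : ℕ} (h : New Q p m) (hy : π i (yy m) = y)
    (hm : m < m') : ct Q π p i y m < ct Q π p i y m' := by
  classical
  have h1 := ct_succ (Q := Q) (π := π) p i y m
  rw [if_pos ⟨h, hy⟩] at h1
  have h2 := ct_mono (Q := Q) (π := π) p i y (Nat.succ_le_of_lt hm)
  simp only [Nat.succ_eq_add_one] at h2
  omega

theorem ct_le_card (p i : ℕ) (y : List Bool) (m : ℕ) (F : Finset (List Bool))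
    (hF : ∀ w r, Q p w r → w ∈ F) :
    ct Q π p i y m ≤ (F.filter (fun w => π i w = y)).card := by
  classical
  have h1 : ct Q π p i y m =
      ((Finset.range m).filter (fun m' => New Q p m' ∧ π i (yy m') = y)).card := by
    unfold ct
    rw [Finset.card_def, Finset.filter_val, Finset.range_val, Multiset.range,
      Multiset.filter_coe, Multiset.coe_card]
  rw [h1]
  refine Finset.card_le_card_of_injOn yy ?_ ?_
  · intro m' hm'
    have h2 := (Finset.mem_filter.1 (Finset.mem_coe.1 hm')).2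
    exact Finset.mem_coe.2 (Finset.mem_filter.2 ⟨hF _ _ h2.1.1, h2.2⟩)
  · intro a ha b hb hab
    exact new_unique (Finset.mem_filter.1 (Finset.mem_coe.1 ha)).2.1
      (Finset.mem_filter.1 (Finset.mem_coe.1 hb)).2.1 hab

/-- the relation enumerating frequent parts -/
def H (Q : ℕ → List Bool → ℕ → Prop) (π : ℕ → List Bool → List Bool) (P : ℕ)
    (y : List Bool) (r : ℕ) : Prop :=
  2 ^ P.unpair.2.unpair.2 ≤ ct Q π P.unpair.1 (Nat.pair P.unpair.1 P.unpair.2.unpair.1) y r

theorem primrec_H (hQ : PrimrecPred fun a : ℕ × List Bool × ℕ => Q a.1 a.2.1 a.2.2)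
    (hπ : Primrec₂ π) :
    PrimrecPred fun a : ℕ × List Bool × ℕ => H Q π a.1 a.2.1 a.2.2 := by
  have hp : Primrec (fun a : ℕ × List Bool × ℕ => a.1.unpair.1) :=
    Primrec.fst.comp (Primrec.unpair.comp Primrec.fst)
  have h2 : Primrec (fun a : ℕ × List Bool × ℕ => a.1.unpair.2) :=
    Primrec.snd.comp (Primrec.unpair.comp Primrec.fst)
  have hi : Primrec (fun a : ℕ × List Bool × ℕ => a.1.unpair.2.unpair.1) :=
    Primrec.fst.comp (Primrec.unpair.comp h2)
  have hG : Primrec (fun a : ℕ × List Bool × ℕ => a.1.unpair.2.unpair.2) :=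
    Primrec.snd.comp (Primrec.unpair.comp h2)
  have hpi : Primrec (fun a : ℕ × List Bool × ℕ =>
      Nat.pair a.1.unpair.1 a.1.unpair.2.unpair.1) := Primrec₂.natPair.comp hp hi
  have hy : Primrec (fun a : ℕ × List Bool × ℕ => a.2.1) := Primrec.fst.comp Primrec.snd
  have hr : Primrec (fun a : ℕ × List Bool × ℕ => a.2.2) := Primrec.snd.comp Primrec.snd
  have h3 : Primrec (fun a : ℕ × List Bool × ℕ =>
      (((a.1.unpair.1, Nat.pair a.1.unpair.1 a.1.unpair.2.unpair.1), a.2.1), a.2.2)) :=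
    ((hp.pair hpi).pair hy).pair hr
  exact Primrec.nat_le.comp (PC.primrec_two_pow.comp hG) ((primrec_ct hQ hπ).comp h3)

/-- the relation enumerating the strings that are kept; the parameter codes `p, k, T` and the
packed numbers `g i` -/
def K (Q : ℕ → List Bool → ℕ → Prop) (π : ℕ → List Bool → List Bool) (P : ℕ)
    (y : List Bool) (r : ℕ) : Prop :=
  (New Q P.unpair.1.unpair.1 r ∧ yy r = y) ∧ ∀ i ∈ List.range P.unpair.1.unpair.2,
    ct Q π P.unpair.1.unpair.1 (Nat.pair P.unpair.1.unpair.1 i)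
      (π (Nat.pair P.unpair.1.unpair.1 i) y) r <
      2 ^ (dg P.unpair.2.unpair.1 P.unpair.2.unpair.2 i)

theorem primrec_K (hQ : PrimrecPred fun a : ℕ × List Bool × ℕ => Q a.1 a.2.1 a.2.2)
    (hπ : Primrec₂ π) :
    PrimrecPred fun a : ℕ × List Bool × ℕ => K Q π a.1 a.2.1 a.2.2 := by
  have u1 : Primrec (fun P : ℕ => P.unpair.1) := Primrec.fst.comp Primrec.unpair
  have u2 : Primrec (fun P : ℕ => P.unpair.2) := Primrec.snd.comp Primrec.unpair
  have u11 : Primrec (fun P : ℕ => P.unpair.1.unpair.1) := u1.comp u1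
  have u12 : Primrec (fun P : ℕ => P.unpair.1.unpair.2) := u2.comp u1
  have u21 : Primrec (fun P : ℕ => P.unpair.2.unpair.1) := u1.comp u2
  have u22 : Primrec (fun P : ℕ => P.unpair.2.unpair.2) := u2.comp u2
  have hy : Primrec (fun a : ℕ × List Bool × ℕ => a.2.1) := Primrec.fst.comp Primrec.snd
  have hr : Primrec (fun a : ℕ × List Bool × ℕ => a.2.2) := Primrec.snd.comp Primrec.snd
  have h1 : PrimrecPred (fun a : ℕ × List Bool × ℕ => New Q a.1.unpair.1.unpair.1 a.2.2) :=
    (primrec_new hQ).comp (u11.comp Primrec.fst) hr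
  have h2 : PrimrecPred (fun a : ℕ × List Bool × ℕ => yy a.2.2 = a.2.1) :=
    Primrec.eq.comp (primrec_yy.comp hr) hy
  have hP : Primrec (fun b : ℕ × ℕ × List Bool × ℕ => b.2.1) := Primrec.fst.comp Primrec.snd
  have hg : Primrec (fun b : ℕ × ℕ × List Bool × ℕ =>
      dg b.2.1.unpair.2.unpair.1 b.2.1.unpair.2.unpair.2 b.1) :=
    primrec_dg.comp ((u21.comp hP).pair ((u22.comp hP).pair Primrec.fst))
  have hct : Primrec (fun b : ℕ × ℕ × List Bool × ℕ =>
      ct Q π b.2.1.unpair.1.unpair.1 (Nat.pair b.2.1.unpair.1.unpair.1 b.1)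
        (π (Nat.pair b.2.1.unpair.1.unpair.1 b.1) b.2.2.1) b.2.2.2) := by
    have e1 : Primrec (fun b : ℕ × ℕ × List Bool × ℕ => b.2.1.unpair.1.unpair.1) :=
      u11.comp hP
    have e5 : Primrec (fun b : ℕ × ℕ × List Bool × ℕ =>
        Nat.pair b.2.1.unpair.1.unpair.1 b.1) := Primrec₂.natPair.comp e1 Primrec.fst
    have e2 : Primrec (fun b : ℕ × ℕ × List Bool × ℕ =>
        π (Nat.pair b.2.1.unpair.1.unpair.1 b.1) b.2.2.1) :=
      hπ.comp e5 (Primrec.fst.comp (Primrec.snd.comp Primrec.snd))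
    have e3 : Primrec (fun b : ℕ × ℕ × List Bool × ℕ => b.2.2.2) :=
      Primrec.snd.comp (Primrec.snd.comp Primrec.snd)
    have e4 : Primrec (fun b : ℕ × ℕ × List Bool × ℕ =>
        (((b.2.1.unpair.1.unpair.1, Nat.pair b.2.1.unpair.1.unpair.1 b.1),
          π (Nat.pair b.2.1.unpair.1.unpair.1 b.1) b.2.2.1), b.2.2.2)) :=
      ((e1.pair e5).pair e2).pair e3
    exact (primrec_ct hQ hπ).comp e4
  have hR : PrimrecRel (fun (i : ℕ) (a : ℕ × List Bool × ℕ) =>
      ct Q π a.1.unpair.1.unpair.1 (Nat.pair a.1.unpair.1.unpair.1 i)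
        (π (Nat.pair a.1.unpair.1.unpair.1 i) a.2.1) a.2.2 <
        2 ^ (dg a.1.unpair.2.unpair.1 a.1.unpair.2.unpair.2 i)) :=
    Primrec.nat_lt.comp hct (PC.primrec_two_pow.comp hg)
  have h3 : PrimrecPred (fun a : ℕ × List Bool × ℕ =>
      ∀ i ∈ List.range a.1.unpair.1.unpair.2,
      ct Q π a.1.unpair.1.unpair.1 (Nat.pair a.1.unpair.1.unpair.1 i)
        (π (Nat.pair a.1.unpair.1.unpair.1 i) a.2.1) a.2.2 <
        2 ^ (dg a.1.unpair.2.unpair.1 a.1.unpair.2.unpair.2 i)) :=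
    hR.forall_mem_list.comp (Primrec.list_range.comp (u12.comp Primrec.fst)) Primrec.id
  exact (h1.and h2).and h3

theorem sq_le_two_pow : ∀ j : ℕ, 4 ≤ j → j * j ≤ 2 ^ j := by
  intro j hj
  induction j, hj using Nat.le_induction with
  | base => norm_num
  | succ j hj ih =>
    rw [pow_succ]
    nlinarith

theorem exists_j (α β : ℕ) : ∃ j : ℕ, α + β * j + 3 ≤ 2 ^ j := by
  refine ⟨α + β + 4, ?_⟩
  refine le_trans ?_ (sq_le_two_pow (α + β + 4) (by omega))
  nlinarith

end Kp

open Kp Descr in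
/-- `w` is enumerated by `Q` with parameter `p`, at most `2 ^ (q + 1)` strings are, `q` is the
complexity of `w`; `π (Nat.pair p i) w` are the parts of `w`. Then there is a set `W` of
enumerated strings of size `2 ^ (q - O(s + k t))` in which every part occurs in few strings. -/
theorem kept {U : List Bool →. List Bool} (hU : Optimal U)
    (Q : ℕ → List Bool → ℕ → Prop)
    (hQ : PrimrecPred fun a : ℕ × List Bool × ℕ => Q a.1 a.2.1 a.2.2)
    (π : ℕ → List Bool → List Bool) (hπ : Primrec₂ π) :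
    ∃ c : ℕ, ∀ (k s t p q : ℕ) (w : List Bool) (F : Finset (List Bool)),
      p < 2 ^ s → q < 2 ^ t → k < 2 ^ t → s < 2 ^ t → t ≤ s → (∃ r, Q p w r) →
      (∀ w' r, Q p w' r → w' ∈ F) → F.card ≤ 2 ^ (q + 1) → C U w = q →
      ∃ (g : Fin k → ℕ) (W : Finset (List Bool)), (∀ w' ∈ W, ∃ r, Q p w' r) ∧
        (∀ (i : Fin k) (y : List Bool),
          (W.filter (fun w' => π (Nat.pair p i) w' = y)).card ≤ 2 ^ g i) ∧
        2 ^ q ≤ W.card * 2 ^ (c * (s + (k + 1) * (t + 1))) ∧
        ∀ i : Fin k, C U (π (Nat.pair p i) w) + g i = q + 2 + c * (s + 1) := by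
  classical
  obtain ⟨cH, hcH⟩ := description hU (H Q π) (primrec_H hQ hπ)
  obtain ⟨cK, hcK⟩ := description hU (K Q π) (primrec_K hQ hπ)
  obtain ⟨j, hj⟩ := exists_j (cH + cK + 40) 16
  refine ⟨cH + cK + 40 + 16 * j, ?_⟩
  set c := cH + cK + 40 + 16 * j with hc
  intro k s t p q w F hp hq hk hst hts hw hF hFc hCw
  have hmono : ∀ {a b : ℕ}, a ≤ b → (2 : ℕ) ^ a ≤ 2 ^ b := fun h =>
    Nat.pow_le_pow_right (by norm_num) h
  -- the size of the parameters
  have hc1 : 8 * (s + j + 1) + cH + 2 ≤ c * (s + 1) := by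
    rw [hc]
    nlinarith [Nat.zero_le (j * s), Nat.zero_le (cH * s), Nat.zero_le (cK * s),
      Nat.zero_le s, Nat.zero_le cK]
  have hc2 : 8 * (s + (t + j + 1) * (k + 1)) + cK + 1 ≤ c * (s + (k + 1) * (t + 1)) := by
    have e1 : (t + j + 1) * (k + 1) ≤ (j + 1) * ((k + 1) * (t + 1)) := by
      have : t + j + 1 ≤ (j + 1) * (t + 1) := by nlinarith [Nat.zero_le (j * t)]
      calc (t + j + 1) * (k + 1) ≤ ((j + 1) * (t + 1)) * (k + 1) := Nat.mul_le_mul_right _ this
        _ = (j + 1) * ((k + 1) * (t + 1)) := by ring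
    have e2 : 1 ≤ (k + 1) * (t + 1) := Nat.succ_le_of_lt (by positivity)
    generalize (k + 1) * (t + 1) = M at e1 e2 ⊢
    rw [hc]
    nlinarith [Nat.zero_le (cH * s), Nat.zero_le (cK * s), Nat.zero_le (j * s),
      Nat.zero_le (cH * M), Nat.mul_le_mul_left cK e2, Nat.zero_le (j * M), Nat.zero_le s]
  have hGlt : ∀ G, G ≤ q + 2 + c * (s + 1) → G < 2 ^ (t + j + 1) := by
    intro G hG
    have h2 : q + 2 + c * (s + 1) ≤ 2 ^ t * (c + 3) := by nlinarith
    have h3 : 2 ^ t * (c + 3) ≤ 2 ^ (t + j) := by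
      rw [pow_add]
      exact Nat.mul_le_mul_left _ hj
    calc G ≤ 2 ^ (t + j) := hG.trans (h2.trans h3)
      _ < 2 ^ (t + j + 1) := Nat.pow_lt_pow_right (by norm_num) (by omega)
  -- frequent parts are simple
  have hheavy : ∀ (i : Fin k) (G : ℕ) (y : List Bool) (r : ℕ), G ≤ q + 2 + c * (s + 1) →
      2 ^ G ≤ ct Q π p (Nat.pair p i) y r →
      G ≤ q + 1 ∧ C U y ≤ (q + 1 - G) + 8 * (s + j + 1) + cH := by
    intro i G y r hG hr
    set FH : Finset (List Bool) := (F.image (π (Nat.pair p i))).filter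
      (fun y' => 2 ^ G ≤ (F.filter (fun w' => π (Nat.pair p i) w' = y')).card) with hFH
    have hmem : ∀ y' r', 2 ^ G ≤ ct Q π p (Nat.pair p i) y' r' → y' ∈ FH := by
      intro y' r' h
      have h1 : 2 ^ G ≤ (F.filter (fun w' => π (Nat.pair p i) w' = y')).card :=
        h.trans (ct_le_card p (Nat.pair p i) y' r' F hF)
      have h2 : 0 < (F.filter (fun w' => π (Nat.pair p i) w' = y')).card :=
        lt_of_lt_of_le (by positivity) h1
      obtain ⟨w', hw'⟩ := Finset.card_pos.1 h2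
      rw [Finset.mem_filter] at hw'
      rw [hFH, Finset.mem_filter]
      exact ⟨Finset.mem_image.2 ⟨w', hw'.1, hw'.2⟩, h1⟩
    have hcard : FH.card * 2 ^ G ≤ 2 ^ (q + 1) := by
      refine le_trans ?_ hFc
      have h1 : FH.card * 2 ^ G ≤
          ∑ y' ∈ FH, (F.filter (fun w' => π (Nat.pair p i) w' = y')).card := by
        have := Finset.card_nsmul_le_sum FH
          (fun y' => (F.filter (fun w' => π (Nat.pair p i) w' = y')).card) (2 ^ G)
          (fun y' hy' => by rw [hFH, Finset.mem_filter] at hy'; exact hy'.2)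
        simpa [smul_eq_mul] using this
      refine h1.trans ?_
      rw [← Finset.card_biUnion]
      · refine Finset.card_le_card ?_
        intro w' hw'
        obtain ⟨y', _, h⟩ := Finset.mem_biUnion.1 hw'
        exact (Finset.mem_filter.1 h).1
      · intro a _ b _ hab
        rw [Function.onFun, Finset.disjoint_left]
        intro w' h1 h2
        exact hab ((Finset.mem_filter.1 h1).2.symm.trans (Finset.mem_filter.1 h2).2)
    have hy := hmem y r hr
    have hpos : 0 < FH.card := Finset.card_pos.2 ⟨y, hy⟩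
    have hGq : G ≤ q + 1 := by
      by_contra hcon
      have h1 : 2 ^ (q + 1) < 2 ^ G := Nat.pow_lt_pow_right (by norm_num) (by omega)
      have h2 : 1 * 2 ^ G ≤ FH.card * 2 ^ G := Nat.mul_le_mul_right _ hpos
      omega
    refine ⟨hGq, ?_⟩
    have hcard' : FH.card ≤ 2 ^ (q + 1 - G) := by
      have h1 : (2 : ℕ) ^ (q + 1) = 2 ^ (q + 1 - G) * 2 ^ G := by
        rw [← pow_add]; congr 1; omega
      rw [h1] at hcard
      exact Nat.le_of_mul_le_mul_right hcard (by positivity)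
    have hi : (i : ℕ) < 2 ^ t := lt_trans i.2 hk
    have b1 : (i : ℕ) < 2 ^ (s + j + 1) := lt_of_lt_of_le hi (hmono (by omega))
    have b2 : G < 2 ^ (s + j + 1) := lt_of_lt_of_le (hGlt G hG) (hmono (by omega))
    have b3 := PC.pair_lt b1 b2
    have b4 : p < 2 ^ (2 * (s + j + 1)) := lt_of_lt_of_le hp (hmono (by omega))
    have b5 := PC.pair_lt b4 b3
    have key := hcH (2 * (2 * (s + j + 1))) (q + 1 - G) (Nat.pair p (Nat.pair i G)) y FH b5
      ⟨r, by unfold H; simpa only [Nat.unpair_pair] using hr⟩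
      (fun y' r' h => hmem y' r' (by unfold H at h; simpa only [Nat.unpair_pair] using h))
      hcard'
    omega
  -- the stage of `w`
  obtain ⟨mw, hmw, hyw⟩ := exists_new hw
  have hpart : ∀ i : Fin k, C U (π (Nat.pair p i) w) ≤ q + 2 + c * (s + 1) := by
    intro i
    have h1 : 2 ^ 0 ≤ ct Q π p (Nat.pair p i) (π (Nat.pair p i) w) (mw + 1) := by
      have h2 := ct_lt (Q := Q) (π := π) (i := Nat.pair p i) (y := π (Nat.pair p i) w) hmw
        (by rw [hyw]) (Nat.lt_succ_self mw)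
      have h3 : 0 < ct Q π p (Nat.pair p i) (π (Nat.pair p i) w) (mw + 1) :=
        lt_of_le_of_lt (Nat.zero_le _) h2
      rw [pow_zero]
      exact h3
    have h2 := (hheavy i 0 (π (Nat.pair p i) w) (mw + 1) (Nat.zero_le _) h1).2
    omega
  set g : Fin k → ℕ := fun i => q + 2 + c * (s + 1) - C U (π (Nat.pair p i) w) with hg
  have hgeq : ∀ i : Fin k, C U (π (Nat.pair p i) w) + g i = q + 2 + c * (s + 1) := by
    intro i
    have := hpart i
    simp only [hg]
    omega
  obtain ⟨L, hLlt, hLdg⟩ := exists_pack k (t + j + 1) g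
    (fun i => hGlt _ (by have := hgeq i; omega))
  set P : ℕ := Nat.pair (Nat.pair p k) (Nat.pair (t + j + 1) L) with hP
  have hKiff : ∀ y r, K Q π P y r ↔ (New Q p r ∧ yy r = y) ∧
      ∀ i : Fin k, ct Q π p (Nat.pair p i) (π (Nat.pair p i) y) r < 2 ^ g i := by
    intro y r
    unfold K
    rw [hP]
    simp only [Nat.unpair_pair]
    constructor
    · rintro ⟨h1, h2⟩
      refine ⟨h1, fun i => ?_⟩
      have h3 := h2 i (List.mem_range.2 i.2)
      rwa [hLdg i] at h3
    · rintro ⟨h1, h2⟩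
      refine ⟨h1, fun i hi => ?_⟩
      rw [List.mem_range] at hi
      have h3 := h2 ⟨i, hi⟩
      have h4 := hLdg ⟨i, hi⟩
      simp only at h3 h4
      rw [h4]
      exact h3
  set W : Finset (List Bool) := F.filter (fun y => ∃ r, K Q π P y r) with hW
  have hWmem : ∀ y r, K Q π P y r → y ∈ W := by
    intro y r h
    rw [hW, Finset.mem_filter]
    refine ⟨?_, r, h⟩
    have h1 := (hKiff y r).1 h
    rw [← h1.1.2]
    exact hF _ _ h1.1.1.1
  have hwK : K Q π P w mw := by
    rw [hKiff]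
    refine ⟨⟨hmw, hyw⟩, fun i => ?_⟩
    by_contra hcon
    rw [not_lt] at hcon
    have h1 := hheavy i (g i) (π (Nat.pair p i) w) mw (by have := hgeq i; omega) hcon
    have h2 := hgeq i
    omega
  refine ⟨g, W, ?_, ?_, ?_, hgeq⟩
  · intro w' hw'
    rw [hW, Finset.mem_filter] at hw'
    obtain ⟨r, hr⟩ := hw'.2
    have h1 := ((hKiff w' r).1 hr).1
    exact ⟨kk r, h1.2 ▸ h1.1.1⟩
  · intro i y
    have hst : ∀ w' : List Bool, ∃ r, w' ∈ W → K Q π P w' r := by
      intro w'
      by_cases h : w' ∈ W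
      · obtain ⟨r, hr⟩ := (Finset.mem_filter.1 (hW ▸ h)).2
        exact ⟨r, fun _ => hr⟩
      · exact ⟨0, fun h' => absurd h' h⟩
    choose st hst using hst
    have h1 : (W.filter (fun w' => π (Nat.pair p i) w' = y)).card ≤
        (Finset.range (2 ^ g i)).card := by
      refine Finset.card_le_card_of_injOn (fun w' => ct Q π p (Nat.pair p i) y (st w')) ?_ ?_
      · intro w' hw'
        obtain ⟨h2, h3⟩ := Finset.mem_filter.1 (Finset.mem_coe.1 hw')
        have h4 := ((hKiff w' (st w')).1 (hst w' h2)).2 i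
        rw [h3] at h4
        exact Finset.mem_coe.2 (Finset.mem_range.2 h4)
      · intro a ha b hb hab
        obtain ⟨ha1, ha2⟩ := Finset.mem_filter.1 (Finset.mem_coe.1 ha)
        obtain ⟨hb1, hb2⟩ := Finset.mem_filter.1 (Finset.mem_coe.1 hb)
        have ka := ((hKiff a (st a)).1 (hst a ha1)).1
        have kb := ((hKiff b (st b)).1 (hst b hb1)).1
        have ea : π (Nat.pair p i) (yy (st a)) = y := by rw [ka.2, ha2]
        have eb : π (Nat.pair p i) (yy (st b)) = y := by rw [kb.2, hb2]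
        simp only at hab
        rcases Nat.lt_trichotomy (st a) (st b) with h | h | h
        · exact absurd hab (ct_lt ka.1 ea h).ne
        · rw [← ka.2, ← kb.2, h]
        · exact absurd hab.symm (ct_lt kb.1 eb h).ne
    rwa [Finset.card_range] at h1
  · have hwW : w ∈ W := hWmem w mw hwK
    have hpos : 0 < W.card := Finset.card_pos.2 ⟨w, hwW⟩
    have hN : W.card ≤ 2 ^ (Nat.log 2 W.card + 1) := (Nat.lt_pow_succ_log_self (by norm_num) _).le
    have hlog : 2 ^ Nat.log 2 W.card ≤ W.card := Nat.pow_log_le_self 2 hpos.ne'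
    have b0 : t + j + 1 < 2 ^ ((t + j + 1) * (k + 1)) := by
      calc t + j + 1 < 2 ^ (t + j + 1) := Nat.lt_two_pow_self
        _ ≤ 2 ^ ((t + j + 1) * (k + 1)) := hmono (Nat.le_mul_of_pos_right _ (by omega))
    have b1 : L < 2 ^ ((t + j + 1) * (k + 1)) := lt_of_lt_of_le hLlt (hmono (by nlinarith))
    have b2 := PC.pair_lt b0 b1
    have b3 : k < 2 ^ s := lt_of_lt_of_le hk (hmono hts)
    have b4 := PC.pair_lt hp b3
    have b5 := PC.pair_lt
      (lt_of_lt_of_le b4 (hmono (by omega : 2 * s ≤ 2 * (s + (t + j + 1) * (k + 1)))))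
      (lt_of_lt_of_le b2 (hmono (by omega :
        2 * ((t + j + 1) * (k + 1)) ≤ 2 * (s + (t + j + 1) * (k + 1)))))
    have key := hcK (2 * (2 * (s + (t + j + 1) * (k + 1)))) (Nat.log 2 W.card + 1) P w W b5
      ⟨mw, hwK⟩ hWmem hN
    rw [hCw] at key
    calc 2 ^ q ≤ 2 ^ (Nat.log 2 W.card + c * (s + (k + 1) * (t + 1))) := hmono (by omega)
      _ = 2 ^ Nat.log 2 W.card * 2 ^ (c * (s + (k + 1) * (t + 1))) := pow_add _ _ _
      _ ≤ W.card * 2 ^ (c * (s + (k + 1) * (t + 1))) := Nat.mul_le_mul_right _ hlog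

end Pool.Agent.Lib.MP_f4f1a8_lc.KR
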