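import Pool.Agent.Lib.MP_f4f1a8_lc.LLem
import Pool.Agent.Lib.MP_f4f1a8_lc.Prim
import Pool.Agent.Lib.MP_f4f1a8_lc.PCode
import Pool.Agent.Lib.MP_f4f1a8_lc.KR.Kept

/-! MP_f4f1a8_lc, row Tup: the tuples (x', y'_1, .., y'_k) with the distances and the bounds on M
of x, uniformly in k. The string of a tuple is List.replicate e true with
e = encode (x' :: y'_1 :: .. ), the parts are read off from decode of the length. The parameter
codes n, k, t, q and the packed d i, m i (digits dg t Kd i, dg t Km i, i in List.range k); the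
stages of exists_stage give: C w' <= q, and C z <= m i for all z of strs n with
ldist x' z <= d i. -/

namespace Pool.Agent.Lib.MP_f4f1a8_lc.KR

open Finset

namespace Tup

/-- the list coded by the length of a string -/
def gl (w : List Bool) : List (List Bool) := PC.D w.length

/-- the string of a tuple -/
def code {n k : ℕ} (t : (Fin n → Bool) × (Fin k → (Fin n → Bool))) : List Bool :=
  List.replicate (Encodable.encode
    (List.ofFn t.1 :: List.ofFn (fun i => List.ofFn (t.2 i)))) true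

lemma gl_code {n k : ℕ} (t : (Fin n → Bool) × (Fin k → (Fin n → Bool))) :
    gl (code t) = List.ofFn t.1 :: List.ofFn (fun i => List.ofFn (t.2 i)) := by
  simp only [gl, code, PC.D, List.length_replicate, Encodable.encodek, Option.getD_some]

lemma code_inj {n k : ℕ} : Function.Injective (code (n := n) (k := k)) := by
  intro t t' h
  have h1 : gl (code t) = gl (code t') := by rw [h]
  rw [gl_code, gl_code] at h1
  injection h1 with h2 h3
  refine Prod.ext (List.ofFn_injective h2) ?_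
  have h4 := List.ofFn_injective h3
  funext i
  exact List.ofFn_injective (congrFun h4 i)

/-- part number `i` -/
def prt (i : ℕ) (w : List Bool) : List Bool := ((gl w)[i]?).getD []

lemma prt_zero_code {n k : ℕ} (t : (Fin n → Bool) × (Fin k → (Fin n → Bool))) :
    prt 0 (code t) = List.ofFn t.1 := by
  simp [prt, gl_code]

lemma prt_succ_code {n k : ℕ} (t : (Fin n → Bool) × (Fin k → (Fin n → Bool))) (i : Fin k) :
    prt (i + 1) (code t) = List.ofFn (t.2 i) := by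
  simp [prt, gl_code]

/-- `w` codes a tuple of `k + 1` words of length `n` -/
def Is (k n : ℕ) (w : List Bool) : Prop :=
  ((∀ b ∈ w, b = true) ∧ w.length = Encodable.encode (gl w)) ∧
    (gl w).length = k + 1 ∧ ∀ z ∈ gl w, z.length = n

lemma is_code {n k : ℕ} (t : (Fin n → Bool) × (Fin k → (Fin n → Bool))) : Is k n (code t) := by
  refine ⟨⟨?_, ?_⟩, ?_, ?_⟩
  · intro b hb
    exact (List.mem_replicate.1 hb).2
  · rw [gl_code]; simp [code]
  · rw [gl_code]; simp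
  · intro z hz
    rw [gl_code, List.mem_cons] at hz
    rcases hz with rfl | hz
    · simp
    · rw [List.mem_ofFn] at hz
      obtain ⟨i, rfl⟩ := hz
      simp

lemma exists_code {n k : ℕ} {w : List Bool} (h : Is k n w) :
    ∃ t : (Fin n → Bool) × (Fin k → (Fin n → Bool)), w = code t := by
  obtain ⟨⟨h1, h2⟩, h3, h4⟩ := h
  have h5 : w = List.replicate w.length true := List.eq_replicate_of_mem h1
  rw [h2] at h5
  cases hg : gl w with
  | nil => rw [hg] at h3; simp at h3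
  | cons a l =>
    rw [hg] at h3 h4 h5
    have h6 : l.length = k := by simpa using h3
    obtain ⟨x, hx⟩ := PC.exists_ofFn a (h4 a (by simp))
    obtain ⟨y, hy⟩ := PC.exists_ofFn₂ l h6 (fun c hc => h4 c (by simp [hc]))
    refine ⟨(x, y), ?_⟩
    rw [h5, hx, hy]
    rfl

lemma primrec_gl : Primrec gl := PC.primrec_D.comp Primrec.list_length

lemma primrec_prt : Primrec₂ prt :=
  Primrec.option_getD.comp
    (Primrec.list_getElem?.comp (primrec_gl.comp Primrec.snd) Primrec.fst) (Primrec.const [])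

lemma primrec_is : PrimrecPred (fun a : (ℕ × ℕ) × List Bool => Is a.1.1 a.1.2 a.2) := by
  have h1 : PrimrecRel (fun (b : Bool) (_ : ℕ) => b = true) :=
    Primrec.eq.comp Primrec.fst (Primrec.const true)
  have h2 : PrimrecPred (fun a : (ℕ × ℕ) × List Bool => ∀ b ∈ a.2, b = true) :=
    h1.forall_mem_list.comp Primrec.snd (Primrec.const 0)
  have h3 : PrimrecPred (fun a : (ℕ × ℕ) × List Bool =>
      a.2.length = Encodable.encode (gl a.2)) :=
    Primrec.eq.comp (Primrec.list_length.comp Primrec.snd)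
      (Primrec.encode.comp (primrec_gl.comp Primrec.snd))
  have h4 : PrimrecPred (fun a : (ℕ × ℕ) × List Bool => (gl a.2).length = a.1.1 + 1) :=
    Primrec.eq.comp (Primrec.list_length.comp (primrec_gl.comp Primrec.snd))
      (Primrec.succ.comp (Primrec.fst.comp Primrec.fst))
  have h5 : PrimrecRel (fun (z : List Bool) (n : ℕ) => z.length = n) :=
    Primrec.eq.comp (Primrec.list_length.comp Primrec.fst) Primrec.snd
  have h6 : PrimrecPred (fun a : (ℕ × ℕ) × List Bool => ∀ z ∈ gl a.2, z.length = a.1.2) :=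
    h5.forall_mem_list.comp (primrec_gl.comp Primrec.snd) (Primrec.snd.comp Primrec.fst)
  exact (h2.and h3).and (h4.and h6)

/-- the parts of the parameter -/
def pn (p : ℕ) : ℕ := p.unpair.1
def p1 (p : ℕ) : ℕ := p.unpair.2
def pk (p : ℕ) : ℕ := (p1 p).unpair.1
def p2 (p : ℕ) : ℕ := (p1 p).unpair.2
def pt (p : ℕ) : ℕ := (p2 p).unpair.1
def p3 (p : ℕ) : ℕ := (p2 p).unpair.2
def pq (p : ℕ) : ℕ := (p3 p).unpair.1
def p4 (p : ℕ) : ℕ := (p3 p).unpair.2
def pd (p : ℕ) : ℕ := (p4 p).unpair.1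
def pm (p : ℕ) : ℕ := (p4 p).unpair.2

lemma primrec_pn : Primrec pn := Primrec.fst.comp Primrec.unpair
lemma primrec_p1 : Primrec p1 := Primrec.snd.comp Primrec.unpair
lemma primrec_pk : Primrec pk := Primrec.fst.comp (Primrec.unpair.comp primrec_p1)
lemma primrec_p2 : Primrec p2 := Primrec.snd.comp (Primrec.unpair.comp primrec_p1)
lemma primrec_pt : Primrec pt := Primrec.fst.comp (Primrec.unpair.comp primrec_p2)
lemma primrec_p3 : Primrec p3 := Primrec.snd.comp (Primrec.unpair.comp primrec_p2)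
lemma primrec_pq : Primrec pq := Primrec.fst.comp (Primrec.unpair.comp primrec_p3)
lemma primrec_p4 : Primrec p4 := Primrec.snd.comp (Primrec.unpair.comp primrec_p3)
lemma primrec_pd : Primrec pd := Primrec.fst.comp (Primrec.unpair.comp primrec_p4)
lemma primrec_pm : Primrec pm := Primrec.snd.comp (Primrec.unpair.comp primrec_p4)

/-- the parameter -/
def mkp (n k t q Kd Km : ℕ) : ℕ :=
  Nat.pair n (Nat.pair k (Nat.pair t (Nat.pair q (Nat.pair Kd Km))))

lemma pn_mk (n k t q Kd Km : ℕ) : pn (mkp n k t q Kd Km) = n := by simp [pn, mkp]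
lemma pk_mk (n k t q Kd Km : ℕ) : pk (mkp n k t q Kd Km) = k := by simp [pk, p1, mkp]
lemma pt_mk (n k t q Kd Km : ℕ) : pt (mkp n k t q Kd Km) = t := by simp [pt, p2, p1, mkp]
lemma pq_mk (n k t q Kd Km : ℕ) : pq (mkp n k t q Kd Km) = q := by
  simp [pq, p3, p2, p1, mkp]
lemma pd_mk (n k t q Kd Km : ℕ) : pd (mkp n k t q Kd Km) = Kd := by
  simp [pd, p4, p3, p2, p1, mkp]
lemma pm_mk (n k t q Kd Km : ℕ) : pm (mkp n k t q Kd Km) = Km := by
  simp [pm, p4, p3, p2, p1, mkp]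

attribute [local irreducible] pn p1 pk p2 pt p3 pq p4 pd pm dg

/-- the radii coded by the parameter -/
def rd (p i : ℕ) : ℕ := dg (pt p) (pd p) i

/-- the bounds coded by the parameter -/
def bd (p i : ℕ) : ℕ := dg (pt p) (pm p) i

lemma rd_eq (p i : ℕ) : rd p i = dg (pt p) (pd p) i := rfl
lemma bd_eq (p i : ℕ) : bd p i = dg (pt p) (pm p) i := rfl

lemma primrec_rd : Primrec₂ rd := by
  have h : Primrec (fun a : ℕ × ℕ => (pt a.1, pd a.1, a.2)) :=
    Primrec.pair (primrec_pt.comp Primrec.fst)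
      (Primrec.pair (primrec_pd.comp Primrec.fst) Primrec.snd)
  have h2 : Primrec (fun a : ℕ × ℕ => dg (pt a.1) (pd a.1) a.2) := primrec_dg.comp h
  exact h2

lemma primrec_bd : Primrec₂ bd := by
  have h : Primrec (fun a : ℕ × ℕ => (pt a.1, pm a.1, a.2)) :=
    Primrec.pair (primrec_pt.comp Primrec.fst)
      (Primrec.pair (primrec_pm.comp Primrec.fst) Primrec.snd)
  have h2 : Primrec (fun a : ℕ × ℕ => dg (pt a.1) (pm a.1) a.2) := primrec_dg.comp h
  exact h2

attribute [local irreducible] rd bd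

/-- the relation enumerated -/
def Q (E : ℕ → List Bool → ℕ → Prop) (p : ℕ) (w : List Bool) (r : ℕ) : Prop :=
  (Is (pk p) (pn p) w ∧ E (pq p) w r) ∧
    ∀ i ∈ List.range (pk p), ldist (prt 0 w) (prt (i + 1) w) ≤ rd p i ∧
      ∀ z ∈ strs (pn p), ¬ ldist (prt 0 w) z ≤ rd p i ∨ E (bd p i) z r

lemma primrec_Q {E : ℕ → List Bool → ℕ → Prop}
    (hE : PrimrecPred (fun a : ℕ × List Bool × ℕ => E a.1 a.2.1 a.2.2)) :
    PrimrecPred (fun a : ℕ × List Bool × ℕ => Q E a.1 a.2.1 a.2.2) := by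
  have h1 : PrimrecPred (fun a : ℕ × List Bool × ℕ => Is (pk a.1) (pn a.1) a.2.1) :=
    primrec_is.comp (Primrec.pair (Primrec.pair (primrec_pk.comp Primrec.fst)
      (primrec_pn.comp Primrec.fst)) (Primrec.fst.comp Primrec.snd))
  have h2 : PrimrecPred (fun a : ℕ × List Bool × ℕ => E (pq a.1) a.2.1 a.2.2) :=
    hE.comp (Primrec.pair (primrec_pq.comp Primrec.fst) Primrec.snd)
  -- `b = (z, i, p, w, r)`
  have z5 : Primrec (fun b : List Bool × ℕ × ℕ × List Bool × ℕ => b.1) := Primrec.fst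
  have i5 : Primrec (fun b : List Bool × ℕ × ℕ × List Bool × ℕ => b.2.1) :=
    Primrec.fst.comp Primrec.snd
  have p5 : Primrec (fun b : List Bool × ℕ × ℕ × List Bool × ℕ => b.2.2.1) :=
    Primrec.fst.comp (Primrec.snd.comp Primrec.snd)
  have w5 : Primrec (fun b : List Bool × ℕ × ℕ × List Bool × ℕ => b.2.2.2.1) :=
    Primrec.fst.comp (Primrec.snd.comp (Primrec.snd.comp Primrec.snd))
  have r5 : Primrec (fun b : List Bool × ℕ × ℕ × List Bool × ℕ => b.2.2.2.2) :=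
    Primrec.snd.comp (Primrec.snd.comp (Primrec.snd.comp Primrec.snd))
  have h3 : PrimrecRel (fun (z : List Bool) (b : ℕ × ℕ × List Bool × ℕ) =>
      ¬ ldist (prt 0 b.2.2.1) z ≤ rd b.2.1 b.1 ∨ E (bd b.2.1 b.1) z b.2.2.2) := by
    refine PrimrecPred.or (PrimrecPred.not ?_) ?_
    · exact Primrec.nat_le.comp (primrec_ldist.comp (primrec_prt.comp (Primrec.const 0) w5) z5)
        (primrec_rd.comp p5 i5)
    · exact hE.comp (Primrec.pair (primrec_bd.comp p5 i5) (Primrec.pair z5 r5))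
  have i4 : Primrec (fun b : ℕ × ℕ × List Bool × ℕ => b.1) := Primrec.fst
  have p4' : Primrec (fun b : ℕ × ℕ × List Bool × ℕ => b.2.1) := Primrec.fst.comp Primrec.snd
  have w4 : Primrec (fun b : ℕ × ℕ × List Bool × ℕ => b.2.2.1) :=
    Primrec.fst.comp (Primrec.snd.comp Primrec.snd)
  have h4 : PrimrecRel (fun (i : ℕ) (b : ℕ × List Bool × ℕ) =>
      ∀ z ∈ strs (pn b.1), ¬ ldist (prt 0 b.2.1) z ≤ rd b.1 i ∨ E (bd b.1 i) z b.2.2) :=
    h3.forall_mem_list.comp (primrec_strs.comp (primrec_pn.comp p4')) Primrec.id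
  have h5 : PrimrecRel (fun (i : ℕ) (b : ℕ × List Bool × ℕ) =>
      ldist (prt 0 b.2.1) (prt (i + 1) b.2.1) ≤ rd b.1 i) :=
    Primrec.nat_le.comp (primrec_ldist.comp (primrec_prt.comp (Primrec.const 0) w4)
      (primrec_prt.comp (Primrec.succ.comp i4) w4)) (primrec_rd.comp p4' i4)
  have h6 : PrimrecRel (fun (i : ℕ) (b : ℕ × List Bool × ℕ) =>
      ldist (prt 0 b.2.1) (prt (i + 1) b.2.1) ≤ rd b.1 i ∧
      ∀ z ∈ strs (pn b.1), ¬ ldist (prt 0 b.2.1) z ≤ rd b.1 i ∨ E (bd b.1 i) z b.2.2) :=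
    PrimrecPred.and h5 h4
  have h7 : PrimrecPred (fun b : ℕ × List Bool × ℕ => ∀ i ∈ List.range (pk b.1),
      ldist (prt 0 b.2.1) (prt (i + 1) b.2.1) ≤ rd b.1 i ∧
      ∀ z ∈ strs (pn b.1), ¬ ldist (prt 0 b.2.1) z ≤ rd b.1 i ∨ E (bd b.1 i) z b.2.2) :=
    h6.forall_mem_list.comp (Primrec.list_range.comp (primrec_pk.comp Primrec.fst)) Primrec.id
  exact (h1.and h2).and h7

lemma exists_all {α : Type*} (P : α → ℕ → Prop) (hm : ∀ a r r', r ≤ r' → P a r → P a r') :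
    ∀ l : List α, (∀ a ∈ l, ∃ r, P a r) → ∃ r, ∀ a ∈ l, P a r
  | [], _ => ⟨0, by simp⟩
  | a :: l, h => by
      obtain ⟨r, hr⟩ := exists_all P hm l (fun b hb => h b (by simp [hb]))
      obtain ⟨r', hr'⟩ := h a (by simp)
      refine ⟨max r r', fun b hb => ?_⟩
      rcases List.mem_cons.1 hb with rfl | hb
      · exact hm _ _ _ (le_max_right _ _) hr'
      · exact hm _ _ _ (le_max_left _ _) (hr b hb)

lemma length_strsLE (m : ℕ) : (strsLE m).length + 1 = 2 ^ (m + 1) := by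
  induction m with
  | zero => simp [strsLE]
  | succ m ih =>
    rw [pow_succ, ← ih]
    simp only [strsLE, List.length_cons, List.length_append, List.length_map]
    ring

open Classical in
/-- the strings of complexity at most `q` -/
lemma exists_simple {U : List Bool →. List Bool} (hU : Optimal U) (q : ℕ) :
    ∃ F : Finset (List Bool), (∀ y, C U y ≤ q → y ∈ F) ∧ F.card ≤ 2 ^ (q + 1) := by
  refine ⟨(strsLE q).toFinset.image (fun z => if h : (U z).Dom then (U z).get h else []),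
    ?_, ?_⟩
  · intro y hy
    obtain ⟨z, hz, hl⟩ := exists_program hU y
    rw [Finset.mem_image]
    refine ⟨z, List.mem_toFinset.2 (mem_strsLE.2 (by omega)), ?_⟩
    rw [dif_pos (Part.dom_iff_mem.2 ⟨y, hz⟩)]
    exact Part.get_eq_of_mem hz _
  · refine Finset.card_image_le.trans ((List.toFinset_card_le _).trans ?_)
    have := length_strsLE q
    omega

lemma t_bound {s c t k : ℕ} (ht : t = 2 * s + c + 20) (hk : k + 1 ≤ 2 ^ s + 1) :
    32 * (t * (k + 1)) < 2 ^ t := by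
  have h1 : t < 2 ^ (t - s - 6) := by
    have h2 : t ≤ 2 * (t - s - 7) := by omega
    have h3 : t - s - 7 + 1 ≤ 2 ^ (t - s - 7) := Nat.succ_le_of_lt Nat.lt_two_pow_self
    have h4 : t - s - 6 = (t - s - 7) + 1 := by omega
    rw [h4, pow_succ]
    omega
  have h5 : k + 1 ≤ 2 ^ (s + 1) := by
    have : 1 ≤ 2 ^ s := Nat.one_le_two_pow
    rw [pow_succ]
    omega
  have h6 : (2 : ℕ) ^ t = 32 * (2 ^ (t - s - 6) * 2 ^ (s + 1)) := by
    have h7 : t = 5 + ((t - s - 6) + (s + 1)) := by omega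
    have h8 : (2 : ℕ) ^ (5 + ((t - s - 6) + (s + 1))) =
        32 * (2 ^ (t - s - 6) * 2 ^ (s + 1)) := by
      rw [pow_add, pow_add]
      norm_num
    rw [← h8, ← h7]
  rw [h6]
  have h9 : t * (k + 1) < 2 ^ (t - s - 6) * 2 ^ (s + 1) :=
    calc t * (k + 1) ≤ t * 2 ^ (s + 1) := Nat.mul_le_mul_left _ h5
      _ < 2 ^ (t - s - 6) * 2 ^ (s + 1) := Nat.mul_lt_mul_of_pos_right h1 (by positivity)
  omega

lemma q_bound {n k s c q t c' : ℕ} (hn : n < 2 ^ s) (hk : k ≤ n + 1)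
    (hq : q ≤ n * (k + 1) + 2 * (2 * (s + 1)) + c) (ht : t = 2 * s + (c + c') + 20) :
    q < 2 ^ t := by
  have h1 : c < 2 ^ c := Nat.lt_two_pow_self
  have h2 : s < 2 ^ s := Nat.lt_two_pow_self
  have h3 : (2 : ℕ) ^ t = 2 ^ s * 2 ^ s * (2 ^ c * (2 ^ c' * 1048576)) := by
    rw [ht, show 2 * s + (c + c') + 20 = s + s + (c + (c' + 20)) by ring, pow_add, pow_add,
      pow_add, pow_add 2 c' 20]
    norm_num
  have h4 : 1 ≤ 2 ^ s := Nat.one_le_two_pow
  have h5 : 1 ≤ 2 ^ c' := Nat.one_le_two_pow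
  have h6 : n * (k + 1) ≤ 3 * (2 ^ s * 2 ^ s) := by
    have h7 : k + 1 ≤ 3 * 2 ^ s := by omega
    calc n * (k + 1) ≤ 2 ^ s * (3 * 2 ^ s) := Nat.mul_le_mul hn.le h7
      _ = 3 * (2 ^ s * 2 ^ s) := by ring
  have h8 : s + 1 ≤ 2 ^ s * 2 ^ s := by nlinarith
  have h9 : c ≤ c * (2 ^ s * 2 ^ s) := by nlinarith [Nat.zero_le c]
  have h10 : q ≤ (7 + c) * (2 ^ s * 2 ^ s) := by
    calc q ≤ n * (k + 1) + 2 * (2 * (s + 1)) + c := hq
      _ ≤ 3 * (2 ^ s * 2 ^ s) + 4 * (2 ^ s * 2 ^ s) + c * (2 ^ s * 2 ^ s) := by omega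
      _ = (7 + c) * (2 ^ s * 2 ^ s) := by ring
  have h11 : 7 + c < 2 ^ c * (2 ^ c' * 1048576) := by
    have h12 : 2 ^ c * 1048576 ≤ 2 ^ c * (2 ^ c' * 1048576) :=
      Nat.mul_le_mul_left _ (by omega)
    omega
  have h13 : 0 < 2 ^ s * 2 ^ s := by positivity
  calc q ≤ (7 + c) * (2 ^ s * 2 ^ s) := h10
    _ < (2 ^ c * (2 ^ c' * 1048576)) * (2 ^ s * 2 ^ s) := Nat.mul_lt_mul_of_pos_right h11 h13
    _ = 2 ^ t := by rw [h3]; ring

lemma fin_calc {M g q W cK S k s t B : ℕ} (hS : S = 32 * (t * (k + 1)))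
    (ht : t ≤ B * (s + 1)) (h1 : M + g = q + 2 + cK * (S + 1))
    (h2 : 2 ^ q ≤ W * 2 ^ (cK * (S + (k + 1) * (t + 1)))) :
    2 ^ (M + g) ≤ W * 2 ^ ((cK * (65 * B + 2) + 2) * (k + 1) * (s + 1)) := by
  have h3 : 2 * S + 1 + (k + 1) * (t + 1) ≤ (65 * B + 2) * ((k + 1) * (s + 1)) := by
    have h4 : (k + 1) * t ≤ (k + 1) * (B * (s + 1)) := Nat.mul_le_mul_left _ ht
    have h5 : 2 * S + 1 + (k + 1) * (t + 1) = 65 * ((k + 1) * t) + (k + 1) + 1 := by
      rw [hS]; ring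
    have h6 : (65 * B + 2) * ((k + 1) * (s + 1)) =
        65 * ((k + 1) * (B * (s + 1))) + 2 * ((k + 1) * (s + 1)) := by ring
    have h7 : k + 1 ≤ (k + 1) * (s + 1) := Nat.le_mul_of_pos_right _ (by omega)
    rw [h5, h6]
    omega
  have h8 : cK * (S + (k + 1) * (t + 1)) + (2 + cK * (S + 1)) ≤
      (cK * (65 * B + 2) + 2) * (k + 1) * (s + 1) := by
    have h9 := Nat.mul_le_mul_left cK h3
    have h10 : cK * (S + (k + 1) * (t + 1)) + (2 + cK * (S + 1)) =
        cK * (2 * S + 1 + (k + 1) * (t + 1)) + 2 := by ring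
    have h11 : (cK * (65 * B + 2) + 2) * (k + 1) * (s + 1) =
        cK * ((65 * B + 2) * ((k + 1) * (s + 1))) + 2 * ((k + 1) * (s + 1)) := by ring
    have h12 : 1 ≤ (k + 1) * (s + 1) := Nat.succ_le_of_lt (by positivity)
    rw [h10, h11]
    omega
  calc 2 ^ (M + g) = 2 ^ q * 2 ^ (2 + cK * (S + 1)) := by
        rw [h1, ← pow_add, add_assoc]
    _ ≤ (W * 2 ^ (cK * (S + (k + 1) * (t + 1)))) * 2 ^ (2 + cK * (S + 1)) :=
        Nat.mul_le_mul_right _ h2
    _ = W * 2 ^ (cK * (S + (k + 1) * (t + 1)) + (2 + cK * (S + 1))) := by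
        rw [mul_assoc, ← pow_add]
    _ ≤ W * 2 ^ ((cK * (65 * B + 2) + 2) * (k + 1) * (s + 1)) :=
        Nat.mul_le_mul_left _ (Nat.pow_le_pow_right (by norm_num) h8)

lemma pair_lt' {a b s : ℕ} (ha : a < 2 ^ s) (hb : b < 2 ^ s) : Nat.pair a b < 2 ^ (2 * s) :=
  PC.pair_lt ha hb

end Tup

open Tup

theorem tuples {U : List Bool →. List Bool} (hU : Optimal U) :
    ∃ c : ℕ, ∀ (n k s : ℕ) (d : Fin k → ℕ) (x : Fin n → Bool), n < 2 ^ s → k ≤ n + 1 →
      (∀ i, d i ≤ n) →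
      ∃ (g : Fin k → ℕ) (W : Finset ((Fin n → Bool) × (Fin k → (Fin n → Bool)))),
        W.Nonempty ∧
        (∀ w ∈ W, ∀ i, hammingDist w.1 (w.2 i) ≤ d i ∧ M U w.1 (d i) ≤ M U x (d i)) ∧
        (∀ (i : Fin k) (y : Fin n → Bool),
          (W.filter (fun w => w.2 i = y)).card ≤ 2 ^ g i) ∧
        ∀ i : Fin k, 2 ^ (M U x (d i) + g i) ≤ W.card * 2 ^ (c * (k + 1) * (s + 1)) := by
  classical
  obtain ⟨E, hE, hmono, hEC⟩ := exists_stage hU
  obtain ⟨c0, hc0⟩ := C_le_length hU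
  -- the simple bound of the complexity of all tuples
  have hIs : PrimrecPred (fun a : ℕ × List Bool × ℕ =>
      (fun p w (_ : ℕ) => Is (Nat.unpair p).2 (Nat.unpair p).1 w) a.1 a.2.1 a.2.2) :=
    primrec_is.comp (Primrec.pair (Primrec.pair
      (Primrec.snd.comp (Primrec.unpair.comp Primrec.fst))
      (Primrec.fst.comp (Primrec.unpair.comp Primrec.fst))) (Primrec.fst.comp Primrec.snd))
  obtain ⟨c1, hc1⟩ := description hU
    (fun p w (_ : ℕ) => Is (Nat.unpair p).2 (Nat.unpair p).1 w) hIs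
  obtain ⟨cK, hcK⟩ := kept hU (Tup.Q E) (primrec_Q hE) (fun a w => prt (a.unpair.2 + 1) w)
    (primrec_prt.comp (Primrec.succ.comp (Primrec.snd.comp (Primrec.unpair.comp Primrec.fst)))
      Primrec.snd)
  refine ⟨cK * (65 * (c1 + c0 + 22) + 2) + 2, ?_⟩
  intro n k s d x hn hk hd
  choose y hy hyC using fun i => exists_eq_M U x (d i)
  obtain ⟨w, hw⟩ : ∃ w : List Bool, w = code (x, y) := ⟨_, rfl⟩
  obtain ⟨q, hq⟩ : ∃ q : ℕ, q = C U w := ⟨_, rfl⟩
  obtain ⟨t, ht⟩ : ∃ t : ℕ, t = 2 * s + (c1 + c0) + 20 := ⟨_, rfl⟩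
  have hpow : ∀ a b : ℕ, a ≤ b → (2 : ℕ) ^ a ≤ 2 ^ b := fun a b h =>
    Nat.pow_le_pow_right (by norm_num) h
  -- bounds
  have hnt : n < 2 ^ t := lt_of_lt_of_le hn (hpow _ _ (by omega))
  have hks : k < 2 ^ (s + 1) := by
    have : 1 ≤ 2 ^ s := Nat.one_le_two_pow
    rw [pow_succ]; omega
  have hkt : k < 2 ^ t := lt_of_lt_of_le hks (hpow _ _ (by omega))
  have hmt : ∀ i, M U x (d i) < 2 ^ t := by
    intro i
    have h1 : M U x (d i) ≤ n + c0 := M_le (fun z _ => by simpa using hc0 (List.ofFn z))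
    have h2 : c0 < 2 ^ c0 := Nat.lt_two_pow_self
    have h3 : (2 : ℕ) ^ s * 2 ^ (c0 + 1) ≤ 2 ^ t := by
      rw [← pow_add]; exact hpow _ _ (by omega)
    have h4 : 1 ≤ 2 ^ s := Nat.one_le_two_pow
    have h5 : (2 : ℕ) ^ s * 2 ^ (c0 + 1) = 2 ^ s * 2 ^ c0 + 2 ^ s * 2 ^ c0 := by
      rw [pow_succ]; ring
    have h6 : 2 ^ s ≤ 2 ^ s * 2 ^ c0 := Nat.le_mul_of_pos_right _ (by positivity)
    have h7 : 2 ^ c0 ≤ 2 ^ s * 2 ^ c0 := Nat.le_mul_of_pos_left _ (by positivity)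
    omega
  have hqt : q < 2 ^ t := by
    have hpk : Nat.pair n k < 2 ^ (2 * (s + 1)) :=
      PC.pair_lt (lt_of_lt_of_le hn (hpow _ _ (by omega))) hks
    have h1 := hc1 (2 * (s + 1)) (n * (k + 1)) (Nat.pair n k) w ((Finset.univ :
      Finset ((Fin n → Bool) × (Fin k → (Fin n → Bool)))).image code) hpk
      ⟨0, by simp only [Nat.unpair_pair]; rw [hw]; exact is_code _⟩ ?_ ?_
    · exact q_bound hn hk (by rw [hq]; exact h1) ht
    · intro w' _ hw'
      simp only [Nat.unpair_pair] at hw'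
      obtain ⟨t', rfl⟩ := Tup.exists_code hw'
      exact Finset.mem_image_of_mem _ (Finset.mem_univ _)
    · refine Finset.card_image_le.trans (le_of_eq ?_)
      simp only [Finset.card_univ, Fintype.card_prod, Fintype.card_pi, Fintype.card_bool,
        Finset.prod_const, Fintype.card_fin]
      rw [← pow_mul, ← pow_add]
      have h7 : n + n * k = n * (k + 1) := by ring
      rw [h7]
  -- the parameter
  obtain ⟨Kd, hKd, hKd2⟩ := exists_pack k t d (fun i => lt_of_le_of_lt (hd i) hnt)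
  obtain ⟨Km, hKm, hKm2⟩ := exists_pack k t (fun i => M U x (d i)) hmt
  obtain ⟨S, hS⟩ : ∃ S : ℕ, S = 32 * (t * (k + 1)) := ⟨_, rfl⟩
  obtain ⟨p, hp⟩ : ∃ p : ℕ, p = mkp n k t q Kd Km := ⟨_, rfl⟩
  have htk : t ≤ t * (k + 1) := Nat.le_mul_of_pos_right _ (by omega)
  have htk2 : t * k ≤ t * (k + 1) := Nat.mul_le_mul_left _ (by omega)
  have hpS : p < 2 ^ S := by
    have b0 : Nat.pair Kd Km < 2 ^ (2 * (t * (k + 1))) :=
      PC.pair_lt (lt_of_lt_of_le hKd (hpow _ _ htk2)) (lt_of_lt_of_le hKm (hpow _ _ htk2))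
    have b1 : Nat.pair q (Nat.pair Kd Km) < 2 ^ (2 * (2 * (t * (k + 1)))) :=
      PC.pair_lt (lt_of_lt_of_le hqt (hpow _ _ (by omega))) b0
    have b2 : Nat.pair t (Nat.pair q (Nat.pair Kd Km)) < 2 ^ (2 * (2 * (2 * (t * (k + 1))))) :=
      PC.pair_lt (lt_of_lt_of_le Nat.lt_two_pow_self (hpow _ _ (by omega))) b1
    have b3 : Nat.pair k (Nat.pair t (Nat.pair q (Nat.pair Kd Km))) <
        2 ^ (2 * (2 * (2 * (2 * (t * (k + 1)))))) :=
      PC.pair_lt (lt_of_lt_of_le hkt (hpow _ _ (by omega))) b2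
    have b4 : Nat.pair n (Nat.pair k (Nat.pair t (Nat.pair q (Nat.pair Kd Km)))) <
        2 ^ (2 * (2 * (2 * (2 * (2 * (t * (k + 1))))))) :=
      PC.pair_lt (lt_of_lt_of_le hnt (hpow _ _ (by omega))) b3
    rw [hp, hS, mkp]
    exact lt_of_lt_of_le b4 (hpow _ _ (by omega))
  have hSt : S < 2 ^ t := by
    rw [hS]
    exact t_bound ht (by omega)
  have htS : t ≤ S := by rw [hS]; omega
  have e1 : pn p = n := by rw [hp]; exact pn_mk _ _ _ _ _ _
  have e2 : pk p = k := by rw [hp]; exact pk_mk _ _ _ _ _ _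
  have e3 : pt p = t := by rw [hp]; exact pt_mk _ _ _ _ _ _
  have e4 : pq p = q := by rw [hp]; exact pq_mk _ _ _ _ _ _
  have e5 : pd p = Kd := by rw [hp]; exact pd_mk _ _ _ _ _ _
  have e6 : pm p = Km := by rw [hp]; exact pm_mk _ _ _ _ _ _
  have hrd : ∀ i : Fin k, rd p i = d i := by
    intro i; rw [rd_eq, e3, e5]; exact hKd2 i
  have hbd : ∀ i : Fin k, bd p i = M U x (d i) := by
    intro i; rw [bd_eq, e3, e6]; exact hKm2 i
  have hQ : ∀ (w' : List Bool) (r : ℕ), Tup.Q E p w' r →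
      ∃ t' : (Fin n → Bool) × (Fin k → (Fin n → Bool)), w' = code t' ∧ C U w' ≤ q ∧
        ∀ i, hammingDist t'.1 (t'.2 i) ≤ d i ∧ M U t'.1 (d i) ≤ M U x (d i) := by
    rintro w' r ⟨⟨h1, h2⟩, h3⟩
    rw [e1, e2] at h1
    rw [e4] at h2
    obtain ⟨t', rfl⟩ := Tup.exists_code h1
    refine ⟨t', rfl, (hEC _ _).2 ⟨r, h2⟩, fun i => ?_⟩
    obtain ⟨h4, h5⟩ := h3 i (List.mem_range.2 (by rw [e2]; exact i.2))
    rw [prt_zero_code, hrd] at h4 h5
    rw [prt_succ_code, ldist_ofFn] at h4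
    refine ⟨h4, M_le fun z hz => ?_⟩
    rw [e1] at h5
    rcases h5 (List.ofFn z) (mem_strs.2 (by simp)) with h6 | h6
    · rw [ldist_ofFn] at h6
      exact absurd hz h6
    · rw [hbd] at h6
      exact (hEC _ _).2 ⟨r, h6⟩
  have hw0 : ∃ r, Tup.Q E p w r := by
    obtain ⟨r1, hr1⟩ := (hEC q w).1 (by rw [hq])
    obtain ⟨r2, hr2⟩ := exists_all (fun (a : Fin k × (Fin n → Bool)) r =>
        hammingDist x a.2 ≤ d a.1 → E (M U x (d a.1)) (List.ofFn a.2) r)
      (fun a r r' h h' h'' => hmono _ _ _ _ h (h' h''))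
      (Finset.univ : Finset (Fin k × (Fin n → Bool))).toList (fun a _ => by
        by_cases h : hammingDist x a.2 ≤ d a.1
        · obtain ⟨r, hr⟩ := (hEC _ _).1 (le_M (U := U) h)
          exact ⟨r, fun _ => hr⟩
        · exact ⟨0, fun h' => absurd h' h⟩)
    refine ⟨max r1 r2, ⟨?_, ?_⟩, ?_⟩
    · rw [e1, e2, hw]; exact is_code _
    · rw [e4]; exact hmono _ _ _ _ (le_max_left _ _) hr1
    · intro i hi
      rw [e2] at hi
      have hik := List.mem_range.1 hi
      have h1 := hrd ⟨i, hik⟩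
      have h2 := hbd ⟨i, hik⟩
      have hsucc := prt_succ_code (x, y) ⟨i, hik⟩
      simp only at h1 h2 hsucc
      rw [h1, h2, hw, hsucc, prt_zero_code, ldist_ofFn, e1]
      refine ⟨hy _, fun z hz => ?_⟩
      obtain ⟨z', rfl⟩ := PC.exists_ofFn z (mem_strs.1 hz)
      rw [ldist_ofFn]
      by_cases h : hammingDist x z' ≤ d ⟨i, hik⟩
      · right
        exact hmono _ _ _ _ (le_max_right _ _)
          (hr2 (⟨i, hik⟩, z') (Finset.mem_toList.2 (Finset.mem_univ _)) h)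
      · left; exact h
  obtain ⟨F, hF1, hF2⟩ := exists_simple hU q
  obtain ⟨g, W0, hW1, hW2, hW3, hW4⟩ := hcK k S t p q w F hpS hqt hkt hSt htS hw0
    (fun w' r h => by
      obtain ⟨t', -, h2, -⟩ := hQ w' r h
      exact hF1 _ h2) hF2 hq.symm
  obtain ⟨W, hWdef⟩ : ∃ W : Finset ((Fin n → Bool) × (Fin k → (Fin n → Bool))),
    W = Finset.univ.filter (fun t' => code t' ∈ W0) := ⟨_, rfl⟩
  have hWmem : ∀ t', t' ∈ W ↔ code t' ∈ W0 := by
    intro t'; rw [hWdef, Finset.mem_filter]; simp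
  have hWcard : W.card = W0.card := by
    have h1 : W.image code = W0 := by
      ext w'
      rw [Finset.mem_image]
      constructor
      · rintro ⟨t', ht', rfl⟩
        exact (hWmem _).1 ht'
      · intro h
        obtain ⟨r, hr⟩ := hW1 w' h
        obtain ⟨t', rfl, -, -⟩ := hQ w' r hr
        exact ⟨t', (hWmem _).2 h, rfl⟩
    rw [← h1, Finset.card_image_of_injective _ code_inj]
  refine ⟨g, W, ?_, ?_, ?_, ?_⟩
  · rw [← Finset.card_pos, hWcard]
    rcases Nat.eq_zero_or_pos W0.card with h | h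
    · rw [h, zero_mul] at hW3
      exact absurd hW3 (Nat.not_le.2 (by positivity))
    · exact h
  · intro t' ht' i
    have h1 := (hWmem _).1 ht'
    obtain ⟨r, hr⟩ := hW1 _ h1
    obtain ⟨t'', h2, -, h3⟩ := hQ _ r hr
    rw [code_inj h2]
    exact h3 i
  · intro i z
    refine le_trans ?_ (hW2 i (List.ofFn z))
    refine Finset.card_le_card_of_injOn code ?_ code_inj.injOn
    intro t' ht'
    have h1 := Finset.mem_filter.1 (Finset.mem_coe.1 ht')
    refine Finset.mem_coe.2 (Finset.mem_filter.2 ⟨(hWmem _).1 h1.1, ?_⟩)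
    rw [Nat.unpair_pair]
    rw [prt_succ_code, h1.2]
  · intro i
    have h1 := hW4 i
    have h2 : prt ((i : ℕ) + 1) w = List.ofFn (y i) := by rw [hw]; exact prt_succ_code (x, y) i
    simp only [Nat.unpair_pair, h2, hyC] at h1
    rw [hWcard]
    refine fin_calc hS ?_ h1 hW3
    rw [ht]
    nlinarith [Nat.zero_le ((c1 + c0) * s), Nat.zero_le s]

end Pool.Agent.Lib.MP_f4f1a8_lc.KR
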