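import Pool.Agent.Lib.MP_f4f1a8_lc.KR.Defs
import Pool.Agent.Lib.MP_f4f1a8_lc.KR.Tup
import Pool.Agent.Lib.MP_f4f1a8_lc.KR.Dyad

/-! MP_f4f1a8_lc, row Nec: the profile of M at k radii is robust (from tuples, dyad,
card_lt_of_C, NL_exists_s). -/

namespace Pool.Agent.Lib.MP_f4f1a8_lc.KR

open Finset

private theorem nec_aux {U : List Bool →. List Bool} (hU : Optimal U) :
    ∃ c : ℝ, 0 ≤ c ∧ ∀ n k : ℕ, 2 ≤ n → k ≤ n + 1 → ∀ d : Fin k → ℕ, (∀ i, d i ≤ n) →
      ∀ x : Fin n → Bool, Robust n k d (fun i => M U x (d i)) (c * (k + 1) * Real.log n) := by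
  classical
  obtain ⟨c, hc⟩ := tuples hU
  obtain ⟨cs, hcs0, hcs⟩ := NL_exists_s 0
  refine ⟨16 + c * cs + 2 * c, by positivity, ?_⟩
  intro n k hn hkn d hd x
  obtain ⟨s, hs, hs'⟩ := hcs n hn
  have hl1 := SelectAux.one_le_log hn
  have hl0 : 0 ≤ Real.log n := by linarith
  have hc0 : (0 : ℝ) ≤ c := Nat.cast_nonneg c
  have hk0 : (0 : ℝ) ≤ k := Nat.cast_nonneg k
  have hc1 : (c : ℝ) ≤ 2 * c * Real.log n := by nlinarith
  have hcs1 : (c : ℝ) * s ≤ c * cs * Real.log n := by nlinarith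
  have hp2 : 0 ≤ c * cs * Real.log n := by positivity
  have hp3 : 0 ≤ 2 * c * Real.log n := by positivity
  have hexp : (16 + c * cs + 2 * c) * (k + 1) * Real.log n =
      16 * Real.log n + 16 * k * Real.log n +
        (k + 1) * (c * cs * Real.log n + 2 * c * Real.log n) := by ring
  have hp4 : 0 ≤ 16 * (k : ℝ) * Real.log n := by positivity
  have hp5 : 0 ≤ ((k : ℝ) + 1) * (c * cs * Real.log n + 2 * c * Real.log n) := by positivity
  have hcsk : ((k : ℝ) + 1) * (c * s + c) ≤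
      (k + 1) * (c * cs * Real.log n + 2 * c * Real.log n) :=
    mul_le_mul_of_nonneg_left (by linarith) (by positivity)
  obtain ⟨g, W, hWne, hWd, hWf, hWc⟩ := hc n k s d x (by simpa using hs) hkn hd
  obtain ⟨A, hAne, hA1, hA2⟩ := dyad d g W hWne (fun w hw i => (hWd w hw i).1) hWf
  refine ⟨A, hAne, fun i => ⟨?_, ?_⟩⟩
  · -- the neighbourhood consists of simple points
    have h1 : (nbr A (d i)).card < 2 ^ (M U x (d i) + 1) := by
      apply card_lt_of_C hU
      intro y hy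
      obtain ⟨a, ha, hay⟩ := mem_nbr.mp hy
      obtain ⟨w, hw, rfl⟩ := hA1 a ha
      exact Nat.lt_succ_of_le ((le_M hay).trans (hWd w hw i).2)
    have hpos : 0 < (nbr A (d i)).card := by
      obtain ⟨a, ha⟩ := hAne
      exact Finset.card_pos.mpr ⟨a, mem_nbr.mpr ⟨a, ha, by simp⟩⟩
    have h2 := NL_logb_lt hpos h1
    rw [hexp]
    linarith
  · intro A' hA' hcard
    have h1 := hA2 i A' hA' hcard
    have h2 := hWc i
    have h3 : 2 ^ M U x (d i) ≤
        4 * (n + 1) * (k * n + 1) * (nbr A' (d i)).card * 2 ^ (c * (k + 1) * (s + 1)) := by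
      have h4 : 2 ^ M U x (d i) * 2 ^ g i ≤
          4 * (n + 1) * (k * n + 1) * (nbr A' (d i)).card * 2 ^ (c * (k + 1) * (s + 1)) *
            2 ^ g i := by
        calc 2 ^ M U x (d i) * 2 ^ g i = 2 ^ (M U x (d i) + g i) := (pow_add _ _ _).symm
          _ ≤ W.card * 2 ^ (c * (k + 1) * (s + 1)) := h2
          _ ≤ (4 * (n + 1) * (k * n + 1) * (2 ^ g i * (nbr A' (d i)).card)) *
              2 ^ (c * (k + 1) * (s + 1)) := Nat.mul_le_mul_right _ h1
          _ = 4 * (n + 1) * (k * n + 1) * (nbr A' (d i)).card *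
              2 ^ (c * (k + 1) * (s + 1)) * 2 ^ g i := by ring
      exact Nat.le_of_mul_le_mul_right h4 (by positivity)
    have hpos : 0 < (nbr A' (d i)).card := by
      rcases Nat.eq_zero_or_pos (nbr A' (d i)).card with h0 | h0
      · rw [h0, mul_zero, zero_mul] at h3
        exact absurd h3 (by have : 0 < 2 ^ M U x (d i) := by positivity
                            omega)
      · exact h0
    have hnbR : (0 : ℝ) < ((nbr A' (d i)).card : ℝ) := by exact_mod_cast hpos
    have hn0 : (0 : ℝ) ≤ n := Nat.cast_nonneg n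
    have hkn' : (k : ℝ) ≤ n + 1 := by exact_mod_cast hkn
    have h5 : (2 : ℝ) ^ M U x (d i) ≤
        2 ^ 2 * ((n : ℝ) + (1 : ℕ)) ^ 3 * (nbr A' (d i)).card *
          2 ^ (c * (k + 1) * (s + 1)) := by
      have h6 : (2 : ℝ) ^ M U x (d i) ≤
          4 * (n + 1) * (k * n + 1) * (nbr A' (d i)).card * 2 ^ (c * (k + 1) * (s + 1)) := by
        exact_mod_cast h3
      refine h6.trans ?_
      refine mul_le_mul_of_nonneg_right ?_ (by positivity)
      refine mul_le_mul_of_nonneg_right ?_ hnbR.le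
      have h7 : (k : ℝ) * n + 1 ≤ (n + 1) ^ 2 := by nlinarith
      have h8 : (0 : ℝ) ≤ 4 * (n + 1) := by positivity
      have h9 := mul_le_mul_of_nonneg_left h7 h8
      push_cast
      calc 4 * ((n : ℝ) + 1) * (k * n + 1) ≤ 4 * (n + 1) * (n + 1) ^ 2 := h9
        _ = 2 ^ 2 * (n + 1) ^ 3 := by ring
    have h7 := Real.logb_le_logb_of_le (b := 2) (by norm_num) (by positivity) h5
    have hn1 : (0 : ℝ) < (n : ℝ) + (1 : ℕ) := by positivity
    rw [Real.logb_mul (by positivity) (by positivity), Real.logb_mul (by positivity) hnbR.ne',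
      Real.logb_mul (by positivity) (by positivity), Real.logb_pow, Real.logb_pow,
      Real.logb_pow, Real.logb_pow, Real.logb_self_eq_one (by norm_num)] at h7
    have h8 := NL_logb_add hn 1
    have h80 : Real.logb 2 (((1 : ℕ) : ℝ) + 1) = 1 := by
      rw [show (((1 : ℕ) : ℝ) + 1) = 2 by norm_num]
      exact Real.logb_self_eq_one (by norm_num)
    rw [h80] at h8
    have h9 : (M U x (d i) : ℝ) ≤ 2 + 3 * ((2 + 2 * 1) * Real.log n) +
        Real.logb 2 (nbr A' (d i)).card + ((k : ℝ) + 1) * (c * s + c) := by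
      have h91 : ((c * (k + 1) * (s + 1) : ℕ) : ℝ) = ((k : ℝ) + 1) * (c * s + c) := by
        push_cast
        ring
      rw [h91] at h7
      push_cast at h7 h8
      linarith
    rw [hexp]
    linarith

theorem nec {U : List Bool →. List Bool} (hU : Optimal U) :
    ∃ c : ℝ, ∀ n k : ℕ, 2 ≤ n → k ≤ n + 1 → ∀ d : Fin k → ℕ, (∀ i, d i ≤ n) →
      ∀ x : Fin n → Bool, Robust n k d (fun i => M U x (d i)) (c * (k + 1) * Real.log n) := by
  obtain ⟨c, -, hc⟩ := nec_aux hU
  exact ⟨c, hc⟩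

/-- Every profile within `S` of the profile of a point is robust up to `S + O(k log n)`. -/
theorem nec_real {U : List Bool →. List Bool} (hU : Optimal U) :
    ∃ c : ℝ, 0 ≤ c ∧ ∀ n k : ℕ, 2 ≤ n → k ≤ n + 1 → ∀ d m : Fin k → ℕ, (∀ i, d i ≤ n) →
      ∀ (S : ℝ) (x : Fin n → Bool), (∀ i, |(M U x (d i) : ℝ) - m i| ≤ S) →
        Robust n k d m (S + c * (k + 1) * Real.log n) := by
  obtain ⟨c, hc0, hc⟩ := nec_aux hU
  refine ⟨c, hc0, ?_⟩
  intro n k hn hk d m hd S x hx
  obtain ⟨A, hA, h⟩ := hc n k hn hk d hd x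
  refine ⟨A, hA, fun i => ⟨?_, ?_⟩⟩
  · have h1 := (h i).1
    have h2 := (abs_le.mp (hx i)).2
    linarith
  · intro A' hA' hcard
    have h1 := (h i).2 A' hA' hcard
    have h2 := (abs_le.mp (hx i)).1
    linarith

end Pool.Agent.Lib.MP_f4f1a8_lc.KR
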