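import Pool.Agent.Lib.MP_f4f1a8_lc.Defs

/-! MP_f4f1a8_lc: robust neighbourhood profiles of sets in the cube. -/

namespace Pool.Agent.Lib.MP_f4f1a8_lc.KR

open Finset

/-- Up to `s` the numbers `m i` are the binary logarithms of the sizes of the
`d i`-neighbourhoods of some nonempty set `A` of the `n`-cube, and these sizes do not drop for
subsets of `A` with at least `|A| / (2 (n + 1))` elements. -/
def Robust (n k : ℕ) (d m : Fin k → ℕ) (s : ℝ) : Prop :=
  ∃ A : Finset (Fin n → Bool), A.Nonempty ∧ ∀ i,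
    Real.logb 2 (nbr A (d i)).card ≤ m i + s ∧
    ∀ A' ⊆ A, A.card ≤ 2 * (n + 1) * A'.card → (m i : ℝ) - s ≤ Real.logb 2 (nbr A' (d i)).card

/-- The same with natural numbers as bounds. -/
def RobN {n k : ℕ} (d u l : Fin k → ℕ) (A : Finset (Fin n → Bool)) : Prop :=
  A.Nonempty ∧ ∀ i, (nbr A (d i)).card ≤ 2 ^ u i ∧
    ∀ A' ⊆ A, A.card ≤ 2 * (n + 1) * A'.card → 2 ^ l i ≤ (nbr A' (d i)).card

end Pool.Agent.Lib.MP_f4f1a8_lc.KR
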