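import Mathlib

/-! MP_f4f1a8_lc, row Subs: the list of all sublists is primitive recursive. -/

namespace Pool.Agent.Lib.MP_f4f1a8_lc.KR

/-- all sublists -/
def subs (l : List (List Bool)) : List (List (List Bool)) :=
  l.foldr (fun a r => r ++ r.map (List.cons a)) [[]]

theorem primrec_subs : Primrec subs := by
  have hh : Primrec₂ (fun (_ : List (List Bool)) (p : List Bool × List (List (List Bool))) =>
      p.2 ++ p.2.map (List.cons p.1)) := by
    have h1 : Primrec fun q : List (List Bool) × (List Bool × List (List (List Bool))) =>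
        q.2.2 := Primrec.snd.comp Primrec.snd
    have h2 : Primrec fun q : List (List Bool) × (List Bool × List (List (List Bool))) =>
        q.2.2.map (List.cons q.2.1) := by
      refine Primrec.list_map h1 ?_
      exact Primrec.list_cons.comp (Primrec.fst.comp (Primrec.snd.comp Primrec.fst)) Primrec.snd
    exact Primrec.list_append.comp h1 h2
  exact (Primrec.list_foldr Primrec.id (Primrec.const [[]]) hh).of_eq fun l => rfl

theorem mem_subs {l l' : List (List Bool)} : l' ∈ subs l ↔ l'.Sublist l := by
  induction l generalizing l' with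
  | nil =>
    show l' ∈ [[]] ↔ _
    rw [List.mem_singleton, List.sublist_nil]
  | cons a l ih =>
    show l' ∈ subs l ++ (subs l).map (List.cons a) ↔ _
    rw [List.mem_append, List.mem_map, List.sublist_cons_iff, ih]
    constructor
    · rintro (h | ⟨r, hr, rfl⟩)
      · exact Or.inl h
      · exact Or.inr ⟨r, rfl, ih.1 hr⟩
    · rintro (h | ⟨r, rfl, hr⟩)
      · exact Or.inl h
      · exact Or.inr ⟨r, ih.2 hr, rfl⟩

end Pool.Agent.Lib.MP_f4f1a8_lc.KR
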