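import Pool.Agent.Lib.MP_f4f1a8_lc.NC.TDescr
import Pool.Agent.Lib.MP_f4f1a8_lc.KR.Defs
import Pool.Agent.Lib.MP_f4f1a8_lc.KR.Subs

/-! MP_f4f1a8_lc, row SuffA: the first set with a given robust profile (as in NC/TDescr.lean,
with the property RobN instead of linearity). -/

namespace Pool.Agent.Lib.MP_f4f1a8_lc.KR

open Finset NC.TD

namespace SA

/-- the digit number `i` of `K` in base `b` -/
def dig (b K i : ℕ) : ℕ := K / b ^ i % b

lemma sa_pack : ∀ (k b : ℕ) (f : Fin k → ℕ), (∀ i, f i < b) →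
    ∃ K < b ^ k, ∀ i : Fin k, dig b K i = f i
  | 0, b, f, _ => ⟨0, by simp, fun i => i.elim0⟩
  | k + 1, b, f, hf => by
    obtain ⟨K, hK, h⟩ := sa_pack k b (fun i => f i.succ) (fun i => hf i.succ)
    have hb : 0 < b := lt_of_le_of_lt (Nat.zero_le _) (hf 0)
    refine ⟨f 0 + b * K, ?_, ?_⟩
    · rw [pow_succ]
      have h0 := hf 0
      calc f 0 + b * K < b + b * K := by omega
        _ = b * (K + 1) := by ring
        _ ≤ b * b ^ k := Nat.mul_le_mul_left _ hK
        _ = b ^ k * b := by ring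
    · intro i
      refine Fin.cases ?_ ?_ i
      · unfold dig
        simp [Nat.mod_eq_of_lt (hf 0)]
      · intro j
        have hj := h j
        unfold dig at hj ⊢
        rw [Fin.val_succ, pow_succ, mul_comm (b ^ (j : ℕ)) b, ← Nat.div_div_eq_div_mul]
        have h1 : (f 0 + b * K) / b = K := by
          rw [Nat.add_mul_div_left _ _ hb, Nat.div_eq_of_lt (hf 0), zero_add]
        rw [h1, hj]

/-- the parameters `((n, k), ((b, Kd), (Ku, Kl)))` -/
abbrev P6 := (ℕ × ℕ) × ((ℕ × ℕ) × (ℕ × ℕ))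

/-- `T` lists a set, and `A'` is a small part of it or has a large neighbourhood -/
def R1 (A' : List (List Bool)) (T : List (List Bool)) (n e f : ℕ) : Prop :=
  (¬ nc n T 0 ≤ 2 * (n + 1) * nc n A' 0) ∨ 2 ^ f ≤ nc n A' e

/-- the condition at one radius -/
def R2 (T : List (List Bool)) (n e g f : ℕ) : Prop :=
  nc n T e ≤ 2 ^ g ∧ ∀ A' ∈ subs T, R1 A' T n e f

/-- `T` lists a set with the profile `a` -/
def Good (a : P6) (T : List (List Bool)) : Prop :=
  (T.length ≠ 0 ∧ ∀ c ∈ T, c.length = a.1.1) ∧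
    ∀ i ∈ List.range a.1.2, R2 T a.1.1 (dig a.2.1.1 a.2.1.2 i) (dig a.2.1.1 a.2.2.1 i)
      (dig a.2.1.1 a.2.2.2 i)

/-- the parameters from their code -/
@[irreducible] def par (p : ℕ) : P6 :=
  ((p.unpair.1.unpair.1, p.unpair.1.unpair.2),
    ((p.unpair.2.unpair.1.unpair.1, p.unpair.2.unpair.1.unpair.2),
      (p.unpair.2.unpair.2.unpair.1, p.unpair.2.unpair.2.unpair.2)))

lemma par_pair (a b c d e f : ℕ) :
    par (Nat.pair (Nat.pair a b) (Nat.pair (Nat.pair c d) (Nat.pair e f))) =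
      ((a, b), ((c, d), (e, f))) := by
  unfold par
  simp

/-- the first component of a pair -/
@[irreducible] def q1 (p : ℕ) : ℕ := p.unpair.1
/-- the second component of a pair -/
@[irreducible] def q2 (p : ℕ) : ℕ := p.unpair.2
lemma q1_pair (a b : ℕ) : q1 (Nat.pair a b) = a := by unfold q1; simp
lemma q2_pair (a b : ℕ) : q2 (Nat.pair a b) = b := by unfold q2; simp
lemma primrec_q1 : Primrec q1 := (Primrec.fst.comp Primrec.unpair).of_eq fun p => by
  unfold q1; rfl
lemma primrec_q2 : Primrec q2 := (Primrec.snd.comp Primrec.unpair).of_eq fun p => by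
  unfold q2; rfl

lemma primrec_par : Primrec par := by
  have h : Primrec (fun p : ℕ => (((q1 (q1 p), q2 (q1 p)),
      ((q1 (q1 (q2 p)), q2 (q1 (q2 p))), (q1 (q2 (q2 p)), q2 (q2 (q2 p))))) : P6)) :=
    Primrec.pair (Primrec.pair (primrec_q1.comp primrec_q1) (primrec_q2.comp primrec_q1))
      (Primrec.pair (Primrec.pair (primrec_q1.comp (primrec_q1.comp primrec_q2))
        (primrec_q2.comp (primrec_q1.comp primrec_q2)))
        (Primrec.pair (primrec_q1.comp (primrec_q2.comp primrec_q2))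
          (primrec_q2.comp (primrec_q2.comp primrec_q2))))
  refine h.of_eq fun p => ?_
  unfold par q1 q2
  rfl

/-- the relation enumerated -/
def QR (p : ℕ) (y : List Bool) (r : ℕ) : Prop :=
  y.length = (par (q1 p)).1.1 ∧ Good (par (q1 p)) (PC.D r) ∧
    (∀ r' ∈ List.range r, ¬ Good (par (q1 p)) (PC.D r')) ∧
    ∃ c ∈ PC.D r, ldist c y ≤ q2 p

lemma primrec_dig : Primrec (fun a : ℕ × ℕ × ℕ => dig a.1 a.2.1 a.2.2) :=
  Primrec.nat_mod.comp (Primrec.nat_div.comp (Primrec.fst.comp Primrec.snd)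
    (Descr.primrec_pow.comp Primrec.fst (Primrec.snd.comp Primrec.snd))) Primrec.fst

lemma primrec_R1 : PrimrecRel (fun (A' : List (List Bool)) (b : List (List Bool) × ℕ × ℕ × ℕ) =>
    R1 A' b.1 b.2.1 b.2.2.1 b.2.2.2) := by
  have hA : Primrec (fun a : List (List Bool) × List (List Bool) × ℕ × ℕ × ℕ => a.1) :=
    Primrec.fst
  have hT : Primrec (fun a : List (List Bool) × List (List Bool) × ℕ × ℕ × ℕ => a.2.1) :=
    Primrec.fst.comp Primrec.snd
  have hn : Primrec (fun a : List (List Bool) × List (List Bool) × ℕ × ℕ × ℕ => a.2.2.1) :=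
    Primrec.fst.comp (Primrec.snd.comp Primrec.snd)
  have he : Primrec (fun a : List (List Bool) × List (List Bool) × ℕ × ℕ × ℕ => a.2.2.2.1) :=
    Primrec.fst.comp (Primrec.snd.comp (Primrec.snd.comp Primrec.snd))
  have hf : Primrec (fun a : List (List Bool) × List (List Bool) × ℕ × ℕ × ℕ => a.2.2.2.2) :=
    Primrec.snd.comp (Primrec.snd.comp (Primrec.snd.comp Primrec.snd))
  have h1 : Primrec (fun a : List (List Bool) × List (List Bool) × ℕ × ℕ × ℕ =>
      nc a.2.2.1 a.2.1 0) := primrec_nc.comp (hn.pair (hT.pair (Primrec.const 0)))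
  have h2 : Primrec (fun a : List (List Bool) × List (List Bool) × ℕ × ℕ × ℕ =>
      2 * (a.2.2.1 + 1) * nc a.2.2.1 a.1 0) :=
    Primrec.nat_mul.comp (Primrec.nat_mul.comp (Primrec.const 2) (Primrec.succ.comp hn))
      (primrec_nc.comp (hn.pair (hA.pair (Primrec.const 0))))
  have h3 : Primrec (fun a : List (List Bool) × List (List Bool) × ℕ × ℕ × ℕ =>
      nc a.2.2.1 a.1 a.2.2.2.1) := primrec_nc.comp (hn.pair (hA.pair he))
  exact ((Primrec.nat_le.comp h1 h2).not).or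
    (Primrec.nat_le.comp (PC.primrec_two_pow.comp hf) h3)

lemma primrec_R2 : PrimrecPred (fun b : List (List Bool) × ℕ × ℕ × ℕ × ℕ =>
    R2 b.1 b.2.1 b.2.2.1 b.2.2.2.1 b.2.2.2.2) := by
  have hT : Primrec (fun a : List (List Bool) × ℕ × ℕ × ℕ × ℕ => a.1) := Primrec.fst
  have hn : Primrec (fun a : List (List Bool) × ℕ × ℕ × ℕ × ℕ => a.2.1) :=
    Primrec.fst.comp Primrec.snd
  have he : Primrec (fun a : List (List Bool) × ℕ × ℕ × ℕ × ℕ => a.2.2.1) :=
    Primrec.fst.comp (Primrec.snd.comp Primrec.snd)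
  have hg : Primrec (fun a : List (List Bool) × ℕ × ℕ × ℕ × ℕ => a.2.2.2.1) :=
    Primrec.fst.comp (Primrec.snd.comp (Primrec.snd.comp Primrec.snd))
  have hf : Primrec (fun a : List (List Bool) × ℕ × ℕ × ℕ × ℕ => a.2.2.2.2) :=
    Primrec.snd.comp (Primrec.snd.comp (Primrec.snd.comp Primrec.snd))
  have h1 : PrimrecPred (fun b : List (List Bool) × ℕ × ℕ × ℕ × ℕ =>
      nc b.2.1 b.1 b.2.2.1 ≤ 2 ^ b.2.2.2.1) :=
    Primrec.nat_le.comp (primrec_nc.comp (hn.pair (hT.pair he)))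
      (PC.primrec_two_pow.comp hg)
  have h2 : PrimrecPred (fun b : List (List Bool) × ℕ × ℕ × ℕ × ℕ =>
      ∀ A' ∈ subs b.1, R1 A' b.1 b.2.1 b.2.2.1 b.2.2.2.2) :=
    primrec_R1.forall_mem_list.comp (primrec_subs.comp hT)
      (hT.pair (hn.pair (he.pair hf)))
  exact h1.and h2

lemma primrec_good : PrimrecPred (fun a : P6 × List (List Bool) => Good a.1 a.2) := by
  have hT : Primrec (fun a : P6 × List (List Bool) => a.2) := Primrec.snd
  have hn : Primrec (fun a : P6 × List (List Bool) => a.1.1.1) :=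
    Primrec.fst.comp (Primrec.fst.comp Primrec.fst)
  have hk : Primrec (fun a : P6 × List (List Bool) => a.1.1.2) :=
    Primrec.snd.comp (Primrec.fst.comp Primrec.fst)
  have h1 : PrimrecPred (fun a : P6 × List (List Bool) => a.2.length ≠ 0) :=
    (Primrec.eq.comp (Primrec.list_length.comp hT) (Primrec.const 0)).not
  have h2 : PrimrecPred (fun a : P6 × List (List Bool) => ∀ c ∈ a.2, c.length = a.1.1.1) := by
    have h : PrimrecRel (fun (c : List Bool) (n : ℕ) => c.length = n) :=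
      Primrec.eq.comp₂ (Primrec.list_length.comp₂ Primrec₂.left) Primrec₂.right
    exact h.forall_mem_list.comp hT hn
  have h3 : PrimrecRel (fun (i : ℕ) (b : P6 × List (List Bool)) =>
      R2 b.2 b.1.1.1 (dig b.1.2.1.1 b.1.2.1.2 i) (dig b.1.2.1.1 b.1.2.2.1 i)
        (dig b.1.2.1.1 b.1.2.2.2 i)) := by
    have hi : Primrec (fun c : ℕ × (P6 × List (List Bool)) => c.1) := Primrec.fst
    have hT : Primrec (fun c : ℕ × (P6 × List (List Bool)) => c.2.2) :=
      Primrec.snd.comp Primrec.snd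
    have hP : Primrec (fun c : ℕ × (P6 × List (List Bool)) => c.2.1) :=
      Primrec.fst.comp Primrec.snd
    have hn : Primrec (fun c : ℕ × (P6 × List (List Bool)) => c.2.1.1.1) :=
      Primrec.fst.comp (Primrec.fst.comp hP)
    have hb : Primrec (fun c : ℕ × (P6 × List (List Bool)) => c.2.1.2.1.1) :=
      Primrec.fst.comp (Primrec.fst.comp (Primrec.snd.comp hP))
    have hd : Primrec (fun c : ℕ × (P6 × List (List Bool)) => c.2.1.2.1.2) :=
      Primrec.snd.comp (Primrec.fst.comp (Primrec.snd.comp hP))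
    have hu : Primrec (fun c : ℕ × (P6 × List (List Bool)) => c.2.1.2.2.1) :=
      Primrec.fst.comp (Primrec.snd.comp (Primrec.snd.comp hP))
    have hl : Primrec (fun c : ℕ × (P6 × List (List Bool)) => c.2.1.2.2.2) :=
      Primrec.snd.comp (Primrec.snd.comp (Primrec.snd.comp hP))
    exact primrec_R2.comp (hT.pair (hn.pair ((primrec_dig.comp (hb.pair (hd.pair hi))).pair
      ((primrec_dig.comp (hb.pair (hu.pair hi))).pair
        (primrec_dig.comp (hb.pair (hl.pair hi)))))))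
  have h4 : PrimrecPred (fun a : P6 × List (List Bool) =>
      ∀ i ∈ List.range a.1.1.2, R2 a.2 a.1.1.1 (dig a.1.2.1.1 a.1.2.1.2 i)
        (dig a.1.2.1.1 a.1.2.2.1 i) (dig a.1.2.1.1 a.1.2.2.2 i)) :=
    h3.forall_mem_list.comp (Primrec.list_range.comp hk) Primrec.id
  exact (h1.and h2).and h4

lemma primrec_QR : PrimrecPred (fun a : ℕ × List Bool × ℕ => QR a.1 a.2.1 a.2.2) := by
  have hp : Primrec (fun a : ℕ × List Bool × ℕ => par (q1 a.1)) :=
    primrec_par.comp (primrec_q1.comp Primrec.fst)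
  have hj : Primrec (fun a : ℕ × List Bool × ℕ => q2 a.1) := primrec_q2.comp Primrec.fst
  have hy : Primrec (fun a : ℕ × List Bool × ℕ => a.2.1) := Primrec.fst.comp Primrec.snd
  have hk : Primrec (fun a : ℕ × List Bool × ℕ => a.2.2) := Primrec.snd.comp Primrec.snd
  have h1 : PrimrecPred (fun a : ℕ × List Bool × ℕ => a.2.1.length = (par (q1 a.1)).1.1) :=
    Primrec.eq.comp (Primrec.list_length.comp hy) (Primrec.fst.comp (Primrec.fst.comp hp))
  have h2 : PrimrecPred (fun a : ℕ × List Bool × ℕ => Good (par (q1 a.1)) (PC.D a.2.2)) :=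
    primrec_good.comp (Primrec.pair hp (PC.primrec_D.comp hk))
  have h3 : PrimrecRel (fun (r : ℕ) (b : P6) => ¬ Good b (PC.D r)) :=
    (primrec_good.comp (Primrec.pair Primrec.snd (PC.primrec_D.comp Primrec.fst))).not
  have h4 : PrimrecPred (fun a : ℕ × List Bool × ℕ =>
      ∀ r' ∈ List.range a.2.2, ¬ Good (par (q1 a.1)) (PC.D r')) :=
    h3.forall_mem_list.comp (Primrec.list_range.comp hk) hp
  have h6 : PrimrecPred (fun a : ℕ × List Bool × ℕ =>
      ∃ c ∈ PC.D a.2.2, ldist c a.2.1 ≤ q2 a.1) :=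
    primrec_near.comp hy ((PC.primrec_D.comp hk).pair hj)
  exact h1.and (h2.and (h4.and h6))

lemma nbr_zero {n : ℕ} (S : Finset (Fin n → Bool)) : nbr S 0 = S := by
  ext y
  rw [mem_nbr]
  constructor
  · rintro ⟨x, hx, h⟩
    have h0 : hammingDist x y = 0 := Nat.le_zero.1 h
    rw [hammingDist_eq_zero] at h0
    rw [← h0]
    exact hx
  · intro hy
    exact ⟨y, hy, by simp⟩

/-- a list with the profile lists a set with the profile -/
lemma good_iff {n k b Kd Ku Kl : ℕ} {T : List (List Bool)} (d u l : Fin k → ℕ)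
    (hd : ∀ i : Fin k, dig b Kd i = d i) (hu : ∀ i : Fin k, dig b Ku i = u i)
    (hl : ∀ i : Fin k, dig b Kl i = l i) (hT : ∀ c ∈ T, c.length = n) :
    Good ((n, k), ((b, Kd), (Ku, Kl))) T ↔ RobN d u l (fs n T) := by
  have hsub : ∀ A' : List (List Bool), A' ∈ subs T → ∀ c ∈ A', c.length = n := by
    intro A' hA' c hc
    exact hT c ((mem_subs.1 hA').subset hc)
  have hne : T.length ≠ 0 ↔ (fs n T).Nonempty := by
    constructor
    · intro h
      obtain ⟨a, ha⟩ : ∃ a, a ∈ T := by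
        rcases T with - | ⟨a, T'⟩
        · simp at h
        · exact ⟨a, List.mem_cons_self⟩
      obtain ⟨x, rfl⟩ := PC.exists_ofFn a (hT a ha)
      exact ⟨x, mem_fs.2 ha⟩
    · rintro ⟨x, hx⟩ h
      rw [List.length_eq_zero_iff] at h
      have := mem_fs.1 hx
      rw [h] at this
      simp at this
  unfold Good RobN
  simp only
  rw [hne]
  constructor
  · rintro ⟨⟨h1, -⟩, h2⟩
    refine ⟨h1, fun i => ?_⟩
    have h3 := h2 i (List.mem_range.2 i.2)
    unfold R2 at h3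
    rw [hd, hu, hl, nc_eq hT] at h3
    refine ⟨h3.1, fun A' hA' hc => ?_⟩
    classical
    obtain ⟨B, hB⟩ : ∃ B, B = T.filter (fun c => decide (c ∈ A'.image List.ofFn)) := ⟨_, rfl⟩
    have hBs : B ∈ subs T := by
      rw [mem_subs, hB]
      exact List.filter_sublist
    have hBf : fs n B = A' := by
      ext x
      rw [mem_fs, hB, List.mem_filter, decide_eq_true_eq, Finset.mem_image]
      constructor
      · rintro ⟨-, y, hy, he⟩
        rw [← List.ofFn_injective he]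
        exact hy
      · intro hx
        exact ⟨mem_fs.1 (hA' hx), x, hx, rfl⟩
    have h4 := h3.2 B hBs
    unfold R1 at h4
    rw [nc_eq hT, nc_eq (hsub B hBs), nc_eq (hsub B hBs), hBf, nbr_zero, nbr_zero] at h4
    rcases h4 with h4 | h4
    · exact absurd hc h4
    · exact h4
  · rintro ⟨h1, h2⟩
    refine ⟨⟨h1, hT⟩, fun i hi => ?_⟩
    have h3 := h2 ⟨i, List.mem_range.1 hi⟩
    have hd' := hd ⟨i, List.mem_range.1 hi⟩
    have hu' := hu ⟨i, List.mem_range.1 hi⟩
    have hl' := hl ⟨i, List.mem_range.1 hi⟩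
    simp only at hd' hu' hl'
    unfold R2
    rw [hd', hu', hl', nc_eq hT]
    refine ⟨h3.1, fun B hB => ?_⟩
    unfold R1
    rw [nc_eq hT, nc_eq (hsub B hB), nc_eq (hsub B hB), nbr_zero, nbr_zero]
    by_cases hc : (fs n T).card ≤ 2 * (n + 1) * (fs n B).card
    · right
      refine h3.2 (fs n B) ?_ hc
      intro x hx
      exact mem_fs.2 ((mem_subs.1 hB).subset (mem_fs.1 hx))
    · left
      exact hc

end SA

open SA in
theorem descr_rob {U : List Bool →. List Bool} (hU : Optimal U) :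
    ∃ c : ℕ, ∀ (n k s : ℕ) (d u l : Fin k → ℕ) (A : Finset (Fin n → Bool)),
      n < 2 ^ s → k < 2 ^ s → (∀ i, d i < 2 ^ s ∧ u i < 2 ^ s ∧ l i < 2 ^ s) → RobN d u l A →
      ∃ T : Finset (Fin n → Bool), RobN d u l T ∧
        ∀ i, ∀ y ∈ nbr T (d i), C U (List.ofFn y) ≤ u i + c * (k + 1) * (s + 1) := by
  classical
  obtain ⟨c, hc⟩ := description hU QR primrec_QR
  refine ⟨32 + c, fun n k s d u l A hn _ hs hA => ?_⟩
  obtain ⟨Kd, hKd, hd⟩ := sa_pack k (2 ^ s) d (fun i => (hs i).1)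
  obtain ⟨Ku, hKu, hu⟩ := sa_pack k (2 ^ s) u (fun i => (hs i).2.1)
  obtain ⟨Kl, hKl, hl⟩ := sa_pack k (2 ^ s) l (fun i => (hs i).2.2)
  obtain ⟨p, hp⟩ : ∃ p, p = Nat.pair (Nat.pair n k)
    (Nat.pair (Nat.pair (2 ^ s) Kd) (Nat.pair Ku Kl)) := ⟨_, rfl⟩
  have hpar : par p = ((n, k), ((2 ^ s, Kd), (Ku, Kl))) := by rw [hp, par_pair]
  have hex : ∃ r, Good (par p) (PC.D r) := by
    refine ⟨Encodable.encode (A.toList.map List.ofFn), ?_⟩
    unfold PC.D
    rw [Encodable.encodek]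
    simp only [Option.getD_some]
    have hlen : ∀ c ∈ A.toList.map List.ofFn, c.length = n := by
      intro c hc
      rw [List.mem_map] at hc
      obtain ⟨x, -, rfl⟩ := hc
      exact List.length_ofFn
    rw [hpar, good_iff d u l hd hu hl hlen, fs_toList]
    exact hA
  set r₀ := Nat.find hex with hr₀
  have hgood : Good (par p) (PC.D r₀) := Nat.find_spec hex
  have hmin : ∀ r' ∈ List.range r₀, ¬ Good (par p) (PC.D r') := fun r' hr' =>
    Nat.find_min hex (List.mem_range.1 hr')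
  have hlen : ∀ c ∈ PC.D r₀, c.length = n := by
    have := hgood.1.2
    rw [hpar] at this
    exact this
  have hrob : RobN d u l (fs n (PC.D r₀)) := by
    rw [← good_iff d u l hd hu hl hlen, ← hpar]
    exact hgood
  refine ⟨fs n (PC.D r₀), hrob, fun i y hy => ?_⟩
  have hQ : ∀ (y' : List Bool) (r : ℕ), QR (Nat.pair p (d i)) y' r ↔
      (y'.length = n ∧ r = r₀ ∧ ∃ c ∈ PC.D r₀, ldist c y' ≤ d i) := by
    intro y' r
    unfold QR
    rw [q1_pair, q2_pair]
    have hpn : (par p).1.1 = n := by rw [hpar]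
    rw [hpn]
    constructor
    · rintro ⟨h1, h2, h3, h4⟩
      have hr : r = r₀ := by
        apply le_antisymm
        · by_contra hlt
          exact h3 r₀ (List.mem_range.2 (not_le.1 hlt)) hgood
        · exact Nat.find_min' hex h2
      exact ⟨h1, hr, hr ▸ h4⟩
    · rintro ⟨h1, rfl, h4⟩
      exact ⟨h1, hgood, hmin, h4⟩
  obtain ⟨E, hE⟩ : ∃ E, E = (k + 1) * (s + 1) := ⟨_, rfl⟩
  have hmono : ∀ {a b : ℕ}, a ≤ b → (2 : ℕ) ^ a ≤ 2 ^ b := fun h =>
    Nat.pow_le_pow_right (by norm_num) h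
  have hE1 : s + 1 ≤ E := by rw [hE]; nlinarith
  have hE2 : k ≤ E := by rw [hE]; nlinarith
  have hE3 : s * k ≤ E := by rw [hE]; nlinarith
  have b1 : n < 2 ^ E := lt_of_lt_of_le hn (hmono (by omega))
  have b2 : k < 2 ^ E := lt_of_lt_of_le Nat.lt_two_pow_self (hmono hE2)
  have b3 : 2 ^ s < 2 ^ E := (Nat.pow_lt_pow_iff_right (by norm_num)).2 (by omega)
  have hpk : (2 ^ s) ^ k ≤ 2 ^ E := by rw [← pow_mul]; exact hmono hE3
  have c1 := PC.pair_lt b1 b2
  have c2 := PC.pair_lt b3 (lt_of_lt_of_le hKd hpk)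
  have c3 := PC.pair_lt (lt_of_lt_of_le hKu hpk) (lt_of_lt_of_le hKl hpk)
  have c4 := PC.pair_lt c2 c3
  have c5 := PC.pair_lt (lt_of_lt_of_le c1 (hmono (by omega : 2 * E ≤ 2 * (2 * E)))) c4
  rw [← hp] at c5
  have c6 : d i < 2 ^ (2 * (2 * (2 * E))) :=
    lt_of_lt_of_le (hs i).1 (hmono (by omega))
  have c7 := PC.pair_lt c5 c6
  have key := hc (2 * (2 * (2 * (2 * E)))) (u i) (Nat.pair p (d i)) (List.ofFn y)
    ((nbr (fs n (PC.D r₀)) (d i)).image List.ofFn) c7
    ⟨r₀, (hQ _ _).2 ⟨List.length_ofFn, rfl, (near_iff hlen y (d i)).2 hy⟩⟩ ?_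
    (Finset.card_image_le.trans (hrob.2 i).1)
  · refine key.trans ?_
    have : c ≤ c * E := Nat.le_mul_of_pos_right _ (by omega)
    rw [mul_assoc, ← hE, add_mul]
    omega
  · intro y' r hr
    obtain ⟨h1, -, h3⟩ := (hQ _ _).1 hr
    obtain ⟨y'', rfl⟩ := PC.exists_ofFn y' h1
    rw [mem_image]
    exact ⟨y'', (near_iff hlen y'' (d i)).1 h3, rfl⟩

end Pool.Agent.Lib.MP_f4f1a8_lc.KR
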