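import Pool.Agent.Lib.MP_f4f1a8_lc.Real
import Pool.Agent.Lib.MP_f4f1a8_lc.KR.SuffA

/-! MP_f4f1a8_lc, row SuffB: every robust profile is a profile of M (as in NC/Transfer.lean:
in T few points have only simple points in the ball, because RobN bounds subsets below). -/

namespace Pool.Agent.Lib.MP_f4f1a8_lc.KR

open Finset SelectAux

theorem sb_nbr_pos {n : ℕ} {S : Finset (Fin n → Bool)} (hS : S.Nonempty) (d : ℕ) :
    0 < (nbr S d).card := by
  obtain ⟨x, hx⟩ := hS
  exact Finset.card_pos.2 ⟨x, mem_nbr.2 ⟨x, hx, by simp⟩⟩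

theorem sb_nbr_le {n : ℕ} (S : Finset (Fin n → Bool)) (d : ℕ) : (nbr S d).card ≤ 2 ^ n := by
  refine (Finset.card_le_univ _).trans ?_
  simp

/-- Some point of a robust set has complex points in all its balls. -/
theorem sb_exists {U : List Bool →. List Bool} (hU : Optimal U) {n k : ℕ} (hk : k ≤ n + 1)
    {d u l : Fin k → ℕ} {T : Finset (Fin n → Bool)} (hT : RobN d u l T) :
    ∃ x ∈ T, ∀ i, l i ≤ M U x (d i) := by
  classical
  by_contra hcon
  push Not at hcon
  have hTpos : 0 < T.card := Finset.card_pos.2 hT.1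
  have hX : ∀ i, 2 * (n + 1) * (T.filter (fun x => M U x (d i) < l i)).card < T.card := by
    intro i
    by_contra hle
    have hle' : T.card ≤ 2 * (n + 1) * (T.filter (fun x => M U x (d i) < l i)).card :=
      not_lt.1 hle
    have h1 := (hT.2 i).2 _ (filter_subset _ _) hle'
    have h2 : (nbr (T.filter (fun x => M U x (d i) < l i)) (d i)).card < 2 ^ (l i) := by
      apply card_lt_of_C hU
      intro y hy
      obtain ⟨x, hx, hxy⟩ := mem_nbr.1 hy
      exact lt_of_le_of_lt (le_M hxy) (mem_filter.1 hx).2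
    omega
  have hsub : T ⊆ univ.biUnion (fun i => T.filter (fun x => M U x (d i) < l i)) := by
    intro x hx
    obtain ⟨i, hi⟩ := hcon x hx
    exact mem_biUnion.2 ⟨i, mem_univ _, mem_filter.2 ⟨hx, hi⟩⟩
  have h3 : T.card ≤ ∑ i, (T.filter (fun x => M U x (d i) < l i)).card :=
    (card_le_card hsub).trans card_biUnion_le
  have h4 : 2 * (n + 1) * T.card ≤
      ∑ i : Fin k, 2 * (n + 1) * (T.filter (fun x => M U x (d i) < l i)).card := by
    rw [← mul_sum]
    exact Nat.mul_le_mul_left _ h3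
  have h5 : ∑ i : Fin k, 2 * (n + 1) * (T.filter (fun x => M U x (d i) < l i)).card ≤
      ∑ _i : Fin k, T.card := sum_le_sum fun i _ => (hX i).le
  rw [sum_const, card_univ, Fintype.card_fin, smul_eq_mul] at h5
  have h6 : 2 * (n + 1) * T.card ≤ (n + 1) * T.card :=
    (h4.trans h5).trans (Nat.mul_le_mul_right _ hk)
  have h7 : 0 < (n + 1) * T.card := Nat.mul_pos (Nat.succ_pos n) hTpos
  have h8 : 2 * (n + 1) * T.card = (n + 1) * T.card + (n + 1) * T.card := by ring
  omega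

/-- Every robust profile (with any real slack) is a profile of M. -/
theorem suff_real {U : List Bool →. List Bool} (hU : Optimal U) :
    ∃ c : ℝ, 0 ≤ c ∧ ∀ n k : ℕ, 2 ≤ n → k ≤ n + 1 → ∀ d m : Fin k → ℕ, (∀ i, d i ≤ n) →
      ∀ S : ℝ, Robust n k d m S →
      ∃ x : Fin n → Bool, ∀ i, |(M U x (d i) : ℝ) - m i| ≤ S + c * (k + 1) * Real.log n := by
  classical
  obtain ⟨c₁, hc₁⟩ := descr_rob hU
  obtain ⟨cs, hcs0, hcs⟩ := NL_exists_s 1
  refine ⟨2 + c₁ * (cs + 2), by positivity, ?_⟩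
  intro n k hn hk d m hd S₀ hR
  obtain ⟨A, hA, hAi⟩ := hR
  obtain ⟨s, hs, hs'⟩ := hcs n hn
  have hs0 : n < 2 ^ s := by omega
  have hks : k < 2 ^ s := by omega
  have hl1 : 1 ≤ 2 * Real.log n := one_le_log hn
  have hl0 : 0 ≤ Real.log n := by linarith
  have hk0 : (0 : ℝ) ≤ k := Nat.cast_nonneg k
  set L : ℝ := ((k : ℝ) + 1) * Real.log n with hL
  have hLl : Real.log n ≤ L := by
    have : 0 ≤ (k : ℝ) * Real.log n := mul_nonneg hk0 hl0
    have h2 : L = (k : ℝ) * Real.log n + Real.log n := by rw [hL]; ring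
    linarith
  have hL0 : 0 ≤ L := hl0.trans hLl
  have hlogpos : ∀ (S : Finset (Fin n → Bool)), S.Nonempty → ∀ e : ℕ,
      0 ≤ Real.logb 2 (nbr S e).card := by
    intro S hS e
    refine Real.logb_nonneg (by norm_num) ?_
    have := sb_nbr_pos hS e
    exact_mod_cast this
  set u : Fin k → ℕ := fun i => min n ⌈(m i : ℝ) + S₀⌉₊ with hu
  set l : Fin k → ℕ := fun i => ⌊(m i : ℝ) - S₀⌋₊ with hl
  have hup0 : ∀ i, 0 ≤ (m i : ℝ) + S₀ := fun i =>
    (hlogpos A hA (d i)).trans (hAi i).1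
  have hrob : RobN d u l A := by
    refine ⟨hA, fun i => ⟨?_, ?_⟩⟩
    · have h1 : (nbr A (d i)).card ≤ 2 ^ n := sb_nbr_le A (d i)
      have h2 : (nbr A (d i)).card ≤ 2 ^ ⌈(m i : ℝ) + S₀⌉₊ := by
        have hpos := sb_nbr_pos hA (d i)
        have h3 : Real.logb 2 (nbr A (d i)).card ≤ (⌈(m i : ℝ) + S₀⌉₊ : ℕ) :=
          (hAi i).1.trans (Nat.le_ceil _)
        rw [Real.logb_le_iff_le_rpow (by norm_num) (by exact_mod_cast hpos),
          Real.rpow_natCast] at h3
        exact_mod_cast h3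
      rcases min_choice n ⌈(m i : ℝ) + S₀⌉₊ with hm | hm
      · have : u i = n := hm
        rw [this]; exact h1
      · have : u i = ⌈(m i : ℝ) + S₀⌉₊ := hm
        rw [this]; exact h2
    · intro A' hA' hcard
      have hApos : 0 < A.card := Finset.card_pos.2 hA
      have hA'pos : 0 < A'.card := by
        rcases Nat.eq_zero_or_pos A'.card with h0 | h0
        · rw [h0] at hcard; omega
        · exact h0
      have hne : A'.Nonempty := Finset.card_pos.1 hA'pos
      have hpos := sb_nbr_pos hne (d i)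
      rcases le_or_gt 0 ((m i : ℝ) - S₀) with h0 | h0
      · have h3 : ((l i : ℕ) : ℝ) ≤ Real.logb 2 (nbr A' (d i)).card :=
          (Nat.floor_le h0).trans ((hAi i).2 A' hA' hcard)
        rw [Real.le_logb_iff_rpow_le (by norm_num) (by exact_mod_cast hpos),
          Real.rpow_natCast] at h3
        exact_mod_cast h3
      · have : l i = 0 := Nat.floor_of_nonpos h0.le
        rw [this, pow_zero]
        exact hpos
  have hlb : ∀ i, l i ≤ n := by
    intro i
    have h1 := (hrob.2 i).2 A (Subset.refl _) (by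
      have : 1 ≤ 2 * (n + 1) := by omega
      calc A.card = 1 * A.card := (one_mul _).symm
        _ ≤ 2 * (n + 1) * A.card := Nat.mul_le_mul_right _ this)
    have h2 : 2 ^ l i ≤ 2 ^ n := h1.trans (sb_nbr_le A (d i))
    exact (Nat.pow_le_pow_iff_right (by norm_num : 1 < 2)).1 h2
  obtain ⟨T, hT, hdes⟩ := hc₁ n k s d u l A hs0 hks
    (fun i => ⟨lt_of_le_of_lt (hd i) hs0,
      lt_of_le_of_lt (min_le_left _ _) hs0, lt_of_le_of_lt (hlb i) hs0⟩) hrob
  obtain ⟨x, hxT, hx⟩ := sb_exists hU hk hT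
  refine ⟨x, fun i => ?_⟩
  have hM : M U x (d i) ≤ u i + c₁ * (k + 1) * (s + 1) := by
    apply M_le
    intro y hy
    exact hdes i y (mem_nbr.2 ⟨x, hxT, hy⟩)
  have hM' : (M U x (d i) : ℝ) ≤ u i + c₁ * (k + 1) * (s + 1) := by exact_mod_cast hM
  have hu' : (u i : ℝ) ≤ (m i : ℝ) + S₀ + 1 := by
    have h1 : (u i : ℝ) ≤ (⌈(m i : ℝ) + S₀⌉₊ : ℕ) := by
      have : u i ≤ ⌈(m i : ℝ) + S₀⌉₊ := min_le_right _ _
      exact_mod_cast this
    exact h1.trans (Nat.ceil_lt_add_one (hup0 i)).le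
  have hlo : (m i : ℝ) - S₀ - 1 ≤ M U x (d i) := by
    have h1 : (m i : ℝ) - S₀ < (l i : ℝ) + 1 := Nat.lt_floor_add_one _
    have h2 : (l i : ℝ) ≤ M U x (d i) := by exact_mod_cast hx i
    linarith
  have hc1 : (0 : ℝ) ≤ c₁ := by positivity
  have h3 : (c₁ : ℝ) * (k + 1) * (s + 1) ≤ c₁ * (cs + 2) * L := by
    have h31 : (s : ℝ) + 1 ≤ (cs + 2) * Real.log n := by
      have : (cs + 2) * Real.log n = cs * Real.log n + 2 * Real.log n := by ring
      linarith
    have h32 : (0 : ℝ) ≤ c₁ * (k + 1) := by positivity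
    calc (c₁ : ℝ) * (k + 1) * (s + 1) ≤ c₁ * (k + 1) * ((cs + 2) * Real.log n) :=
          mul_le_mul_of_nonneg_left h31 h32
      _ = _ := by rw [hL]; ring
  have h6 : 0 ≤ (c₁ : ℝ) * (cs + 2) * L := by positivity
  have hexp : (2 + (c₁ : ℝ) * (cs + 2)) * (k + 1) * Real.log n =
      2 * L + c₁ * (cs + 2) * L := by rw [hL]; ring
  rw [hexp, abs_le]
  constructor
  · linarith
  · linarith

theorem suff {U : List Bool →. List Bool} (hU : Optimal U) (a : ℝ) :
    ∃ c : ℝ, ∀ n k : ℕ, 2 ≤ n → k ≤ n + 1 → ∀ d m : Fin k → ℕ, (∀ i, d i ≤ n) →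
      Robust n k d m (a * (k + 1) * Real.log n) →
      ∃ x : Fin n → Bool, ∀ i, |(M U x (d i) : ℝ) - m i| ≤ c * (k + 1) * Real.log n := by
  obtain ⟨c, -, hc⟩ := suff_real hU
  refine ⟨a + c, fun n k hn hk d m hd hR => ?_⟩
  obtain ⟨x, hx⟩ := hc n k hn hk d m hd _ hR
  refine ⟨x, fun i => (hx i).trans (le_of_eq ?_)⟩
  ring

end Pool.Agent.Lib.MP_f4f1a8_lc.KR
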