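import Pool.Agent.Lib.MP_f4f1a8_lc.LLem
import Pool.Agent.Lib.MP_f4f1a8_lc.Select
import Pool.Agent.Lib.MP_f4f1a8_lc.NC.TDescr
import Pool.Agent.Lib.MP_f4f1a8_lc.KR.Nec
import Pool.Agent.Lib.MP_f4f1a8_lc.KR.SuffB

/-! MP_f4f1a8_lc, row All (helper7): all radii simultaneously, with precision
`O(√(n log n))`. The radii are the first and the last radius of each level of the function. -/

namespace Pool.Agent.Lib.MP_f4f1a8_lc.KR

open Finset SelectAux NC

/-- All radii at once. -/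
def RobustAll (n : ℕ) (f : ℕ → ℕ) (s : ℝ) : Prop :=
  ∃ A : Finset (Fin n → Bool), A.Nonempty ∧ ∀ d ≤ n,
    Real.logb 2 (nbr A d).card ≤ f d + s ∧
    ∀ A' ⊆ A, A.card ≤ 2 * (n + 1) * A'.card → (f d : ℝ) - s ≤ Real.logb 2 (nbr A' d).card

/-- The first and the last radius of each level. -/
theorem levels (n N0 h : ℕ) (hh : 0 < h) (φ : ℕ → ℕ) (hφ : ∀ d ≤ n, φ d ≤ N0) :
    ∃ a b : ℕ → ℕ, (∀ j, a j ≤ n ∧ b j ≤ n) ∧ ∀ d ≤ n, ∃ j, j < N0 / h + 1 ∧
      a j ≤ d ∧ d ≤ b j ∧ φ (b j) < φ (a j) + h := by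
  classical
  refine ⟨fun j => sInf {d | d ≤ n ∧ φ d / h = j},
    fun j => Nat.findGreatest (fun d => φ d / h = j) n, fun j => ⟨?_, Nat.findGreatest_le n⟩,
    fun d hd => ?_⟩
  · rcases Set.eq_empty_or_nonempty {d | d ≤ n ∧ φ d / h = j} with he | hne
    · dsimp only
      rw [he, Nat.sInf_empty]
      exact Nat.zero_le _
    · exact (Nat.sInf_mem hne).1
  · have hne : ({e | e ≤ n ∧ φ e / h = φ d / h} : Set ℕ).Nonempty := ⟨d, hd, rfl⟩
    have h1 := (Nat.sInf_mem hne).2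
    have h2 : sInf {e | e ≤ n ∧ φ e / h = φ d / h} ≤ d := Nat.sInf_le ⟨hd, rfl⟩
    have h3 : d ≤ Nat.findGreatest (fun e => φ e / h = φ d / h) n :=
      Nat.le_findGreatest hd rfl
    have h4 : φ (Nat.findGreatest (fun e => φ e / h = φ d / h) n) / h = φ d / h :=
      Nat.findGreatest_spec (P := fun e => φ e / h = φ d / h) hd rfl
    refine ⟨φ d / h, Nat.lt_succ_of_le (Nat.div_le_div_right (hφ d hd)), h2, h3, ?_⟩
    have h5 := Nat.lt_div_mul_add (a := φ (Nat.findGreatest (fun e => φ e / h = φ d / h) n)) hh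
    have h6 := Nat.div_mul_le_self (φ (sInf {e | e ≤ n ∧ φ e / h = φ d / h})) h
    rw [h4] at h5
    rw [h1] at h6
    dsimp only
    omega

theorem sqrt_facts {n : ℕ} (hn : 2 ≤ n) :
    1 ≤ Real.sqrt (n * Real.log n) ∧
    Real.sqrt (n * Real.log n) * Real.sqrt (n * Real.log n) = n * Real.log n ∧
    Real.log n ≤ Real.sqrt (n * Real.log n) := by
  have h1 := one_le_log hn
  have hn' : (2 : ℝ) ≤ n := by exact_mod_cast hn
  have hl0 : 0 ≤ Real.log n := by linarith
  refine ⟨?_, Real.mul_self_sqrt (by positivity), ?_⟩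
  · apply Real.le_sqrt_of_sq_le
    nlinarith
  · apply Real.le_sqrt_of_sq_le
    have h2 : Real.log n ≤ n := (Real.log_le_sub_one_of_pos (by linarith)).trans (by linarith)
    nlinarith

theorem choose_h (c₀ n : ℕ) (hn : 2 ≤ n) : ∃ h K : ℕ, 0 < h ∧ K = (n + c₀) / h + 1 ∧
    2 * K ≤ n + 1 ∧ (h : ℝ) ≤ 2 * (c₀ + 5) * Real.sqrt (n * Real.log n) ∧
    (2 * (K : ℝ) + 1) * Real.log n ≤ 5 * Real.sqrt (n * Real.log n) ∧
    Real.sqrt (n * Real.log n) ≤ (c₀ + 5) * ((2 * (K : ℝ) + 1) * Real.log n) := by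
  obtain ⟨r1, r2, r3⟩ := sqrt_facts hn
  set R := Real.sqrt (n * Real.log n) with hR
  have hl1 := one_le_log hn
  have hl0 : 0 < Real.log n := by linarith
  have hn' : (2 : ℝ) ≤ n := by exact_mod_cast hn
  set g := ⌈R⌉₊ with hg
  have g1 : R ≤ g := Nat.le_ceil R
  have g2 : (g : ℝ) < R + 1 := Nat.ceil_lt_add_one (by linarith)
  have g3 : 1 ≤ g := by
    have : (1 : ℝ) ≤ g := r1.trans g1
    exact_mod_cast this
  have hh : c₀ + 5 ≤ (c₀ + 5) * g := Nat.le_mul_of_pos_right _ g3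
  set h := (c₀ + 5) * g with hhd
  have hpos : 0 < h := by omega
  have hcast : (h : ℝ) = (c₀ + 5) * g := by rw [hhd]; push_cast; ring
  have hc0 : (0 : ℝ) ≤ c₀ := Nat.cast_nonneg _
  set N := (n + c₀) / h with hN
  have hNh : N * h ≤ n + c₀ := Nat.div_mul_le_self _ _
  have hNh2 : n + c₀ < N * h + h := Nat.lt_div_mul_add hpos
  have k1 : 2 * N + 1 ≤ n := by
    by_contra hcon
    push Not at hcon
    -- n ≤ 2 N, N ≥ 1
    have e1 : N * (c₀ + 5) ≤ n + c₀ := (Nat.mul_le_mul_left N hh).trans hNh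
    have e2 : 1 ≤ N := by omega
    have e3 : c₀ ≤ N * c₀ := Nat.le_mul_of_pos_left _ e2
    have e4 : N * (c₀ + 5) = N * c₀ + 5 * N := by ring
    omega
  have k2 : (N : ℝ) * Real.log n ≤ R := by
    have e1 : (N : ℝ) * h ≤ n + c₀ := by exact_mod_cast hNh
    have e2 : (n : ℝ) + c₀ ≤ n * (c₀ + 5) := by nlinarith
    have e3 : (N : ℝ) * g ≤ n := by
      rw [hcast] at e1
      have e4 : ((N : ℝ) * g) * (c₀ + 5) ≤ n * (c₀ + 5) := by
        calc ((N : ℝ) * g) * (c₀ + 5) = N * ((c₀ + 5) * g) := by ring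
          _ ≤ n + c₀ := e1
          _ ≤ n * (c₀ + 5) := e2
      exact le_of_mul_le_mul_right e4 (by linarith)
    have e5 : (N : ℝ) * R ≤ n := (mul_le_mul_of_nonneg_left g1 (Nat.cast_nonneg _)).trans e3
    have e6 : ((N : ℝ) * Real.log n) * R ≤ R * R := by
      rw [r2]
      calc ((N : ℝ) * Real.log n) * R = (N * R) * Real.log n := by ring
        _ ≤ n * Real.log n := mul_le_mul_of_nonneg_right e5 hl0.le
    exact le_of_mul_le_mul_right e6 (by linarith)
  have k3 : R ≤ (c₀ + 5) * (2 * (((N : ℝ) + 1) * Real.log n)) := by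
    have e1 : (n : ℝ) ≤ ((N : ℝ) + 1) * h := by
      have : n ≤ (N + 1) * h := by
        have : (N + 1) * h = N * h + h := by ring
        omega
      exact_mod_cast this
    have e2 : (h : ℝ) ≤ 2 * (c₀ + 5) * R := by
      rw [hcast]
      nlinarith
    have e3 : (n : ℝ) ≤ ((N : ℝ) + 1) * (2 * (c₀ + 5) * R) :=
      e1.trans (mul_le_mul_of_nonneg_left e2 (by positivity))
    have e4 : R * R ≤ ((c₀ + 5) * (2 * (((N : ℝ) + 1) * Real.log n))) * R := by
      rw [r2]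
      calc (n : ℝ) * Real.log n ≤ (((N : ℝ) + 1) * (2 * (c₀ + 5) * R)) * Real.log n :=
            mul_le_mul_of_nonneg_right e3 hl0.le
        _ = ((c₀ + 5) * (2 * (((N : ℝ) + 1) * Real.log n))) * R := by ring
    exact le_of_mul_le_mul_right e4 (by linarith)
  refine ⟨h, N + 1, hpos, rfl, by omega, ?_, ?_, ?_⟩
  · rw [hcast]
    nlinarith
  · push_cast
    nlinarith
  · push_cast
    have e1 : 0 ≤ ((c₀ : ℝ) + 5) * Real.log n := by positivity
    nlinarith

theorem nbr_mono_radius {n : ℕ} (S : Finset (Fin n → Bool)) {d e : ℕ} (h : d ≤ e) :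
    nbr S d ⊆ nbr S e := by
  intro y hy
  obtain ⟨x, hx, hxy⟩ := mem_nbr.1 hy
  exact mem_nbr.2 ⟨x, hx, hxy.trans h⟩

theorem logb_nbr_mono {n : ℕ} {S : Finset (Fin n → Bool)} (hS : S.Nonempty) {d e : ℕ}
    (h : d ≤ e) : Real.logb 2 (nbr S d).card ≤ Real.logb 2 (nbr S e).card := by
  apply Real.logb_le_logb_of_le (by norm_num)
  · exact_mod_cast TD.nbr_card_pos hS d
  · exact_mod_cast card_le_card (nbr_mono_radius S h)

theorem nonempty_of_large {n : ℕ} {A A' : Finset (Fin n → Bool)} (hA : A.Nonempty)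
    (h : A.card ≤ 2 * (n + 1) * A'.card) : A'.Nonempty := by
  rcases A'.eq_empty_or_nonempty with h0 | h0
  · rw [h0, card_empty, mul_zero] at h
    exact absurd (card_pos.2 hA) (by omega)
  · exact h0

theorem nec_all {U : List Bool →. List Bool} (hU : Optimal U) :
    ∃ c : ℝ, ∀ n : ℕ, 2 ≤ n → ∀ x : Fin n → Bool,
      RobustAll n (fun d => M U x d) (c * Real.sqrt (n * Real.log n)) := by
  obtain ⟨c, hc⟩ := nec hU
  obtain ⟨c₀, hc₀⟩ := C_le_length hU
  refine ⟨5 * |c| + 2 * (c₀ + 5), fun n hn x => ?_⟩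
  obtain ⟨h, K, hpos, hK, hKn, hh, hK2, -⟩ := choose_h c₀ n hn
  obtain ⟨r1, -, -⟩ := sqrt_facts hn
  set R := Real.sqrt (n * Real.log n) with hR
  have hM : ∀ d ≤ n, M U x d ≤ n + c₀ := by
    intro d _
    apply M_le
    intro y _
    have := hc₀ (List.ofFn y)
    rwa [List.length_ofFn] at this
  obtain ⟨a, b, hab, hlev⟩ := levels n (n + c₀) h hpos (fun d => M U x d) hM
  obtain ⟨A, hA, hAi⟩ := hc n (2 * K) hn hKn
    (fun i => if (i : ℕ) < K then a i else b (i - K))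
    (by intro i; split_ifs; exacts [(hab _).1, (hab _).2]) x
  have herr : c * (((2 * K : ℕ) : ℝ) + 1) * Real.log n ≤ 5 * |c| * R := by
    have e1 : c * (((2 * K : ℕ) : ℝ) + 1) * Real.log n =
        c * ((2 * (K : ℝ) + 1) * Real.log n) := by push_cast; ring
    have e2 : 0 ≤ (2 * (K : ℝ) + 1) * Real.log n := by
      have := one_le_log hn
      have : 0 ≤ Real.log n := by linarith
      positivity
    rw [e1]
    calc c * ((2 * (K : ℝ) + 1) * Real.log n) ≤ |c| * ((2 * (K : ℝ) + 1) * Real.log n) :=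
          mul_le_mul_of_nonneg_right (le_abs_self c) e2
      _ ≤ |c| * (5 * R) := mul_le_mul_of_nonneg_left hK2 (abs_nonneg c)
      _ = 5 * |c| * R := by ring
  refine ⟨A, hA, fun d hd => ?_⟩
  obtain ⟨j, hj, h1, h2, h3⟩ := hlev d hd
  rw [← hK] at hj
  have i1 := hAi ⟨j, by omega⟩
  have i2 := hAi ⟨K + j, by omega⟩
  simp only [hj, if_true, if_neg (show ¬ K + j < K by omega), Nat.add_sub_cancel_left] at i1 i2
  have m1 : (M U x (a j) : ℝ) ≤ M U x d := by exact_mod_cast M_mono U x h1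
  have m2 : (M U x d : ℝ) ≤ M U x (b j) := by exact_mod_cast M_mono U x h2
  have m3 : (M U x (b j) : ℝ) ≤ M U x (a j) + h := by
    have : M U x (b j) ≤ M U x (a j) + h := h3.le
    exact_mod_cast this
  have hexp : (5 * |c| + 2 * ((c₀ : ℝ) + 5)) * R = 5 * |c| * R + 2 * (c₀ + 5) * R := by ring
  rw [hexp]
  constructor
  · have u1 := logb_nbr_mono hA h2
    have u2 := i2.1
    linarith
  · intro A' hA' hcard
    have u1 := logb_nbr_mono (nonempty_of_large hA hcard) h1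
    have u2 := i1.2 A' hA' hcard
    linarith

theorem suff_all {U : List Bool →. List Bool} (hU : Optimal U) (a : ℝ) :
    ∃ c : ℝ, ∀ n : ℕ, 2 ≤ n → ∀ f : ℕ → ℕ,
      RobustAll n f (a * Real.sqrt (n * Real.log n)) →
      ∃ x : Fin n → Bool, ∀ d ≤ n,
        |(M U x d : ℝ) - f d| ≤ c * Real.sqrt (n * Real.log n) := by
  obtain ⟨c, hc⟩ := suff hU (5 * |a|)
  refine ⟨5 * |c| + 2 * |a| + 11, fun n hn f hf => ?_⟩
  obtain ⟨A, hA, hAd⟩ := hf
  obtain ⟨h, K, hpos, hK, hKn, hh, hK2, hK3⟩ := choose_h 0 n hn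
  obtain ⟨r1, -, -⟩ := sqrt_facts hn
  set R := Real.sqrt (n * Real.log n) with hR
  rw [add_zero] at hK
  push_cast at hh hK3
  have haR : a * R ≤ |a| * R := mul_le_mul_of_nonneg_right (le_abs_self a) (by linarith)
  obtain ⟨p, q, hpq, hlev⟩ := levels n n h hpos (fun d => Nat.log 2 (nbr A d).card)
    (fun d _ => TD.log_nbr_le A d)
  have hrad : ∀ i : Fin (2 * K), (if (i : ℕ) < K then p i else q (i - K)) ≤ n := by
    intro i; split_ifs; exacts [(hpq _).1, (hpq _).2]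
  have e2 : 0 ≤ (2 * (K : ℝ) + 1) * Real.log n := by
    have := one_le_log hn
    have : 0 ≤ Real.log n := by linarith
    positivity
  have hs : |a| * R ≤ 5 * |a| * (((2 * K : ℕ) : ℝ) + 1) * Real.log n := by
    have e1 : 5 * |a| * (((2 * K : ℕ) : ℝ) + 1) * Real.log n =
        |a| * (5 * ((2 * (K : ℝ) + 1) * Real.log n)) := by push_cast; ring
    rw [e1]
    apply mul_le_mul_of_nonneg_left _ (abs_nonneg a)
    linarith
  obtain ⟨x, hx⟩ := hc n (2 * K) hn hKn
    (fun i => if (i : ℕ) < K then p i else q (i - K))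
    (fun i => f (if (i : ℕ) < K then p i else q (i - K))) hrad ⟨A, hA, fun i => by
      have hi := hAd _ (hrad i)
      refine ⟨?_, fun A' hA' hcard => ?_⟩
      · have := hi.1
        dsimp only at this ⊢
        linarith
      · have := hi.2 A' hA' hcard
        dsimp only at this ⊢
        linarith⟩
  have herr : c * (((2 * K : ℕ) : ℝ) + 1) * Real.log n ≤ 5 * |c| * R := by
    have e1 : c * (((2 * K : ℕ) : ℝ) + 1) * Real.log n =
        c * ((2 * (K : ℝ) + 1) * Real.log n) := by push_cast; ring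
    rw [e1]
    calc c * ((2 * (K : ℝ) + 1) * Real.log n) ≤ |c| * ((2 * (K : ℝ) + 1) * Real.log n) :=
          mul_le_mul_of_nonneg_right (le_abs_self c) e2
      _ ≤ |c| * (5 * R) := mul_le_mul_of_nonneg_left hK2 (abs_nonneg c)
      _ = 5 * |c| * R := by ring
  refine ⟨x, fun d hd => ?_⟩
  obtain ⟨j, hj, h1, h2, h3⟩ := hlev d hd
  rw [← hK] at hj
  have i1 := hx ⟨j, by omega⟩
  have i2 := hx ⟨K + j, by omega⟩
  simp only [hj, if_true, if_neg (show ¬ K + j < K by omega), Nat.add_sub_cancel_left] at i1 i2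
  have hself : A.card ≤ 2 * (n + 1) * A.card := Nat.le_mul_of_pos_left _ (by omega)
  have m1 : (M U x (p j) : ℝ) ≤ M U x d := by exact_mod_cast M_mono U x h1
  have m2 : (M U x d : ℝ) ≤ M U x (q j) := by exact_mod_cast M_mono U x h2
  have fp := hAd (p j) (hpq j).1
  have fq := hAd (q j) (hpq j).2
  have fd := hAd d hd
  have fp1 := fp.1
  have fq1 := fq.2 A Subset.rfl hself
  have fd1 := fd.1
  have fd2 := fd.2 A Subset.rfl hself
  have l1 := logb_nbr_mono hA h1
  have l2 := logb_nbr_mono hA h2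
  have l3 : Real.logb 2 (nbr A (q j)).card ≤ Real.logb 2 (nbr A (p j)).card + h + 1 := by
    have hq0 := TD.nbr_card_pos hA (q j)
    have hp0 := TD.nbr_card_pos hA (p j)
    have t1 : Real.logb 2 (nbr A (q j)).card ≤ Nat.log 2 (nbr A (q j)).card + 1 :=
      NL_logb_lt hq0 (Nat.lt_pow_succ_log_self (by norm_num) _)
    have t2 : (Nat.log 2 (nbr A (p j)).card : ℝ) ≤ Real.logb 2 (nbr A (p j)).card := by
      rw [Real.le_logb_iff_rpow_le (by norm_num) (by exact_mod_cast hp0), Real.rpow_natCast]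
      exact_mod_cast Nat.pow_log_le_self 2 hp0.ne'
    have t3 : (Nat.log 2 (nbr A (q j)).card : ℝ) ≤ Nat.log 2 (nbr A (p j)).card + h := by
      exact_mod_cast h3.le
    linarith
  have j1 := (abs_le.1 i1).1
  have j2 := (abs_le.1 i2).2
  have hexp : (5 * |c| + 2 * |a| + 11) * R = 5 * |c| * R + 2 * (|a| * R) + 11 * R := by ring
  rw [hexp, abs_le]
  constructor
  · linarith
  · linarith

end Pool.Agent.Lib.MP_f4f1a8_lc.KR
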