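import Pool.Agent.Lib.MP_f4f1a8_lc.KR.DescrP45

namespace Pool.Agent.Lib.MP_f4f1a8_lc.KR

theorem descrP40 {U : List Bool →. List Bool} (hU : Optimal U)
    (Q : ℕ → List Bool → ℕ → Prop)
    (hQ : PrimrecPred fun a : ℕ × List Bool × ℕ => Q a.1 a.2.1 a.2.2) :
    ∃ c : ℕ, ∀ (s N a : ℕ) (z y : List Bool) (F : Finset (List Bool)),
      a < 2 ^ s → (∃ k, Q (Nat.pair (Encodable.encode z) a) y k) →
      (∀ y' k, Q (Nat.pair (Encodable.encode z) a) y' k → y' ∈ F) → F.card ≤ 2 ^ N →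
      C U y ≤ N + c * (C U z + s + 1) := by
  obtain ⟨c, hc⟩ := descrP hU Q hQ
  refine ⟨c, fun s N a z y F ha hy hF hN => ?_⟩
  have := hc s N a z y F ha hy hF hN
  rwa [Nat.add_comm s (C U z)] at this

end Pool.Agent.Lib.MP_f4f1a8_lc.KR
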