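import Pool.Agent.Lib.MP_f4f1a8_lc.Basic
import Pool.Agent.Lib.MP_f4f1a8_lc.Descr
import Pool.Agent.Lib.MP_f4f1a8_lc.PCode

/-! MP_f4f1a8_lc: the description lemma with a parameter that is given by its shortest program. -/

namespace Pool.Agent.Lib.MP_f4f1a8_lc.KR

open Finset Descr

namespace DP

open Nat.Partrec (Code)

/-- Stages of the computation of a description method. -/
theorem exists_step {U : List Bool →. List Bool} (hU : Partrec U) :
    ∃ H : List Bool → List Bool → ℕ → Prop,
      PrimrecPred (fun a : List Bool × List Bool × ℕ => H a.1 a.2.1 a.2.2) ∧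
      ∀ q y, y ∈ U q ↔ ∃ k, H q y k := by
  classical
  obtain ⟨c, hc⟩ := Code.exists_code.1 hU
  have hmem : ∀ q y : List Bool,
      Encodable.encode y ∈ Code.eval c (Encodable.encode q) ↔ y ∈ U q := by
    intro q y
    rw [hc]
    simp only [Encodable.encodek, Part.coe_some, Part.bind_some, Part.mem_map_iff]
    constructor
    · rintro ⟨a, ha, hay⟩
      rwa [← Encodable.encode_injective hay]
    · intro h
      exact ⟨y, h, rfl⟩
  refine ⟨fun q y k => Code.evaln k c (Encodable.encode q) = some (Encodable.encode y), ?_, ?_⟩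
  · refine Primrec.eq.comp ?_
      (Primrec.option_some.comp (Primrec.encode.comp (Primrec.fst.comp Primrec.snd)))
    exact Code.primrec_evaln.comp (Primrec.pair (Primrec.pair
      (Primrec.snd.comp Primrec.snd) (Primrec.const c))
      (Primrec.encode.comp Primrec.fst))
  · intro q y
    constructor
    · intro h
      obtain ⟨k, hk⟩ := Code.evaln_complete.1 ((hmem q y).2 h)
      exact ⟨k, Option.mem_def.1 hk⟩
    · rintro ⟨k, h⟩
      exact (hmem q y).1 (Code.evaln_sound (Option.mem_def.2 h))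

lemma wt_pos (q : List Bool) : 1 ≤ wt q := by
  induction q using List.reverseRecOn with
  | nil => simp [wt]
  | append_singleton q b ih => rw [wt_append]; omega

lemma wt_lt (q : List Bool) : wt q < 2 ^ (q.length + 1) := by
  induction q using List.reverseRecOn with
  | nil => simp [wt]
  | append_singleton q b ih =>
    rw [wt_append, List.length_append, List.length_singleton, pow_succ]
    split_ifs <;> omega

lemma wt_inj : ∀ q q' : List Bool, wt q = wt q' → q = q' := by
  intro q
  induction q using List.reverseRecOn with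
  | nil =>
    intro q' h
    rcases List.eq_nil_or_concat q' with h1 | ⟨q'', b, h1⟩
    · exact h1.symm
    · exfalso
      rw [h1, List.concat_eq_append, wt_append] at h
      have h2 := wt_pos q''
      have h3 : wt [] = 1 := rfl
      omega
  | append_singleton q b ih =>
    intro q' h
    rcases List.eq_nil_or_concat q' with h1 | ⟨q'', b', h1⟩
    · exfalso
      rw [h1, wt_append] at h
      have h2 := wt_pos q
      have h3 : wt [] = 1 := rfl
      omega
    · rw [h1, List.concat_eq_append] at h ⊢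
      rw [wt_append, wt_append] at h
      have h2 : b = b' ∧ wt q = wt q'' := by
        cases b <;> cases b' <;> simp at h ⊢ <;> omega
      rw [h2.1, ih q'' h2.2]

/-- Decoding of quadruples. -/
def dec4 (K : ℕ) : List Bool × List Bool × ℕ × ℕ :=
  (Encodable.decode (α := List Bool × List Bool × ℕ × ℕ) K).getD ([], [], 0, 0)

lemma dec4_encode (t : List Bool × List Bool × ℕ × ℕ) : dec4 (Encodable.encode t) = t := by
  simp only [dec4, Encodable.encodek, Option.getD_some]

lemma primrec_dec4 : Primrec dec4 :=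
  Primrec.option_getD.comp Primrec.decode (Primrec.const _)

/-- `Q` with the parameter given by a program. -/
def QP (H : List Bool → List Bool → ℕ → Prop) (Q : ℕ → List Bool → ℕ → Prop) (P : ℕ)
    (y : List Bool) (K : ℕ) : Prop :=
  (wt (dec4 K).1 = P.unpair.1 ∧ H (dec4 K).1 (dec4 K).2.1 (dec4 K).2.2.1) ∧
    Q (Nat.pair (Encodable.encode (dec4 K).2.1) P.unpair.2) y (dec4 K).2.2.2

lemma primrec_QP {H : List Bool → List Bool → ℕ → Prop} {Q : ℕ → List Bool → ℕ → Prop}
    (hH : PrimrecPred (fun a : List Bool × List Bool × ℕ => H a.1 a.2.1 a.2.2))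
    (hQ : PrimrecPred fun a : ℕ × List Bool × ℕ => Q a.1 a.2.1 a.2.2) :
    PrimrecPred fun a : ℕ × List Bool × ℕ => QP H Q a.1 a.2.1 a.2.2 := by
  have hd : Primrec (fun a : ℕ × List Bool × ℕ => dec4 a.2.2) :=
    primrec_dec4.comp (Primrec.snd.comp Primrec.snd)
  have h1 : Primrec (fun a : ℕ × List Bool × ℕ => (dec4 a.2.2).1) := Primrec.fst.comp hd
  have h2 : Primrec (fun a : ℕ × List Bool × ℕ => (dec4 a.2.2).2.1) :=
    Primrec.fst.comp (Primrec.snd.comp hd)
  have h3 : Primrec (fun a : ℕ × List Bool × ℕ => (dec4 a.2.2).2.2.1) :=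
    Primrec.fst.comp (Primrec.snd.comp (Primrec.snd.comp hd))
  have h4 : Primrec (fun a : ℕ × List Bool × ℕ => (dec4 a.2.2).2.2.2) :=
    Primrec.snd.comp (Primrec.snd.comp (Primrec.snd.comp hd))
  have hp1 : Primrec (fun a : ℕ × List Bool × ℕ => a.1.unpair.1) :=
    Primrec.fst.comp (Primrec.unpair.comp Primrec.fst)
  have hp2 : Primrec (fun a : ℕ × List Bool × ℕ => a.1.unpair.2) :=
    Primrec.snd.comp (Primrec.unpair.comp Primrec.fst)
  refine ((Primrec.eq.comp (primrec_wt.comp h1) hp1).and
    (hH.comp (Primrec.pair h1 (Primrec.pair h2 h3)))).and ?_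
  exact hQ.comp (Primrec.pair (Primrec₂.natPair.comp (Primrec.encode.comp h2) hp2)
    (Primrec.pair (Primrec.fst.comp Primrec.snd) h4))

end DP

open DP

theorem descrP {U : List Bool →. List Bool} (hU : Optimal U)
    (Q : ℕ → List Bool → ℕ → Prop)
    (hQ : PrimrecPred fun a : ℕ × List Bool × ℕ => Q a.1 a.2.1 a.2.2) :
    ∃ c : ℕ, ∀ (s N a : ℕ) (z y : List Bool) (F : Finset (List Bool)),
      a < 2 ^ s → (∃ k, Q (Nat.pair (Encodable.encode z) a) y k) →
      (∀ y' k, Q (Nat.pair (Encodable.encode z) a) y' k → y' ∈ F) → F.card ≤ 2 ^ N →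
      C U y ≤ N + c * (s + C U z + 1) := by
  obtain ⟨H, hH, hHU⟩ := exists_step hU.1
  obtain ⟨c, hc⟩ := description hU (QP H Q) (primrec_QP hH hQ)
  refine ⟨c + 4, fun s N a z y F ha hy hF hN => ?_⟩
  obtain ⟨q, hq, hql⟩ := exists_program hU z
  obtain ⟨r, hr⟩ := (hHU q z).1 hq
  obtain ⟨k, hk⟩ := hy
  have e1 : wt q < 2 ^ (s + C U z + 1) := by
    rw [← hql]
    exact lt_of_lt_of_le (wt_lt q) (Nat.pow_le_pow_right (by norm_num) (by omega))
  have e2 : a < 2 ^ (s + C U z + 1) :=
    lt_of_lt_of_le ha (Nat.pow_le_pow_right (by norm_num) (by omega))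
  have key := hc (2 * (s + C U z + 1)) N (Nat.pair (wt q) a) y F (PC.pair_lt e1 e2) ?_ ?_ hN
  · have h1 : c ≤ c * (s + C U z + 1) := Nat.le_mul_of_pos_right _ (by omega)
    have h2 : (c + 4) * (s + C U z + 1) = c * (s + C U z + 1) + 4 * (s + C U z + 1) := by ring
    omega
  · refine ⟨Encodable.encode (q, z, r, k), ?_⟩
    simp only [QP, dec4_encode, Nat.unpair_pair]
    exact ⟨⟨trivial, hr⟩, hk⟩
  · intro y' K h
    simp only [QP, Nat.unpair_pair] at h
    obtain ⟨⟨h1, h2⟩, h3⟩ := h
    have h4 := wt_inj _ _ h1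
    have h5 := (hHU _ _).2 ⟨_, h2⟩
    rw [h4] at h5
    have h6 := Part.mem_unique h5 hq
    rw [h6] at h3
    exact hF _ _ h3

end Pool.Agent.Lib.MP_f4f1a8_lc.KR
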