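import Pool.Agent.Lib.MP_f4f1a8_lc.KR.All

/-! MP_f4f1a8_lc, row Fin7 (helper7): any set of radii, with precision
`O(min (|D| log n) (√(n log n)))`. -/

namespace Pool.Agent.Lib.MP_f4f1a8_lc.KR

open Finset SelectAux NC

/-- Up to `s` the numbers `f d`, `d` in `D`, are the binary logarithms of the sizes of the
`d`-neighbourhoods of some nonempty set `A` of the `n`-cube, and these sizes do not drop for
subsets of `A` with at least `|A| / (2 (n + 1))` elements. -/
def RobustOn (n : ℕ) (D : Finset ℕ) (f : ℕ → ℕ) (s : ℝ) : Prop :=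
  ∃ A : Finset (Fin n → Bool), A.Nonempty ∧ ∀ d ∈ D,
    Real.logb 2 (nbr A d).card ≤ f d + s ∧
    ∀ A' ⊆ A, A.card ≤ 2 * (n + 1) * A'.card → (f d : ℝ) - s ≤ Real.logb 2 (nbr A' d).card

/-- The first and the last element of `D` in each level of `φ`. -/
theorem levelsOn (D : Finset ℕ) (hD : D.Nonempty) (N0 h : ℕ) (hh : 0 < h) (φ : ℕ → ℕ)
    (hφ : ∀ d ∈ D, φ d ≤ N0) :
    ∃ a b : ℕ → ℕ, (∀ j, a j ∈ D ∧ b j ∈ D) ∧ ∀ d ∈ D, ∃ j, j < N0 / h + 1 ∧
      a j ≤ d ∧ d ≤ b j ∧ φ (b j) < φ (a j) + h := by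
  classical
  have key : ∀ j : ℕ, ∃ p : ℕ × ℕ, p.1 ∈ D ∧ p.2 ∈ D ∧ ∀ d ∈ D, φ d / h = j →
      p.1 ≤ d ∧ d ≤ p.2 ∧ φ p.1 / h = j ∧ φ p.2 / h = j := by
    intro j
    rcases (D.filter (fun d => φ d / h = j)).eq_empty_or_nonempty with he | hne
    · obtain ⟨d₀, hd₀⟩ := hD
      refine ⟨(d₀, d₀), hd₀, hd₀, fun d hd hj => ?_⟩
      have : d ∈ D.filter (fun d => φ d / h = j) := mem_filter.2 ⟨hd, hj⟩
      rw [he] at this
      exact absurd this (notMem_empty d)
    · have h1 := mem_filter.1 (min'_mem _ hne)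
      have h2 := mem_filter.1 (max'_mem _ hne)
      refine ⟨((D.filter (fun d => φ d / h = j)).min' hne,
        (D.filter (fun d => φ d / h = j)).max' hne), h1.1, h2.1, fun d hd hj => ?_⟩
      have hm : d ∈ D.filter (fun d => φ d / h = j) := mem_filter.2 ⟨hd, hj⟩
      exact ⟨min'_le _ _ hm, le_max' _ _ hm, h1.2, h2.2⟩
  choose p hp using key
  refine ⟨fun j => (p j).1, fun j => (p j).2, fun j => ⟨(hp j).1, (hp j).2.1⟩, fun d hd => ?_⟩
  obtain ⟨q1, q2, q3, q4⟩ := (hp (φ d / h)).2.2 d hd rfl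
  refine ⟨φ d / h, Nat.lt_succ_of_le (Nat.div_le_div_right (hφ d hd)), q1, q2, ?_⟩
  have h5 := Nat.lt_div_mul_add (a := φ (p (φ d / h)).2) hh
  have h6 := Nat.div_mul_le_self (φ (p (φ d / h)).1) h
  rw [q4] at h5
  rw [q3] at h6
  dsimp only
  omega

theorem card_le_of_le {n : ℕ} {D : Finset ℕ} (hD : ∀ d ∈ D, d ≤ n) : D.card ≤ n + 1 := by
  have : D ⊆ range (n + 1) := fun d hd => mem_range.2 (Nat.lt_succ_of_le (hD d hd))
  simpa using card_le_card this

/-- The two radii of each level, as a family. -/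
theorem rad_mem {D : Finset ℕ} {a b : ℕ → ℕ} (hab : ∀ j, a j ∈ D ∧ b j ∈ D) (K i : ℕ) :
    (if i < K then a i else b (i - K)) ∈ D := by
  split_ifs
  exacts [(hab _).1, (hab _).2]

theorem fin_suff {U : List Bool →. List Bool} (hU : Optimal U) :
    ∃ c : ℝ, 0 ≤ c ∧ ∀ n : ℕ, 2 ≤ n → ∀ D : Finset ℕ, D.Nonempty → (∀ d ∈ D, d ≤ n) →
      ∀ (f : ℕ → ℕ) (S : ℝ), RobustOn n D f S →
      (∃ x : Fin n → Bool, ∀ d ∈ D,
        |(M U x d : ℝ) - f d| ≤ 3 * S + c * (D.card * Real.log n)) ∧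
      ∃ x : Fin n → Bool, ∀ d ∈ D,
        |(M U x d : ℝ) - f d| ≤ 3 * S + c * Real.sqrt (n * Real.log n) := by
  obtain ⟨c, hc0, hc⟩ := suff_real hU
  refine ⟨5 * c + 11, by positivity, fun n hn D hDne hD f S hf => ?_⟩
  obtain ⟨A, hA, hAd⟩ := hf
  have hself : A.card ≤ 2 * (n + 1) * A.card := Nat.le_mul_of_pos_left _ (by omega)
  have hl1 := one_le_log hn
  have hl0 : 0 ≤ Real.log n := by linarith
  have hS : 0 ≤ S := by
    obtain ⟨d₀, hd₀⟩ := hDne
    have h1 := (hAd d₀ hd₀).1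
    have h2 := (hAd d₀ hd₀).2 A Subset.rfl hself
    linarith
  constructor
  · -- all the radii of `D`
    have hk1 : (1 : ℝ) ≤ D.card := by exact_mod_cast card_pos.2 hDne
    obtain ⟨x, hx⟩ := hc n D.card hn (card_le_of_le hD) (fun i => (D.equivFin.symm i : ℕ))
      (fun i => f (D.equivFin.symm i : ℕ)) (fun i => hD _ (D.equivFin.symm i).2) S
      ⟨A, hA, fun i => hAd _ (D.equivFin.symm i).2⟩
    refine ⟨x, fun d hd => ?_⟩
    have h1 := hx (D.equivFin ⟨d, hd⟩)
    simp only [Equiv.symm_apply_apply] at h1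
    refine h1.trans ?_
    have h2 : 0 ≤ (D.card : ℝ) * Real.log n := by positivity
    have h3 : c * ((D.card : ℝ) + 1) * Real.log n ≤ 2 * c * ((D.card : ℝ) * Real.log n) := by
      have : c * ((D.card : ℝ) + 1) * Real.log n =
        c * (D.card * Real.log n) + c * (1 * Real.log n) := by ring
      rw [this]
      have h4 : c * (1 * Real.log n) ≤ c * (D.card * Real.log n) :=
        mul_le_mul_of_nonneg_left (mul_le_mul_of_nonneg_right hk1 hl0) hc0
      linarith
    have h4 : 0 ≤ c * ((D.card : ℝ) * Real.log n) := by positivity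
    have h5 : (5 * c + 11) * ((D.card : ℝ) * Real.log n) =
      5 * (c * (D.card * Real.log n)) + 11 * (D.card * Real.log n) := by ring
    rw [h5]
    linarith
  · obtain ⟨h, K, hpos, hK, hKn, hh, hK2, -⟩ := choose_h 0 n hn
    obtain ⟨r1, -, -⟩ := sqrt_facts hn
    set R := Real.sqrt (n * Real.log n) with hR
    rw [add_zero] at hK
    push_cast at hh
    obtain ⟨p, q, hpq, hlev⟩ := levelsOn D hDne n h hpos (fun d => Nat.log 2 (nbr A d).card)
      (fun d _ => TD.log_nbr_le A d)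
    obtain ⟨x, hx⟩ := hc n (2 * K) hn hKn
      (fun i => if (i : ℕ) < K then p i else q (i - K))
      (fun i => f (if (i : ℕ) < K then p i else q (i - K)))
      (fun i => hD _ (rad_mem hpq K i)) S ⟨A, hA, fun i => hAd _ (rad_mem hpq K i)⟩
    have herr : c * (((2 * K : ℕ) : ℝ) + 1) * Real.log n ≤ 5 * c * R := by
      have e1 : c * (((2 * K : ℕ) : ℝ) + 1) * Real.log n =
          c * ((2 * (K : ℝ) + 1) * Real.log n) := by push_cast; ring
      rw [e1]
      calc c * ((2 * (K : ℝ) + 1) * Real.log n) ≤ c * (5 * R) :=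
            mul_le_mul_of_nonneg_left hK2 hc0
        _ = 5 * c * R := by ring
    refine ⟨x, fun d hd => ?_⟩
    obtain ⟨j, hj, h1, h2, h3⟩ := hlev d hd
    rw [← hK] at hj
    have i1 := hx ⟨j, by omega⟩
    have i2 := hx ⟨K + j, by omega⟩
    simp only [hj, if_true, if_neg (show ¬ K + j < K by omega), Nat.add_sub_cancel_left]
      at i1 i2
    have m1 : (M U x (p j) : ℝ) ≤ M U x d := by exact_mod_cast M_mono U x h1
    have m2 : (M U x d : ℝ) ≤ M U x (q j) := by exact_mod_cast M_mono U x h2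
    have fp1 := (hAd (p j) (hpq j).1).1
    have fq1 := (hAd (q j) (hpq j).2).2 A Subset.rfl hself
    have fd1 := (hAd d hd).1
    have fd2 := (hAd d hd).2 A Subset.rfl hself
    have l1 := logb_nbr_mono hA h1
    have l2 := logb_nbr_mono hA h2
    have l3 : Real.logb 2 (nbr A (q j)).card ≤ Real.logb 2 (nbr A (p j)).card + h + 1 := by
      have hq0 := TD.nbr_card_pos hA (q j)
      have hp0 := TD.nbr_card_pos hA (p j)
      have t1 : Real.logb 2 (nbr A (q j)).card ≤ Nat.log 2 (nbr A (q j)).card + 1 :=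
        NL_logb_lt hq0 (Nat.lt_pow_succ_log_self (by norm_num) _)
      have t2 : (Nat.log 2 (nbr A (p j)).card : ℝ) ≤ Real.logb 2 (nbr A (p j)).card := by
        rw [Real.le_logb_iff_rpow_le (by norm_num) (by exact_mod_cast hp0), Real.rpow_natCast]
        exact_mod_cast Nat.pow_log_le_self 2 hp0.ne'
      have t3 : (Nat.log 2 (nbr A (q j)).card : ℝ) ≤ Nat.log 2 (nbr A (p j)).card + h := by
        exact_mod_cast h3.le
      linarith
    have j1 := (abs_le.1 i1).1
    have j2 := (abs_le.1 i2).2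
    have hexp : (5 * c + 11) * R = 5 * c * R + 11 * R := by ring
    rw [hexp, abs_le]
    constructor
    · linarith
    · linarith

theorem fin_nec {U : List Bool →. List Bool} (hU : Optimal U) :
    ∃ c : ℝ, 0 ≤ c ∧ ∀ n : ℕ, 2 ≤ n → ∀ D : Finset ℕ, D.Nonempty → (∀ d ∈ D, d ≤ n) →
      ∀ (f : ℕ → ℕ) (S : ℝ) (x : Fin n → Bool), (∀ d ∈ D, |(M U x d : ℝ) - f d| ≤ S) →
      RobustOn n D f (S + c * (D.card * Real.log n)) ∧
      RobustOn n D f (S + c * Real.sqrt (n * Real.log n)) := by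
  obtain ⟨c, hc0, hc⟩ := nec_real hU
  obtain ⟨c₀, hc₀⟩ := C_le_length hU
  refine ⟨5 * c + 2 * (c₀ + 5), by positivity, fun n hn D hDne hD f S x hx => ?_⟩
  have hl1 := one_le_log hn
  have hl0 : 0 ≤ Real.log n := by linarith
  constructor
  · have hk1 : (1 : ℝ) ≤ D.card := by exact_mod_cast card_pos.2 hDne
    obtain ⟨A, hA, hAi⟩ := hc n D.card hn (card_le_of_le hD)
      (fun i => (D.equivFin.symm i : ℕ)) (fun i => f (D.equivFin.symm i : ℕ))
      (fun i => hD _ (D.equivFin.symm i).2) S x (fun i => hx _ (D.equivFin.symm i).2)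
    have h3 : c * ((D.card : ℝ) + 1) * Real.log n ≤
        (5 * c + 2 * (c₀ + 5)) * ((D.card : ℝ) * Real.log n) := by
      have h2 : 0 ≤ (D.card : ℝ) * Real.log n := by positivity
      have e1 : c * ((D.card : ℝ) + 1) * Real.log n =
        c * (D.card * Real.log n) + c * (1 * Real.log n) := by ring
      have h4 : c * (1 * Real.log n) ≤ c * (D.card * Real.log n) :=
        mul_le_mul_of_nonneg_left (mul_le_mul_of_nonneg_right hk1 hl0) hc0
      have h5 : 0 ≤ c * ((D.card : ℝ) * Real.log n) := by positivity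
      have h6 : (5 * c + 2 * ((c₀ : ℝ) + 5)) * ((D.card : ℝ) * Real.log n) =
        5 * (c * (D.card * Real.log n)) + 2 * (c₀ + 5) * (D.card * Real.log n) := by ring
      have h7 : 0 ≤ 2 * ((c₀ : ℝ) + 5) * (D.card * Real.log n) := by positivity
      rw [e1, h6]
      linarith
    refine ⟨A, hA, fun d hd => ?_⟩
    have h1 := hAi (D.equivFin ⟨d, hd⟩)
    simp only [Equiv.symm_apply_apply] at h1
    refine ⟨by linarith [h1.1], fun A' hA' hcard => by linarith [h1.2 A' hA' hcard]⟩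
  · obtain ⟨h, K, hpos, hK, hKn, hh, hK2, -⟩ := choose_h c₀ n hn
    obtain ⟨r1, -, -⟩ := sqrt_facts hn
    set R := Real.sqrt (n * Real.log n) with hR
    have hM : ∀ d ∈ D, M U x d ≤ n + c₀ := by
      intro d _
      apply M_le
      intro y _
      have := hc₀ (List.ofFn y)
      rwa [List.length_ofFn] at this
    obtain ⟨a, b, hab, hlev⟩ := levelsOn D hDne (n + c₀) h hpos (fun d => M U x d) hM
    obtain ⟨A, hA, hAi⟩ := hc n (2 * K) hn hKn
      (fun i => if (i : ℕ) < K then a i else b (i - K))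
      (fun i => M U x (if (i : ℕ) < K then a i else b (i - K)))
      (fun i => hD _ (rad_mem hab K i)) 0 x (fun i => by simp)
    have herr : c * (((2 * K : ℕ) : ℝ) + 1) * Real.log n ≤ 5 * c * R := by
      have e1 : c * (((2 * K : ℕ) : ℝ) + 1) * Real.log n =
          c * ((2 * (K : ℝ) + 1) * Real.log n) := by push_cast; ring
      rw [e1]
      calc c * ((2 * (K : ℝ) + 1) * Real.log n) ≤ c * (5 * R) :=
            mul_le_mul_of_nonneg_left hK2 hc0
        _ = 5 * c * R := by ring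
    refine ⟨A, hA, fun d hd => ?_⟩
    obtain ⟨j, hj, h1, h2, h3⟩ := hlev d hd
    rw [← hK] at hj
    have i1 := hAi ⟨j, by omega⟩
    have i2 := hAi ⟨K + j, by omega⟩
    simp only [hj, if_true, if_neg (show ¬ K + j < K by omega), Nat.add_sub_cancel_left]
      at i1 i2
    have m1 : (M U x (a j) : ℝ) ≤ M U x d := by exact_mod_cast M_mono U x h1
    have m2 : (M U x d : ℝ) ≤ M U x (b j) := by exact_mod_cast M_mono U x h2
    have m3 : (M U x (b j) : ℝ) ≤ M U x (a j) + h := by
      have : M U x (b j) ≤ M U x (a j) + h := h3.le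
      exact_mod_cast this
    have hxd := abs_le.1 (hx d hd)
    have hexp : (5 * c + 2 * ((c₀ : ℝ) + 5)) * R = 5 * c * R + 2 * (c₀ + 5) * R := by ring
    rw [hexp]
    constructor
    · have u1 := logb_nbr_mono hA h2
      have u2 := i2.1
      linarith [hxd.2]
    · intro A' hA' hcard
      have u1 := logb_nbr_mono (nonempty_of_large hA hcard) h1
      have u2 := i1.2 A' hA' hcard
      linarith [hxd.1]

/-- The values of `M` at any set `D` of radii, up to `O(min (|D| log n) (√(n log n)))`. -/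
theorem radii {U : List Bool →. List Bool} (hU : Optimal U) :
    ∃ c : ℝ, 0 ≤ c ∧ ∀ n : ℕ, 2 ≤ n → ∀ D : Finset ℕ, (∀ d ∈ D, d ≤ n) →
      ∀ (f : ℕ → ℕ) (S : ℝ),
      (RobustOn n D f S → ∃ x : Fin n → Bool, ∀ d ∈ D, |(M U x d : ℝ) - f d| ≤
        3 * S + c * min (D.card * Real.log n) (Real.sqrt (n * Real.log n))) ∧
      ((∃ x : Fin n → Bool, ∀ d ∈ D, |(M U x d : ℝ) - f d| ≤ S) → RobustOn n D f
        (S + c * min (D.card * Real.log n) (Real.sqrt (n * Real.log n)))) := by
  obtain ⟨c₁, h10, hc1⟩ := fin_suff hU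
  obtain ⟨c₂, h20, hc2⟩ := fin_nec hU
  refine ⟨c₁ + c₂, by positivity, fun n hn D hD f S => ?_⟩
  have hl1 := one_le_log hn
  have hl0 : 0 ≤ Real.log n := by linarith
  rcases D.eq_empty_or_nonempty with he | hne
  · subst he
    exact ⟨fun _ => ⟨fun _ => false, fun d hd => absurd hd (notMem_empty d)⟩,
      fun _ => ⟨univ, univ_nonempty, fun d hd => absurd hd (notMem_empty d)⟩⟩
  · have hmono : ∀ {s s' : ℝ}, s ≤ s' → RobustOn n D f s → RobustOn n D f s' := by
      rintro s s' hs ⟨A, hA, h⟩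
      exact ⟨A, hA, fun d hd => ⟨(h d hd).1.trans (by linarith),
        fun A' hA' hcard => le_trans (by linarith) ((h d hd).2 A' hA' hcard)⟩⟩
    rcases le_total ((D.card : ℝ) * Real.log n) (Real.sqrt (n * Real.log n)) with hm | hm
    · rw [min_eq_left hm]
      have hq : 0 ≤ (D.card : ℝ) * Real.log n := by positivity
      refine ⟨fun hf => ?_, fun ⟨x, hx⟩ => ?_⟩
      · obtain ⟨x, hx⟩ := (hc1 n hn D hne hD f S hf).1
        refine ⟨x, fun d hd => (hx d hd).trans ?_⟩
        have := mul_nonneg h20 hq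
        have e : (c₁ + c₂) * (D.card * Real.log n) =
          c₁ * (D.card * Real.log n) + c₂ * (D.card * Real.log n) := by ring
        rw [e]
        linarith
      · refine hmono ?_ (hc2 n hn D hne hD f S x hx).1
        have := mul_nonneg h10 hq
        have e : (c₁ + c₂) * (D.card * Real.log n) =
          c₁ * (D.card * Real.log n) + c₂ * (D.card * Real.log n) := by ring
        rw [e]
        linarith
    · rw [min_eq_right hm]
      have hq : 0 ≤ Real.sqrt (n * Real.log n) := Real.sqrt_nonneg _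
      refine ⟨fun hf => ?_, fun ⟨x, hx⟩ => ?_⟩
      · obtain ⟨x, hx⟩ := (hc1 n hn D hne hD f S hf).2
        refine ⟨x, fun d hd => (hx d hd).trans ?_⟩
        have := mul_nonneg h20 hq
        have e : (c₁ + c₂) * Real.sqrt (n * Real.log n) =
          c₁ * Real.sqrt (n * Real.log n) + c₂ * Real.sqrt (n * Real.log n) := by ring
        rw [e]
        linarith
      · refine hmono ?_ (hc2 n hn D hne hD f S x hx).2
        have := mul_nonneg h10 hq
        have e : (c₁ + c₂) * Real.sqrt (n * Real.log n) =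
          c₁ * Real.sqrt (n * Real.log n) + c₂ * Real.sqrt (n * Real.log n) := by ring
        rw [e]
        linarith

end Pool.Agent.Lib.MP_f4f1a8_lc.KR
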