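import Mathlib

/-! MP_f4f1a8_lc: a function on a set of radii, written as a string. -/

namespace Pool.Agent.Lib.MP_f4f1a8_lc.KR

/-- For `d = 0, …, n`: `f d + 1` ones if `d ∈ D`, then a zero. -/
def str (n : ℕ) (D : Finset ℕ) (f : ℕ → ℕ) : List Bool :=
  (List.range (n + 1)).flatMap
    (fun d => List.replicate (if d ∈ D then f d + 1 else 0) true ++ [false])

/-- one letter more: the state is (number of the block, number of ones in block `d`) -/
def stp (d : ℕ) (s : ℕ × ℕ) (b : Bool) : ℕ × ℕ :=
  if b = true then (s.1, if s.1 = d then s.2 + 1 else s.2) else (s.1 + 1, s.2)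

/-- number of ones in block `d` -/
def blk (z : List Bool) (d : ℕ) : ℕ := (z.foldl (stp d) (0, 0)).2

theorem primrec_blk : Primrec₂ blk := by
  have hs1 : Primrec (fun q : (List Bool × ℕ) × ((ℕ × ℕ) × Bool) => q.2.1.1) :=
    Primrec.fst.comp (Primrec.fst.comp Primrec.snd)
  have hs2 : Primrec (fun q : (List Bool × ℕ) × ((ℕ × ℕ) × Bool) => q.2.1.2) :=
    Primrec.snd.comp (Primrec.fst.comp Primrec.snd)
  have hd : Primrec (fun q : (List Bool × ℕ) × ((ℕ × ℕ) × Bool) => q.1.2) :=
    Primrec.snd.comp Primrec.fst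
  have hb : Primrec (fun q : (List Bool × ℕ) × ((ℕ × ℕ) × Bool) => q.2.2) :=
    Primrec.snd.comp Primrec.snd
  have hh : Primrec₂ (fun (a : List Bool × ℕ) (q : (ℕ × ℕ) × Bool) => stp a.2 q.1 q.2) := by
    refine Primrec.ite (Primrec.eq.comp hb (Primrec.const true)) ?_ ?_
    · exact hs1.pair (Primrec.ite (Primrec.eq.comp hs1 hd) (Primrec.succ.comp hs2) hs2)
    · exact (Primrec.succ.comp hs1).pair hs2
  have h : Primrec (fun a : List Bool × ℕ => (a.1.foldl (stp a.2) (0, 0)).2) :=
    Primrec.snd.comp (Primrec.list_foldl Primrec.fst (Primrec.const (0, 0)) hh)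
  exact h

theorem foldl_ones (d c r k : ℕ) :
    (List.replicate k true).foldl (stp d) (c, r) = (c, if c = d then r + k else r) := by
  induction k generalizing r with
  | zero => simp
  | succ k ih =>
    rw [List.replicate_succ, List.foldl_cons]
    have h : stp d (c, r) true = (c, if c = d then r + 1 else r) := by simp [stp]
    rw [h, ih]
    split_ifs <;> simp <;> omega

theorem foldl_block (d c r k : ℕ) :
    (List.replicate k true ++ [false]).foldl (stp d) (c, r) =
      (c + 1, if c = d then r + k else r) := by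
  rw [List.foldl_append, foldl_ones]
  simp [stp]

/-- the state after `m` blocks -/
theorem foldl_blocks (e : ℕ → ℕ) (d m : ℕ) :
    ((List.range m).flatMap (fun i => List.replicate (e i) true ++ [false])).foldl (stp d) (0, 0) =
      (m, if d < m then e d else 0) := by
  induction m with
  | zero => simp
  | succ m ih =>
    rw [List.range_succ, List.flatMap_append, List.foldl_append, ih]
    simp only [List.flatMap_cons, List.flatMap_nil, List.append_nil]
    rw [foldl_block]
    rcases Nat.lt_trichotomy d m with h | h | h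
    · rw [if_neg (by omega), if_pos h, if_pos (by omega)]
    · subst h
      rw [if_pos rfl, if_neg (by omega), if_pos (by omega), zero_add]
    · rw [if_neg (by omega), if_neg (by omega), if_neg (by omega)]

theorem blk_str {n d : ℕ} (D : Finset ℕ) (f : ℕ → ℕ) (hd : d ≤ n) :
    blk (str n D f) d = if d ∈ D then f d + 1 else 0 := by
  unfold blk str
  rw [foldl_blocks (fun d => if d ∈ D then f d + 1 else 0) d (n + 1)]
  exact if_pos (by omega)

theorem blk_str_gt {n d : ℕ} (D : Finset ℕ) (f : ℕ → ℕ) (hd : n < d) :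
    blk (str n D f) d = 0 := by
  unfold blk str
  rw [foldl_blocks (fun d => if d ∈ D then f d + 1 else 0) d (n + 1)]
  exact if_neg (by omega)

/-- number of blocks -/
def nblk (z : List Bool) : ℕ := (z.foldl (stp 0) (0, 0)).1

theorem primrec_nblk : Primrec nblk := by
  have hs1 : Primrec (fun q : List Bool × ((ℕ × ℕ) × Bool) => q.2.1.1) :=
    Primrec.fst.comp (Primrec.fst.comp Primrec.snd)
  have hs2 : Primrec (fun q : List Bool × ((ℕ × ℕ) × Bool) => q.2.1.2) :=
    Primrec.snd.comp (Primrec.fst.comp Primrec.snd)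
  have hb : Primrec (fun q : List Bool × ((ℕ × ℕ) × Bool) => q.2.2) :=
    Primrec.snd.comp Primrec.snd
  have hh : Primrec₂ (fun (_ : List Bool) (q : (ℕ × ℕ) × Bool) => stp 0 q.1 q.2) := by
    refine Primrec.ite (Primrec.eq.comp hb (Primrec.const true)) ?_ ?_
    · exact hs1.pair (Primrec.ite (Primrec.eq.comp hs1 (Primrec.const 0))
        (Primrec.succ.comp hs2) hs2)
    · exact (Primrec.succ.comp hs1).pair hs2
  exact Primrec.fst.comp (Primrec.list_foldl Primrec.id (Primrec.const (0, 0)) hh)

theorem nblk_str (n : ℕ) (D : Finset ℕ) (f : ℕ → ℕ) : nblk (str n D f) = n + 1 := by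
  unfold nblk str
  rw [foldl_blocks (fun d => if d ∈ D then f d + 1 else 0) 0 (n + 1)]

end Pool.Agent.Lib.MP_f4f1a8_lc.KR
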