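import Pool.Agent.Lib.MP_f4f1a8_lc.Real
import Pool.Agent.Lib.MP_f4f1a8_lc.KR.SuffA

/-! MP_f4f1a8_lc, KR: sufficiency with separate lower and upper bounds (helper79). -/

namespace Pool.Agent.Lib.MP_f4f1a8_lc.KR

open Finset SelectAux

namespace S79

theorem nbr_pos {n : ℕ} {T : Finset (Fin n → Bool)} (hT : T.Nonempty) (d : ℕ) :
    0 < (nbr T d).card := by
  obtain ⟨x, hx⟩ := hT
  exact Finset.card_pos.2 ⟨x, mem_nbr.2 ⟨x, hx, by simp⟩⟩

theorem nbr_le_pow {n : ℕ} (T : Finset (Fin n → Bool)) (d : ℕ) : (nbr T d).card ≤ 2 ^ n := by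
  refine (card_le_univ _).trans ?_
  simp

/-- A point of a robust set with complex points in all its balls. -/
theorem exists_complex {U : List Bool →. List Bool} (hU : Optimal U) {n k : ℕ} (hk : k ≤ n + 1)
    {d u l : Fin k → ℕ} {T : Finset (Fin n → Bool)} (hT : RobN d u l T) :
    ∃ x ∈ T, ∀ i, l i ≤ M U x (d i) := by
  classical
  by_contra hcon
  push Not at hcon
  have hTpos : 0 < T.card := Finset.card_pos.2 hT.1
  have h1 : ∀ i, 2 * (n + 1) * (T.filter fun x => M U x (d i) < l i).card < T.card := by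
    intro i
    by_contra h
    push Not at h
    have h2 := (hT.2 i).2 _ (filter_subset _ _) h
    have h3 : (nbr (T.filter fun x => M U x (d i) < l i) (d i)).card < 2 ^ l i := by
      apply card_lt_of_C hU
      intro y hy
      obtain ⟨x, hx, hxy⟩ := mem_nbr.1 hy
      exact lt_of_le_of_lt (le_M hxy) (mem_filter.1 hx).2
    omega
  have h2 : T ⊆ univ.biUnion fun i => T.filter fun x => M U x (d i) < l i := by
    intro x hx
    obtain ⟨i, hi⟩ := hcon x hx
    exact mem_biUnion.2 ⟨i, mem_univ _, mem_filter.2 ⟨hx, hi⟩⟩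
  have h3 := (card_le_card h2).trans card_biUnion_le
  have h4 : 2 * (n + 1) * T.card ≤ k * T.card := by
    calc 2 * (n + 1) * T.card ≤
        2 * (n + 1) * ∑ i : Fin k, (T.filter fun x => M U x (d i) < l i).card :=
          Nat.mul_le_mul_left _ h3
      _ = ∑ i : Fin k, 2 * (n + 1) * (T.filter fun x => M U x (d i) < l i).card := mul_sum _ _ _
      _ ≤ ∑ _i : Fin k, T.card := sum_le_sum fun i _ => (h1 i).le
      _ = k * T.card := by rw [sum_const, card_univ, Fintype.card_fin, smul_eq_mul]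
  have h5 : 2 * (n + 1) ≤ k := Nat.le_of_mul_le_mul_right h4 hTpos
  omega

end S79

open S79

/-- Sufficiency with natural numbers as bounds. -/
theorem suff_nat {U : List Bool →. List Bool} (hU : Optimal U) :
    ∃ c : ℕ, ∀ (n k s : ℕ) (d u l : Fin k → ℕ) (A : Finset (Fin n → Bool)), k ≤ n + 1 →
      n < 2 ^ s → k < 2 ^ s → (∀ i, d i < 2 ^ s ∧ u i < 2 ^ s ∧ l i < 2 ^ s) → RobN d u l A →
      ∃ x : Fin n → Bool, ∀ i, l i ≤ M U x (d i) ∧
        M U x (d i) ≤ u i + c * (k + 1) * (s + 1) := by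
  obtain ⟨c, hc⟩ := descr_rob hU
  refine ⟨c, fun n k s d u l A hkn hn hk hb hA => ?_⟩
  obtain ⟨T, hT, hdes⟩ := hc n k s d u l A hn hk hb hA
  obtain ⟨x, hxT, hx⟩ := exists_complex hU hkn hT
  exact ⟨x, fun i => ⟨hx i, M_le fun y hy => hdes i y (mem_nbr.2 ⟨x, hxT, hy⟩)⟩⟩

/-- Sufficiency with separate real bounds: if `logb 2 |A + B(d i)| ≤ β i` and
`α i ≤ logb 2 |A' + B(d i)|` for all large subsets `A'`, then some `x` has
`α i - 1 ≤ M (d i) ≤ β i + c (k + 1) log n`. -/
theorem suff_two {U : List Bool →. List Bool} (hU : Optimal U) :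
    ∃ c : ℝ, 0 ≤ c ∧ ∀ n k : ℕ, 2 ≤ n → k ≤ n + 1 → ∀ d : Fin k → ℕ, (∀ i, d i ≤ n) →
      ∀ (α β : Fin k → ℝ) (A : Finset (Fin n → Bool)), A.Nonempty →
      (∀ i, Real.logb 2 (nbr A (d i)).card ≤ β i ∧
        ∀ A' ⊆ A, A.card ≤ 2 * (n + 1) * A'.card → α i ≤ Real.logb 2 (nbr A' (d i)).card) →
      ∃ x : Fin n → Bool, ∀ i, α i - 1 ≤ M U x (d i) ∧
        (M U x (d i) : ℝ) ≤ β i + c * (k + 1) * Real.log n := by
  classical
  obtain ⟨c₁, hc₁⟩ := suff_nat hU
  obtain ⟨cs, hcs0, hcs⟩ := NL_exists_s 1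
  refine ⟨2 + c₁ * (cs + 2), by positivity, ?_⟩
  intro n k hn hk d hd α β A hA hAi
  obtain ⟨s, hs, hs'⟩ := hcs n hn
  have hl1 := one_le_log hn
  have hl0 : 0 ≤ Real.log n := by linarith
  have hApos : 0 < A.card := Finset.card_pos.2 hA
  set u : Fin k → ℕ := fun i => min n ⌈β i⌉₊ with hu
  set l : Fin k → ℕ := fun i => ⌊α i⌋₊ with hl
  have hrob : RobN d u l A := by
    refine ⟨hA, fun i => ⟨?_, fun A' hA' hc => ?_⟩⟩
    · rw [hu]
      rcases le_total n ⌈β i⌉₊ with h | h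
      · simp only [min_eq_left h]
        exact nbr_le_pow A _
      · simp only [min_eq_right h]
        have hp := nbr_pos hA (d i)
        have h1 := (hAi i).1
        have h2 : Real.logb 2 (nbr A (d i)).card ≤ ((⌈β i⌉₊ : ℕ) : ℝ) :=
          h1.trans (Nat.le_ceil _)
        rw [Real.logb_le_iff_le_rpow (by norm_num) (by exact_mod_cast hp),
          Real.rpow_natCast] at h2
        exact_mod_cast h2
    · have hA'pos : 0 < A'.card := by
        rcases Nat.eq_zero_or_pos A'.card with h | h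
        · rw [h, mul_zero] at hc
          omega
        · exact h
      have hp := nbr_pos (Finset.card_pos.1 hA'pos) (d i)
      rcases lt_or_ge (α i) 0 with h | h
      · have h0 : l i = 0 := by
          rw [hl]
          exact Nat.floor_of_nonpos h.le
        rw [h0, pow_zero]
        exact hp
      · have h1 := (hAi i).2 A' hA' hc
        have h2 : ((⌊α i⌋₊ : ℕ) : ℝ) ≤ Real.logb 2 (nbr A' (d i)).card :=
          (Nat.floor_le h).trans h1
        rw [Real.le_logb_iff_rpow_le (by norm_num) (by exact_mod_cast hp),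
          Real.rpow_natCast] at h2
        exact_mod_cast h2
  have hun : ∀ i, u i ≤ n := fun i => min_le_left _ _
  have hln : ∀ i, l i ≤ n := by
    intro i
    have h1 := (hrob.2 i).2 A (Finset.Subset.refl A) (by nlinarith)
    have h2 := h1.trans (nbr_le_pow A (d i))
    exact (Nat.pow_le_pow_iff_right (by norm_num)).1 h2
  obtain ⟨x, hx⟩ := hc₁ n k s d u l A hk (by omega) (by omega)
    (fun i => ⟨by have := hd i; omega, by have := hun i; omega, by have := hln i; omega⟩) hrob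
  refine ⟨x, fun i => ?_⟩
  have hup' : (M U x (d i) : ℝ) ≤ u i + c₁ * (k + 1) * (s + 1) := by exact_mod_cast (hx i).2
  have hβ0 : 0 ≤ β i :=
    (Real.logb_nonneg (by norm_num) (by exact_mod_cast nbr_pos hA (d i))).trans (hAi i).1
  have hui : (u i : ℝ) ≤ β i + 1 := by
    have h1 : u i ≤ ⌈β i⌉₊ := min_le_right _ _
    have h2 : (u i : ℝ) ≤ ((⌈β i⌉₊ : ℕ) : ℝ) := by exact_mod_cast h1
    exact h2.trans (Nat.ceil_lt_add_one hβ0).le
  have hli : α i - 1 ≤ l i := by
    have := Nat.lt_floor_add_one (α i)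
    have h2 : ((⌊α i⌋₊ : ℕ) : ℝ) = l i := rfl
    linarith
  have hlM : (l i : ℝ) ≤ M U x (d i) := by exact_mod_cast (hx i).1
  have hk1 : (1 : ℝ) ≤ (k : ℝ) + 1 := by
    have : (0 : ℝ) ≤ k := by positivity
    linarith
  have hkl : (1 : ℝ) ≤ (k + 1) * (2 * Real.log n) := by nlinarith
  have hs1 : (s : ℝ) + 1 ≤ (cs + 2) * Real.log n := by nlinarith
  have hfin : (c₁ : ℝ) * (k + 1) * (s + 1) ≤ c₁ * (k + 1) * ((cs + 2) * Real.log n) :=
    mul_le_mul_of_nonneg_left hs1 (by positivity)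
  have hexp : (2 + c₁ * (cs + 2)) * ((k : ℝ) + 1) * Real.log n =
      (k + 1) * (2 * Real.log n) + c₁ * (k + 1) * ((cs + 2) * Real.log n) := by ring
  rw [hexp]
  constructor
  · linarith
  · linarith

end Pool.Agent.Lib.MP_f4f1a8_lc.KR
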