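import Pool.Agent.Lib.MP_f4f1a8_lc.KR.OnSetS
import Pool.Agent.Lib.MP_f4f1a8_lc.KR.SuffTwo
import Pool.Agent.Lib.MP_f4f1a8_lc.KR.Str

/-! MP_f4f1a8_lc, row FinZ (helper7): three bounds for the error. -/

namespace Pool.Agent.Lib.MP_f4f1a8_lc.KR

open Finset SelectAux

/-- From the error `min (|D| log n) (√(n log n))` and the error `κ n D f` to the minimum. -/
theorem fin_three {U : List Bool →. List Bool} (κ : ℕ → Finset ℕ → (ℕ → ℕ) → ℝ)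
    (hκ : ∀ n D f, 2 ≤ n → 0 ≤ κ n D f)
    (hA : ∃ c : ℝ, 0 ≤ c ∧ ∀ n : ℕ, 2 ≤ n → ∀ D : Finset ℕ, (∀ d ∈ D, d ≤ n) →
      ∀ (f : ℕ → ℕ) (S : ℝ),
      (RobustOn n D f S → ∃ x : Fin n → Bool, ∀ d ∈ D, |(M U x d : ℝ) - f d| ≤
        S + c * min (D.card * Real.log n) (Real.sqrt (n * Real.log n))) ∧
      ((∃ x : Fin n → Bool, ∀ d ∈ D, |(M U x d : ℝ) - f d| ≤ S) →
        RobustOn n D f
          (S + c * min (D.card * Real.log n) (Real.sqrt (n * Real.log n)))))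
    (hs : ∃ c : ℝ, 0 ≤ c ∧ ∀ n : ℕ, 2 ≤ n → ∀ D : Finset ℕ, (∀ d ∈ D, d ≤ n) →
      ∀ (f : ℕ → ℕ) (S : ℝ), RobustOn n D f S →
      ∃ x : Fin n → Bool, ∀ d ∈ D, |(M U x d : ℝ) - f d| ≤ S + c * κ n D f)
    (hn : ∃ c : ℝ, 0 ≤ c ∧ ∀ n : ℕ, 2 ≤ n → ∀ D : Finset ℕ, (∀ d ∈ D, d ≤ n) →
      ∀ (f : ℕ → ℕ) (S : ℝ) (x : Fin n → Bool), (∀ d ∈ D, |(M U x d : ℝ) - f d| ≤ S) →
      RobustOn n D f (S + c * κ n D f)) :
    ∃ c : ℝ, 0 ≤ c ∧ ∀ n : ℕ, 2 ≤ n → ∀ D : Finset ℕ, (∀ d ∈ D, d ≤ n) →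
      ∀ (f : ℕ → ℕ) (S : ℝ),
      (RobustOn n D f S → ∃ x : Fin n → Bool, ∀ d ∈ D, |(M U x d : ℝ) - f d| ≤
        S + c * min (min (D.card * Real.log n) (Real.sqrt (n * Real.log n))) (κ n D f)) ∧
      ((∃ x : Fin n → Bool, ∀ d ∈ D, |(M U x d : ℝ) - f d| ≤ S) →
        RobustOn n D f (S + c *
          min (min (D.card * Real.log n) (Real.sqrt (n * Real.log n))) (κ n D f))) := by
  obtain ⟨c₀, h0, h0'⟩ := hA
  obtain ⟨c₁, h1, h1'⟩ := hs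
  obtain ⟨c₂, h2, h2'⟩ := hn
  refine ⟨c₀ + c₁ + c₂, by positivity, fun n hn D hD f S => ?_⟩
  have hl1 := one_le_log hn
  have hl0 : 0 ≤ Real.log (n : ℝ) := by linarith
  have hmono : ∀ {s s' : ℝ}, s ≤ s' → RobustOn n D f s → RobustOn n D f s' := by
    rintro s s' hs ⟨A, hA, h⟩
    exact ⟨A, hA, fun d hd => ⟨(h d hd).1.trans (by linarith),
      fun A' hA' hcard => le_trans (by linarith) ((h d hd).2 A' hA' hcard)⟩⟩
  set E := min ((D.card : ℝ) * Real.log n) (Real.sqrt (n * Real.log n)) with hE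
  have hE0 : 0 ≤ E := le_min (by positivity) (Real.sqrt_nonneg _)
  have hk0 := hκ n D f hn
  rcases le_total E (κ n D f) with hm | hm
  · rw [min_eq_left hm]
    have e : (c₀ + c₁ + c₂) * E = c₀ * E + (c₁ * E + c₂ * E) := by ring
    have e1 := mul_nonneg h1 hE0
    have e2 := mul_nonneg h2 hE0
    rw [e]
    refine ⟨fun hf => ?_, fun hx => ?_⟩
    · obtain ⟨x, hx⟩ := (h0' n hn D hD f S).1 hf
      exact ⟨x, fun d hd => (hx d hd).trans (by linarith)⟩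
    · exact hmono (by linarith) ((h0' n hn D hD f S).2 hx)
  · rw [min_eq_right hm]
    have e : (c₀ + c₁ + c₂) * κ n D f =
      c₀ * κ n D f + (c₁ * κ n D f + c₂ * κ n D f) := by ring
    have e0 := mul_nonneg h0 hk0
    have e1 := mul_nonneg h1 hk0
    have e2 := mul_nonneg h2 hk0
    rw [e]
    refine ⟨fun hf => ?_, fun ⟨x, hx⟩ => ?_⟩
    · obtain ⟨x, hx⟩ := h1' n hn D hD f S hf
      exact ⟨x, fun d hd => (hx d hd).trans (by linarith)⟩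
    · exact hmono (by linarith) (h2' n hn D hD f S x hx)

/-- The final form, from the two directions with the error `C(f|D) + log n`. -/
theorem radii_three {U : List Bool →. List Bool} (hU : Optimal U)
    (hs : ∃ c : ℝ, 0 ≤ c ∧ ∀ n : ℕ, 2 ≤ n → ∀ D : Finset ℕ, (∀ d ∈ D, d ≤ n) →
      ∀ (f : ℕ → ℕ) (S : ℝ), RobustOn n D f S →
      ∃ x : Fin n → Bool, ∀ d ∈ D,
        |(M U x d : ℝ) - f d| ≤ S + c * ((C U (str n D f) : ℝ) + Real.log n))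
    (hn : ∃ c : ℝ, 0 ≤ c ∧ ∀ n : ℕ, 2 ≤ n → ∀ D : Finset ℕ, (∀ d ∈ D, d ≤ n) →
      ∀ (f : ℕ → ℕ) (S : ℝ) (x : Fin n → Bool), (∀ d ∈ D, |(M U x d : ℝ) - f d| ≤ S) →
      RobustOn n D f (S + c * ((C U (str n D f) : ℝ) + Real.log n))) :
    ∃ c : ℝ, 0 ≤ c ∧ ∀ n : ℕ, 2 ≤ n → ∀ D : Finset ℕ, (∀ d ∈ D, d ≤ n) →
      ∀ (f : ℕ → ℕ) (S : ℝ),
      (RobustOn n D f S → ∃ x : Fin n → Bool, ∀ d ∈ D, |(M U x d : ℝ) - f d| ≤
        S + c * min (min (D.card * Real.log n) (Real.sqrt (n * Real.log n)))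
          ((C U (str n D f) : ℝ) + Real.log n)) ∧
      ((∃ x : Fin n → Bool, ∀ d ∈ D, |(M U x d : ℝ) - f d| ≤ S) → RobustOn n D f
        (S + c * min (min (D.card * Real.log n) (Real.sqrt (n * Real.log n)))
          ((C U (str n D f) : ℝ) + Real.log n))) := by
  refine fin_three (fun n D f => (C U (str n D f) : ℝ) + Real.log n) ?_
    (main_of hU (nec_real hU) (suff_two hU)) hs hn
  intro n D f hn
  have hl1 := one_le_log hn
  have : (0 : ℝ) ≤ C U (str n D f) := Nat.cast_nonneg _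
  linarith

end Pool.Agent.Lib.MP_f4f1a8_lc.KR
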