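import Pool.Agent.Lib.MP_f4f1a8_lc.Basic
import Pool.Agent.Lib.MP_f4f1a8_lc.Descr
import Pool.Agent.Lib.MP_f4f1a8_lc.PCode

/-! MP_f4f1a8_lc, row Kept in the form uniform in the number of parts: typical tuples. -/

namespace Pool.Agent.Lib.MP_f4f1a8_lc.KR

open Finset Descr

namespace KU

/-- A new string with the `i`-th part `z` appears at stage `m` (`b` is `(p, i, z)`). -/
def Hit (Q : ℕ → List Bool → ℕ → Prop) (π : ℕ → List Bool → List Bool) (m : ℕ)
    (b : ℕ × ℕ × List Bool) : Prop := New Q b.1 m ∧ π (Nat.pair b.1 b.2.1) (yy m) = b.2.2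

open Classical in
/-- The number of new strings with the `i`-th part `z` before stage `m`. -/
noncomputable def ct (Q : ℕ → List Bool → ℕ → Prop) (π : ℕ → List Bool → List Bool)
    (b : ℕ × ℕ × List Bool) (m : ℕ) : ℕ :=
  ((List.range m).filter (fun m' => Hit Q π m' b)).length

variable {Q : ℕ → List Bool → ℕ → Prop} {π : ℕ → List Bool → List Bool} {γ : ℕ → ℕ → ℕ}

lemma primrec_hit (hQ : PrimrecPred fun a : ℕ × List Bool × ℕ => Q a.1 a.2.1 a.2.2)
    (hπ : Primrec₂ π) : PrimrecRel (Hit Q π) := by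
  have h1 : PrimrecRel (fun (m : ℕ) (b : ℕ × ℕ × List Bool) => New Q b.1 m) :=
    (primrec_new hQ).comp (Primrec.fst.comp Primrec.snd) Primrec.fst
  have h2 : PrimrecRel (fun (m : ℕ) (b : ℕ × ℕ × List Bool) =>
      π (Nat.pair b.1 b.2.1) (yy m) = b.2.2) :=
    Primrec.eq.comp (hπ.comp (Primrec₂.natPair.comp (Primrec.fst.comp Primrec.snd)
      (Primrec.fst.comp (Primrec.snd.comp Primrec.snd)))
      (primrec_yy.comp Primrec.fst)) (Primrec.snd.comp (Primrec.snd.comp Primrec.snd))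
  exact h1.and h2

lemma primrec_ct (hQ : PrimrecPred fun a : ℕ × List Bool × ℕ => Q a.1 a.2.1 a.2.2)
    (hπ : Primrec₂ π) : Primrec₂ (ct Q π) := by
  classical
  have h2 := PrimrecRel.listFilter (primrec_hit hQ hπ)
  have h3 : Primrec₂ (fun (b : ℕ × ℕ × List Bool) (m : ℕ) =>
      ((List.range m).filter (fun m' => Hit Q π m' b))) :=
    h2.comp₂ (Primrec.list_range.comp Primrec.snd) Primrec.fst
  exact (Primrec.list_length.comp h3)

lemma ct_eq (b : ℕ × ℕ × List Bool) (m : ℕ) [DecidablePred (fun m' => Hit Q π m' b)] :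
    ct Q π b m = ((Finset.range m).filter (fun m' => Hit Q π m' b)).card := by
  classical
  unfold ct
  rw [Finset.card_def, Finset.filter_val, Finset.range_val, Multiset.range,
    Multiset.filter_coe, Multiset.coe_card]
  congr 1
  apply List.filter_congr
  intro x _
  simp

lemma ct_le {p i : ℕ} {z : List Bool} (F : Finset (List Bool))
    (hF : ∀ y' k, Q p y' k → y' ∈ F) (m : ℕ) :
    ct Q π (p, i, z) m ≤ (F.filter (fun y => π (Nat.pair p i) y = z)).card := by
  classical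
  rw [ct_eq]
  refine Finset.card_le_card_of_injOn yy ?_ ?_
  · intro m' hm'
    have h := (Finset.mem_filter.1 (Finset.mem_coe.1 hm')).2
    exact Finset.mem_coe.2 (Finset.mem_filter.2 ⟨hF _ _ h.1.1, h.2⟩)
  · intro a ha b hb hab
    exact new_unique (Finset.mem_filter.1 (Finset.mem_coe.1 ha)).2.1
      (Finset.mem_filter.1 (Finset.mem_coe.1 hb)).2.1 hab

lemma ct_lt {b : ℕ × ℕ × List Bool} {m m' : ℕ} (h : Hit Q π m b) (hm : m < m') :
    ct Q π b m < ct Q π b m' := by
  classical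
  rw [ct_eq, ct_eq]
  apply Finset.card_lt_card
  refine ⟨fun a ha => ?_, fun hsub => ?_⟩
  · obtain ⟨h1, h2⟩ := Finset.mem_filter.1 ha
    exact Finset.mem_filter.2 ⟨Finset.mem_range.2 ((Finset.mem_range.1 h1).trans hm), h2⟩
  · have h3 := hsub (Finset.mem_filter.2 ⟨Finset.mem_range.2 hm, h⟩)
    exact absurd (Finset.mem_range.1 (Finset.mem_filter.1 h3).1) (lt_irrefl m)

/-- Enumeration of the parts that occur often. -/
def QH (Q : ℕ → List Bool → ℕ → Prop) (π : ℕ → List Bool → List Bool) (P : ℕ) (z : List Bool)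
    (m : ℕ) : Prop :=
  2 ^ P.unpair.2.unpair.2 ≤ ct Q π (P.unpair.1, P.unpair.2.unpair.1, z) m

/-- Enumeration of the kept strings. -/
def QK (Q : ℕ → List Bool → ℕ → Prop) (π : ℕ → List Bool → List Bool) (γ : ℕ → ℕ → ℕ) (P : ℕ)
    (y : List Bool) (m : ℕ) : Prop :=
  (yy m = y ∧ New Q P.unpair.1 m) ∧ ∀ i ∈ List.range P.unpair.2.unpair.1,
    ct Q π (P.unpair.1, i, π (Nat.pair P.unpair.1 i) y) m < 2 ^ γ P.unpair.2.unpair.2 i

lemma primrec_QH (hQ : PrimrecPred fun a : ℕ × List Bool × ℕ => Q a.1 a.2.1 a.2.2)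
    (hπ : Primrec₂ π) :
    PrimrecPred fun a : ℕ × List Bool × ℕ => QH Q π a.1 a.2.1 a.2.2 := by
  have hp : Primrec (fun a : ℕ × List Bool × ℕ => a.1.unpair.1) :=
    Primrec.fst.comp (Primrec.unpair.comp Primrec.fst)
  have h2 : Primrec (fun a : ℕ × List Bool × ℕ => a.1.unpair.2) :=
    Primrec.snd.comp (Primrec.unpair.comp Primrec.fst)
  have hi : Primrec (fun a : ℕ × List Bool × ℕ => a.1.unpair.2.unpair.1) :=
    Primrec.fst.comp (Primrec.unpair.comp h2)
  have hg : Primrec (fun a : ℕ × List Bool × ℕ => a.1.unpair.2.unpair.2) :=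
    Primrec.snd.comp (Primrec.unpair.comp h2)
  exact Primrec.nat_le.comp (primrec_pow.comp (Primrec.const 2) hg)
    ((primrec_ct hQ hπ).comp (Primrec.pair hp (Primrec.pair hi (Primrec.fst.comp Primrec.snd)))
      (Primrec.snd.comp Primrec.snd))

lemma primrec_QK (hQ : PrimrecPred fun a : ℕ × List Bool × ℕ => Q a.1 a.2.1 a.2.2)
    (hπ : Primrec₂ π) (hγ : Primrec₂ γ) :
    PrimrecPred fun a : ℕ × List Bool × ℕ => QK Q π γ a.1 a.2.1 a.2.2 := by
  have hp : Primrec (fun a : ℕ × List Bool × ℕ => a.1.unpair.1) :=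
    Primrec.fst.comp (Primrec.unpair.comp Primrec.fst)
  have h2 : Primrec (fun a : ℕ × List Bool × ℕ => a.1.unpair.2) :=
    Primrec.snd.comp (Primrec.unpair.comp Primrec.fst)
  have hk : Primrec (fun a : ℕ × List Bool × ℕ => a.1.unpair.2.unpair.1) :=
    Primrec.fst.comp (Primrec.unpair.comp h2)
  have hG : Primrec (fun a : ℕ × List Bool × ℕ => a.1.unpair.2.unpair.2) :=
    Primrec.snd.comp (Primrec.unpair.comp h2)
  have hy : Primrec (fun a : ℕ × List Bool × ℕ => a.2.1) := Primrec.fst.comp Primrec.snd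
  have hm : Primrec (fun a : ℕ × List Bool × ℕ => a.2.2) := Primrec.snd.comp Primrec.snd
  have h3 : PrimrecPred (fun a : ℕ × List Bool × ℕ =>
      yy a.2.2 = a.2.1 ∧ New Q a.1.unpair.1 a.2.2) :=
    (Primrec.eq.comp (primrec_yy.comp hm) hy).and ((primrec_new hQ).comp hp hm)
  have h4 : PrimrecRel (fun (i : ℕ) (a : ℕ × List Bool × ℕ) =>
      ct Q π (a.1.unpair.1, i, π (Nat.pair a.1.unpair.1 i) a.2.1) a.2.2 < 2 ^ γ a.1.unpair.2.unpair.2 i) := by
    refine Primrec.nat_lt.comp ?_ ?_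
    · exact (primrec_ct hQ hπ).comp (Primrec.pair (hp.comp Primrec.snd)
        (Primrec.pair Primrec.fst (hπ.comp
          (Primrec₂.natPair.comp (hp.comp Primrec.snd) Primrec.fst) (hy.comp Primrec.snd))))
        (hm.comp Primrec.snd)
    · exact primrec_pow.comp (Primrec.const 2) (hγ.comp (hG.comp Primrec.snd) Primrec.fst)
  exact h3.and (h4.forall_mem_list.comp (Primrec.list_range.comp hk) Primrec.id)

/-- Few parts occur often. -/
lemma heavy_card {p i g q : ℕ} (F : Finset (List Bool)) (hF : ∀ y' k, Q p y' k → y' ∈ F)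
    (hc : F.card ≤ 2 ^ (q + 1)) {z : List Bool} {m : ℕ}
    (hz : QH Q π (Nat.pair p (Nat.pair i g)) z m) :
    g ≤ q + 1 ∧ ∃ Z : Finset (List Bool), (∀ z' m', QH Q π (Nat.pair p (Nat.pair i g)) z' m' →
      z' ∈ Z) ∧ Z.card ≤ 2 ^ (q + 1 - g) := by
  classical
  have hH : ∀ z' m', QH Q π (Nat.pair p (Nat.pair i g)) z' m' ↔
      2 ^ g ≤ ct Q π (p, i, z') m' := by
    intro z' m'
    simp only [QH, Nat.unpair_pair]
  have h1 : ∀ z' m', QH Q π (Nat.pair p (Nat.pair i g)) z' m' →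
      2 ^ g ≤ (F.filter (fun y => π (Nat.pair p i) y = z')).card := fun z' m' h =>
    ((hH z' m').1 h).trans (ct_le F hF m')
  have hg : g ≤ q + 1 := by
    have h2 : 2 ^ g ≤ 2 ^ (q + 1) :=
      ((h1 z m hz).trans (Finset.card_le_card (Finset.filter_subset _ F))).trans hc
    exact (Nat.pow_le_pow_iff_right (by norm_num)).1 h2
  refine ⟨hg, (F.image (π (Nat.pair p i))).filter (fun z' => 2 ^ g ≤ (F.filter (fun y => π (Nat.pair p i) y = z')).card),
    ?_, ?_⟩
  · intro z' m' h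
    have h2 := h1 z' m' h
    have h3 : 0 < (F.filter (fun y => π (Nat.pair p i) y = z')).card :=
      lt_of_lt_of_le (by positivity) h2
    obtain ⟨y, hy⟩ := Finset.card_pos.1 h3
    rw [Finset.mem_filter] at hy
    exact Finset.mem_filter.2 ⟨Finset.mem_image.2 ⟨y, hy.1, hy.2⟩, h2⟩
  · set Z := (F.image (π (Nat.pair p i))).filter (fun z' => 2 ^ g ≤ (F.filter (fun y => π (Nat.pair p i) y = z')).card)
      with hZ
    have h2 : Z.card * 2 ^ g ≤ F.card := by
      calc Z.card * 2 ^ g = ∑ _z ∈ Z, 2 ^ g := by rw [Finset.sum_const, smul_eq_mul]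
        _ ≤ ∑ z' ∈ Z, (F.filter (fun y => π (Nat.pair p i) y = z')).card :=
            Finset.sum_le_sum fun z' hz' => (Finset.mem_filter.1 hz').2
        _ ≤ ∑ z' ∈ F.image (π (Nat.pair p i)), (F.filter (fun y => π (Nat.pair p i) y = z')).card :=
            Finset.sum_le_sum_of_subset (Finset.filter_subset _ _)
        _ = F.card := (Finset.card_eq_sum_card_image (π (Nat.pair p i)) F).symm
    have h3 : Z.card * 2 ^ g ≤ 2 ^ (q + 1 - g) * 2 ^ g := by
      rw [← pow_add, Nat.sub_add_cancel hg]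
      exact h2.trans hc
    exact Nat.le_of_mul_le_mul_right h3 (by positivity)

end KU

open KU

theorem keptU {U : List Bool →. List Bool} (hU : Optimal U)
    (Q : ℕ → List Bool → ℕ → Prop)
    (hQ : PrimrecPred fun a : ℕ × List Bool × ℕ => Q a.1 a.2.1 a.2.2)
    (π : ℕ → List Bool → List Bool) (hπ : Primrec₂ π) (γ : ℕ → ℕ → ℕ) (hγ : Primrec₂ γ) :
    ∃ c : ℕ, ∀ (s k p q : ℕ) (w : List Bool) (F : Finset (List Bool)),
      p < 2 ^ s → q < 2 ^ s → k ≤ 2 ^ s → (∃ r, Q p w r) → (∀ w' r, Q p w' r → w' ∈ F) →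
      F.card ≤ 2 ^ (q + 1) → C U w = q →
      (∀ i < k, C U (π (Nat.pair p i) w) ≤ q + 2 + c * (s + 1)) ∧
      ∀ t G : ℕ, G < 2 ^ t → (∀ i < k, q + 2 + c * (s + 1) ≤ C U (π (Nat.pair p i) w) + γ G i) →
        ∃ W : Finset (List Bool), (∀ w' ∈ W, ∃ r, Q p w' r) ∧
          (∀ i < k, ∀ y, (W.filter (fun w' => π (Nat.pair p i) w' = y)).card ≤ 2 ^ γ G i) ∧
          2 ^ q ≤ W.card * 2 ^ (c * (s + t + 1)) := by
  classical
  obtain ⟨c₁, hc₁⟩ := description hU (QH Q π) (primrec_QH hQ hπ)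
  obtain ⟨c₂, hc₂⟩ := description hU (QK Q π γ) (primrec_QK hQ hπ hγ)
  refine ⟨c₁ + c₂ + 9, fun s k p q w F hp hq hk hw hF hFc hC => ?_⟩
  -- parts that occur often are simple
  have heavy : ∀ i g z m, i < k → QH Q π (Nat.pair p (Nat.pair i g)) z m →
      C U z + g ≤ q + 1 + 8 * (s + 1) + c₁ := by
    intro i g z m hi hz
    obtain ⟨hg, Z, hZ, hZc⟩ := heavy_card F hF hFc hz
    have e1 : p < 2 ^ (2 * (s + 1)) := lt_of_lt_of_le hp
      (Nat.pow_le_pow_right (by norm_num) (by omega))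
    have e2 : i < 2 ^ (s + 1) := by
      rw [pow_succ]; omega
    have e3 : g < 2 ^ (s + 1) := by
      rw [pow_succ]; omega
    have e4 := PC.pair_lt e1 (PC.pair_lt e2 e3)
    have key := hc₁ (2 * (2 * (s + 1))) (q + 1 - g) _ z Z e4 ⟨m, hz⟩ hZ hZc
    omega
  obtain ⟨m, hm, hmy⟩ := exists_new hw
  refine ⟨fun i hi => ?_, fun t G hG hγG => ?_⟩
  · have hhit : Hit Q π m (p, i, π (Nat.pair p i) w) := ⟨hm, by rw [hmy]⟩
    have h1 := ct_lt hhit (Nat.lt_succ_self m)
    have h2 : QH Q π (Nat.pair p (Nat.pair i 0)) (π (Nat.pair p i) w) (m + 1) := by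
      simp only [QH, Nat.unpair_pair, pow_zero]
      exact Nat.succ_le_of_lt (lt_of_le_of_lt (Nat.zero_le _) h1)
    have h3 := heavy i 0 _ _ hi h2
    have h4 : (8 + c₁) * (s + 1) ≤ (c₁ + c₂ + 9) * (s + 1) :=
      Nat.mul_le_mul_right _ (by omega)
    have h5 : c₁ ≤ c₁ * (s + 1) := Nat.le_mul_of_pos_right _ (by omega)
    have h6 : (8 + c₁) * (s + 1) = 8 * (s + 1) + c₁ * (s + 1) := by ring
    omega
  · have hQK : ∀ y m', QK Q π γ (Nat.pair p (Nat.pair k G)) y m' ↔
        (yy m' = y ∧ New Q p m') ∧ ∀ i < k, ct Q π (p, i, π (Nat.pair p i) y) m' < 2 ^ γ G i := by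
      intro y m'
      simp only [QK, Nat.unpair_pair, List.mem_range]
    have hkeep : QK Q π γ (Nat.pair p (Nat.pair k G)) w m := by
      rw [hQK]
      refine ⟨⟨hmy, hm⟩, fun i hi => ?_⟩
      by_contra hcon
      have h2 : QH Q π (Nat.pair p (Nat.pair i (γ G i))) (π (Nat.pair p i) w) m := by
        simp only [QH, Nat.unpair_pair]
        exact not_lt.1 hcon
      have h3 := heavy i (γ G i) _ _ hi h2
      have h4 := hγG i hi
      have h5 : (8 + c₁) * (s + 1) ≤ (c₁ + c₂ + 9) * (s + 1) :=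
        Nat.mul_le_mul_right _ (by omega)
      have h6 : c₁ ≤ c₁ * (s + 1) := Nat.le_mul_of_pos_right _ (by omega)
      have h7 : (8 + c₁) * (s + 1) = 8 * (s + 1) + c₁ * (s + 1) := by ring
      omega
    refine ⟨F.filter (fun y => ∃ m', QK Q π γ (Nat.pair p (Nat.pair k G)) y m'), ?_, ?_, ?_⟩
    · intro w' hw'
      obtain ⟨m', hm'⟩ := (Finset.mem_filter.1 hw').2
      rw [hQK] at hm'
      refine ⟨kk m', ?_⟩
      rw [← hm'.1.1]
      exact hm'.1.2.1
    · intro i hi y
      set W' := (F.filter (fun y => ∃ m', QK Q π γ (Nat.pair p (Nat.pair k G)) y m')).filter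
        (fun w' => π (Nat.pair p i) w' = y) with hW'
      have hst : ∀ w' : List Bool, ∃ m', w' ∈ W' →
          QK Q π γ (Nat.pair p (Nat.pair k G)) w' m' ∧ π (Nat.pair p i) w' = y := by
        intro w'
        by_cases h : w' ∈ W'
        · rw [hW', Finset.mem_filter, Finset.mem_filter] at h
          obtain ⟨m', hm'⟩ := h.1.2
          exact ⟨m', fun _ => ⟨hm', h.2⟩⟩
        · exact ⟨0, fun h' => absurd h' h⟩
      choose f hf using hst
      have h1 : W'.card ≤ (Finset.range (2 ^ γ G i)).card := by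
        refine Finset.card_le_card_of_injOn (fun w' => ct Q π (p, i, y) (f w')) ?_ ?_
        · intro w' hw'
          obtain ⟨h2, h3⟩ := hf w' (Finset.mem_coe.1 hw')
          rw [hQK] at h2
          have h4 := h2.2 i hi
          rw [h3] at h4
          exact Finset.mem_coe.2 (Finset.mem_range.2 h4)
        · intro a ha b hb hab
          obtain ⟨h2, h3⟩ := hf a (Finset.mem_coe.1 ha)
          obtain ⟨h4, h5⟩ := hf b (Finset.mem_coe.1 hb)
          rw [hQK] at h2 h4
          have ha' : Hit Q π (f a) (p, i, y) := ⟨h2.1.2, by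
            show π (Nat.pair p i) (yy (f a)) = y
            rw [h2.1.1, h3]⟩
          have hb' : Hit Q π (f b) (p, i, y) := ⟨h4.1.2, by
            show π (Nat.pair p i) (yy (f b)) = y
            rw [h4.1.1, h5]⟩
          have hfab : f a = f b := by
            rcases Nat.lt_trichotomy (f a) (f b) with hlt | heq | hgt
            · exact absurd hab (ct_lt ha' hlt).ne
            · exact heq
            · exact absurd hab (ct_lt hb' hgt).ne'
          rw [← h2.1.1, ← h4.1.1, hfab]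
      rwa [Finset.card_range] at h1
    · set W := F.filter (fun y => ∃ m', QK Q π γ (Nat.pair p (Nat.pair k G)) y m') with hW
      have hwW : w ∈ W := by
        obtain ⟨r, hr⟩ := hw
        exact Finset.mem_filter.2 ⟨hF _ _ hr, m, hkeep⟩
      have hWpos : W.card ≠ 0 := (Finset.card_pos.2 ⟨w, hwW⟩).ne'
      have e1 : p < 2 ^ (2 * (s + t + 1)) := lt_of_lt_of_le hp
        (Nat.pow_le_pow_right (by norm_num) (by omega))
      have e2 : k < 2 ^ (s + t + 1) := by
        have h1 : 2 ^ s < 2 ^ (s + t + 1) := Nat.pow_lt_pow_right (by norm_num) (by omega)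
        omega
      have e3 : G < 2 ^ (s + t + 1) := lt_of_lt_of_le hG
        (Nat.pow_le_pow_right (by norm_num) (by omega))
      have e4 := PC.pair_lt e1 (PC.pair_lt e2 e3)
      have key := hc₂ (2 * (2 * (s + t + 1))) (Nat.log 2 W.card + 1) _ w W e4 ⟨m, hkeep⟩ ?_
        (Nat.lt_pow_succ_log_self (by norm_num) _).le
      · rw [hC] at key
        have h5 : (9 + c₂) * (s + t + 1) ≤ (c₁ + c₂ + 9) * (s + t + 1) :=
          Nat.mul_le_mul_right _ (by omega)
        have h6 : c₂ ≤ c₂ * (s + t + 1) := Nat.le_mul_of_pos_right _ (by omega)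
        have h7 : (9 + c₂) * (s + t + 1) = 9 * (s + t + 1) + c₂ * (s + t + 1) := by ring
        have h8 : q ≤ Nat.log 2 W.card + (c₁ + c₂ + 9) * (s + t + 1) := by omega
        calc 2 ^ q ≤ 2 ^ (Nat.log 2 W.card + (c₁ + c₂ + 9) * (s + t + 1)) :=
              Nat.pow_le_pow_right (by norm_num) h8
          _ = 2 ^ Nat.log 2 W.card * 2 ^ ((c₁ + c₂ + 9) * (s + t + 1)) := pow_add _ _ _
          _ ≤ W.card * 2 ^ ((c₁ + c₂ + 9) * (s + t + 1)) :=
              Nat.mul_le_mul_right _ (Nat.pow_log_le_self 2 hWpos)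
      · intro y' m' h
        have h' := h
        rw [hQK] at h'
        refine Finset.mem_filter.2 ⟨?_, m', h⟩
        rw [← h'.1.1]
        exact hF _ _ h'.1.2.1

end Pool.Agent.Lib.MP_f4f1a8_lc.KR
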