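import Pool.Agent.Lib.MP_f4f1a8_lc.KR.KeptZ40

/-! MP_f4f1a8_lc, KeptZ: the form used in TupZ. -/

namespace Pool.Agent.Lib.MP_f4f1a8_lc.KR

open Finset

theorem keptZ {U : List Bool →. List Bool} (hU : Optimal U)
    (Q : ℕ → List Bool → ℕ → Prop)
    (hQ : PrimrecPred fun a : ℕ × List Bool × ℕ => Q a.1 a.2.1 a.2.2)
    (π : ℕ → List Bool → List Bool) (hπ : Primrec₂ π)
    (κ : ℕ → ℕ) (hκ : Primrec κ) (μ : ℕ → ℕ → ℕ) (hμ : Primrec₂ μ) :
    ∃ c : ℕ, ∀ (s a q : ℕ) (z w : List Bool) (F : Finset (List Bool)),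
      a < 2 ^ s → q < 2 ^ s → C U z < 2 ^ s → κ (Nat.pair (Encodable.encode z) a) < 2 ^ s →
      (∃ r, Q (Nat.pair (Encodable.encode z) a) w r) →
      (∀ w' r, Q (Nat.pair (Encodable.encode z) a) w' r → w' ∈ F) →
      F.card ≤ 2 ^ (q + 1) → C U w = q →
      (∀ i < κ (Nat.pair (Encodable.encode z) a), μ (Nat.pair (Encodable.encode z) a) i ≤
        C U (π (Nat.pair (Nat.pair (Encodable.encode z) a) i) w)) →
      ∃ (g : ℕ → ℕ) (W : Finset (List Bool)),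
        (∀ w' ∈ W, ∃ r, Q (Nat.pair (Encodable.encode z) a) w' r) ∧
        (∀ i < κ (Nat.pair (Encodable.encode z) a), ∀ y : List Bool,
          (W.filter (fun w' => π (Nat.pair (Nat.pair (Encodable.encode z) a) i) w' = y)).card ≤
            2 ^ g i) ∧
        2 ^ q ≤ W.card * 2 ^ (c * (C U z + s + 1)) ∧
        ∀ i < κ (Nat.pair (Encodable.encode z) a),
          μ (Nat.pair (Encodable.encode z) a) i + g i = q + 2 + c * (C U z + s + 1) :=
  keptZ40 hU Q hQ π hπ κ hκ μ hμ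

end Pool.Agent.Lib.MP_f4f1a8_lc.KR
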