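import Pool.Agent.Lib.MP_f4f1a8_lc.KR.KeptU
import Pool.Agent.Lib.MP_f4f1a8_lc.KR.DescrP40

/-! MP_f4f1a8_lc, row Kept with the parameter given by its shortest program: typical tuples, the
complexities of the parts are computed from the parameter. -/

namespace Pool.Agent.Lib.MP_f4f1a8_lc.KR

open Finset Descr

namespace KZ

open KU

/-- the parameter of `Q` inside the longer parameter -/
def bp (P : ℕ) : ℕ := Nat.pair P.unpair.1 P.unpair.2.unpair.1

/-- the rest -/
def rp (P : ℕ) : ℕ := P.unpair.2.unpair.2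

lemma bp_pair (e a b : ℕ) : bp (Nat.pair e (Nat.pair a b)) = Nat.pair e a := by
  simp [bp]

lemma rp_pair (e a b : ℕ) : rp (Nat.pair e (Nat.pair a b)) = b := by
  simp [rp]

lemma primrec_bp : Primrec bp :=
  Primrec₂.natPair.comp (Primrec.fst.comp Primrec.unpair)
    (Primrec.fst.comp (Primrec.unpair.comp (Primrec.snd.comp Primrec.unpair)))

lemma primrec_rp : Primrec rp :=
  Primrec.snd.comp (Primrec.unpair.comp (Primrec.snd.comp Primrec.unpair))

variable {Q : ℕ → List Bool → ℕ → Prop} {π : ℕ → List Bool → List Bool} {κ : ℕ → ℕ}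
  {μ : ℕ → ℕ → ℕ}

/-- Enumeration of the parts that occur often. -/
def QHz (Q : ℕ → List Bool → ℕ → Prop) (π : ℕ → List Bool → List Bool) (P : ℕ) (z : List Bool)
    (m : ℕ) : Prop :=
  2 ^ (rp P).unpair.2 ≤ ct Q π (bp P, (rp P).unpair.1, z) m

/-- Enumeration of the kept strings. -/
def QKz (Q : ℕ → List Bool → ℕ → Prop) (π : ℕ → List Bool → List Bool) (κ : ℕ → ℕ)
    (μ : ℕ → ℕ → ℕ) (P : ℕ) (y : List Bool) (m : ℕ) : Prop :=
  (yy m = y ∧ New Q (bp P) m) ∧ ∀ i ∈ List.range (κ (bp P)),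
    ct Q π (bp P, i, π (Nat.pair (bp P) i) y) m < 2 ^ (rp P - μ (bp P) i)

lemma primrec_QHz (hQ : PrimrecPred fun a : ℕ × List Bool × ℕ => Q a.1 a.2.1 a.2.2)
    (hπ : Primrec₂ π) :
    PrimrecPred fun a : ℕ × List Bool × ℕ => QHz Q π a.1 a.2.1 a.2.2 := by
  have hb : Primrec (fun a : ℕ × List Bool × ℕ => bp a.1) := primrec_bp.comp Primrec.fst
  have hr : Primrec (fun a : ℕ × List Bool × ℕ => rp a.1) := primrec_rp.comp Primrec.fst
  exact Primrec.nat_le.comp
    (primrec_pow.comp (Primrec.const 2) (Primrec.snd.comp (Primrec.unpair.comp hr)))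
    ((primrec_ct hQ hπ).comp (Primrec.pair hb (Primrec.pair
      (Primrec.fst.comp (Primrec.unpair.comp hr)) (Primrec.fst.comp Primrec.snd)))
      (Primrec.snd.comp Primrec.snd))

lemma primrec_QKz (hQ : PrimrecPred fun a : ℕ × List Bool × ℕ => Q a.1 a.2.1 a.2.2)
    (hπ : Primrec₂ π) (hκ : Primrec κ) (hμ : Primrec₂ μ) :
    PrimrecPred fun a : ℕ × List Bool × ℕ => QKz Q π κ μ a.1 a.2.1 a.2.2 := by
  have hb : Primrec (fun a : ℕ × List Bool × ℕ => bp a.1) := primrec_bp.comp Primrec.fst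
  have hr : Primrec (fun a : ℕ × List Bool × ℕ => rp a.1) := primrec_rp.comp Primrec.fst
  have hy : Primrec (fun a : ℕ × List Bool × ℕ => a.2.1) := Primrec.fst.comp Primrec.snd
  have hm : Primrec (fun a : ℕ × List Bool × ℕ => a.2.2) := Primrec.snd.comp Primrec.snd
  have h3 : PrimrecPred (fun a : ℕ × List Bool × ℕ =>
      yy a.2.2 = a.2.1 ∧ New Q (bp a.1) a.2.2) :=
    (Primrec.eq.comp (primrec_yy.comp hm) hy).and ((primrec_new hQ).comp hb hm)
  have h4 : PrimrecRel (fun (i : ℕ) (a : ℕ × List Bool × ℕ) =>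
      ct Q π (bp a.1, i, π (Nat.pair (bp a.1) i) a.2.1) a.2.2 <
        2 ^ (rp a.1 - μ (bp a.1) i)) := by
    refine Primrec.nat_lt.comp ?_ ?_
    · exact (primrec_ct hQ hπ).comp (Primrec.pair (hb.comp Primrec.snd)
        (Primrec.pair Primrec.fst (hπ.comp
          (Primrec₂.natPair.comp (hb.comp Primrec.snd) Primrec.fst) (hy.comp Primrec.snd))))
        (hm.comp Primrec.snd)
    · exact primrec_pow.comp (Primrec.const 2) (Primrec.nat_sub.comp (hr.comp Primrec.snd)
        (hμ.comp (hb.comp Primrec.snd) Primrec.fst))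
  exact h3.and (h4.forall_mem_list.comp (Primrec.list_range.comp (hκ.comp hb)) Primrec.id)

end KZ

open KU KZ

theorem keptZ40 {U : List Bool →. List Bool} (hU : Optimal U)
    (Q : ℕ → List Bool → ℕ → Prop)
    (hQ : PrimrecPred fun a : ℕ × List Bool × ℕ => Q a.1 a.2.1 a.2.2)
    (π : ℕ → List Bool → List Bool) (hπ : Primrec₂ π) (κ : ℕ → ℕ) (hκ : Primrec κ)
    (μ : ℕ → ℕ → ℕ) (hμ : Primrec₂ μ) :
    ∃ c : ℕ, ∀ (s a q : ℕ) (z w : List Bool) (F : Finset (List Bool)),
      a < 2 ^ s → q < 2 ^ s → C U z < 2 ^ s →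
      κ (Nat.pair (Encodable.encode z) a) < 2 ^ s →
      (∃ r, Q (Nat.pair (Encodable.encode z) a) w r) →
      (∀ w' r, Q (Nat.pair (Encodable.encode z) a) w' r → w' ∈ F) →
      F.card ≤ 2 ^ (q + 1) → C U w = q →
      (∀ i < κ (Nat.pair (Encodable.encode z) a), μ (Nat.pair (Encodable.encode z) a) i ≤
        C U (π (Nat.pair (Nat.pair (Encodable.encode z) a) i) w)) →
      ∃ (g : ℕ → ℕ) (W : Finset (List Bool)),
        (∀ w' ∈ W, ∃ r, Q (Nat.pair (Encodable.encode z) a) w' r) ∧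
        (∀ i < κ (Nat.pair (Encodable.encode z) a), ∀ y,
          (W.filter (fun w' => π (Nat.pair (Nat.pair (Encodable.encode z) a) i) w' = y)).card ≤
            2 ^ g i) ∧
        2 ^ q ≤ W.card * 2 ^ (c * (C U z + s + 1)) ∧
        ∀ i < κ (Nat.pair (Encodable.encode z) a),
          μ (Nat.pair (Encodable.encode z) a) i + g i = q + 2 + c * (C U z + s + 1) := by
  classical
  obtain ⟨c₁, hc₁⟩ := descrP40 hU (QHz Q π) (primrec_QHz hQ hπ)
  obtain ⟨c₂, hc₂⟩ := descrP40 hU (QKz Q π κ μ) (primrec_QKz hQ hπ hκ hμ)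
  set c' := 5 * c₁ with hc'
  refine ⟨c' + 1 + c₂ * (2 * c' + 10), fun s a q z w F ha hq hz hκs hw hF hFc hC hμw => ?_⟩
  set P := Nat.pair (Encodable.encode z) a with hP
  set k := κ P with hk
  set X := C U z + s + 1 with hX
  have hX1 : 1 ≤ X := by omega
  -- parts that occur often are simple
  have heavy : ∀ i g v m, i < k → 2 ^ g ≤ ct Q π (P, i, v) m →
      C U v + g ≤ q + 1 + c' * X := by
    intro i g v m hi hv
    have hv' : QH Q π (Nat.pair P (Nat.pair i g)) v m := by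
      simp only [QH, Nat.unpair_pair]
      exact hv
    obtain ⟨hg, Z, hZ, hZc⟩ := heavy_card F hF hFc hv'
    have e1 : a < 2 ^ (2 * (s + 1)) := lt_of_lt_of_le ha
      (Nat.pow_le_pow_right (by norm_num) (by omega))
    have e2 : i < 2 ^ (s + 1) := by
      rw [pow_succ]; omega
    have e3 : g < 2 ^ (s + 1) := by
      rw [pow_succ]; omega
    have e4 := PC.pair_lt e1 (PC.pair_lt e2 e3)
    have hH : ∀ v' m', QHz Q π (Nat.pair (Encodable.encode z) (Nat.pair a (Nat.pair i g))) v' m' ↔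
        2 ^ g ≤ ct Q π (P, i, v') m' := by
      intro v' m'
      simp only [QHz, bp_pair, rp_pair, Nat.unpair_pair, hP]
    have key := hc₁ (2 * (2 * (s + 1))) (q + 1 - g) _ z v Z e4 ⟨m, (hH v m).2 hv⟩
      (fun v' m' h => hZ v' m' (by
        simp only [QH, Nat.unpair_pair]
        exact (hH v' m').1 h)) hZc
    have h5 : C U z + 2 * (2 * (s + 1)) + 1 ≤ 5 * X := by omega
    have h6 := Nat.mul_le_mul_left c₁ h5
    have h7 : c₁ * (5 * X) = c' * X := by rw [hc']; ring
    omega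
  obtain ⟨m, hm, hmy⟩ := exists_new hw
  have hpart : ∀ i < k, C U (π (Nat.pair P i) w) ≤ q + 1 + c' * X := by
    intro i hi
    have hhit : Hit Q π m (P, i, π (Nat.pair P i) w) := ⟨hm, by rw [hmy]⟩
    have h1 := ct_lt hhit (Nat.lt_succ_self m)
    have h3 := heavy i 0 (π (Nat.pair P i) w) (m + 1) hi (by
      rw [pow_zero]
      exact Nat.succ_le_of_lt (lt_of_le_of_lt (Nat.zero_le _) h1))
    omega
  set G := q + 2 + c' * X with hG
  have hQK : ∀ y m', QKz Q π κ μ (Nat.pair (Encodable.encode z) (Nat.pair a G)) y m' ↔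
      (yy m' = y ∧ New Q P m') ∧ ∀ i < k, ct Q π (P, i, π (Nat.pair P i) y) m' <
        2 ^ (G - μ P i) := by
    intro y m'
    simp only [QKz, bp_pair, rp_pair, List.mem_range, hP, hk]
  set R := QKz Q π κ μ (Nat.pair (Encodable.encode z) (Nat.pair a G)) with hR
  have hkeep : R w m := by
    rw [hQK]
    refine ⟨⟨hmy, hm⟩, fun i hi => ?_⟩
    by_contra hcon
    have h3 := heavy i (G - μ P i) _ _ hi (not_lt.1 hcon)
    have h4 := hμw i hi
    omega
  refine ⟨fun i => q + 2 + (c' + 1 + c₂ * (2 * c' + 10)) * X - μ P i,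
    F.filter (fun y => ∃ m', R y m'), ?_, ?_, ?_, ?_⟩
  · intro w' hw'
    obtain ⟨m', hm'⟩ := (Finset.mem_filter.1 hw').2
    rw [hQK] at hm'
    refine ⟨kk m', ?_⟩
    rw [← hm'.1.1]
    exact hm'.1.2.1
  · intro i hi y
    set W' := (F.filter (fun y => ∃ m', R y m')).filter
      (fun w' => π (Nat.pair P i) w' = y) with hW'
    have hst : ∀ w' : List Bool, ∃ m', w' ∈ W' → R w' m' ∧ π (Nat.pair P i) w' = y := by
      intro w'
      by_cases h : w' ∈ W'
      · rw [hW', Finset.mem_filter, Finset.mem_filter] at h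
        obtain ⟨m', hm'⟩ := h.1.2
        exact ⟨m', fun _ => ⟨hm', h.2⟩⟩
      · exact ⟨0, fun h' => absurd h' h⟩
    choose f hf using hst
    have h1 : W'.card ≤ (Finset.range (2 ^ (G - μ P i))).card := by
      refine Finset.card_le_card_of_injOn (fun w' => ct Q π (P, i, y) (f w')) ?_ ?_
      · intro w' hw'
        obtain ⟨h2, h3⟩ := hf w' (Finset.mem_coe.1 hw')
        rw [hQK] at h2
        have h4 := h2.2 i hi
        rw [h3] at h4
        exact Finset.mem_coe.2 (Finset.mem_range.2 h4)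
      · intro a' ha' b' hb' hab
        obtain ⟨h2, h3⟩ := hf a' (Finset.mem_coe.1 ha')
        obtain ⟨h4, h5⟩ := hf b' (Finset.mem_coe.1 hb')
        rw [hQK] at h2 h4
        have ha'' : Hit Q π (f a') (P, i, y) := ⟨h2.1.2, by
          show π (Nat.pair P i) (yy (f a')) = y
          rw [h2.1.1, h3]⟩
        have hb'' : Hit Q π (f b') (P, i, y) := ⟨h4.1.2, by
          show π (Nat.pair P i) (yy (f b')) = y
          rw [h4.1.1, h5]⟩
        have hfab : f a' = f b' := by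
          rcases Nat.lt_trichotomy (f a') (f b') with hlt | heq | hgt
          · exact absurd hab (ct_lt ha'' hlt).ne
          · exact heq
          · exact absurd hab (ct_lt hb'' hgt).ne'
        rw [← h2.1.1, ← h4.1.1, hfab]
    rw [Finset.card_range] at h1
    refine h1.trans (Nat.pow_le_pow_right (by norm_num) ?_)
    have h2 : c' * X ≤ (c' + 1 + c₂ * (2 * c' + 10)) * X := Nat.mul_le_mul_right _ (by omega)
    show G - μ P i ≤ q + 2 + (c' + 1 + c₂ * (2 * c' + 10)) * X - μ P i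
    omega
  · set W := F.filter (fun y => ∃ m', R y m') with hW
    have hwW : w ∈ W := by
      obtain ⟨r, hr⟩ := hw
      exact Finset.mem_filter.2 ⟨hF _ _ hr, m, hkeep⟩
    have hWpos : W.card ≠ 0 := (Finset.card_pos.2 ⟨w, hwW⟩).ne'
    have e1 : a < 2 ^ (s + c' + 4) := lt_of_lt_of_le ha
      (Nat.pow_le_pow_right (by norm_num) (by omega))
    have e2 : G < 2 ^ (s + c' + 4) := by
      have f1 : c' < 2 ^ c' := Nat.lt_two_pow_self
      have f2 : s < 2 ^ s := Nat.lt_two_pow_self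
      have f3 : X ≤ 2 * 2 ^ s := by omega
      have f4 : 1 ≤ 2 ^ s := Nat.one_le_two_pow
      have f5 : c' * X ≤ 2 ^ c' * (2 * 2 ^ s) := Nat.mul_le_mul f1.le f3
      have f6 : 2 ^ s ≤ 2 ^ c' * 2 ^ s := Nat.le_mul_of_pos_left _ (by positivity)
      have f7 : 2 ^ (s + c' + 4) = 16 * (2 ^ c' * 2 ^ s) := by
        rw [pow_add, pow_add]; ring
      have f8 : 2 ^ c' * (2 * 2 ^ s) = 2 * (2 ^ c' * 2 ^ s) := by ring
      omega
    have e4 := PC.pair_lt e1 e2
    have key := hc₂ (2 * (s + c' + 4)) (Nat.log 2 W.card + 1) _ z w W e4 ⟨m, hkeep⟩ ?_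
      (Nat.lt_pow_succ_log_self (by norm_num) _).le
    · rw [hC] at key
      have h5 : C U z + 2 * (s + c' + 4) + 1 ≤ (2 * c' + 10) * X := by
        have g1 : (2 * c' + 10) * 1 ≤ (2 * c' + 10) * X := Nat.mul_le_mul_left _ hX1
        have g2 : (2 * c' + 10) * X = 2 * c' * X + 10 * X := by ring
        have g3 : 2 * c' * 1 ≤ 2 * c' * X := Nat.mul_le_mul_left _ hX1
        omega
      have h6 := Nat.mul_le_mul_left c₂ h5
      have h7 : (c' + 1 + c₂ * (2 * c' + 10)) * X =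
          c' * X + X + c₂ * ((2 * c' + 10) * X) := by ring
      have h8 : q ≤ Nat.log 2 W.card + (c' + 1 + c₂ * (2 * c' + 10)) * X := by
        rw [h7]; omega
      calc 2 ^ q ≤ 2 ^ (Nat.log 2 W.card + (c' + 1 + c₂ * (2 * c' + 10)) * X) :=
            Nat.pow_le_pow_right (by norm_num) h8
        _ = 2 ^ Nat.log 2 W.card * 2 ^ ((c' + 1 + c₂ * (2 * c' + 10)) * X) := pow_add _ _ _
        _ ≤ W.card * 2 ^ ((c' + 1 + c₂ * (2 * c' + 10)) * X) :=
            Nat.mul_le_mul_right _ (Nat.pow_log_le_self 2 hWpos)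
    · intro y' m' h
      have h' : R y' m' := h
      rw [hQK] at h'
      refine Finset.mem_filter.2 ⟨?_, m', h⟩
      rw [← h'.1.1]
      exact hF _ _ h'.1.2.1
  · intro i hi
    have h1 := hpart i hi
    have h2 := hμw i hi
    have h3 : c' * X ≤ (c' + 1 + c₂ * (2 * c' + 10)) * X := Nat.mul_le_mul_right _ (by omega)
    show μ P i + (q + 2 + (c' + 1 + c₂ * (2 * c' + 10)) * X - μ P i) = _
    omega

end Pool.Agent.Lib.MP_f4f1a8_lc.KR
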