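import Pool.Agent.Lib.MP_f4f1a8_lc.KR.Uni
import Pool.Agent.Lib.MP_f4f1a8_lc.KR.All

/-! MP_f4f1a8_lc, row Main (helper51): every set of radii, with the error
`min (|D| log n) (√(n log n))`. -/

namespace Pool.Agent.Lib.MP_f4f1a8_lc.KR

open Finset SelectAux

namespace Un

/-- the first and the last element of `D` in each level of `φ` -/
lemma endpointsL (D : Finset ℕ) (hD : D.Nonempty) (K h : ℕ) (hh : 0 < h) (φ : ℕ → ℕ)
    (hφ : ∀ d ∈ D, φ d / h < K) :
    ∃ lo hi : Fin K → ℕ, (∀ j, lo j ∈ D) ∧ (∀ j, hi j ∈ D) ∧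
      (∀ j, φ (hi j) < φ (lo j) + h) ∧ ∀ d ∈ D, ∃ j, lo j ≤ d ∧ d ≤ hi j := by
  classical
  obtain ⟨d₀, hd₀⟩ := hD
  have key : ∀ j : Fin K, ∃ p : ℕ × ℕ, p.1 ∈ D ∧ p.2 ∈ D ∧ φ p.2 < φ p.1 + h ∧
      ∀ d ∈ D, φ d / h = j → p.1 ≤ d ∧ d ≤ p.2 := by
    intro j
    rcases (D.filter (fun d => φ d / h = j)).eq_empty_or_nonempty with he | he
    · refine ⟨(d₀, d₀), hd₀, hd₀, by simpa using hh, ?_⟩
      intro d hd h1
      have h3 : d ∈ D.filter (fun d => φ d / h = j) := Finset.mem_filter.2 ⟨hd, h1⟩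
      rw [he] at h3
      exact absurd h3 (Finset.notMem_empty d)
    · refine ⟨((D.filter (fun d => φ d / h = j)).min' he,
        (D.filter (fun d => φ d / h = j)).max' he), ?_, ?_, ?_, ?_⟩
      · exact (Finset.mem_filter.1 (Finset.min'_mem _ he)).1
      · exact (Finset.mem_filter.1 (Finset.max'_mem _ he)).1
      · have h1 := (Finset.mem_filter.1 (Finset.min'_mem _ he)).2
        have h2 := (Finset.mem_filter.1 (Finset.max'_mem _ he)).2
        have h5 := Nat.lt_div_mul_add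
          (a := φ ((D.filter (fun d => φ d / h = j)).max' he)) hh
        have h6 := Nat.div_mul_le_self (φ ((D.filter (fun d => φ d / h = j)).min' he)) h
        rw [h2] at h5
        rw [h1] at h6
        dsimp only
        omega
      · intro d hd h1
        have h3 : d ∈ D.filter (fun d => φ d / h = j) := Finset.mem_filter.2 ⟨hd, h1⟩
        exact ⟨Finset.min'_le _ _ h3, Finset.le_max' _ _ h3⟩
  choose p hp1 hp2 hp3 hp4 using key
  refine ⟨fun j => (p j).1, fun j => (p j).2, hp1, hp2, hp3, ?_⟩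
  intro d hd
  exact ⟨⟨φ d / h, hφ d hd⟩, hp4 ⟨φ d / h, hφ d hd⟩ d hd rfl⟩

/-- sufficiency from endpoints -/
lemma core_suff {U : List Bool →. List Bool} {cS : ℝ}
    (hcS : ∀ n k : ℕ, 2 ≤ n → k ≤ n + 1 → ∀ d m : Fin k → ℕ, (∀ i, d i ≤ n) →
      ∀ S : ℝ, Robust n k d m S →
      ∃ x : Fin n → Bool, ∀ i, |(M U x (d i) : ℝ) - m i| ≤ S + cS * (k + 1) * Real.log n)
    {n K : ℕ} (hn : 2 ≤ n) (hK : K + K ≤ n + 1) {D : Finset ℕ} (hDn : ∀ d ∈ D, d ≤ n)
    {f : ℕ → ℕ} {S G : ℝ} (lo hi : Fin K → ℕ) (hlo : ∀ j, lo j ∈ D) (hhi : ∀ j, hi j ∈ D)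
    (hcov : ∀ d ∈ D, ∃ j, lo j ≤ d ∧ d ≤ hi j)
    (A : Finset (Fin n → Bool)) (hA : A.Nonempty)
    (h : ∀ d ∈ D, Real.logb 2 (nbr A d).card ≤ f d + S ∧
      ∀ A' ⊆ A, A.card ≤ 2 * (n + 1) * A'.card → (f d : ℝ) - S ≤ Real.logb 2 (nbr A' d).card)
    (hG : ∀ j, Real.logb 2 (nbr A (hi j)).card ≤ Real.logb 2 (nbr A (lo j)).card + G) :
    ∃ x : Fin n → Bool, ∀ d ∈ D,
      |(M U x d : ℝ) - f d| ≤ 3 * S + G + cS * (((K + K : ℕ) : ℝ) + 1) * Real.log n := by
  classical
  set e : Fin (K + K) → ℕ := Fin.append lo hi with he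
  have heD : ∀ i, e i ∈ D := by
    intro i
    refine Fin.addCases (fun j => ?_) (fun j => ?_) i
    · rw [he, Fin.append_left]; exact hlo j
    · rw [he, Fin.append_right]; exact hhi j
  have hel : ∀ j : Fin K, e (Fin.castAdd K j) = lo j := fun j => by rw [he, Fin.append_left]
  have her : ∀ j : Fin K, e (Fin.natAdd K j) = hi j := fun j => by rw [he, Fin.append_right]
  obtain ⟨x, hx0⟩ := hcS n (K + K) hn hK e (fun i => f (e i)) (fun i => hDn _ (heD i)) S
    ⟨A, hA, fun i => h (e i) (heD i)⟩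
  set E : ℝ := cS * (((K + K : ℕ) : ℝ) + 1) * Real.log n with hEdef
  have hx : ∀ i, |(M U x (e i) : ℝ) - f (e i)| ≤ S + E := fun i => hx0 i
  refine ⟨x, fun d hd => ?_⟩
  obtain ⟨j, h1, h2⟩ := hcov d hd
  have xl0 := hx (Fin.castAdd K j)
  have xh0 := hx (Fin.natAdd K j)
  rw [hel j] at xl0
  rw [her j] at xh0
  have xl := abs_le.1 xl0
  have xh := abs_le.1 xh0
  have m1 : (M U x (lo j) : ℝ) ≤ M U x d := by exact_mod_cast M_mono U x h1
  have m2 : (M U x d : ℝ) ≤ M U x (hi j) := by exact_mod_cast M_mono U x h2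
  have gd := h d hd
  have gl := h (lo j) (hlo j)
  have gh := h (hi j) (hhi j)
  have gdl := gd.2 A (Finset.Subset.refl A) (self_ok A)
  have ghl := gh.2 A (Finset.Subset.refl A) (self_ok A)
  have r0 := hG j
  have r1 := lmono hA h1
  have r2 := lmono hA h2
  rw [abs_le]
  constructor <;> linarith [gd.1, gl.1, xl.1, xl.2, xh.1, xh.2]

/-- necessity from endpoints -/
lemma core_nec {U : List Bool →. List Bool} {cN : ℝ}
    (hcN : ∀ n k : ℕ, 2 ≤ n → k ≤ n + 1 → ∀ d : Fin k → ℕ, (∀ i, d i ≤ n) →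
      ∀ x : Fin n → Bool, Robust n k d (fun i => M U x (d i)) (cN * (k + 1) * Real.log n))
    {n K : ℕ} (hn : 2 ≤ n) (hK : K + K ≤ n + 1) {D : Finset ℕ} (hDn : ∀ d ∈ D, d ≤ n)
    {f : ℕ → ℕ} {S G : ℝ} (lo hi : Fin K → ℕ) (hlo : ∀ j, lo j ∈ D) (hhi : ∀ j, hi j ∈ D)
    (hcov : ∀ d ∈ D, ∃ j, lo j ≤ d ∧ d ≤ hi j)
    (x : Fin n → Bool) (hx : ∀ d ∈ D, |(M U x d : ℝ) - f d| ≤ S)
    (hG : ∀ j, (M U x (hi j) : ℝ) ≤ M U x (lo j) + G) :
    RobustOn n D f (S + G + |cN| * (((K + K : ℕ) : ℝ) + 1) * Real.log n) := by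
  classical
  have hl := one_le_log hn
  set e : Fin (K + K) → ℕ := Fin.append lo hi with he
  have heD : ∀ i, e i ∈ D := by
    intro i
    refine Fin.addCases (fun j => ?_) (fun j => ?_) i
    · rw [he, Fin.append_left]; exact hlo j
    · rw [he, Fin.append_right]; exact hhi j
  have hel : ∀ j : Fin K, e (Fin.castAdd K j) = lo j := fun j => by rw [he, Fin.append_left]
  have her : ∀ j : Fin K, e (Fin.natAdd K j) = hi j := fun j => by rw [he, Fin.append_right]
  obtain ⟨A, hA, h0⟩ := hcN n (K + K) hn hK e (fun i => hDn _ (heD i)) x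
  have hE : cN * (((K + K : ℕ) : ℝ) + 1) * Real.log n ≤
      |cN| * (((K + K : ℕ) : ℝ) + 1) * Real.log n := by
    refine mul_le_mul_of_nonneg_right (mul_le_mul_of_nonneg_right (le_abs_self cN) ?_) ?_
    · positivity
    · linarith
  set E : ℝ := cN * (((K + K : ℕ) : ℝ) + 1) * Real.log n with hEdef
  have h : ∀ i, Real.logb 2 (nbr A (e i)).card ≤ (M U x (e i) : ℝ) + E ∧
      ∀ A' ⊆ A, A.card ≤ 2 * (n + 1) * A'.card →
        (M U x (e i) : ℝ) - E ≤ Real.logb 2 (nbr A' (e i)).card := fun i => h0 i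
  refine ⟨A, hA, fun d hd => ?_⟩
  obtain ⟨j, h1, h2⟩ := hcov d hd
  have gl := h (Fin.castAdd K j)
  have gh := h (Fin.natAdd K j)
  rw [hel j] at gl
  rw [her j] at gh
  have m1 : (M U x (lo j) : ℝ) ≤ M U x d := by exact_mod_cast M_mono U x h1
  have m2 : (M U x d : ℝ) ≤ M U x (hi j) := by exact_mod_cast M_mono U x h2
  have hxd := abs_le.1 (hx d hd)
  have r0 := hG j
  constructor
  · have r3 := lmono hA h2
    linarith [gh.1, hxd.1, hxd.2]
  · intro A' hA' hc'
    have r4 := lmono (sub_nonempty hA hc') h1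
    have gl2 := gl.2 A' hA' hc'
    linarith [hxd.1, hxd.2]

end Un

open Un in
/-- The error of the characterisation. -/
theorem main {U : List Bool →. List Bool} (hU : Optimal U) :
    ∃ c : ℝ, 0 ≤ c ∧ ∀ n : ℕ, 2 ≤ n → ∀ D : Finset ℕ, (∀ d ∈ D, d ≤ n) →
      ∀ (f : ℕ → ℕ) (S : ℝ), 0 ≤ S →
      ((∃ x : Fin n → Bool, ∀ d ∈ D, |(M U x d : ℝ) - f d| ≤ S) →
        RobustOn n D f
          (S + c * min (D.card * Real.log n) (Real.sqrt (n * Real.log n)))) ∧
      (RobustOn n D f S → ∃ x : Fin n → Bool, ∀ d ∈ D,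
        |(M U x d : ℝ) - f d| ≤
          3 * S + c * min (D.card * Real.log n) (Real.sqrt (n * Real.log n))) := by
  classical
  obtain ⟨cS, hcS0, hcS⟩ := suff_real hU
  obtain ⟨cN, hcN⟩ := nec hU
  obtain ⟨c₀, hc₀⟩ := C_le_length hU
  have hc00 : (0 : ℝ) ≤ c₀ := Nat.cast_nonneg c₀
  have hcN0 := abs_nonneg cN
  refine ⟨2 * (c₀ + 5) + 1 + 5 * |cN| + 5 * cS, by positivity, ?_⟩
  intro n hn D hDn f S hS
  have hl := one_le_log hn
  have hl0 : 0 ≤ Real.log (n : ℝ) := by linarith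
  rcases D.eq_empty_or_nonempty with hD | hD
  · subst hD
    exact ⟨fun _ => ⟨{fun _ => false}, by simp, fun d hd => absurd hd (Finset.notMem_empty d)⟩,
      fun _ => ⟨fun _ => false, fun d hd => absurd hd (Finset.notMem_empty d)⟩⟩
  have hMle : ∀ (x : Fin n → Bool) (d : ℕ), M U x d ≤ n + c₀ := by
    intro x d
    apply M_le
    intro y _
    have := hc₀ (List.ofFn y)
    simpa using this
  rcases min_choice ((D.card : ℝ) * Real.log n) (Real.sqrt (n * Real.log n)) with hm | hm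
  · -- the number of radii
    rw [hm]
    have hcard : D.card ≤ n + 1 := by
      have h1 : D ⊆ Finset.range (n + 1) := fun d hd =>
        Finset.mem_range.2 (Nat.lt_succ_of_le (hDn d hd))
      simpa using Finset.card_le_card h1
    have hpos : (1 : ℝ) ≤ D.card := by exact_mod_cast Finset.card_pos.2 hD
    set T : ℝ := (D.card : ℝ) * Real.log n with hT
    have hT0 : 0 ≤ T := by positivity
    have h2T : ((D.card : ℝ) + 1) * Real.log n ≤ 2 * T := by
      rw [hT]
      nlinarith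
    have hcT : (2 * ((c₀ : ℝ) + 5) + 1 + 5 * |cN| + 5 * cS) * T =
        2 * ((c₀ : ℝ) + 5) * T + T + 5 * |cN| * T + 5 * cS * T := by ring
    have n1 : 0 ≤ 2 * ((c₀ : ℝ) + 5) * T := by positivity
    have n2 : 0 ≤ |cN| * T := by positivity
    have n3 : 0 ≤ cS * T := by positivity
    set e : Fin D.card → ℕ := fun i => (D.equivFin.symm i : ℕ) with he
    have heD : ∀ i, e i ∈ D := fun i => (D.equivFin.symm i).2
    have hex : ∀ d ∈ D, ∃ i, e i = d := by
      intro d hd
      refine ⟨D.equivFin ⟨d, hd⟩, ?_⟩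
      rw [he]
      simp
    constructor
    · rintro ⟨x, hx⟩
      obtain ⟨A, hA, h⟩ := hcN n D.card hn hcard e (fun i => hDn _ (heD i)) x
      have hE : cN * ((D.card : ℝ) + 1) * Real.log n ≤ 2 * (|cN| * T) := by
        calc cN * ((D.card : ℝ) + 1) * Real.log n =
            cN * (((D.card : ℝ) + 1) * Real.log n) := by ring
          _ ≤ |cN| * (((D.card : ℝ) + 1) * Real.log n) :=
              mul_le_mul_of_nonneg_right (le_abs_self cN) (by positivity)
          _ ≤ |cN| * (2 * T) := mul_le_mul_of_nonneg_left h2T hcN0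
          _ = 2 * (|cN| * T) := by ring
      refine ⟨A, hA, fun d hd => ?_⟩
      obtain ⟨i, rfl⟩ := hex d hd
      have hi := h i
      have hxd := abs_le.1 (hx (e i) hd)
      rw [hcT]
      refine ⟨?_, fun A' hA' hc' => ?_⟩
      · have h1 := hi.1
        linarith [hxd.1, hxd.2]
      · have h1 := hi.2 A' hA' hc'
        linarith [hxd.1, hxd.2]
    · rintro ⟨A, hA, h⟩
      obtain ⟨x, hx⟩ := hcS n D.card hn hcard e (fun i => f (e i)) (fun i => hDn _ (heD i)) S
        ⟨A, hA, fun i => h (e i) (heD i)⟩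
      have hE : cS * ((D.card : ℝ) + 1) * Real.log n ≤ 2 * (cS * T) := by
        calc cS * ((D.card : ℝ) + 1) * Real.log n =
            cS * (((D.card : ℝ) + 1) * Real.log n) := by ring
          _ ≤ cS * (2 * T) := mul_le_mul_of_nonneg_left h2T hcS0
          _ = 2 * (cS * T) := by ring
      refine ⟨x, fun d hd => ?_⟩
      obtain ⟨i, rfl⟩ := hex d hd
      refine (hx i).trans ?_
      rw [hcT]
      linarith
  · -- levels
    rw [hm]
    obtain ⟨r1, -, -⟩ := sqrt_facts hn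
    obtain ⟨h, K, hh, hKdef, hKn, hh2, hK2, -⟩ := choose_h c₀ n hn
    set R : ℝ := Real.sqrt (n * Real.log n) with hR
    have hKK : K + K ≤ n + 1 := by omega
    have hKE : (((K + K : ℕ) : ℝ) + 1) * Real.log n ≤ 5 * R := by
      have : (((K + K : ℕ) : ℝ) + 1) = 2 * (K : ℝ) + 1 := by push_cast; ring
      rw [this]
      exact hK2
    have hcR : (2 * ((c₀ : ℝ) + 5) + 1 + 5 * |cN| + 5 * cS) * R =
        2 * ((c₀ : ℝ) + 5) * R + R + 5 * (|cN| * R) + 5 * (cS * R) := by ring
    have n2 : 0 ≤ |cN| * R := by positivity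
    have n3 : 0 ≤ cS * R := by positivity
    constructor
    · rintro ⟨x, hx⟩
      obtain ⟨lo, hi, hlo, hhi, hlev, hcov⟩ := endpointsL D hD K h hh (M U x) (by
        intro d _
        rw [hKdef]
        exact Nat.lt_succ_of_le (Nat.div_le_div_right (hMle x d)))
      have hG : ∀ j, (M U x (hi j) : ℝ) ≤ M U x (lo j) + h := by
        intro j
        exact_mod_cast (hlev j).le
      have hmain := core_nec hcN hn hKK hDn lo hi hlo hhi hcov x hx hG
      have hE : |cN| * (((K + K : ℕ) : ℝ) + 1) * Real.log n ≤ 5 * (|cN| * R) := by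
        have := mul_le_mul_of_nonneg_left hKE hcN0
        linarith
      obtain ⟨A, hA, hAr⟩ := hmain
      refine ⟨A, hA, fun d hd => ?_⟩
      obtain ⟨g1, g2⟩ := hAr d hd
      rw [hcR]
      refine ⟨by linarith, fun A' hA' hc' => ?_⟩
      have := g2 A' hA' hc'
      linarith
    · rintro ⟨A, hA, hAr⟩
      obtain ⟨lo, hi, hlo, hhi, hlev, hcov⟩ := endpointsL D hD K h hh
        (fun d => Nat.log 2 (nbr A d).card) (by
          intro d _
          rw [hKdef]
          refine Nat.lt_succ_of_le (Nat.div_le_div_right ?_)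
          exact (NC.TD.log_nbr_le A d).trans (Nat.le_add_right _ _))
      have hG : ∀ j, Real.logb 2 (nbr A (hi j)).card ≤
          Real.logb 2 (nbr A (lo j)).card + (h + 1) := by
        intro j
        have hp1 : 0 < (nbr A (hi j)).card := by exact_mod_cast npos hA (hi j)
        have hp2 : 0 < (nbr A (lo j)).card := by exact_mod_cast npos hA (lo j)
        have l1 : Real.logb 2 (nbr A (hi j)).card ≤
            (Nat.log 2 (nbr A (hi j)).card : ℝ) + 1 := by
          have h1 := Nat.lt_pow_succ_log_self (b := 2) (by norm_num) (nbr A (hi j)).card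
          have h2 : ((nbr A (hi j)).card : ℝ) ≤
              (2 : ℝ) ^ (Nat.log 2 (nbr A (hi j)).card + 1) := by exact_mod_cast h1.le
          have h3 := Real.logb_le_logb_of_le (b := 2) (by norm_num) (npos hA (hi j)) h2
          rw [Real.logb_pow, Real.logb_self_eq_one (by norm_num)] at h3
          push_cast at h3
          linarith
        have l2 : (Nat.log 2 (nbr A (lo j)).card : ℝ) ≤ Real.logb 2 (nbr A (lo j)).card := by
          have h1 := Nat.pow_log_le_self 2 hp2.ne'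
          have h2 : (2 : ℝ) ^ (Nat.log 2 (nbr A (lo j)).card) ≤ ((nbr A (lo j)).card : ℝ) := by
            exact_mod_cast h1
          have h3 := Real.logb_le_logb_of_le (b := 2) (by norm_num) (by positivity) h2
          rw [Real.logb_pow, Real.logb_self_eq_one (by norm_num)] at h3
          linarith
        have l3 : (Nat.log 2 (nbr A (hi j)).card : ℝ) ≤
            (Nat.log 2 (nbr A (lo j)).card : ℝ) + h := by
          exact_mod_cast (hlev j).le
        linarith
      obtain ⟨x, hx⟩ := core_suff hcS hn hKK hDn lo hi hlo hhi hcov A hA hAr hG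
      have hE : cS * (((K + K : ℕ) : ℝ) + 1) * Real.log n ≤ 5 * (cS * R) := by
        have := mul_le_mul_of_nonneg_left hKE hcS0
        linarith
      refine ⟨x, fun d hd => (hx d hd).trans ?_⟩
      rw [hcR]
      linarith

end Pool.Agent.Lib.MP_f4f1a8_lc.KR
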