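import Pool.Agent.Lib.MP_f4f1a8_lc.KR.TupZ
import Pool.Agent.Lib.MP_f4f1a8_lc.KR.Dyad
import Pool.Agent.Lib.MP_f4f1a8_lc.KR.Str
import Pool.Agent.Lib.MP_f4f1a8_lc.KR.Fin7

/-! MP_f4f1a8_lc, row NecZ: the profile of a point on a set `D` of radii is robust, with
precision `O(C(f|D) + log n)` (from tuplesZ and dyad, as in Nec.lean). -/

namespace Pool.Agent.Lib.MP_f4f1a8_lc.KR

open Finset

namespace NZ

/-- the radii coded by a string -/
def lst (z : List Bool) : List ℕ :=
  (List.range z.length).filter (fun d => decide (blk z d ≠ 0))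

/-- their number -/
def kap (z : List Bool) : ℕ := (lst z).length

/-- radius number `i` -/
def del (z : List Bool) (i : ℕ) : ℕ := ((lst z)[i]?).getD 0

/-- the value at radius number `i` -/
def nu (z : List Bool) (i : ℕ) : ℕ := blk z (del z i) - 1

lemma primrec_lst : Primrec lst := by
  have h : PrimrecRel (fun (d : ℕ) (z : List Bool) => blk z d ≠ 0) :=
    (Primrec.eq.comp (primrec_blk.comp Primrec.snd Primrec.fst) (Primrec.const 0)).not
  have h2 := PrimrecRel.listFilter h
  have h3 : Primrec (fun z : List Bool =>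
      (List.range z.length).filter (fun d => decide (blk z d ≠ 0))) :=
    h2.comp (Primrec.list_range.comp Primrec.list_length) Primrec.id
  exact h3

lemma primrec_kap : Primrec kap := Primrec.list_length.comp primrec_lst

lemma primrec_del : Primrec₂ del :=
  Primrec.option_getD.comp
    (Primrec.list_getElem?.comp (primrec_lst.comp Primrec.fst) Primrec.snd) (Primrec.const 0)

lemma primrec_nu : Primrec₂ nu := by
  have h : Primrec (fun a : List Bool × ℕ => blk a.1 (del a.1 a.2) - 1) :=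
    Primrec.nat_sub.comp (primrec_blk.comp Primrec.fst
      (primrec_del.comp Primrec.fst Primrec.snd)) (Primrec.const 1)
  exact h

lemma len_str (n : ℕ) (D : Finset ℕ) (f : ℕ → ℕ) : n + 1 ≤ (str n D f).length := by
  unfold str
  rw [List.length_flatMap]
  have h : ∀ l : List ℕ, l.length ≤ (l.map (fun d =>
      (List.replicate (if d ∈ D then f d + 1 else 0) true ++ [false]).length)).sum := by
    intro l
    induction l with
    | nil => simp
    | cons a l ih =>
      rw [List.map_cons, List.sum_cons, List.length_cons, List.length_append]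
      simp only [List.length_cons, List.length_nil] at ih ⊢
      omega
  have := h (List.range (n + 1))
  rwa [List.length_range] at this

lemma mem_lst {n : ℕ} {D : Finset ℕ} (hD : ∀ d ∈ D, d ≤ n) (f : ℕ → ℕ) (d : ℕ) :
    d ∈ lst (str n D f) ↔ d ∈ D := by
  unfold lst
  rw [List.mem_filter, List.mem_range, decide_eq_true_eq]
  constructor
  · rintro ⟨-, h⟩
    rcases le_or_gt d n with h1 | h1
    · rw [blk_str D f h1] at h
      by_contra hd
      rw [if_neg hd] at h
      exact h rfl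
    · exact absurd (blk_str_gt D f h1) h
  · intro h
    have h1 := hD d h
    have h2 := len_str n D f
    refine ⟨by omega, ?_⟩
    rw [blk_str D f h1, if_pos h]
    omega

lemma nodup_lst (z : List Bool) : (lst z).Nodup := List.nodup_range.filter _

lemma kap_eq {n : ℕ} {D : Finset ℕ} (hD : ∀ d ∈ D, d ≤ n) (f : ℕ → ℕ) :
    kap (str n D f) = D.card := by
  have h : (lst (str n D f)).toFinset = D := by
    ext d
    rw [List.mem_toFinset, mem_lst hD]
  unfold kap
  rw [← List.toFinset_card_of_nodup (nodup_lst _), h]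

lemma del_mem {n : ℕ} {D : Finset ℕ} (hD : ∀ d ∈ D, d ≤ n) (f : ℕ → ℕ) {i : ℕ}
    (hi : i < kap (str n D f)) : del (str n D f) i ∈ D := by
  unfold kap at hi
  unfold del
  rw [List.getElem?_eq_getElem hi, Option.getD_some, ← mem_lst hD f]
  exact List.getElem_mem hi

lemma nu_eq {n : ℕ} {D : Finset ℕ} (hD : ∀ d ∈ D, d ≤ n) (f : ℕ → ℕ) {i : ℕ}
    (hi : i < kap (str n D f)) : nu (str n D f) i = f (del (str n D f) i) := by
  have h := del_mem hD f hi
  unfold nu
  rw [blk_str D f (hD _ h), if_pos h]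
  omega

lemma exists_del {n : ℕ} {D : Finset ℕ} (hD : ∀ d ∈ D, d ≤ n) (f : ℕ → ℕ) {d : ℕ}
    (hd : d ∈ D) : ∃ i, i < kap (str n D f) ∧ del (str n D f) i = d := by
  obtain ⟨i, hi, h⟩ := List.getElem_of_mem ((mem_lst hD f d).2 hd)
  refine ⟨i, hi, ?_⟩
  unfold del
  rw [List.getElem?_eq_getElem hi, Option.getD_some, h]

end NZ

open NZ in
/-- The profile of a point on `D`, up to `S`, is robust on `D` up to
`S + O(C(f|D) + log n)`. -/
theorem necZ {U : List Bool →. List Bool} (hU : Optimal U) :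
    ∃ c : ℝ, 0 ≤ c ∧ ∀ n : ℕ, 2 ≤ n → ∀ D : Finset ℕ, (∀ d ∈ D, d ≤ n) →
      ∀ (f : ℕ → ℕ) (S : ℝ), (∃ x : Fin n → Bool, ∀ d ∈ D, |(M U x d : ℝ) - f d| ≤ S) →
      RobustOn n D f (S + c * (C U (str n D f) + Real.log n)) := by
  classical
  obtain ⟨c, hc⟩ := tuplesZ hU primrec_kap primrec_del primrec_nu
  obtain ⟨c₀, hc₀⟩ := C_le_length hU
  obtain ⟨cs, hcs0, hcs⟩ := NL_exists_s 0
  obtain ⟨cc, hcc⟩ : ∃ cc : ℝ, cc = 40 + 2 * c₀ + c * (cs + 3) := ⟨_, rfl⟩
  have hc0 : (0 : ℝ) ≤ c := Nat.cast_nonneg c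
  have hc00 : (0 : ℝ) ≤ c₀ := Nat.cast_nonneg c₀
  have hp1 : 0 ≤ (c : ℝ) * (cs + 3) := by positivity
  refine ⟨cc, by rw [hcc]; positivity, ?_⟩
  rintro n hn D hD f S ⟨x, hx⟩
  have hl1 := SelectAux.one_le_log hn
  have hl0 : 0 ≤ Real.log n := by linarith
  rcases D.eq_empty_or_nonempty with he | hne
  · subst he
    exact ⟨univ, univ_nonempty, fun d hd => absurd hd (notMem_empty d)⟩
  have hS0 : 0 ≤ S := by
    obtain ⟨d, hd⟩ := hne
    exact (abs_nonneg _).trans (hx d hd)
  obtain ⟨z, hz⟩ : ∃ z, z = str n D f := ⟨_, rfl⟩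
  rw [← hz]
  obtain ⟨Z, hZ⟩ : ∃ Z, Z = C U z := ⟨_, rfl⟩
  rw [← hZ]
  have hZ0 : (0 : ℝ) ≤ Z := Nat.cast_nonneg Z
  have hsum0 : 0 ≤ (Z : ℝ) + Real.log n := by linarith
  have hM : ∀ d, M U x d ≤ n + c₀ := by
    intro d
    apply M_le
    intro y _
    have := hc₀ (List.ofFn y)
    rwa [List.length_ofFn] at this
  -- the error exceeds its parts
  have hEa : 40 * ((Z : ℝ) + Real.log n) + 2 * c₀ * (Z + Real.log n) +
      c * (cs + 3) * (Z + Real.log n) = cc * (Z + Real.log n) := by rw [hcc]; ring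
  have hq1 : 0 ≤ (c : ℝ) * (cs + 3) * (Z + Real.log n) := mul_nonneg hp1 hsum0
  have hq2 : (c₀ : ℝ) ≤ 2 * c₀ * (Z + Real.log n) := by nlinarith
  have hq3 : 0 ≤ 2 * (c₀ : ℝ) * (Z + Real.log n) := by positivity
  have hlogn1 : Real.logb 2 ((n : ℝ) + 1) ≤ 4 * Real.log n := by
    have h8 := NL_logb_add hn 1
    have h80 : Real.logb 2 (((1 : ℕ) : ℝ) + 1) = 1 := by
      rw [show (((1 : ℕ) : ℝ) + 1) = 2 by norm_num]
      exact Real.logb_self_eq_one (by norm_num)
    rw [h80] at h8
    push_cast at h8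
    linarith
  have hnbrn : ∀ (A : Finset (Fin n → Bool)) (d : ℕ), A.Nonempty →
      0 ≤ Real.logb 2 (nbr A d).card ∧ Real.logb 2 (nbr A d).card ≤ n := by
    intro A d hA
    obtain ⟨a, ha⟩ := hA
    have hpos : 0 < (nbr A d).card := card_pos.2 ⟨a, mem_nbr.2 ⟨a, ha, by simp⟩⟩
    refine ⟨Real.logb_nonneg (by norm_num) (by exact_mod_cast hpos), ?_⟩
    have h1 : (nbr A d).card ≤ 2 ^ n := by
      refine (card_le_univ _).trans ?_
      simp
    have h2 : ((nbr A d).card : ℝ) ≤ 2 ^ n := by exact_mod_cast h1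
    have h3 := Real.logb_le_logb_of_le (b := 2) (by norm_num) (by exact_mod_cast hpos) h2
    rwa [Real.logb_pow, Real.logb_self_eq_one (by norm_num), mul_one] at h3
  have hA'ne : ∀ (A A' : Finset (Fin n → Bool)), A.Nonempty →
      A.card ≤ 2 * (n + 1) * A'.card → A'.Nonempty := by
    intro A A' hA hcard
    rw [← card_pos] at hA ⊢
    rcases Nat.eq_zero_or_pos A'.card with h0 | h0
    · rw [h0] at hcard; omega
    · exact h0
  -- trivial cases
  rcases le_or_gt n Z with hnZ | hnZ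
  · refine ⟨univ, univ_nonempty, fun d hd => ?_⟩
    have hnZ' : (n : ℝ) ≤ Z := by exact_mod_cast hnZ
    refine ⟨?_, fun A' _ hcard => ?_⟩
    · have h1 := (hnbrn univ d univ_nonempty).2
      have h2 : (0 : ℝ) ≤ f d := Nat.cast_nonneg _
      linarith
    · have h1 := (hnbrn A' d (hA'ne _ _ univ_nonempty hcard)).1
      have h2 := (abs_le.1 (hx d hd)).1
      have h3 : (M U x d : ℝ) ≤ n + c₀ := by exact_mod_cast hM d
      linarith
  rcases lt_or_ge (n : ℝ) S with hnS | hnS
  · refine ⟨univ, univ_nonempty, fun d hd => ?_⟩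
    refine ⟨?_, fun A' _ hcard => ?_⟩
    · have h1 := (hnbrn univ d univ_nonempty).2
      have h2 : (0 : ℝ) ≤ f d := Nat.cast_nonneg _
      linarith
    · have hne' := hA'ne _ _ univ_nonempty hcard
      have h2 := (abs_le.1 (hx d hd)).1
      have h3 : (M U x d : ℝ) ≤ n + c₀ := by exact_mod_cast hM d
      have h4 : 2 ^ n ≤ 2 * (n + 1) * (nbr A' d).card := by
        have h5 : (univ : Finset (Fin n → Bool)).card = 2 ^ n := by simp
        rw [h5] at hcard
        refine hcard.trans (Nat.mul_le_mul_left _ (card_le_card ?_))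
        intro y hy
        exact mem_nbr.2 ⟨y, hy, by simp⟩
      have hpos : (0 : ℝ) < (nbr A' d).card := by
        obtain ⟨a, ha⟩ := hne'
        exact_mod_cast card_pos.2 ⟨a, mem_nbr.2 ⟨a, ha, by simp⟩⟩
      have h5 : (2 : ℝ) ^ n ≤ 2 * ((n : ℝ) + 1) * (nbr A' d).card := by exact_mod_cast h4
      have h6 := Real.logb_le_logb_of_le (b := 2) (by norm_num) (by positivity) h5
      rw [Real.logb_mul (by positivity) hpos.ne', Real.logb_mul (by norm_num) (by positivity),
        Real.logb_pow, Real.logb_self_eq_one (by norm_num), mul_one] at h6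
      linarith
  -- the main case
  obtain ⟨s, hs, hs'⟩ := hcs n hn
  have hs0 : n < 2 ^ s := by simpa using hs
  obtain ⟨SN, hSN⟩ : ∃ SN : ℕ, SN = ⌈S⌉₊ := ⟨_, rfl⟩
  have hSNn : SN ≤ n := by rw [hSN]; exact Nat.ceil_le.2 hnS
  have hSN1 : S ≤ SN := by rw [hSN]; exact Nat.le_ceil S
  have hSN2 : (SN : ℝ) < S + 1 := by rw [hSN]; exact Nat.ceil_lt_add_one hS0
  have hkap : kap z ≤ n + 1 := by
    rw [hz, kap_eq hD f]
    exact card_le_of_le hD
  have hdel : ∀ i < kap z, del z i ∈ D := by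
    intro i hi
    rw [hz] at hi ⊢
    exact del_mem hD f hi
  have hnu : ∀ i < kap z, nu z i = f (del z i) := by
    intro i hi
    rw [hz] at hi ⊢
    exact nu_eq hD f hi
  obtain ⟨g, W, hWne, hWd, hWf, hWc⟩ := hc n s SN z x hs0 hSNn
    (lt_of_lt_of_le (by rw [← hZ]; exact hnZ) hs0.le) hkap
    (fun i hi => hD _ (hdel i hi)) (fun i hi => by
      rw [hnu i hi]
      have h1 := abs_le.1 (hx _ (hdel i hi))
      constructor
      · have h2 : (M U x (del z i) : ℝ) ≤ f (del z i) + SN := by linarith [h1.2]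
        exact_mod_cast h2
      · have h2 : (f (del z i) : ℝ) ≤ M U x (del z i) + SN := by linarith [h1.1]
        exact_mod_cast h2)
  rw [← hZ] at hWc
  obtain ⟨A, hAne, hA1, hA2⟩ := dyad (fun i : Fin (kap z) => del z i) g W hWne
    (fun w hw i => (hWd w hw i).1) hWf
  have hcsE : (c : ℝ) * (Z + s + 1) ≤ c * (cs + 3) * (Z + Real.log n) := by
    have h1 : (Z : ℝ) + s + 1 ≤ (cs + 3) * (Z + Real.log n) := by
      have h2 : (cs + 3) * ((Z : ℝ) + Real.log n) =
        Z + cs * Real.log n + (2 * Real.log n) + Real.log n + (cs + 2) * Z := by ring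
      have h3 : 0 ≤ (cs + 2) * (Z : ℝ) := by positivity
      rw [h2]
      linarith
    calc (c : ℝ) * (Z + s + 1) ≤ c * ((cs + 3) * (Z + Real.log n)) :=
          mul_le_mul_of_nonneg_left h1 hc0
      _ = _ := by ring
  refine ⟨A, hAne, fun d hd => ?_⟩
  obtain ⟨i, hi, hdi⟩ : ∃ i, i < kap z ∧ del z i = d := by
    rw [hz]
    exact exists_del hD f hd
  have hnui : nu z i = f d := by rw [hnu i hi, hdi]
  constructor
  · have h1 : (nbr A d).card < 2 ^ (f d + SN + 1) := by
      apply card_lt_of_C hU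
      intro y hy
      obtain ⟨a, ha, hay⟩ := mem_nbr.mp hy
      obtain ⟨w, hw, rfl⟩ := hA1 a ha
      have h2 := (hWd w hw ⟨i, hi⟩).2
      simp only at h2
      rw [hdi, hnui] at h2
      exact Nat.lt_succ_of_le ((le_M hay).trans h2)
    have hpos : 0 < (nbr A d).card := by
      obtain ⟨a, ha⟩ := hAne
      exact Finset.card_pos.mpr ⟨a, mem_nbr.mpr ⟨a, ha, by simp⟩⟩
    have h2 := NL_logb_lt hpos h1
    push_cast at h2
    linarith
  · intro A' hA' hcard
    have h1 := hA2 ⟨i, hi⟩ A' hA' hcard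
    have h2 := hWc ⟨i, hi⟩
    simp only at h1 h2
    rw [hdi] at h1
    rw [hnui] at h2
    obtain ⟨gi, hgi⟩ : ∃ gi, gi = g ⟨i, hi⟩ := ⟨_, rfl⟩
    rw [← hgi] at h1 h2
    have h3 : 2 ^ f d ≤ 4 * (n + 1) * (kap z * n + 1) * (nbr A' d).card *
        2 ^ (SN + c * (Z + s + 1)) := by
      have h4 : 2 ^ f d * 2 ^ gi ≤
          4 * (n + 1) * (kap z * n + 1) * (nbr A' d).card * 2 ^ (SN + c * (Z + s + 1)) *
            2 ^ gi := by
        calc 2 ^ f d * 2 ^ gi = 2 ^ (f d + gi) := (pow_add _ _ _).symm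
          _ ≤ W.card * 2 ^ (SN + c * (Z + s + 1)) := h2
          _ ≤ (4 * (n + 1) * (kap z * n + 1) * (2 ^ gi * (nbr A' d).card)) *
              2 ^ (SN + c * (Z + s + 1)) := Nat.mul_le_mul_right _ h1
          _ = 4 * (n + 1) * (kap z * n + 1) * (nbr A' d).card *
              2 ^ (SN + c * (Z + s + 1)) * 2 ^ gi := by ring
      exact Nat.le_of_mul_le_mul_right h4 (by positivity)
    have hpos : 0 < (nbr A' d).card := by
      rcases Nat.eq_zero_or_pos (nbr A' d).card with h0 | h0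
      · rw [h0, mul_zero, zero_mul] at h3
        exact absurd h3 (by have : 0 < 2 ^ f d := by positivity
                            omega)
      · exact h0
    have hnbR : (0 : ℝ) < ((nbr A' d).card : ℝ) := by exact_mod_cast hpos
    have hn0 : (0 : ℝ) ≤ n := Nat.cast_nonneg n
    have hkn' : (kap z : ℝ) ≤ n + 1 := by exact_mod_cast hkap
    have h5 : (2 : ℝ) ^ f d ≤
        2 ^ 2 * ((n : ℝ) + 1) ^ 3 * (nbr A' d).card * 2 ^ (SN + c * (Z + s + 1)) := by
      have h6 : (2 : ℝ) ^ f d ≤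
          4 * (n + 1) * (kap z * n + 1) * (nbr A' d).card * 2 ^ (SN + c * (Z + s + 1)) := by
        exact_mod_cast h3
      refine h6.trans ?_
      refine mul_le_mul_of_nonneg_right ?_ (by positivity)
      refine mul_le_mul_of_nonneg_right ?_ hnbR.le
      have h7 : (kap z : ℝ) * n + 1 ≤ (n + 1) ^ 2 := by nlinarith
      have h8 : (0 : ℝ) ≤ 4 * (n + 1) := by positivity
      have h9 := mul_le_mul_of_nonneg_left h7 h8
      calc 4 * ((n : ℝ) + 1) * (kap z * n + 1) ≤ 4 * (n + 1) * (n + 1) ^ 2 := h9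
        _ = 2 ^ 2 * (n + 1) ^ 3 := by ring
    have h7 := Real.logb_le_logb_of_le (b := 2) (by norm_num) (by positivity) h5
    have hn1 : (0 : ℝ) < (n : ℝ) + 1 := by positivity
    rw [Real.logb_mul (by positivity) (by positivity), Real.logb_mul (by positivity) hnbR.ne',
      Real.logb_mul (by positivity) (by positivity), Real.logb_pow, Real.logb_pow,
      Real.logb_pow, Real.logb_pow, Real.logb_self_eq_one (by norm_num)] at h7
    have h91 : ((SN + c * (Z + s + 1) : ℕ) : ℝ) = (SN : ℝ) + (c : ℝ) * (Z + s + 1) := by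
      push_cast
      ring
    rw [h91] at h7
    push_cast at h7
    linarith

end Pool.Agent.Lib.MP_f4f1a8_lc.KR
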