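import Pool.Agent.Lib.MP_f4f1a8_lc.LLem
import Pool.Agent.Lib.MP_f4f1a8_lc.KR.Fin7

/-! MP_f4f1a8_lc: the characterisation for an arbitrary finite set of radii, with error
`O(min (|D| log n, sqrt (n log n)))`. -/

namespace Pool.Agent.Lib.MP_f4f1a8_lc.KR

open Finset SelectAux

private lemma nbr_pos {n : ℕ} {S : Finset (Fin n → Bool)} (hS : S.Nonempty) (d : ℕ) :
    0 < (nbr S d).card := by
  obtain ⟨x, hx⟩ := hS
  exact Finset.card_pos.2 ⟨x, mem_nbr.2 ⟨x, hx, by simp⟩⟩

private lemma lmono {n : ℕ} {S : Finset (Fin n → Bool)} (hS : S.Nonempty) {d e : ℕ}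
    (h : d ≤ e) : Real.logb 2 (nbr S d).card ≤ Real.logb 2 (nbr S e).card := by
  refine Real.logb_le_logb_of_le (by norm_num) (by exact_mod_cast nbr_pos hS d) ?_
  have h1 : nbr S d ⊆ nbr S e := by
    intro y hy
    obtain ⟨x, hx, hxy⟩ := mem_nbr.1 hy
    exact mem_nbr.2 ⟨x, hx, hxy.trans h⟩
  exact_mod_cast Finset.card_le_card h1

/-- The necessary condition on a finite set of radii. -/
private lemma nec_set {U : List Bool →. List Bool} {c : ℝ} (hc : 0 ≤ c)
    (hN : ∀ n k : ℕ, 2 ≤ n → k ≤ n + 1 → ∀ d m : Fin k → ℕ, (∀ i, d i ≤ n) →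
      ∀ (S : ℝ) (x : Fin n → Bool), (∀ i, |(M U x (d i) : ℝ) - m i| ≤ S) →
      Robust n k d m (S + c * (k + 1) * Real.log n))
    {n : ℕ} (hn : 2 ≤ n) (D : Finset ℕ) (hD : ∀ d ∈ D, d ≤ n) (f : ℕ → ℕ) (S : ℝ)
    (x : Fin n → Bool) (hx : ∀ d ∈ D, |(M U x d : ℝ) - f d| ≤ S) :
    RobustOn n D f (S + 2 * c * (D.card * Real.log n)) := by
  have hl := one_le_log hn
  have hl0 : 0 ≤ Real.log (n : ℝ) := by linarith
  rcases D.eq_empty_or_nonempty with h0 | h0
  · subst h0
    exact ⟨{x}, by simp, by simp⟩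
  have hk1 : 1 ≤ D.card := Finset.card_pos.2 h0
  have hk : D.card ≤ n + 1 := by
    have h1 : D ⊆ range (n + 1) := fun d hd => Finset.mem_range.2 (by have := hD d hd; omega)
    have h2 := Finset.card_le_card h1
    rwa [Finset.card_range] at h2
  obtain ⟨A, hA, h⟩ := hN n D.card hn hk (fun i => (D.equivFin.symm i : ℕ))
    (fun i => f (D.equivFin.symm i : ℕ)) (fun i => hD _ (D.equivFin.symm i).2) S x
    (fun i => hx _ (D.equivFin.symm i).2)
  have hs : c * ((D.card : ℝ) + 1) * Real.log n ≤ 2 * c * (D.card * Real.log n) := by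
    have h1 : ((D.card : ℝ) + 1) ≤ 2 * D.card := by
      have : (1 : ℝ) ≤ D.card := by exact_mod_cast hk1
      linarith
    calc c * ((D.card : ℝ) + 1) * Real.log n ≤ c * (2 * D.card) * Real.log n :=
          mul_le_mul_of_nonneg_right (mul_le_mul_of_nonneg_left h1 hc) hl0
      _ = 2 * c * (D.card * Real.log n) := by ring
  refine ⟨A, hA, fun d hd => ?_⟩
  have h2 := h (D.equivFin ⟨d, hd⟩)
  simp only [Equiv.symm_apply_apply] at h2
  refine ⟨by linarith [h2.1], fun A' hA' hcard => ?_⟩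
  have h3 := h2.2 A' hA' hcard
  linarith

/-- The sufficient condition on a finite set of radii, with separate bounds. -/
private lemma suff_set {U : List Bool →. List Bool} {c : ℝ} (hc : 0 ≤ c)
    (hS : ∀ n k : ℕ, 2 ≤ n → k ≤ n + 1 → ∀ d : Fin k → ℕ, (∀ i, d i ≤ n) →
      ∀ (α β : Fin k → ℝ) (A : Finset (Fin n → Bool)), A.Nonempty →
      (∀ i, Real.logb 2 (nbr A (d i)).card ≤ β i ∧
        ∀ A' ⊆ A, A.card ≤ 2 * (n + 1) * A'.card → α i ≤ Real.logb 2 (nbr A' (d i)).card) →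
      ∃ x : Fin n → Bool, ∀ i, α i - 1 ≤ M U x (d i) ∧
        (M U x (d i) : ℝ) ≤ β i + c * (k + 1) * Real.log n)
    {n : ℕ} (hn : 2 ≤ n) (D : Finset ℕ) (hD : ∀ d ∈ D, d ≤ n) (α β : ℕ → ℝ)
    (A : Finset (Fin n → Bool)) (hA : A.Nonempty)
    (h : ∀ d ∈ D, Real.logb 2 (nbr A d).card ≤ β d ∧
        ∀ A' ⊆ A, A.card ≤ 2 * (n + 1) * A'.card → α d ≤ Real.logb 2 (nbr A' d).card) :
    ∃ x : Fin n → Bool, ∀ d ∈ D, α d - 1 ≤ M U x d ∧
      (M U x d : ℝ) ≤ β d + 2 * c * (D.card * Real.log n) := by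
  have hl := one_le_log hn
  have hl0 : 0 ≤ Real.log (n : ℝ) := by linarith
  rcases D.eq_empty_or_nonempty with h0 | h0
  · subst h0
    exact ⟨fun _ => true, by simp⟩
  have hk1 : 1 ≤ D.card := Finset.card_pos.2 h0
  have hk : D.card ≤ n + 1 := by
    have h1 : D ⊆ range (n + 1) := fun d hd => Finset.mem_range.2 (by have := hD d hd; omega)
    have h2 := Finset.card_le_card h1
    rwa [Finset.card_range] at h2
  obtain ⟨x, hx⟩ := hS n D.card hn hk (fun i => (D.equivFin.symm i : ℕ))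
    (fun i => hD _ (D.equivFin.symm i).2) (fun i => α (D.equivFin.symm i : ℕ))
    (fun i => β (D.equivFin.symm i : ℕ)) A hA (fun i => h _ (D.equivFin.symm i).2)
  have hs : c * ((D.card : ℝ) + 1) * Real.log n ≤ 2 * c * (D.card * Real.log n) := by
    have h1 : ((D.card : ℝ) + 1) ≤ 2 * D.card := by
      have : (1 : ℝ) ≤ D.card := by exact_mod_cast hk1
      linarith
    calc c * ((D.card : ℝ) + 1) * Real.log n ≤ c * (2 * D.card) * Real.log n :=
          mul_le_mul_of_nonneg_right (mul_le_mul_of_nonneg_left h1 hc) hl0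
      _ = 2 * c * (D.card * Real.log n) := by ring
  refine ⟨x, fun d hd => ?_⟩
  have h2 := hx (D.equivFin ⟨d, hd⟩)
  simp only [Equiv.symm_apply_apply] at h2
  exact ⟨h2.1, h2.2.trans (by linarith)⟩

open Classical in
/-- The first and the last elements of the levels of `φ`. -/
private noncomputable def ends (D : Finset ℕ) (φ : ℕ → ℕ) (h : ℕ) : Finset ℕ :=
  D.filter (fun d => ∀ e ∈ D, φ e / h = φ d / h → d ≤ e) ∪
    D.filter (fun d => ∀ e ∈ D, φ e / h = φ d / h → e ≤ d)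

private lemma ends_subset (D : Finset ℕ) (φ : ℕ → ℕ) (h : ℕ) : ends D φ h ⊆ D := by
  unfold ends
  exact Finset.union_subset (Finset.filter_subset _ _) (Finset.filter_subset _ _)

private lemma ends_card (D : Finset ℕ) (φ : ℕ → ℕ) {h N : ℕ}
    (hN : ∀ d ∈ D, φ d ≤ N) : (ends D φ h).card ≤ 2 * (N / h + 1) := by
  classical
  have key : ∀ E : Finset ℕ, E ⊆ D → (∀ a ∈ E, ∀ b ∈ E, φ a / h = φ b / h → a = b) →
      E.card ≤ N / h + 1 := by
    intro E hE hinj
    have h1 := Finset.card_le_card_of_injOn (s := E) (t := range (N / h + 1))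
      (fun d => φ d / h) (fun d hd => Finset.mem_coe.2 (Finset.mem_range.2
        (Nat.lt_succ_of_le (Nat.div_le_div_right (hN d (hE hd))))))
      (fun a ha b hb hab => hinj a ha b hb hab)
    rwa [Finset.card_range] at h1
  unfold ends
  refine (Finset.card_union_le _ _).trans ?_
  have e1 := key _ (Finset.filter_subset
      (fun d => ∀ e ∈ D, φ e / h = φ d / h → d ≤ e) D) (by
    intro a ha b hb hab
    rw [Finset.mem_filter] at ha hb
    exact le_antisymm (ha.2 b hb.1 hab.symm) (hb.2 a ha.1 hab))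
  have e2 := key _ (Finset.filter_subset
      (fun d => ∀ e ∈ D, φ e / h = φ d / h → e ≤ d) D) (by
    intro a ha b hb hab
    rw [Finset.mem_filter] at ha hb
    exact le_antisymm (hb.2 a ha.1 hab) (ha.2 b hb.1 hab.symm))
  omega

private lemma exists_ends (D : Finset ℕ) (φ : ℕ → ℕ) {h : ℕ} (hh : 0 < h) {d : ℕ}
    (hd : d ∈ D) : ∃ a ∈ ends D φ h, ∃ b ∈ ends D φ h, a ≤ d ∧ d ≤ b ∧
      φ b ≤ φ a + h ∧ φ d ≤ φ a + h ∧ φ b ≤ φ d + h := by
  classical
  have hne : (D.filter (fun e => φ e / h = φ d / h)).Nonempty :=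
    ⟨d, Finset.mem_filter.2 ⟨hd, rfl⟩⟩
  have ha := Finset.min'_mem _ hne
  have hb := Finset.max'_mem _ hne
  set a := (D.filter (fun e => φ e / h = φ d / h)).min' hne with hadef
  set b := (D.filter (fun e => φ e / h = φ d / h)).max' hne with hbdef
  rw [Finset.mem_filter] at ha hb
  have h1 : φ b < h * (φ b / h + 1) := Nat.lt_mul_div_succ _ hh
  have h2 : h * (φ a / h) ≤ φ a := Nat.mul_div_le _ _
  have h3 : φ d < h * (φ d / h + 1) := Nat.lt_mul_div_succ _ hh
  have h4 : h * (φ d / h) ≤ φ d := Nat.mul_div_le _ _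
  rw [hb.2] at h1
  rw [ha.2] at h2
  rw [mul_add, mul_one] at h1 h3
  refine ⟨a, ?_, b, ?_, ?_, ?_, by omega, by omega, by omega⟩
  · unfold ends
    refine Finset.mem_union_left _ (Finset.mem_filter.2 ⟨ha.1, fun e he hee => ?_⟩)
    exact Finset.min'_le (D.filter (fun e => φ e / h = φ d / h)) e
      (Finset.mem_filter.2 ⟨he, hee.trans ha.2⟩)
  · unfold ends
    refine Finset.mem_union_right _ (Finset.mem_filter.2 ⟨hb.1, fun e he hee => ?_⟩)
    exact Finset.le_max' (D.filter (fun e => φ e / h = φ d / h)) e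
      (Finset.mem_filter.2 ⟨he, hee.trans hb.2⟩)
  · exact Finset.min'_le (D.filter (fun e => φ e / h = φ d / h)) d
      (Finset.mem_filter.2 ⟨hd, rfl⟩)
  · exact Finset.le_max' (D.filter (fun e => φ e / h = φ d / h)) d
      (Finset.mem_filter.2 ⟨hd, rfl⟩)

/-- the height of the levels -/
private noncomputable def hh (n : ℕ) : ℕ := ⌈Real.sqrt (n * Real.log n)⌉₊

private lemma sqrt_ge {n : ℕ} (hn : 2 ≤ n) : 1 ≤ Real.sqrt (n * Real.log n) := by
  rw [Real.one_le_sqrt]
  have h1 := one_le_log hn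
  have h2 : (2 : ℝ) ≤ n := by exact_mod_cast hn
  nlinarith

private lemma hh_pos {n : ℕ} (hn : 2 ≤ n) : 0 < hh n :=
  Nat.ceil_pos.2 (by have := sqrt_ge hn; linarith)

private lemma hh_le {n : ℕ} (hn : 2 ≤ n) : (hh n : ℝ) ≤ 2 * Real.sqrt (n * Real.log n) := by
  have h1 := sqrt_ge hn
  have h2 := (Nat.ceil_lt_add_one (show 0 ≤ Real.sqrt (n * Real.log n) by linarith)).le
  unfold hh
  linarith

private lemma log_le_sqrt {n : ℕ} (hn : 2 ≤ n) : Real.log n ≤ Real.sqrt (n * Real.log n) := by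
  have h1 := one_le_log hn
  have h2 : (0 : ℝ) < n := by exact_mod_cast (by omega : 0 < n)
  have h3 : Real.log (n : ℝ) ≤ n := by
    have := Real.log_le_sub_one_of_pos h2
    linarith
  apply Real.le_sqrt_of_sq_le
  nlinarith

private lemma levels_le {n c₀ : ℕ} (hn : 2 ≤ n) :
    (2 * ((n + c₀) / hh n + 1) : ℕ) * Real.log n ≤
      (2 * c₀ + 4) * Real.sqrt (n * Real.log n) := by
  have h1 := one_le_log hn
  have hl0 : 0 ≤ Real.log (n : ℝ) := by linarith
  have hp := hh_pos hn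
  have hpr : (0 : ℝ) < hh n := by exact_mod_cast hp
  have h2 := log_le_sqrt hn
  have h3 : Real.sqrt (n * Real.log n) ≤ hh n := Nat.le_ceil _
  have hs := sqrt_ge hn
  have h4 : (((n + c₀) / hh n : ℕ) : ℝ) ≤ ((n + c₀ : ℕ) : ℝ) / hh n := Nat.cast_div_le
  have h5 : ((n + c₀ : ℕ) : ℝ) / hh n ≤ (n : ℝ) / Real.sqrt (n * Real.log n) + c₀ := by
    push_cast
    rw [add_div]
    refine add_le_add ?_ ?_
    · exact div_le_div_of_nonneg_left (by positivity) (by linarith) h3
    · rw [div_le_iff₀ hpr]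
      have : (1 : ℝ) ≤ hh n := by exact_mod_cast hp
      have hc : (0 : ℝ) ≤ c₀ := Nat.cast_nonneg _
      nlinarith
  have h6 : (n : ℝ) / Real.sqrt (n * Real.log n) * Real.log n = Real.sqrt (n * Real.log n) := by
    have h7 : Real.sqrt (n * Real.log n) * Real.sqrt (n * Real.log n) = n * Real.log n :=
      Real.mul_self_sqrt (by positivity)
    rw [div_mul_eq_mul_div, div_eq_iff (by linarith)]
    exact h7.symm
  have h8 : (((n + c₀) / hh n : ℕ) : ℝ) * Real.log n ≤
      Real.sqrt (n * Real.log n) + c₀ * Real.log n := by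
    calc (((n + c₀) / hh n : ℕ) : ℝ) * Real.log n
        ≤ ((n : ℝ) / Real.sqrt (n * Real.log n) + c₀) * Real.log n :=
          mul_le_mul_of_nonneg_right (h4.trans h5) hl0
      _ = Real.sqrt (n * Real.log n) + c₀ * Real.log n := by rw [add_mul, h6]
  push_cast
  have hc : (0 : ℝ) ≤ c₀ := Nat.cast_nonneg _
  nlinarith

open Classical in
/-- The least rounded logarithm of the size of the `d`-neighbourhood of a large subset. -/
private noncomputable def low {n : ℕ} (A : Finset (Fin n → Bool)) (d : ℕ) : ℕ :=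
  sInf {m | ∃ A' ⊆ A, A.card ≤ 2 * (n + 1) * A'.card ∧ m = Nat.log 2 (nbr A' d).card}

private lemma card_self {n : ℕ} (A : Finset (Fin n → Bool)) :
    A.card ≤ 2 * (n + 1) * A.card := by
  have : 1 ≤ 2 * (n + 1) := by omega
  nlinarith [Nat.zero_le A.card]

private lemma low_spec {n : ℕ} (A : Finset (Fin n → Bool)) (d : ℕ) :
    ∃ A' ⊆ A, A.card ≤ 2 * (n + 1) * A'.card ∧ low A d = Nat.log 2 (nbr A' d).card :=
  Nat.sInf_mem (s := {m | ∃ A' ⊆ A, A.card ≤ 2 * (n + 1) * A'.card ∧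
    m = Nat.log 2 (nbr A' d).card}) ⟨_, A, Finset.Subset.refl A, card_self A, rfl⟩

private lemma low_le {n : ℕ} {A A' : Finset (Fin n → Bool)} (hA' : A' ⊆ A)
    (hc : A.card ≤ 2 * (n + 1) * A'.card) (d : ℕ) : low A d ≤ Nat.log 2 (nbr A' d).card :=
  Nat.sInf_le ⟨A', hA', hc, rfl⟩

private lemma big_nonempty {n : ℕ} {A A' : Finset (Fin n → Bool)} (hA : A.Nonempty)
    (hcard : A.card ≤ 2 * (n + 1) * A'.card) : A'.Nonempty := by
  rw [Finset.nonempty_iff_ne_empty]
  rintro rfl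
  have := Finset.card_pos.2 hA
  rw [Finset.card_empty, Nat.mul_zero] at hcard
  omega

private lemma log_le_logb {n : ℕ} {A : Finset (Fin n → Bool)} (hA : A.Nonempty) (d : ℕ) :
    (Nat.log 2 (nbr A d).card : ℝ) ≤ Real.logb 2 (nbr A d).card := by
  rw [Real.le_logb_iff_rpow_le (by norm_num) (by exact_mod_cast nbr_pos hA d),
    Real.rpow_natCast]
  exact_mod_cast Nat.pow_log_le_self 2 (nbr_pos hA d).ne'

private lemma logb_le_log {n : ℕ} {A : Finset (Fin n → Bool)} (hA : A.Nonempty) (d : ℕ) :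
    Real.logb 2 (nbr A d).card ≤ Nat.log 2 (nbr A d).card + 1 :=
  NL_logb_lt (nbr_pos hA d) (Nat.lt_pow_succ_log_self (by norm_num) _)

private lemma log_nbr_le {n : ℕ} (A : Finset (Fin n → Bool)) (d : ℕ) :
    Nat.log 2 (nbr A d).card ≤ n := by
  have h1 : (nbr A d).card ≤ 2 ^ n := by
    refine (Finset.card_le_univ _).trans ?_
    simp
  exact (Nat.log_mono_right h1).trans (Nat.log_pow (by norm_num) n).le

/-- The main theorem, from its form for `k` radii. -/
theorem main_of {U : List Bool →. List Bool} (hU : Optimal U)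
    (hnec : ∃ c : ℝ, 0 ≤ c ∧ ∀ n k : ℕ, 2 ≤ n → k ≤ n + 1 → ∀ d m : Fin k → ℕ,
      (∀ i, d i ≤ n) → ∀ (S : ℝ) (x : Fin n → Bool), (∀ i, |(M U x (d i) : ℝ) - m i| ≤ S) →
      Robust n k d m (S + c * (k + 1) * Real.log n))
    (hsuff : ∃ c : ℝ, 0 ≤ c ∧ ∀ n k : ℕ, 2 ≤ n → k ≤ n + 1 → ∀ d : Fin k → ℕ,
      (∀ i, d i ≤ n) → ∀ (α β : Fin k → ℝ) (A : Finset (Fin n → Bool)), A.Nonempty →
      (∀ i, Real.logb 2 (nbr A (d i)).card ≤ β i ∧
        ∀ A' ⊆ A, A.card ≤ 2 * (n + 1) * A'.card → α i ≤ Real.logb 2 (nbr A' (d i)).card) →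
      ∃ x : Fin n → Bool, ∀ i, α i - 1 ≤ M U x (d i) ∧
        (M U x (d i) : ℝ) ≤ β i + c * (k + 1) * Real.log n) :
    ∃ c : ℝ, 0 ≤ c ∧ ∀ n : ℕ, 2 ≤ n → ∀ D : Finset ℕ, (∀ d ∈ D, d ≤ n) →
      ∀ (f : ℕ → ℕ) (S : ℝ),
      (RobustOn n D f S → ∃ x : Fin n → Bool, ∀ d ∈ D, |(M U x d : ℝ) - f d| ≤
        S + c * min (D.card * Real.log n) (Real.sqrt (n * Real.log n))) ∧
      ((∃ x : Fin n → Bool, ∀ d ∈ D, |(M U x d : ℝ) - f d| ≤ S) →
        RobustOn n D f
          (S + c * min (D.card * Real.log n) (Real.sqrt (n * Real.log n)))) := by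
  classical
  obtain ⟨c₁, hc₁, hN⟩ := hnec
  obtain ⟨c₂, hc₂, hS⟩ := hsuff
  obtain ⟨c₀, hc₀⟩ := C_le_length hU
  have hc0 : (0 : ℝ) ≤ c₀ := Nat.cast_nonneg _
  refine ⟨4 * (c₁ + c₂) * (2 * c₀ + 4) + 4, by positivity, ?_⟩
  intro n hn D hD f S
  have hl := one_le_log hn
  have hl0 : 0 ≤ Real.log (n : ℝ) := by linarith
  have hsq := sqrt_ge hn
  have hhp := hh_pos hn
  have hhl := hh_le hn
  set c := 4 * (c₁ + c₂) * (2 * c₀ + 4) + 4 with hc
  have hcc1 : 2 * c₁ ≤ c := by rw [hc]; nlinarith [mul_nonneg hc₁ hc0, mul_nonneg hc₂ hc0]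
  have hcc2 : 2 * c₂ + 2 ≤ c := by rw [hc]; nlinarith [mul_nonneg hc₁ hc0, mul_nonneg hc₂ hc0]
  have hX0 : 0 ≤ (D.card : ℝ) * Real.log n := by positivity
  -- the error on a set of at most 2 K ends of levels
  have herr : ∀ (E : Finset ℕ) (c' : ℝ), 0 ≤ c' → c' ≤ c₁ + c₂ →
      E.card ≤ 2 * (2 * ((n + c₀) / hh n + 1)) →
      2 * c' * (E.card * Real.log n) + hh n + 2 ≤ c * Real.sqrt (n * Real.log n) := by
    intro E c' hc' hc'' hE
    have h1 : (E.card : ℝ) * Real.log n ≤ 2 * ((2 * c₀ + 4) * Real.sqrt (n * Real.log n)) := by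
      have h2 := levels_le (c₀ := c₀) hn
      have h3 : (E.card : ℝ) ≤ 2 * ((2 * ((n + c₀) / hh n + 1) : ℕ) : ℝ) := by exact_mod_cast hE
      have h4 := mul_le_mul_of_nonneg_right h3 hl0
      linarith
    have h2 : 0 ≤ (2 * (c₀ : ℝ) + 4) * Real.sqrt (n * Real.log n) := by positivity
    have h3 : 2 * c' * (E.card * Real.log n) ≤
        2 * (c₁ + c₂) * (2 * ((2 * c₀ + 4) * Real.sqrt (n * Real.log n))) := by
      refine mul_le_mul (by linarith) h1 (by positivity) (by positivity)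
    have h4 : c * Real.sqrt (n * Real.log n) =
        2 * (c₁ + c₂) * (2 * ((2 * c₀ + 4) * Real.sqrt (n * Real.log n))) +
          4 * Real.sqrt (n * Real.log n) := by rw [hc]; ring
    rw [h4]
    linarith
  constructor
  · rintro ⟨A, hA, h⟩
    rcases le_total ((D.card : ℝ) * Real.log n) (Real.sqrt (n * Real.log n)) with hmin | hmin
    · rw [min_eq_left hmin]
      obtain ⟨x, hx⟩ := suff_set hc₂ hS hn D hD (fun d => (f d : ℝ) - S)
        (fun d => (f d : ℝ) + S) A hA h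
      refine ⟨x, fun d hd => ?_⟩
      obtain ⟨x1, x2⟩ := hx d hd
      have h5 := mul_le_mul_of_nonneg_right hcc2 hX0
      have h6 : (1 : ℝ) ≤ D.card := by exact_mod_cast Finset.card_pos.2 ⟨d, hd⟩
      have h7 : (1 : ℝ) ≤ 2 * (D.card * Real.log n) := by nlinarith
      have h8 : 0 ≤ 2 * c₂ * ((D.card : ℝ) * Real.log n) := by positivity
      rw [add_mul] at h5
      rw [abs_le]
      constructor <;> linarith
    · rw [min_eq_right hmin]
      set φ : ℕ → ℕ := fun d => Nat.log 2 (nbr A d).card with hφ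
      set ψ : ℕ → ℕ := fun d => low A d with hψ
      have hφn : ∀ d ∈ D, φ d ≤ n + c₀ := fun d _ =>
        (log_nbr_le A d).trans (Nat.le_add_right _ _)
      have hψn : ∀ d ∈ D, ψ d ≤ n + c₀ := fun d _ =>
        (low_le (Finset.Subset.refl A) (card_self A) d).trans
          ((log_nbr_le A d).trans (Nat.le_add_right _ _))
      set E := ends D φ (hh n) ∪ ends D ψ (hh n) with hEdef
      have hEc : E.card ≤ 2 * (2 * ((n + c₀) / hh n + 1)) := by
        have h1 := Finset.card_union_le (ends D φ (hh n)) (ends D ψ (hh n))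
        have h2 := ends_card D φ (h := hh n) hφn
        have h3 := ends_card D ψ (h := hh n) hψn
        rw [hEdef]
        omega
      have hEr := herr E c₂ hc₂ (by linarith) hEc
      obtain ⟨x, hx⟩ := suff_set hc₂ hS hn E (fun d hd => hD d (by
        rcases Finset.mem_union.1 hd with hd | hd
        · exact ends_subset D φ _ hd
        · exact ends_subset D ψ _ hd)) (fun d => (ψ d : ℝ)) (fun d => (φ d : ℝ) + 1) A hA
        (fun d _ => ⟨logb_le_log hA d, fun A' hA' hcard =>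
          le_trans (by exact_mod_cast low_le hA' hcard d)
            (log_le_logb (big_nonempty hA hcard) d)⟩)
      have hE0 : 0 ≤ 2 * c₂ * ((E.card : ℝ) * Real.log n) := by positivity
      refine ⟨x, fun d hd => ?_⟩
      obtain ⟨a, ha, -, -, had, -, -, hda, -⟩ := exists_ends D ψ hhp hd
      obtain ⟨-, -, b, hb, -, hdb, -, -, hbd⟩ := exists_ends D φ hhp hd
      have x1 := (hx a (Finset.mem_union_right _ ha)).1
      have x2 := (hx b (Finset.mem_union_left _ hb)).2
      have m1 : (M U x a : ℝ) ≤ M U x d := by exact_mod_cast M_mono U x had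
      have m2 : (M U x d : ℝ) ≤ M U x b := by exact_mod_cast M_mono U x hdb
      have p1 : (ψ d : ℝ) ≤ ψ a + hh n := by exact_mod_cast hda
      have p2 : (φ b : ℝ) ≤ φ d + hh n := by exact_mod_cast hbd
      have p3 := log_le_logb hA d
      have p4 := (h d hd).1
      obtain ⟨A', hA', hcard, hlow⟩ := low_spec A d
      have p5 := (h d hd).2 A' hA' hcard
      have p6 := logb_le_log (big_nonempty hA hcard) d
      have p7 : (ψ d : ℝ) = Nat.log 2 (nbr A' d).card := by
        rw [hψ]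
        exact_mod_cast hlow
      have p8 : (φ d : ℝ) = Nat.log 2 (nbr A d).card := rfl
      rw [abs_le]
      constructor
      · linarith
      · linarith
  · rintro ⟨x, hx⟩
    rcases le_total ((D.card : ℝ) * Real.log n) (Real.sqrt (n * Real.log n)) with hmin | hmin
    · rw [min_eq_left hmin]
      obtain ⟨A, hA, h⟩ := nec_set hc₁ hN hn D hD f S x hx
      have h5 := mul_le_mul_of_nonneg_right hcc1 hX0
      refine ⟨A, hA, fun d hd => ⟨?_, fun A' hA' hcard => ?_⟩⟩
      · linarith [(h d hd).1]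
      · have := (h d hd).2 A' hA' hcard
        linarith
    · rw [min_eq_right hmin]
      set φ : ℕ → ℕ := fun d => M U x d with hφ
      have hφn : ∀ d ∈ D, φ d ≤ n + c₀ := by
        intro d _
        refine M_le fun y _ => ?_
        have := hc₀ (List.ofFn y)
        rwa [List.length_ofFn] at this
      have hE := herr (ends D φ (hh n)) c₁ hc₁ (by linarith)
        ((ends_card D φ hφn).trans (by omega))
      obtain ⟨A, hA, h⟩ := nec_set hc₁ hN hn (ends D φ (hh n))
        (fun d hd => hD d (ends_subset D φ _ hd)) φ 0 x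
        (fun d _ => by simp [hφ])
      refine ⟨A, hA, fun d hd => ?_⟩
      obtain ⟨a, ha, b, hb, hab, hdb, -, hda, hbd⟩ := exists_ends D φ hhp hd
      have p1 : (φ d : ℝ) ≤ φ a + hh n := by exact_mod_cast hda
      have p3 : (φ b : ℝ) ≤ φ d + hh n := by exact_mod_cast hbd
      have q := abs_le.1 (hx d hd)
      have q1 : (φ d : ℝ) = M U x d := rfl
      constructor
      · have l2 := lmono hA hdb
        have e1 := (h b hb).1
        linarith
      · intro A' hA' hcard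
        have l1 := lmono (big_nonempty hA hcard) hab
        have e1 := (h a ha).2 A' hA' hcard
        linarith

end Pool.Agent.Lib.MP_f4f1a8_lc.KR
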