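import Pool.Agent.Lib.MP_f4f1a8_lc.KR.SuffV
import Pool.Agent.Lib.MP_f4f1a8_lc.KR.SuffB
import Pool.Agent.Lib.MP_f4f1a8_lc.KR.Fin7
import Pool.Agent.Lib.MP_f4f1a8_lc.KR.Str
import Pool.Agent.Lib.MP_f4f1a8_lc.KR.DescrP45

/-! MP_f4f1a8_lc: every robust profile on a set of radii is a profile of M, with an error in terms
of the complexity of the profile. -/

namespace Pool.Agent.Lib.MP_f4f1a8_lc.KR

open Finset SelectAux NC

theorem descrP' {U : List Bool →. List Bool} (hU : Optimal U) : DescrP U := by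
  intro Q hQ
  obtain ⟨c, hc⟩ := descrP hU Q hQ
  refine ⟨c, fun s N z a y F ha hy hF hN => ?_⟩
  have := hc s N a z y F ha hy hF hN
  rwa [Nat.add_comm s (C U z)] at this

/-- the profile given by the string with code `ζ` -/
def vz (ζ d : ℕ) : ℕ := blk ((Encodable.decode (α := List Bool) ζ).getD []) d

theorem primrec_vz : Primrec₂ vz :=
  primrec_blk.comp (Primrec.option_getD.comp (Primrec.decode.comp Primrec.fst)
    (Primrec.const [])) Primrec.snd

theorem vz_encode (z : List Bool) (d : ℕ) : vz (Encodable.encode z) d = blk z d := by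
  unfold vz
  rw [Encodable.encodek]
  rfl

/-- Some point of a robust set has complex points in all its balls. -/
theorem sz_exists {U : List Bool →. List Bool} (hU : Optimal U) {n S : ℕ} {v : ℕ → ℕ}
    {T : Finset (Fin n → Bool)} (hT : RobV n v S T) :
    ∃ x ∈ T, ∀ d ≤ n, v d ≠ 0 → v d - 1 - S ≤ M U x d := by
  classical
  by_contra hcon
  push Not at hcon
  have hTpos : 0 < T.card := Finset.card_pos.2 hT.1
  have hX : ∀ d ≤ n, v d ≠ 0 →
      2 * (n + 1) * (T.filter (fun x => M U x d < v d - 1 - S)).card < T.card := by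
    intro d hd hv
    by_contra hle
    have hle' : T.card ≤ 2 * (n + 1) * (T.filter (fun x => M U x d < v d - 1 - S)).card :=
      not_lt.1 hle
    have h1 := (hT.2 d hd hv).2 _ (filter_subset _ _) hle'
    have h2 : (nbr (T.filter (fun x => M U x d < v d - 1 - S)) d).card < 2 ^ (v d - 1 - S) := by
      apply card_lt_of_C hU
      intro y hy
      obtain ⟨x, hx, hxy⟩ := mem_nbr.1 hy
      exact lt_of_le_of_lt (le_M hxy) (mem_filter.1 hx).2
    omega
  have hsub : T ⊆ ((range (n + 1)).filter (fun d => v d ≠ 0)).biUnion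
      (fun d => T.filter (fun x => M U x d < v d - 1 - S)) := by
    intro x hx
    obtain ⟨d, hd, hv, hlt⟩ := hcon x hx
    exact mem_biUnion.2 ⟨d, mem_filter.2 ⟨mem_range.2 (Nat.lt_succ_of_le hd), hv⟩,
      mem_filter.2 ⟨hx, hlt⟩⟩
  have h3 : T.card ≤ ∑ d ∈ (range (n + 1)).filter (fun d => v d ≠ 0),
      (T.filter (fun x => M U x d < v d - 1 - S)).card :=
    (card_le_card hsub).trans card_biUnion_le
  have h4 : 2 * (n + 1) * T.card ≤ ∑ d ∈ (range (n + 1)).filter (fun d => v d ≠ 0),
      2 * (n + 1) * (T.filter (fun x => M U x d < v d - 1 - S)).card := by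
    rw [← mul_sum]
    exact Nat.mul_le_mul_left _ h3
  have h5 : ∑ d ∈ (range (n + 1)).filter (fun d => v d ≠ 0),
      2 * (n + 1) * (T.filter (fun x => M U x d < v d - 1 - S)).card ≤
      ∑ _d ∈ (range (n + 1)).filter (fun d => v d ≠ 0), T.card :=
    sum_le_sum fun d hd => (hX d (Nat.le_of_lt_succ (mem_range.1 (mem_filter.1 hd).1))
      (mem_filter.1 hd).2).le
  rw [sum_const, smul_eq_mul] at h5
  have hk : ((range (n + 1)).filter (fun d => v d ≠ 0)).card ≤ n + 1 :=
    (card_filter_le _ _).trans (by simp)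
  have h6 : 2 * (n + 1) * T.card ≤ (n + 1) * T.card :=
    (h4.trans h5).trans (Nat.mul_le_mul_right _ hk)
  have h7 : 0 < (n + 1) * T.card := Nat.mul_pos (Nat.succ_pos n) hTpos
  have h8 : 2 * (n + 1) * T.card = (n + 1) * T.card + (n + 1) * T.card := by ring
  omega

/-- Every robust profile on a set of radii is a profile of M. -/
theorem suffZ {U : List Bool →. List Bool} (hU : Optimal U) :
    ∃ c : ℝ, 0 ≤ c ∧ ∀ n : ℕ, 2 ≤ n → ∀ D : Finset ℕ, (∀ d ∈ D, d ≤ n) →
      ∀ (f : ℕ → ℕ) (S : ℝ), RobustOn n D f S →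
      ∃ x : Fin n → Bool, ∀ d ∈ D,
        |(M U x d : ℝ) - f d| ≤ S + c * ((C U (str n D f) : ℝ) + Real.log n) := by
  classical
  obtain ⟨c₁, hc₁⟩ := descr_robV (descrP' hU) vz primrec_vz
  obtain ⟨c₂, hc₂⟩ := C_le_length hU
  obtain ⟨cs, hcs0, hcs⟩ := NL_exists_s 1
  refine ⟨2 + 2 * c₂ + c₁ * (cs + 3), by positivity, ?_⟩
  intro n hn D hD f S hR
  obtain ⟨A, hA, hAd⟩ := hR
  have hself : A.card ≤ 2 * (n + 1) * A.card := Nat.le_mul_of_pos_left _ (by omega)
  obtain ⟨s, hs, hs'⟩ := hcs n hn
  have hs0 : n < 2 ^ s := by omega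
  have hl1 : 1 ≤ 2 * Real.log n := SelectAux.one_le_log hn
  have hl0 : 0 ≤ Real.log n := by linarith
  have hZ0 : (0 : ℝ) ≤ C U (str n D f) := Nat.cast_nonneg _
  set E : ℝ := (C U (str n D f) : ℝ) + Real.log n with hE
  have hE0 : 0 ≤ E := add_nonneg hZ0 hl0
  have hEl : Real.log n ≤ E := by linarith
  have hc1 : (0 : ℝ) ≤ c₁ := Nat.cast_nonneg _
  have hc2 : (0 : ℝ) ≤ c₂ := Nat.cast_nonneg _
  rcases D.eq_empty_or_nonempty with hDe | ⟨d₀, hd₀⟩
  · exact ⟨fun _ => false, fun d hd => by rw [hDe] at hd; exact absurd hd (notMem_empty d)⟩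
  have hS : 0 ≤ S := by
    have h1 := (hAd d₀ hd₀).1
    have h2 := (hAd d₀ hd₀).2 A Subset.rfl hself
    linarith
  rcases le_or_gt S n with hSn | hSn
  · -- small slack
    set S' : ℕ := ⌈S⌉₊ with hS'
    have hS1 : S ≤ S' := Nat.le_ceil S
    have hS2 : (S' : ℝ) ≤ S + 1 := (Nat.ceil_lt_add_one hS).le
    have hS3 : S' ≤ n := Nat.ceil_le.2 hSn
    have hrob : RobV n (vz (Encodable.encode (str n D f))) S' A := by
      refine ⟨hA, fun d hd hv => ?_⟩
      rw [vz_encode, blk_str D f hd] at hv ⊢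
      have hdD : d ∈ D := by
        by_contra h
        rw [if_neg h] at hv
        exact hv rfl
      rw [if_pos hdD, Nat.add_sub_cancel]
      constructor
      · have h1 : (nbr A d).card ≤ 2 ^ n := sb_nbr_le A d
        have h2 : (nbr A d).card ≤ 2 ^ (f d + S') := by
          have hpos := sb_nbr_pos hA d
          have h3 : Real.logb 2 (nbr A d).card ≤ ((f d + S' : ℕ) : ℝ) := by
            push_cast
            linarith [(hAd d hdD).1]
          rw [Real.logb_le_iff_le_rpow (by norm_num) (by exact_mod_cast hpos),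
            Real.rpow_natCast] at h3
          exact_mod_cast h3
        rcases min_choice n (f d + S') with hm | hm
        · rw [hm]; exact h1
        · rw [hm]; exact h2
      · intro A' hA' hcard
        have hApos : 0 < A.card := Finset.card_pos.2 hA
        have hA'pos : 0 < A'.card := by
          rcases Nat.eq_zero_or_pos A'.card with h0 | h0
          · rw [h0] at hcard; omega
          · exact h0
        have hne : A'.Nonempty := Finset.card_pos.1 hA'pos
        have hpos := sb_nbr_pos hne d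
        rcases Nat.le_total S' (f d) with h0 | h0
        · have h3 : ((f d - S' : ℕ) : ℝ) ≤ Real.logb 2 (nbr A' d).card := by
            rw [Nat.cast_sub h0]
            linarith [(hAd d hdD).2 A' hA' hcard]
          rw [Real.le_logb_iff_rpow_le (by norm_num) (by exact_mod_cast hpos),
            Real.rpow_natCast] at h3
          exact_mod_cast h3
        · rw [Nat.sub_eq_zero_of_le h0, pow_zero]
          exact hpos
    obtain ⟨T, hT, hdes⟩ := hc₁ n s S' (str n D f) A hs0 (by omega) hrob
    obtain ⟨x, hxT, hx⟩ := sz_exists hU hT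
    refine ⟨x, fun d hd => ?_⟩
    have hv : vz (Encodable.encode (str n D f)) d = f d + 1 := by
      rw [vz_encode, blk_str D f (hD d hd), if_pos hd]
    have hM : M U x d ≤ min n (f d + S') + c₁ * (C U (str n D f) + s + 1) := by
      apply M_le
      intro y hy
      have := hdes d (hD d hd) (by rw [hv]; omega) y (mem_nbr.2 ⟨x, hxT, hy⟩)
      rwa [hv, Nat.add_sub_cancel] at this
    have hM1 : M U x d ≤ f d + S' + c₁ * (C U (str n D f) + s + 1) :=
      hM.trans (Nat.add_le_add_right (min_le_right _ _) _)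
    have hM2 : (M U x d : ℝ) ≤ f d + S' + c₁ * (C U (str n D f) + s + 1) := by
      exact_mod_cast hM1
    have hx' := hx d (hD d hd) (by rw [hv]; omega)
    rw [hv, Nat.add_sub_cancel] at hx'
    have hM3 : (f d : ℝ) ≤ M U x d + S' := by
      have : f d ≤ M U x d + S' := by omega
      exact_mod_cast this
    have h3 : (c₁ : ℝ) * (C U (str n D f) + s + 1) ≤ c₁ * (cs + 3) * E := by
      have h31 : (C U (str n D f) : ℝ) + s + 1 ≤ (cs + 3) * E := by
        have e1 : (cs + 3) * E = cs * C U (str n D f) + cs * Real.log n +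
          3 * C U (str n D f) + 3 * Real.log n := by rw [hE]; ring
        have e2 : 0 ≤ cs * (C U (str n D f) : ℝ) := mul_nonneg hcs0 hZ0
        linarith
      rw [mul_assoc]
      exact mul_le_mul_of_nonneg_left h31 hc1
    have h4 : (1 : ℝ) ≤ 2 * E := by linarith
    have h5 : 0 ≤ (c₂ : ℝ) * E := mul_nonneg hc2 hE0
    have h6 : 0 ≤ (c₁ : ℝ) * (cs + 3) * E := by positivity
    have hexp : (2 + 2 * (c₂ : ℝ) + c₁ * (cs + 3)) * E =
      2 * E + 2 * (c₂ * E) + c₁ * (cs + 3) * E := by ring
    rw [hexp, abs_le]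
    constructor
    · linarith
    · linarith
  · -- large slack
    obtain ⟨x, hx⟩ : ∃ x : Fin n → Bool, n ≤ C U (List.ofFn x) := by
      by_contra hcon
      push Not at hcon
      have h := card_lt_of_C hU (univ : Finset (Fin n → Bool)) n (fun y _ => hcon y)
      simp at h
    refine ⟨x, fun d hd => ?_⟩
    have h1 : (n : ℝ) ≤ M U x d := by
      have : n ≤ M U x d := hx.trans (le_M (by simp))
      exact_mod_cast this
    have h2 : (M U x d : ℝ) ≤ n + c₂ := by
      have : M U x d ≤ n + c₂ := M_le fun y _ => by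
        have := hc₂ (List.ofFn y)
        rwa [List.length_ofFn] at this
      exact_mod_cast this
    have h3 : (f d : ℝ) - S ≤ n := by
      refine ((hAd d hd).2 A Subset.rfl hself).trans ?_
      have hpos := sb_nbr_pos hA d
      rw [Real.logb_le_iff_le_rpow (by norm_num) (by exact_mod_cast hpos),
        Real.rpow_natCast]
      exact_mod_cast sb_nbr_le A d
    have h4 : (1 : ℝ) ≤ 2 * E := by linarith
    have h5 : (c₂ : ℝ) ≤ 2 * (c₂ * E) := by
      have : (c₂ : ℝ) * 1 ≤ c₂ * (2 * E) := mul_le_mul_of_nonneg_left h4 hc2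
      linarith
    have h6 : 0 ≤ (c₁ : ℝ) * (cs + 3) * E := by positivity
    have hf0 : (0 : ℝ) ≤ f d := Nat.cast_nonneg _
    have hexp : (2 + 2 * (c₂ : ℝ) + c₁ * (cs + 3)) * E =
      2 * E + 2 * (c₂ * E) + c₁ * (cs + 3) * E := by ring
    rw [hexp, abs_le]
    constructor
    · linarith
    · linarith

end Pool.Agent.Lib.MP_f4f1a8_lc.KR
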