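import Pool.Agent.Lib.MP_f4f1a8_lc.KR.FinZ
import Pool.Agent.Lib.MP_f4f1a8_lc.KR.SuffZ43
import Pool.Agent.Lib.MP_f4f1a8_lc.KR.NecZ

/-! MP_f4f1a8_lc: the final form with three bounds for the error. -/

namespace Pool.Agent.Lib.MP_f4f1a8_lc.KR

open Finset

theorem radiiZ {U : List Bool →. List Bool} (hU : Optimal U) :
    ∃ c : ℝ, 0 ≤ c ∧ ∀ n : ℕ, 2 ≤ n → ∀ D : Finset ℕ, (∀ d ∈ D, d ≤ n) →
      ∀ (f : ℕ → ℕ) (S : ℝ),
      (RobustOn n D f S → ∃ x : Fin n → Bool, ∀ d ∈ D, |(M U x d : ℝ) - f d| ≤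
        S + c * min (D.card * Real.log n)
          (min (Real.sqrt (n * Real.log n)) (C U (str n D f) + Real.log n))) ∧
      ((∃ x : Fin n → Bool, ∀ d ∈ D, |(M U x d : ℝ) - f d| ≤ S) → RobustOn n D f
        (S + c * min (D.card * Real.log n)
          (min (Real.sqrt (n * Real.log n)) (C U (str n D f) + Real.log n)))) := by
  obtain ⟨c, hc⟩ := radii_three hU (suffZ hU) (by
    obtain ⟨c, h0, h⟩ := necZ hU
    exact ⟨c, h0, fun n hn D hD f S x hx => h n hn D hD f S ⟨x, hx⟩⟩)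
  refine ⟨c, hc.1, fun n hn D hD f S => ?_⟩
  have h := hc.2 n hn D hD f S
  rw [min_assoc] at h
  exact h

end Pool.Agent.Lib.MP_f4f1a8_lc.KR
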