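import Pool.Agent.Lib.MP_f4f1a8_lc.KR.SuffA

/-! MP_f4f1a8_lc: the first set with a given robust profile, the profile being given by a
primitive recursive function of a string `z` (error in terms of the complexity of `z`). -/

namespace Pool.Agent.Lib.MP_f4f1a8_lc.KR

open Finset NC.TD

/-- `v d = 0` means that nothing is asked at the radius `d`; otherwise the neighbourhood of `A`
has at most `2 ^ (v d - 1 + S)` points and the neighbourhoods of large subsets have at least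
`2 ^ (v d - 1 - S)` points. -/
def RobV (n : ℕ) (v : ℕ → ℕ) (S : ℕ) (A : Finset (Fin n → Bool)) : Prop :=
  A.Nonempty ∧ ∀ d ≤ n, v d ≠ 0 → (nbr A d).card ≤ 2 ^ (min n (v d - 1 + S)) ∧
    ∀ A' ⊆ A, A.card ≤ 2 * (n + 1) * A'.card → 2 ^ (v d - 1 - S) ≤ (nbr A' d).card

/-- The form of `description` in which the parameter is given by a program. -/
def DescrP (U : List Bool →. List Bool) : Prop :=
  ∀ Q : ℕ → List Bool → ℕ → Prop, (PrimrecPred fun a : ℕ × List Bool × ℕ => Q a.1 a.2.1 a.2.2) →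
    ∃ c : ℕ, ∀ (s N : ℕ) (z : List Bool) (a : ℕ) (y : List Bool) (F : Finset (List Bool)),
      a < 2 ^ s → (∃ k, Q (Nat.pair (Encodable.encode z) a) y k) →
      (∀ y' k, Q (Nat.pair (Encodable.encode z) a) y' k → y' ∈ F) → F.card ≤ 2 ^ N →
      C U y ≤ N + c * (C U z + s + 1)

namespace SV

open SA

/-- `T` lists a set with the profile -/
def Good (V : ℕ → ℕ → ℕ) (a : ℕ × ℕ × ℕ) (T : List (List Bool)) : Prop :=
  (T.length ≠ 0 ∧ ∀ c ∈ T, c.length = a.2.1) ∧
    ∀ d ∈ List.range (a.2.1 + 1), V a.1 d = 0 ∨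
      R2 T a.2.1 d (min a.2.1 (V a.1 d - 1 + a.2.2)) (V a.1 d - 1 - a.2.2)

/-- the parameters from their code `pair z (pair (pair n S) d)` -/
@[irreducible] def par (p : ℕ) : ℕ × ℕ × ℕ :=
  (q1 p, q1 (q1 (q2 p)), q2 (q1 (q2 p)))

/-- the radius -/
@[irreducible] def rad (p : ℕ) : ℕ := q2 (q2 p)

lemma par_pair (z n S d : ℕ) : par (Nat.pair z (Nat.pair (Nat.pair n S) d)) = (z, n, S) := by
  unfold par
  simp only [q1_pair, q2_pair]

lemma rad_pair (z n S d : ℕ) : rad (Nat.pair z (Nat.pair (Nat.pair n S) d)) = d := by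
  unfold rad
  simp only [q2_pair]

lemma primrec_par : Primrec par := by
  have h : Primrec (fun p : ℕ => (q1 p, q1 (q1 (q2 p)), q2 (q1 (q2 p)))) :=
    primrec_q1.pair ((primrec_q1.comp (primrec_q1.comp primrec_q2)).pair
      (primrec_q2.comp (primrec_q1.comp primrec_q2)))
  refine h.of_eq fun p => ?_
  unfold par
  rfl

lemma primrec_rad : Primrec rad := by
  refine (primrec_q2.comp primrec_q2).of_eq fun p => ?_
  unfold rad
  rfl

lemma primrec_good {V : ℕ → ℕ → ℕ} (hV : Primrec₂ V) :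
    PrimrecPred (fun a : (ℕ × ℕ × ℕ) × List (List Bool) => Good V a.1 a.2) := by
  have hT : Primrec (fun a : (ℕ × ℕ × ℕ) × List (List Bool) => a.2) := Primrec.snd
  have hn : Primrec (fun a : (ℕ × ℕ × ℕ) × List (List Bool) => a.1.2.1) :=
    Primrec.fst.comp (Primrec.snd.comp Primrec.fst)
  have h1 : PrimrecPred (fun a : (ℕ × ℕ × ℕ) × List (List Bool) => a.2.length ≠ 0) :=
    (Primrec.eq.comp (Primrec.list_length.comp hT) (Primrec.const 0)).not
  have h2 : PrimrecPred (fun a : (ℕ × ℕ × ℕ) × List (List Bool) =>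
      ∀ c ∈ a.2, c.length = a.1.2.1) := by
    have h : PrimrecRel (fun (c : List Bool) (n : ℕ) => c.length = n) :=
      Primrec.eq.comp₂ (Primrec.list_length.comp₂ Primrec₂.left) Primrec₂.right
    exact h.forall_mem_list.comp hT hn
  have h3 : PrimrecRel (fun (d : ℕ) (b : (ℕ × ℕ × ℕ) × List (List Bool)) =>
      V b.1.1 d = 0 ∨ R2 b.2 b.1.2.1 d (min b.1.2.1 (V b.1.1 d - 1 + b.1.2.2))
        (V b.1.1 d - 1 - b.1.2.2)) := by
    have hd : Primrec (fun c : ℕ × ((ℕ × ℕ × ℕ) × List (List Bool)) => c.1) := Primrec.fst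
    have hT : Primrec (fun c : ℕ × ((ℕ × ℕ × ℕ) × List (List Bool)) => c.2.2) :=
      Primrec.snd.comp Primrec.snd
    have hP : Primrec (fun c : ℕ × ((ℕ × ℕ × ℕ) × List (List Bool)) => c.2.1) :=
      Primrec.fst.comp Primrec.snd
    have hz : Primrec (fun c : ℕ × ((ℕ × ℕ × ℕ) × List (List Bool)) => c.2.1.1) :=
      Primrec.fst.comp hP
    have hn : Primrec (fun c : ℕ × ((ℕ × ℕ × ℕ) × List (List Bool)) => c.2.1.2.1) :=
      Primrec.fst.comp (Primrec.snd.comp hP)
    have hS : Primrec (fun c : ℕ × ((ℕ × ℕ × ℕ) × List (List Bool)) => c.2.1.2.2) :=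
      Primrec.snd.comp (Primrec.snd.comp hP)
    have hv : Primrec (fun c : ℕ × ((ℕ × ℕ × ℕ) × List (List Bool)) => V c.2.1.1 c.1) :=
      hV.comp hz hd
    have hv1 : Primrec (fun c : ℕ × ((ℕ × ℕ × ℕ) × List (List Bool)) => V c.2.1.1 c.1 - 1) :=
      Primrec.nat_sub.comp hv (Primrec.const 1)
    have hu : Primrec (fun c : ℕ × ((ℕ × ℕ × ℕ) × List (List Bool)) =>
        min c.2.1.2.1 (V c.2.1.1 c.1 - 1 + c.2.1.2.2)) :=
      Primrec.nat_min.comp hn (Primrec.nat_add.comp hv1 hS)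
    have hl : Primrec (fun c : ℕ × ((ℕ × ℕ × ℕ) × List (List Bool)) =>
        V c.2.1.1 c.1 - 1 - c.2.1.2.2) := Primrec.nat_sub.comp hv1 hS
    exact (Primrec.eq.comp hv (Primrec.const 0)).or
      (primrec_R2.comp (hT.pair (hn.pair (hd.pair (hu.pair hl)))))
  have h4 : PrimrecPred (fun a : (ℕ × ℕ × ℕ) × List (List Bool) =>
      ∀ d ∈ List.range (a.1.2.1 + 1), V a.1.1 d = 0 ∨
        R2 a.2 a.1.2.1 d (min a.1.2.1 (V a.1.1 d - 1 + a.1.2.2)) (V a.1.1 d - 1 - a.1.2.2)) :=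
    h3.forall_mem_list.comp (Primrec.list_range.comp (Primrec.succ.comp hn)) Primrec.id
  exact (h1.and h2).and h4

/-- the relation enumerated -/
def QV (V : ℕ → ℕ → ℕ) (p : ℕ) (y : List Bool) (r : ℕ) : Prop :=
  y.length = (par p).2.1 ∧ Good V (par p) (PC.D r) ∧
    (∀ r' ∈ List.range r, ¬ Good V (par p) (PC.D r')) ∧
    ∃ c ∈ PC.D r, ldist c y ≤ rad p

lemma primrec_QV {V : ℕ → ℕ → ℕ} (hV : Primrec₂ V) :
    PrimrecPred (fun a : ℕ × List Bool × ℕ => QV V a.1 a.2.1 a.2.2) := by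
  have hp : Primrec (fun a : ℕ × List Bool × ℕ => par a.1) := primrec_par.comp Primrec.fst
  have hj : Primrec (fun a : ℕ × List Bool × ℕ => rad a.1) := primrec_rad.comp Primrec.fst
  have hy : Primrec (fun a : ℕ × List Bool × ℕ => a.2.1) := Primrec.fst.comp Primrec.snd
  have hk : Primrec (fun a : ℕ × List Bool × ℕ => a.2.2) := Primrec.snd.comp Primrec.snd
  have h1 : PrimrecPred (fun a : ℕ × List Bool × ℕ => a.2.1.length = (par a.1).2.1) :=
    Primrec.eq.comp (Primrec.list_length.comp hy) (Primrec.fst.comp (Primrec.snd.comp hp))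
  have h2 : PrimrecPred (fun a : ℕ × List Bool × ℕ => Good V (par a.1) (PC.D a.2.2)) :=
    (primrec_good hV).comp (Primrec.pair hp (PC.primrec_D.comp hk))
  have h3 : PrimrecRel (fun (r : ℕ) (b : ℕ × ℕ × ℕ) => ¬ Good V b (PC.D r)) :=
    ((primrec_good hV).comp (Primrec.pair Primrec.snd (PC.primrec_D.comp Primrec.fst))).not
  have h4 : PrimrecPred (fun a : ℕ × List Bool × ℕ =>
      ∀ r' ∈ List.range a.2.2, ¬ Good V (par a.1) (PC.D r')) :=
    h3.forall_mem_list.comp (Primrec.list_range.comp hk) hp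
  have h6 : PrimrecPred (fun a : ℕ × List Bool × ℕ =>
      ∃ c ∈ PC.D a.2.2, ldist c a.2.1 ≤ rad a.1) :=
    primrec_near.comp hy ((PC.primrec_D.comp hk).pair hj)
  exact h1.and (h2.and (h4.and h6))

/-- a list with the profile lists a set with the profile -/
lemma good_iff {V : ℕ → ℕ → ℕ} {z n S : ℕ} {T : List (List Bool)}
    (hT : ∀ c ∈ T, c.length = n) :
    Good V (z, n, S) T ↔ RobV n (V z) S (fs n T) := by
  have hsub : ∀ A' : List (List Bool), A' ∈ subs T → ∀ c ∈ A', c.length = n := by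
    intro A' hA' c hc
    exact hT c ((mem_subs.1 hA').subset hc)
  have hne : T.length ≠ 0 ↔ (fs n T).Nonempty := by
    constructor
    · intro h
      obtain ⟨a, ha⟩ : ∃ a, a ∈ T := by
        rcases T with - | ⟨a, T'⟩
        · simp at h
        · exact ⟨a, List.mem_cons_self⟩
      obtain ⟨x, rfl⟩ := PC.exists_ofFn a (hT a ha)
      exact ⟨x, mem_fs.2 ha⟩
    · rintro ⟨x, hx⟩ h
      rw [List.length_eq_zero_iff] at h
      have := mem_fs.1 hx
      rw [h] at this
      simp at this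
  unfold Good RobV
  simp only
  rw [hne]
  constructor
  · rintro ⟨⟨h1, -⟩, h2⟩
    refine ⟨h1, fun d hd hv => ?_⟩
    have h3 := h2 d (List.mem_range.2 (Nat.lt_succ_of_le hd))
    rcases h3 with h3 | h3
    · exact absurd h3 hv
    unfold R2 at h3
    rw [nc_eq hT] at h3
    refine ⟨h3.1, fun A' hA' hc => ?_⟩
    classical
    obtain ⟨B, hB⟩ : ∃ B, B = T.filter (fun c => decide (c ∈ A'.image List.ofFn)) := ⟨_, rfl⟩
    have hBs : B ∈ subs T := by
      rw [mem_subs, hB]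
      exact List.filter_sublist
    have hBf : fs n B = A' := by
      ext x
      rw [mem_fs, hB, List.mem_filter, decide_eq_true_eq, Finset.mem_image]
      constructor
      · rintro ⟨-, y, hy, he⟩
        rw [← List.ofFn_injective he]
        exact hy
      · intro hx
        exact ⟨mem_fs.1 (hA' hx), x, hx, rfl⟩
    have h4 := h3.2 B hBs
    unfold R1 at h4
    rw [nc_eq hT, nc_eq (hsub B hBs), nc_eq (hsub B hBs), hBf, nbr_zero, nbr_zero] at h4
    rcases h4 with h4 | h4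
    · exact absurd hc h4
    · exact h4
  · rintro ⟨h1, h2⟩
    refine ⟨⟨h1, hT⟩, fun d hd => ?_⟩
    have hd' : d ≤ n := Nat.le_of_lt_succ (List.mem_range.1 hd)
    by_cases hv : V z d = 0
    · exact Or.inl hv
    right
    have h3 := h2 d hd' hv
    unfold R2
    rw [nc_eq hT]
    refine ⟨h3.1, fun B hB => ?_⟩
    unfold R1
    rw [nc_eq hT, nc_eq (hsub B hB), nc_eq (hsub B hB), nbr_zero, nbr_zero]
    by_cases hc : (fs n T).card ≤ 2 * (n + 1) * (fs n B).card
    · right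
      refine h3.2 (fs n B) ?_ hc
      intro x hx
      exact mem_fs.2 ((mem_subs.1 hB).subset (mem_fs.1 hx))
    · left
      exact hc

end SV

open SV in
theorem descr_robV {U : List Bool →. List Bool} (hD : DescrP U) (V : ℕ → ℕ → ℕ)
    (hV : Primrec₂ V) :
    ∃ c : ℕ, ∀ (n s S : ℕ) (z : List Bool) (A : Finset (Fin n → Bool)),
      n < 2 ^ s → S < 2 ^ s → RobV n (V (Encodable.encode z)) S A →
      ∃ T : Finset (Fin n → Bool), RobV n (V (Encodable.encode z)) S T ∧
        ∀ d ≤ n, V (Encodable.encode z) d ≠ 0 → ∀ y ∈ nbr T d,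
          C U (List.ofFn y) ≤ min n (V (Encodable.encode z) d - 1 + S) +
            c * (C U z + s + 1) := by
  classical
  obtain ⟨c, hc⟩ := hD (QV V) (primrec_QV hV)
  refine ⟨c * 5, fun n s S z A hn hS hA => ?_⟩
  obtain ⟨ζ, hζ⟩ : ∃ ζ, ζ = Encodable.encode z := ⟨_, rfl⟩
  rw [← hζ] at hA ⊢
  have hex : ∃ r, Good V (ζ, n, S) (PC.D r) := by
    refine ⟨Encodable.encode (A.toList.map List.ofFn), ?_⟩
    unfold PC.D
    rw [Encodable.encodek]
    simp only [Option.getD_some]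
    have hlen : ∀ c ∈ A.toList.map List.ofFn, c.length = n := by
      intro c hc
      rw [List.mem_map] at hc
      obtain ⟨x, -, rfl⟩ := hc
      exact List.length_ofFn
    rw [good_iff hlen, fs_toList]
    exact hA
  set r₀ := Nat.find hex with hr₀
  have hgood : Good V (ζ, n, S) (PC.D r₀) := Nat.find_spec hex
  have hmin : ∀ r' ∈ List.range r₀, ¬ Good V (ζ, n, S) (PC.D r') := fun r' hr' =>
    Nat.find_min hex (List.mem_range.1 hr')
  have hlen : ∀ c ∈ PC.D r₀, c.length = n := hgood.1.2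
  have hrob : RobV n (V ζ) S (fs n (PC.D r₀)) := (good_iff hlen).1 hgood
  refine ⟨fs n (PC.D r₀), hrob, fun d hd hv y hy => ?_⟩
  obtain ⟨p, hp⟩ : ∃ p, p = Nat.pair ζ (Nat.pair (Nat.pair n S) d) := ⟨_, rfl⟩
  have hpar : par p = (ζ, n, S) := by rw [hp, par_pair]
  have hrad : rad p = d := by rw [hp, rad_pair]
  have hQ : ∀ (y' : List Bool) (r : ℕ), QV V p y' r ↔
      (y'.length = n ∧ r = r₀ ∧ ∃ c ∈ PC.D r₀, ldist c y' ≤ d) := by
    intro y' r
    unfold QV
    rw [hpar, hrad]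
    constructor
    · rintro ⟨h1, h2, h3, h4⟩
      have hr : r = r₀ := by
        apply le_antisymm
        · by_contra hlt
          exact h3 r₀ (List.mem_range.2 (not_le.1 hlt)) hgood
        · exact Nat.find_min' hex h2
      exact ⟨h1, hr, hr ▸ h4⟩
    · rintro ⟨h1, rfl, h4⟩
      exact ⟨h1, hgood, hmin, h4⟩
  have hmono : ∀ {a b : ℕ}, a ≤ b → (2 : ℕ) ^ a ≤ 2 ^ b := fun h =>
    Nat.pow_le_pow_right (by norm_num) h
  have c1 := PC.pair_lt hn hS
  have c2 : d < 2 ^ (2 * s) := lt_of_le_of_lt hd (lt_of_lt_of_le hn (hmono (by omega)))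
  have c3 := PC.pair_lt c1 c2
  rw [hp, hζ] at hQ
  have key := hc (2 * (2 * s)) (min n (V ζ d - 1 + S)) z (Nat.pair (Nat.pair n S) d)
    (List.ofFn y) ((nbr (fs n (PC.D r₀)) d).image List.ofFn) c3
    ⟨r₀, (hQ _ _).2 ⟨List.length_ofFn, rfl, (near_iff hlen y d).2 hy⟩⟩ ?_
    (Finset.card_image_le.trans (hrob.2 d hd hv).1)
  · refine key.trans ?_
    have h5 : C U z + 2 * (2 * s) + 1 ≤ 5 * (C U z + s + 1) := by omega
    have h6 : c * (C U z + 2 * (2 * s) + 1) ≤ c * 5 * (C U z + s + 1) := by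
      rw [mul_assoc]
      exact Nat.mul_le_mul_left c h5
    exact Nat.add_le_add_left h6 _
  · intro y' r hr
    obtain ⟨h1, -, h3⟩ := (hQ _ _).1 hr
    obtain ⟨y'', rfl⟩ := PC.exists_ofFn y' h1
    rw [mem_image]
    exact ⟨y'', (near_iff hlen y'' d).1 h3, rfl⟩

end Pool.Agent.Lib.MP_f4f1a8_lc.KR
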