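import Pool.Agent.Lib.MP_f4f1a8_lc.LLem
import Pool.Agent.Lib.MP_f4f1a8_lc.Prim
import Pool.Agent.Lib.MP_f4f1a8_lc.PCode
import Pool.Agent.Lib.MP_f4f1a8_lc.KR.KeptZ

/-! MP_f4f1a8_lc, TupZ: the tuples (x', y'_1, .., y'_k) with the distances and the bounds on M
of x; radii and values are computed from a string z, the loss is O(C z + log n). -/

namespace Pool.Agent.Lib.MP_f4f1a8_lc.KR

open Finset

namespace TZ

/-- block number `i` of length `n` -/
def blk (n i : ℕ) (w : List Bool) : List Bool :=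
  (List.range n).map (fun j => (w[i * n + j]?).getD false)

theorem primrec_blk : Primrec (fun a : ℕ × ℕ × List Bool => blk a.1 a.2.1 a.2.2) := by
  have hf : Primrec₂ (fun (a : ℕ × ℕ × List Bool) (j : ℕ) =>
      (a.2.2[a.2.1 * a.1 + j]?).getD false) := by
    apply Primrec.option_getD.comp₂
    · exact Primrec.list_getElem?.comp (Primrec.snd.comp (Primrec.snd.comp Primrec.fst))
        (Primrec.nat_add.comp (Primrec.nat_mul.comp
          (Primrec.fst.comp (Primrec.snd.comp Primrec.fst)) (Primrec.fst.comp Primrec.fst))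
          Primrec.snd)
    · exact Primrec₂.const false
  exact Primrec.list_map (Primrec.list_range.comp Primrec.fst) hf

theorem blk_eq (n i : ℕ) (w : List Bool) :
    blk n i w = List.ofFn (fun j : Fin n => (w[i * n + (j : ℕ)]?).getD false) := by
  unfold blk
  apply List.ext_getElem
  · simp
  · intro j h1 h2
    simp

/-- the tuple coded by a string -/
def tp (k n : ℕ) (w : List Bool) : (Fin n → Bool) × (Fin k → (Fin n → Bool)) :=
  (fun j => (w[0 * n + (j : ℕ)]?).getD false,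
    fun i j => (w[((i : ℕ) + 1) * n + (j : ℕ)]?).getD false)

theorem getD_of_tp {k n : ℕ} {w w' : List Bool} (h : tp k n w = tp k n w') (a : ℕ)
    (ha : a < (k + 1) * n) : (w[a]?).getD false = (w'[a]?).getD false := by
  have hn : 0 < n := by
    rcases Nat.eq_zero_or_pos n with h0 | h0
    · subst h0; simp at ha
    · exact h0
  have h1 : a % n < n := Nat.mod_lt _ hn
  have h2 : a / n * n + a % n = a := by
    have := Nat.div_add_mod a n
    rw [mul_comm]; exact this
  have h3 : a / n < k + 1 := (Nat.div_lt_iff_lt_mul hn).2 ha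
  rcases Nat.eq_zero_or_pos (a / n) with h4 | h4
  · have h5 := congrFun (congrArg Prod.fst h) ⟨a % n, h1⟩
    simp only [tp] at h5
    rw [h4] at h2
    rw [h2] at h5
    exact h5
  · obtain ⟨b, hb⟩ : ∃ b, a / n = b + 1 := ⟨a / n - 1, by omega⟩
    have h5 := congrFun (congrFun (congrArg Prod.snd h) ⟨b, by omega⟩) ⟨a % n, h1⟩
    simp only [tp] at h5
    rw [hb] at h2
    rw [h2] at h5
    exact h5

theorem tp_inj {k n : ℕ} {w w' : List Bool} (hw : w.length = (k + 1) * n)
    (hw' : w'.length = (k + 1) * n) (h : tp k n w = tp k n w') : w = w' := by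
  apply List.ext_getElem (hw.trans hw'.symm)
  intro a h1 h2
  have h3 := getD_of_tp h a (by omega)
  rw [List.getElem?_eq_getElem h1, List.getElem?_eq_getElem h2] at h3
  simpa using h3

/-- the string of a table -/
def code (k n : ℕ) (f : ℕ → ℕ → Bool) : List Bool :=
  (List.range ((k + 1) * n)).map (fun a => f (a / n) (a % n))

theorem code_length (k n : ℕ) (f : ℕ → ℕ → Bool) : (code k n f).length = (k + 1) * n := by
  simp [code]

theorem code_get {k n i j : ℕ} (f : ℕ → ℕ → Bool) (hi : i ≤ k) (hj : j < n) :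
    ((code k n f)[i * n + j]?).getD false = f i j := by
  have h1 : i * n + j < (k + 1) * n := by nlinarith
  have h2 : (i * n + j) / n = i := by
    rw [mul_comm, Nat.mul_add_div (by omega), Nat.div_eq_of_lt hj, add_zero]
  have h3 : (i * n + j) % n = j := by
    rw [mul_comm, Nat.mul_add_mod, Nat.mod_eq_of_lt hj]
  unfold code
  rw [List.getElem?_map, List.getElem?_range h1]
  simp [h2, h3]

/-- length -/
def nP (p : ℕ) : ℕ := p.unpair.2.unpair.1.unpair.1
/-- slack -/
def sP (p : ℕ) : ℕ := p.unpair.2.unpair.1.unpair.2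
/-- complexity -/
def qP (p : ℕ) : ℕ := p.unpair.2.unpair.2
/-- the string -/
def zP (p : ℕ) : List Bool := ((Encodable.decode p.unpair.1 : Option (List Bool))).getD []

theorem pr1 : Primrec (fun p : ℕ => p.unpair.1) := Primrec.fst.comp Primrec.unpair

theorem pr2 : Primrec (fun p : ℕ => p.unpair.2) := Primrec.snd.comp Primrec.unpair

theorem primrec_nP : Primrec nP := pr1.comp (pr1.comp pr2)

theorem primrec_sP : Primrec sP := pr2.comp (pr1.comp pr2)

theorem primrec_qP : Primrec qP := pr2.comp pr2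

theorem primrec_zP : Primrec zP :=
  Primrec.option_getD.comp (Primrec.decode.comp pr1) (Primrec.const [])

/-- the relation enumerated -/
def R (E : ℕ → List Bool → ℕ → Prop) (κ : List Bool → ℕ) (δ ν : List Bool → ℕ → ℕ)
    (p : ℕ) (w : List Bool) (r : ℕ) : Prop :=
  w.length = (κ (zP p) + 1) * nP p ∧ E (qP p) w r ∧
    ∀ i ∈ List.range (κ (zP p)),
      ldist (blk (nP p) 0 w) (blk (nP p) (i + 1) w) ≤ δ (zP p) i ∧
      ∀ v ∈ strs (nP p), ¬ (ldist (blk (nP p) 0 w) v ≤ δ (zP p) i) ∨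
        E (ν (zP p) i + sP p) v r

theorem primrec_R {E : ℕ → List Bool → ℕ → Prop}
    (hE : PrimrecPred (fun a : ℕ × List Bool × ℕ => E a.1 a.2.1 a.2.2))
    {κ : List Bool → ℕ} (hκ : Primrec κ) {δ ν : List Bool → ℕ → ℕ} (hδ : Primrec₂ δ)
    (hν : Primrec₂ ν) :
    PrimrecPred (fun a : ℕ × List Bool × ℕ => R E κ δ ν a.1 a.2.1 a.2.2) := by
  have hk : Primrec (fun a : ℕ × List Bool × ℕ => κ (zP a.1)) :=
    hκ.comp (primrec_zP.comp Primrec.fst)
  have h1 : PrimrecPred (fun a : ℕ × List Bool × ℕ =>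
      a.2.1.length = (κ (zP a.1) + 1) * nP a.1) :=
    Primrec.eq.comp (Primrec.list_length.comp (Primrec.fst.comp Primrec.snd))
      (Primrec.nat_mul.comp (Primrec.succ.comp hk) (primrec_nP.comp Primrec.fst))
  have h2 : PrimrecPred (fun a : ℕ × List Bool × ℕ => E (qP a.1) a.2.1 a.2.2) :=
    hE.comp ((primrec_qP.comp Primrec.fst).pair Primrec.snd)
  -- inner relation: v, then (i, p, w, r)
  have hz : Primrec (fun b : List Bool × ℕ × ℕ × List Bool × ℕ => b.1) := Primrec.fst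
  have hi : Primrec (fun b : List Bool × ℕ × ℕ × List Bool × ℕ => b.2.1) :=
    Primrec.fst.comp Primrec.snd
  have hp : Primrec (fun b : List Bool × ℕ × ℕ × List Bool × ℕ => b.2.2.1) :=
    Primrec.fst.comp (Primrec.snd.comp Primrec.snd)
  have hw : Primrec (fun b : List Bool × ℕ × ℕ × List Bool × ℕ => b.2.2.2.1) :=
    Primrec.fst.comp (Primrec.snd.comp (Primrec.snd.comp Primrec.snd))
  have hr : Primrec (fun b : List Bool × ℕ × ℕ × List Bool × ℕ => b.2.2.2.2) :=
    Primrec.snd.comp (Primrec.snd.comp (Primrec.snd.comp Primrec.snd))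
  have hd : Primrec (fun b : List Bool × ℕ × ℕ × List Bool × ℕ => δ (zP b.2.2.1) b.2.1) :=
    hδ.comp (primrec_zP.comp hp) hi
  have hn : Primrec (fun b : List Bool × ℕ × ℕ × List Bool × ℕ =>
      ν (zP b.2.2.1) b.2.1 + sP b.2.2.1) :=
    Primrec.nat_add.comp (hν.comp (primrec_zP.comp hp) hi) (primrec_sP.comp hp)
  have h3 : PrimrecPred (fun b : List Bool × ℕ × ℕ × List Bool × ℕ =>
      ldist (blk (nP b.2.2.1) 0 b.2.2.2.1) b.1 ≤ δ (zP b.2.2.1) b.2.1) :=
    Primrec.nat_le.comp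
      (primrec_ldist.comp (primrec_blk.comp ((primrec_nP.comp hp).pair
        ((Primrec.const 0).pair hw))) hz) hd
  have h4 : PrimrecPred (fun b : List Bool × ℕ × ℕ × List Bool × ℕ =>
      E (ν (zP b.2.2.1) b.2.1 + sP b.2.2.1) b.1 b.2.2.2.2) :=
    hE.comp (hn.pair (hz.pair hr))
  have h5 : PrimrecRel (fun (v : List Bool) (c : ℕ × ℕ × List Bool × ℕ) =>
      ¬ (ldist (blk (nP c.2.1) 0 c.2.2.1) v ≤ δ (zP c.2.1) c.1) ∨
        E (ν (zP c.2.1) c.1 + sP c.2.1) v c.2.2.2) :=
    h3.not.or h4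
  have h6 : PrimrecPred (fun c : ℕ × ℕ × List Bool × ℕ =>
      ∀ v ∈ strs (nP c.2.1),
        ¬ (ldist (blk (nP c.2.1) 0 c.2.2.1) v ≤ δ (zP c.2.1) c.1) ∨
          E (ν (zP c.2.1) c.1 + sP c.2.1) v c.2.2.2) :=
    h5.forall_mem_list.comp
      (primrec_strs.comp (primrec_nP.comp (Primrec.fst.comp Primrec.snd))) Primrec.id
  have hi' : Primrec (fun c : ℕ × ℕ × List Bool × ℕ => c.1) := Primrec.fst
  have hn' : Primrec (fun c : ℕ × ℕ × List Bool × ℕ => nP c.2.1) :=
    primrec_nP.comp (Primrec.fst.comp Primrec.snd)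
  have hw' : Primrec (fun c : ℕ × ℕ × List Bool × ℕ => c.2.2.1) :=
    Primrec.fst.comp (Primrec.snd.comp Primrec.snd)
  have hd' : Primrec (fun c : ℕ × ℕ × List Bool × ℕ => δ (zP c.2.1) c.1) :=
    hδ.comp (primrec_zP.comp (Primrec.fst.comp Primrec.snd)) Primrec.fst
  have h7 : PrimrecPred (fun c : ℕ × ℕ × List Bool × ℕ =>
      ldist (blk (nP c.2.1) 0 c.2.2.1) (blk (nP c.2.1) (c.1 + 1) c.2.2.1) ≤
        δ (zP c.2.1) c.1) :=
    Primrec.nat_le.comp
      (primrec_ldist.comp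
        (primrec_blk.comp (hn'.pair ((Primrec.const 0).pair hw')))
        (primrec_blk.comp (hn'.pair ((Primrec.succ.comp hi').pair hw'))))
      hd'
  have h8 : PrimrecRel (fun (i : ℕ) (a : ℕ × List Bool × ℕ) =>
      ldist (blk (nP a.1) 0 a.2.1) (blk (nP a.1) (i + 1) a.2.1) ≤ δ (zP a.1) i ∧
      ∀ v ∈ strs (nP a.1), ¬ (ldist (blk (nP a.1) 0 a.2.1) v ≤ δ (zP a.1) i) ∨
        E (ν (zP a.1) i + sP a.1) v a.2.2) :=
    h7.and h6
  have h9 : PrimrecPred (fun a : ℕ × List Bool × ℕ => ∀ i ∈ List.range (κ (zP a.1)),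
      ldist (blk (nP a.1) 0 a.2.1) (blk (nP a.1) (i + 1) a.2.1) ≤ δ (zP a.1) i ∧
      ∀ v ∈ strs (nP a.1), ¬ (ldist (blk (nP a.1) 0 a.2.1) v ≤ δ (zP a.1) i) ∨
        E (ν (zP a.1) i + sP a.1) v a.2.2) :=
    h8.forall_mem_list.comp (Primrec.list_range.comp hk) Primrec.id
  exact h1.and (h2.and h9)

/-- finitely many stages have a common later stage -/
theorem common {ι : Type*} (S : Finset ι) (P : ι → ℕ → Prop)
    (hmono : ∀ a r r', r ≤ r' → P a r → P a r') (h : ∀ a ∈ S, ∃ r, P a r) :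
    ∃ r, ∀ a ∈ S, P a r := by
  classical
  induction S using Finset.induction_on with
  | empty => exact ⟨0, by simp⟩
  | insert a S ha ih =>
    obtain ⟨r, hr⟩ := ih (fun b hb => h b (mem_insert_of_mem hb))
    obtain ⟨r', hr'⟩ := h a (mem_insert_self _ _)
    refine ⟨r + r', fun b hb => ?_⟩
    rcases mem_insert.1 hb with h1 | h1
    · rw [h1]; exact hmono a r' _ (Nat.le_add_left _ _) hr'
    · exact hmono b r _ (Nat.le_add_right _ _) (hr b h1)

/-- the parts -/
def prt (a : ℕ) (w : List Bool) : List Bool := blk (nP a.unpair.1) (a.unpair.2 + 1) w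

theorem primrec_prt : Primrec₂ prt := by
  have h1 : Primrec (fun a : ℕ × List Bool => nP a.1.unpair.1) :=
    (primrec_nP.comp pr1).comp Primrec.fst
  have h2 : Primrec (fun a : ℕ × List Bool => a.1.unpair.2 + 1) :=
    Primrec.succ.comp (pr2.comp Primrec.fst)
  have h3 : Primrec (fun a : ℕ × List Bool => a.2) := Primrec.snd
  have h4 := primrec_blk.comp (h1.pair (h2.pair h3))
  exact h4

theorem ar6 (n k c0 : ℕ) : n + c0 ≤ (k + 1) * n + c0 := by nlinarith

theorem ar7 {a c0 b : ℕ} (h : a ≤ b) (hb : 0 < b) : a + c0 ≤ (c0 + 1) * b := by nlinarith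

theorem ar9 (c c0 s D : ℕ) : 2 + c * (D + 4 * (2 * s + c0 + 8) + 1) +
    c * (D + 4 * (2 * s + c0 + 8) + 1) ≤ (2 * c * (4 * c0 + 33) + 2) * (D + s + 1) := by
  have h : D + 4 * (2 * s + c0 + 8) + 1 ≤ (4 * c0 + 33) * (D + s + 1) := by nlinarith
  calc 2 + c * (D + 4 * (2 * s + c0 + 8) + 1) + c * (D + 4 * (2 * s + c0 + 8) + 1)
      = 2 + 2 * c * (D + 4 * (2 * s + c0 + 8) + 1) := by ring
    _ ≤ 2 * (D + s + 1) + 2 * c * ((4 * c0 + 33) * (D + s + 1)) :=
        Nat.add_le_add (by omega) (Nat.mul_le_mul_left _ h)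
    _ = (2 * c * (4 * c0 + 33) + 2) * (D + s + 1) := by ring

end TZ

open TZ

theorem tuplesZ {U : List Bool →. List Bool} (hU : Optimal U)
    {κ : List Bool → ℕ} (hκ : Primrec κ) {δ ν : List Bool → ℕ → ℕ} (hδ : Primrec₂ δ)
    (hν : Primrec₂ ν) :
    ∃ c : ℕ, ∀ (n s S : ℕ) (z : List Bool) (x : Fin n → Bool), n < 2 ^ s → S ≤ n →
      C U z < 2 ^ s → κ z ≤ n + 1 → (∀ i < κ z, δ z i ≤ n) →
      (∀ i < κ z, M U x (δ z i) ≤ ν z i + S ∧ ν z i ≤ M U x (δ z i) + S) →
      ∃ (g : Fin (κ z) → ℕ) (W : Finset ((Fin n → Bool) × (Fin (κ z) → (Fin n → Bool)))),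
        W.Nonempty ∧
        (∀ w ∈ W, ∀ i : Fin (κ z),
          hammingDist w.1 (w.2 i) ≤ δ z i ∧ M U w.1 (δ z i) ≤ ν z i + S) ∧
        (∀ (i : Fin (κ z)) (y : Fin n → Bool),
          (W.filter (fun w => w.2 i = y)).card ≤ 2 ^ g i) ∧
        ∀ i : Fin (κ z), 2 ^ (ν z i + g i) ≤ W.card * 2 ^ (S + c * (C U z + s + 1)) := by
  classical
  obtain ⟨E, hE, hEm, hEC⟩ := exists_stage hU
  obtain ⟨c0, hc0⟩ := C_le_length hU
  have hμ : Primrec₂ (fun p i : ℕ => ν (zP p) i - sP p) :=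
    Primrec.nat_sub.comp (hν.comp (primrec_zP.comp Primrec.fst) Primrec.snd)
      (primrec_sP.comp Primrec.fst)
  obtain ⟨c, hc⟩ := keptZ hU (R E κ δ ν) (primrec_R hE hκ hδ hν) prt primrec_prt
    (fun p => κ (zP p)) (hκ.comp primrec_zP) (fun p i => ν (zP p) i - sP p) hμ
  refine ⟨2 * c * (4 * c0 + 33) + 2, ?_⟩
  intro n s S z x hns hSn hzs hkn hd hM
  generalize hk : κ z = k at hkn hd hM ⊢
  choose y hyd hyC using fun i : Fin k => exists_eq_M U x (δ z i)
  -- the table of the tuple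
  set f : ℕ → ℕ → Bool := fun i j =>
    if h : j < n then (if i = 0 then x ⟨j, h⟩ else
      if h' : i - 1 < k then y ⟨i - 1, h'⟩ ⟨j, h⟩ else false) else false with hf
  set w : List Bool := code k n f with hw
  have hwl : w.length = (k + 1) * n := code_length k n f
  have hb0 : blk n 0 w = List.ofFn x := by
    rw [blk_eq]
    congr 1
    funext j
    rw [hw, code_get f (Nat.zero_le k) j.2, hf]
    simp
  have hbi : ∀ i : Fin k, blk n ((i : ℕ) + 1) w = List.ofFn (y i) := by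
    intro i
    rw [blk_eq]
    congr 1
    funext j
    rw [hw, code_get f (Nat.succ_le_of_lt i.2) j.2, hf]
    simp
  set q := C U w with hq
  set t := 2 * s + c0 + 8 with ht
  have hspos : 0 < 2 ^ s := by positivity
  have hs1 : 2 ^ (s + 1) = 2 * 2 ^ s := by rw [pow_succ]; ring
  have hk1 : k + 1 ≤ 2 ^ (s + 1) := by omega
  have hlarge : (k + 1) * n + c0 < 2 ^ t := by
    have h1 : c0 + 1 < 2 ^ (c0 + 1) := Nat.lt_two_pow_self
    have h2 : (k + 1) * n ≤ 2 ^ (s + 1) * 2 ^ s := Nat.mul_le_mul hk1 hns.le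
    have h3 : 0 < 2 ^ (s + 1) * 2 ^ s := by positivity
    calc (k + 1) * n + c0 ≤ (c0 + 1) * (2 ^ (s + 1) * 2 ^ s) := ar7 h2 h3
      _ < 2 ^ (c0 + 1) * (2 ^ (s + 1) * 2 ^ s) := Nat.mul_lt_mul_of_pos_right h1 h3
      _ = 2 ^ (2 * s + c0 + 2) := by
          rw [← pow_add, ← pow_add]; congr 1; omega
      _ ≤ 2 ^ t := Nat.pow_le_pow_right (by norm_num) (by omega)
  have hqt : q < 2 ^ t := by
    have := hc0 w
    rw [hwl] at this
    exact lt_of_le_of_lt this hlarge
  have hst : 2 ^ (s + 1) ≤ 2 ^ t := Nat.pow_le_pow_right (by norm_num) (by omega)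
  have hnt : n < 2 ^ t := by omega
  have hkt : k < 2 ^ t := by omega
  have hSt : S < 2 ^ t := by omega
  have htT : 2 ^ t ≤ 2 ^ (4 * t) := Nat.pow_le_pow_right (by norm_num) (by omega)
  have hqT : q < 2 ^ (4 * t) := lt_of_lt_of_le hqt htT
  have hkT : k < 2 ^ (4 * t) := lt_of_lt_of_le hkt htT
  have hzT : C U z < 2 ^ (4 * t) := by omega
  set a := Nat.pair (Nat.pair n S) q with hadef
  have haT : a < 2 ^ (4 * t) := by
    have h1 : Nat.pair n S < 2 ^ (2 * t) := PC.pair_lt hnt hSt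
    have h2 : q < 2 ^ (2 * t) :=
      lt_of_lt_of_le hqt (Nat.pow_le_pow_right (by norm_num) (by omega))
    have h3 := PC.pair_lt h1 h2
    rw [show 4 * t = 2 * (2 * t) by ring]
    exact h3
  set p := Nat.pair (Encodable.encode z) a with hpdef
  have hzP : zP p = z := by
    unfold zP
    rw [hpdef, Nat.unpair_pair]
    simp only
    rw [Encodable.encodek]
    rfl
  have hnP : nP p = n := by unfold nP; rw [hpdef, Nat.unpair_pair, hadef]; simp
  have hsP : sP p = S := by unfold sP; rw [hpdef, Nat.unpair_pair, hadef]; simp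
  have hqP : qP p = q := by unfold qP; rw [hpdef, Nat.unpair_pair, hadef]; simp
  have hprt : ∀ (i : ℕ) (v : List Bool), prt (Nat.pair p i) v = blk n (i + 1) v := by
    intro i v
    unfold prt
    rw [Nat.unpair_pair]
    simp only
    rw [hnP]
  have hkP : κ (zP p) = k := by rw [hzP, hk]
  -- the tuple is enumerated
  have hex : ∃ r, R E κ δ ν p w r := by
    obtain ⟨r0, hr0⟩ := (hEC q w).1 le_rfl
    obtain ⟨r1, hr1⟩ := common (univ : Finset (Fin k × (Fin n → Bool)))
      (fun a r => hammingDist x a.2 ≤ δ z a.1 → E (ν z a.1 + S) (List.ofFn a.2) r)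
      (fun a r r' h1 h2 h3 => hEm _ _ _ _ h1 (h2 h3))
      (by
        intro a _
        by_cases h : hammingDist x a.2 ≤ δ z a.1
        · obtain ⟨r, hr⟩ := (hEC (ν z a.1 + S) _).1 ((le_M (U := U) h).trans (hM a.1 a.1.2).1)
          exact ⟨r, fun _ => hr⟩
        · exact ⟨0, fun h' => absurd h' h⟩)
    refine ⟨r0 + r1, by rw [hnP, hkP]; exact hwl, ?_, ?_⟩
    · rw [hqP]; exact hEm _ _ _ _ (Nat.le_add_right _ _) hr0
    · intro i hi
      rw [List.mem_range, hkP] at hi
      have h3 := hbi ⟨i, hi⟩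
      have h4 := hyd ⟨i, hi⟩
      simp only at h3 h4
      rw [hzP, hsP, hnP, h3, hb0, ldist_ofFn]
      refine ⟨h4, fun v hv => ?_⟩
      obtain ⟨v', rfl⟩ := PC.exists_ofFn v (mem_strs.1 hv)
      rw [ldist_ofFn]
      by_cases h : hammingDist x v' ≤ δ z i
      · right
        exact hEm _ _ _ _ (Nat.le_add_left _ _) (hr1 (⟨i, hi⟩, v') (mem_univ _) h)
      · exact Or.inl h
  -- what is enumerated
  have hlen : ∀ w' r, R E κ δ ν p w' r → w'.length = (k + 1) * n := by
    intro w' r h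
    have := h.1
    rwa [hnP, hkP] at this
  set F : Finset (List Bool) := ((univ : Finset (Fin ((k + 1) * n) → Bool)).filter
    (fun v => C U (List.ofFn v) < q + 1)).image List.ofFn with hF
  have hFm : ∀ w' r, R E κ δ ν p w' r → w' ∈ F := by
    intro w' r h
    obtain ⟨v, rfl⟩ := PC.exists_ofFn w' (hlen w' r h)
    rw [hF, mem_image]
    refine ⟨v, ?_, rfl⟩
    rw [mem_filter]
    refine ⟨mem_univ _, ?_⟩
    have h1 := (hEC _ _).2 ⟨r, h.2.1⟩
    rw [hqP] at h1
    omega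
  have hFc : F.card ≤ 2 ^ (q + 1) := by
    refine card_image_le.trans (card_lt_of_C hU _ (q + 1) ?_).le
    intro v hv
    exact (mem_filter.1 hv).2
  have hmu : ∀ i < κ (zP p), ν (zP p) i - sP p ≤ C U (prt (Nat.pair p i) w) := by
    intro i hi
    rw [hkP] at hi
    have h3 := hbi ⟨i, hi⟩
    have h4 := hyC ⟨i, hi⟩
    simp only at h3 h4
    rw [hprt, h3, h4, hzP, hsP]
    have := (hM i hi).2
    omega
  obtain ⟨g, W, hW1, hW2, hW3, hW4⟩ := hc (4 * t) a q z w F haT hqT hzT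
    (by rw [← hpdef, hkP]; exact hkT) hex hFm hFc rfl hmu
  have hW2' : ∀ i < k, ∀ v : List Bool,
      (W.filter (fun w' => prt (Nat.pair p i) w' = v)).card ≤ 2 ^ g i := by
    intro i hi
    exact hW2 i (by rw [← hpdef, hkP]; exact hi)
  have hW4' : ∀ i < k, ν z i - S + g i = q + 2 + c * (C U z + 4 * t + 1) := by
    intro i hi
    have h1 := hW4 i (by rw [← hpdef, hkP]; exact hi)
    rw [← hpdef, hzP, hsP] at h1
    exact h1
  have hWl : ∀ w' ∈ W, w'.length = (k + 1) * n := by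
    intro w' hw'
    obtain ⟨r, hr⟩ := hW1 w' hw'
    exact hlen w' r hr
  have hinj : Set.InjOn (tp k n) (W : Set (List Bool)) := by
    intro a ha b hb hab
    exact tp_inj (hWl a ha) (hWl b hb) hab
  have hcard : (W.image (tp k n)).card = W.card := card_image_of_injOn hinj
  have hWpos : 0 < W.card := by
    rcases Nat.eq_zero_or_pos W.card with h | h
    · rw [h, zero_mul] at hW3
      have : 0 < 2 ^ q := by positivity
      omega
    · exact h
  have hblk0 : ∀ w' : List Bool, blk n 0 w' = List.ofFn (tp k n w').1 := by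
    intro w'
    exact blk_eq n 0 w'
  have hblki : ∀ (w' : List Bool) (i : Fin k),
      blk n ((i : ℕ) + 1) w' = List.ofFn ((tp k n w').2 i) := by
    intro w' i
    exact blk_eq n _ w'
  refine ⟨fun i => g i, W.image (tp k n), ?_, ?_, ?_, ?_⟩
  · rw [image_nonempty]; exact card_pos.1 hWpos
  · intro v hv i
    obtain ⟨w', hw', rfl⟩ := mem_image.1 hv
    obtain ⟨r, hr⟩ := hW1 w' hw'
    have h1 := hr.2.2 i (List.mem_range.2 (by rw [← hpdef, hkP]; exact i.2))
    rw [← hpdef, hzP, hsP, hnP, hblk0 w', hblki w' i, ldist_ofFn] at h1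
    refine ⟨h1.1, M_le fun v hv => ?_⟩
    have h2 := h1.2 (List.ofFn v) (mem_strs.2 List.length_ofFn)
    rw [ldist_ofFn] at h2
    rcases h2 with h2 | h2
    · exact absurd hv h2
    · exact (hEC _ _).2 ⟨r, h2⟩
  · intro i v
    refine le_trans ?_ (hW2' i i.2 (List.ofFn v))
    have hsub : (W.image (tp k n)).filter (fun w => w.2 i = v) ⊆
        (W.filter (fun w' => prt (Nat.pair p i) w' = List.ofFn v)).image (tp k n) := by
      intro a ha
      rw [mem_filter] at ha
      obtain ⟨w', hw', rfl⟩ := mem_image.1 ha.1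
      refine mem_image.2 ⟨w', mem_filter.2 ⟨hw', ?_⟩, rfl⟩
      rw [hprt, hblki w' i, ha.2]
    exact (card_le_card hsub).trans card_image_le
  · intro i
    rw [hcard]
    have h1 := hW4' i i.2
    set Y := C U z + 4 * t + 1 with hY
    have h2 : ν z i + g i ≤ S + (q + (2 + c * Y)) := by omega
    have h9 := ar9 c c0 s (C U z)
    calc 2 ^ (ν z i + g i) ≤ 2 ^ (S + (q + (2 + c * Y))) :=
          Nat.pow_le_pow_right (by norm_num) h2
      _ = 2 ^ S * (2 ^ q * 2 ^ (2 + c * Y)) := by rw [pow_add, pow_add 2 q]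
      _ ≤ 2 ^ S * (W.card * 2 ^ (c * Y) * 2 ^ (2 + c * Y)) :=
          Nat.mul_le_mul_left _ (Nat.mul_le_mul_right _ hW3)
      _ = W.card * 2 ^ (S + (2 + c * Y + c * Y)) := by
          rw [pow_add 2 S, pow_add 2 (2 + c * Y)]; ring
      _ ≤ W.card * 2 ^ (S + (2 * c * (4 * c0 + 33) + 2) * (C U z + s + 1)) := by
          apply Nat.mul_le_mul_left
          apply Nat.pow_le_pow_right (by norm_num)
          exact Nat.add_le_add_left h9 S

end Pool.Agent.Lib.MP_f4f1a8_lc.KR
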