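import Pool.Agent.Lib.MP_f4f1a8_lc.LLem
import Pool.Agent.Lib.MP_f4f1a8_lc.Sphere
import Pool.Agent.Lib.MP_f4f1a8_lc.KR.Nec
import Pool.Agent.Lib.MP_f4f1a8_lc.KR.SuffB

/-! MP_f4f1a8_lc, row Uni (helper51): sets of radii covered by few intervals. -/

namespace Pool.Agent.Lib.MP_f4f1a8_lc.KR

open Finset SelectAux

/-- Up to `S` the numbers `f d`, `d ∈ D`, are the binary logarithms of the sizes of the
`d`-neighbourhoods of some nonempty set `A` of the `n`-cube, and these sizes do not drop for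
subsets of `A` with at least `|A| / (2 (n + 1))` elements. -/
def RobustOn (n : ℕ) (D : Finset ℕ) (f : ℕ → ℕ) (S : ℝ) : Prop :=
  ∃ A : Finset (Fin n → Bool), A.Nonempty ∧ ∀ d ∈ D,
    Real.logb 2 (nbr A d).card ≤ f d + S ∧
    ∀ A' ⊆ A, A.card ≤ 2 * (n + 1) * A'.card → (f d : ℝ) - S ≤ Real.logb 2 (nbr A' d).card

namespace Un

lemma npos {n : ℕ} {S : Finset (Fin n → Bool)} (hS : S.Nonempty) (d : ℕ) :
    (0 : ℝ) < (nbr S d).card := by
  obtain ⟨x, hx⟩ := hS
  exact_mod_cast Finset.card_pos.2 ⟨x, mem_nbr.2 ⟨x, hx, by simp⟩⟩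

lemma nlog0 {n : ℕ} {S : Finset (Fin n → Bool)} (hS : S.Nonempty) (d : ℕ) :
    0 ≤ Real.logb 2 (nbr S d).card := by
  refine Real.logb_nonneg (by norm_num) ?_
  have h := npos hS d
  have h2 : 0 < (nbr S d).card := by exact_mod_cast h
  exact_mod_cast h2

lemma nlogn {n : ℕ} {S : Finset (Fin n → Bool)} (hS : S.Nonempty) (d : ℕ) :
    Real.logb 2 (nbr S d).card ≤ n := by
  have h1 : (nbr S d).card ≤ 2 ^ n := by
    refine (Finset.card_le_univ _).trans ?_
    simp
  have h2 : ((nbr S d).card : ℝ) ≤ (2 : ℝ) ^ n := by exact_mod_cast h1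
  have h3 := Real.logb_le_logb_of_le (b := 2) (by norm_num) (npos hS d) h2
  rwa [Real.logb_pow, Real.logb_self_eq_one (by norm_num), mul_one] at h3

lemma lmono {n : ℕ} {S : Finset (Fin n → Bool)} (hS : S.Nonempty) {d e : ℕ}
    (h : d ≤ e) : Real.logb 2 (nbr S d).card ≤ Real.logb 2 (nbr S e).card := by
  refine Real.logb_le_logb_of_le (by norm_num) (npos hS d) ?_
  have h1 : nbr S d ⊆ nbr S e := by
    intro y hy
    obtain ⟨x, hx, hxy⟩ := mem_nbr.1 hy
    exact mem_nbr.2 ⟨x, hx, hxy.trans h⟩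
  exact_mod_cast Finset.card_le_card h1

lemma L_add (n r g : ℕ) : L n (r + g) ≤ L n r + g * Real.logb 2 ((n : ℝ) + 1) := by
  induction g with
  | zero => simp
  | succ g ih =>
    have h := L_succ n (r + g)
    rw [← add_assoc]
    push_cast
    nlinarith

lemma lgrow {n : ℕ} {S : Finset (Fin n → Bool)} (hS : S.Nonempty) {d e g : ℕ}
    (h : d ≤ e) (hg : e ≤ d + g) :
    Real.logb 2 (nbr S e).card ≤ Real.logb 2 (nbr S d).card + g * Real.logb 2 ((n : ℝ) + 1) := by
  have h1 := sphere_growth S h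
  have h2 : ((nbr S e).card : ℝ) * vol n d ≤ (nbr S d).card * vol n e := by exact_mod_cast h1
  have h3 := Real.logb_le_logb_of_le (b := 2) (by norm_num)
    (mul_pos (npos hS e) (vol_pos_real n d)) h2
  rw [Real.logb_mul (npos hS e).ne' (vol_pos_real n d).ne',
    Real.logb_mul (npos hS d).ne' (vol_pos_real n e).ne'] at h3
  have h4 := L_add n d g
  have h5 := L_mono n hg
  unfold L at h4 h5
  linarith

/-- least and greatest element of `D` in each interval -/
lemma endpoints (D : Finset ℕ) (hD : D.Nonempty) (k g : ℕ) (a : Fin k → ℕ)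
    (hc : ∀ d ∈ D, ∃ j, a j ≤ d ∧ d ≤ a j + g) :
    ∃ lo hi : Fin k → ℕ, (∀ j, lo j ∈ D) ∧ (∀ j, hi j ∈ D) ∧ (∀ j, hi j ≤ lo j + g) ∧
      ∀ d ∈ D, ∃ j, lo j ≤ d ∧ d ≤ hi j := by
  classical
  obtain ⟨d₀, hd₀⟩ := hD
  have key : ∀ j : Fin k, ∃ p : ℕ × ℕ, p.1 ∈ D ∧ p.2 ∈ D ∧ p.2 ≤ p.1 + g ∧
      ∀ d ∈ D, a j ≤ d → d ≤ a j + g → p.1 ≤ d ∧ d ≤ p.2 := by
    intro j
    rcases (D.filter (fun d => a j ≤ d ∧ d ≤ a j + g)).eq_empty_or_nonempty with h | h
    · refine ⟨(d₀, d₀), hd₀, hd₀, by simp, ?_⟩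
      intro d hd h1 h2
      have h3 : d ∈ D.filter (fun d => a j ≤ d ∧ d ≤ a j + g) :=
        Finset.mem_filter.2 ⟨hd, h1, h2⟩
      rw [h] at h3
      exact absurd h3 (Finset.notMem_empty d)
    · refine ⟨((D.filter (fun d => a j ≤ d ∧ d ≤ a j + g)).min' h,
        (D.filter (fun d => a j ≤ d ∧ d ≤ a j + g)).max' h), ?_, ?_, ?_, ?_⟩
      · exact (Finset.mem_filter.1 (Finset.min'_mem _ h)).1
      · exact (Finset.mem_filter.1 (Finset.max'_mem _ h)).1
      · have h1 := (Finset.mem_filter.1 (Finset.min'_mem _ h)).2.1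
        have h2 := (Finset.mem_filter.1 (Finset.max'_mem _ h)).2.2
        exact h2.trans (Nat.add_le_add_right h1 g)
      · intro d hd h1 h2
        have h3 : d ∈ D.filter (fun d => a j ≤ d ∧ d ≤ a j + g) :=
          Finset.mem_filter.2 ⟨hd, h1, h2⟩
        exact ⟨Finset.min'_le _ _ h3, Finset.le_max' _ _ h3⟩
  choose p hp1 hp2 hp3 hp4 using key
  refine ⟨fun j => (p j).1, fun j => (p j).2, hp1, hp2, hp3, ?_⟩
  intro d hd
  obtain ⟨j, h1, h2⟩ := hc d hd
  exact ⟨j, hp4 j d hd h1 h2⟩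

lemma sub_nonempty {n : ℕ} {A A' : Finset (Fin n → Bool)} (hA : A.Nonempty)
    (h : A.card ≤ 2 * (n + 1) * A'.card) : A'.Nonempty := by
  rw [Finset.nonempty_iff_ne_empty]
  rintro rfl
  have := Finset.card_pos.2 hA
  rw [Finset.card_empty, Nat.mul_zero] at h
  omega

lemma self_ok {n : ℕ} (A : Finset (Fin n → Bool)) : A.card ≤ 2 * (n + 1) * A.card :=
  Nat.le_mul_of_pos_left _ (by omega)

end Un

open Un in
theorem uni {U : List Bool →. List Bool} (hU : Optimal U) :
    ∃ c : ℝ, ∀ n k g : ℕ, 2 ≤ n → ∀ (D : Finset ℕ) (a : Fin k → ℕ), (∀ d ∈ D, d ≤ n) →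
      (∀ d ∈ D, ∃ j, a j ≤ d ∧ d ≤ a j + g) → ∀ (f : ℕ → ℕ) (S : ℝ), 0 ≤ S →
      (RobustOn n D f S → ∃ x : Fin n → Bool, ∀ d ∈ D,
        |(M U x d : ℝ) - f d| ≤ 3 * S + c * (k + g + 1) * Real.log n) ∧
      ((∃ x : Fin n → Bool, ∀ d ∈ D, |(M U x d : ℝ) - f d| ≤ S) →
        RobustOn n D f (S + c * (k + g + 1) * Real.log n)) := by
  classical
  obtain ⟨cS, hcS0, hcS⟩ := suff_real hU
  obtain ⟨cN, hcN⟩ := nec hU
  obtain ⟨c₀, hc₀⟩ := C_le_length hU
  refine ⟨6 * |cN| + 2 * cS + 2 * c₀ + 7, ?_⟩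
  intro n k g hn D a hDn hcov f S hS
  have hl := one_le_log hn
  have hl0 : 0 ≤ Real.log (n : ℝ) := by linarith
  have hn2 : (2 : ℝ) ≤ n := by exact_mod_cast hn
  have hk0 : (0 : ℝ) ≤ k := Nat.cast_nonneg k
  have hg0 : (0 : ℝ) ≤ g := Nat.cast_nonneg g
  have hc00 : (0 : ℝ) ≤ c₀ := Nat.cast_nonneg c₀
  have hcN0 := abs_nonneg cN
  set R : ℝ := (k + g + 1) * Real.log n with hR
  have hR0 : 0 ≤ R := by positivity
  have hcR : (6 * |cN| + 2 * cS + 2 * c₀ + 7) * (k + g + 1) * Real.log n =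
      6 * |cN| * R + 2 * cS * R + 2 * c₀ * R + 7 * R := by rw [hR]; ring
  have hcN6 : 0 ≤ 6 * |cN| * R := by positivity
  have hcS2 : 0 ≤ 2 * cS * R := by positivity
  have hc02 : 0 ≤ 2 * c₀ * R := by positivity
  have hMle : ∀ (x : Fin n → Bool) (d : ℕ), (M U x d : ℝ) ≤ n + c₀ := by
    intro x d
    have h1 : M U x d ≤ n + c₀ := by
      apply M_le
      intro y _
      have := hc₀ (List.ofFn y)
      simpa using this
    exact_mod_cast h1
  have hM0 : ∀ (x : Fin n → Bool) (d : ℕ), (0 : ℝ) ≤ M U x d := fun x d => Nat.cast_nonneg _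
  rcases D.eq_empty_or_nonempty with hD | hD
  · subst hD
    exact ⟨fun _ => ⟨fun _ => false, fun d hd => absurd hd (Finset.notMem_empty d)⟩,
      fun _ => ⟨{fun _ => false}, by simp, fun d hd => absurd hd (Finset.notMem_empty d)⟩⟩
  rcases Nat.lt_or_ge (n + 1) (2 * k) with hbig | hsmall
  · -- many intervals: the error is larger than all values
    have hRn : (n : ℝ) ≤ 4 * R := by
      have h1 : (n : ℝ) + 2 ≤ 2 * k := by exact_mod_cast hbig
      have h2 : (n : ℝ) / 2 ≤ k + g + 1 := by linarith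
      have h3 : (n : ℝ) / 2 * (1 / 2) ≤ (k + g + 1) * Real.log n :=
        mul_le_mul h2 (by linarith) (by norm_num) (by positivity)
      rw [hR]
      linarith
    have hcR0 : (c₀ : ℝ) ≤ 2 * c₀ * R := by
      have h1 : (1 : ℝ) ≤ 2 * R := by linarith
      nlinarith
    constructor
    · rintro ⟨A, hA, h⟩
      refine ⟨fun _ => false, fun d hd => ?_⟩
      obtain ⟨h1, h2⟩ := h d hd
      have h3 := h2 A (Finset.Subset.refl A) (self_ok A)
      have h4 := nlogn hA d
      have h5 := hMle (fun _ => false) d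
      have h6 := hM0 (fun _ => false) d
      have h7 : (0 : ℝ) ≤ f d := Nat.cast_nonneg _
      rw [hcR, abs_le]
      constructor <;> linarith
    · rintro ⟨x, hx⟩
      refine ⟨{x}, by simp, fun d hd => ⟨?_, ?_⟩⟩
      · have h4 := nlogn (Finset.singleton_nonempty x) d
        have h7 : (0 : ℝ) ≤ f d := Nat.cast_nonneg _
        rw [hcR]
        linarith
      · intro A' _ hc'
        have h1 := nlog0 (sub_nonempty (Finset.singleton_nonempty x) hc') d
        have h2 := (abs_le.1 (hx d hd)).1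
        have h3 := hMle x d
        rw [hcR]
        linarith
  · obtain ⟨lo, hi, hlo, hhi, hlh, hcov'⟩ := endpoints D hD k g a hcov
    have hkk : k + k ≤ n + 1 := by omega
    set e : Fin (k + k) → ℕ := Fin.append lo hi with he
    have heD : ∀ i, e i ∈ D := by
      intro i
      refine Fin.addCases (fun j => ?_) (fun j => ?_) i
      · rw [he, Fin.append_left]; exact hlo j
      · rw [he, Fin.append_right]; exact hhi j
    have hel : ∀ j : Fin k, e (Fin.castAdd k j) = lo j := fun j => by rw [he, Fin.append_left]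
    have her : ∀ j : Fin k, e (Fin.natAdd k j) = hi j := fun j => by rw [he, Fin.append_right]
    have hG : (g : ℝ) * Real.logb 2 ((n : ℝ) + 1) ≤ 3 * R := by
      have h1 := mul_le_mul_of_nonneg_left (logb_le hn) hg0
      have h2 : (g : ℝ) * Real.log n ≤ R := by
        rw [hR]
        exact mul_le_mul_of_nonneg_right (by linarith) hl0
      linarith
    have hKR : (((k + k : ℕ) : ℝ) + 1) * Real.log n ≤ 2 * R := by
      have h1 : ((k + k : ℕ) : ℝ) + 1 ≤ 2 * (k + g + 1) := by push_cast; linarith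
      have h2 := mul_le_mul_of_nonneg_right h1 hl0
      rw [hR]
      linarith
    have hKR0 : 0 ≤ (((k + k : ℕ) : ℝ) + 1) * Real.log n := by positivity
    constructor
    · rintro ⟨A, hA, h⟩
      have hrob : Robust n (k + k) e (fun i => f (e i)) S :=
        ⟨A, hA, fun i => h (e i) (heD i)⟩
      obtain ⟨x, hx0⟩ := hcS n (k + k) hn hkk e (fun i => f (e i))
        (fun i => hDn _ (heD i)) S hrob
      have hE : cS * (((k + k : ℕ) : ℝ) + 1) * Real.log n ≤ 2 * cS * R := by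
        have := mul_le_mul_of_nonneg_left hKR hcS0
        linarith
      set E : ℝ := cS * (((k + k : ℕ) : ℝ) + 1) * Real.log n with hEdef
      have hx : ∀ i, |(M U x (e i) : ℝ) - f (e i)| ≤ S + E := fun i => hx0 i
      refine ⟨x, fun d hd => ?_⟩
      obtain ⟨j, h1, h2⟩ := hcov' d hd
      have xl0 := hx (Fin.castAdd k j)
      have xh0 := hx (Fin.natAdd k j)
      rw [hel j] at xl0
      rw [her j] at xh0
      have xl := abs_le.1 xl0
      have xh := abs_le.1 xh0
      have m1 : (M U x (lo j) : ℝ) ≤ M U x d := by exact_mod_cast M_mono U x h1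
      have m2 : (M U x d : ℝ) ≤ M U x (hi j) := by exact_mod_cast M_mono U x h2
      have gd := h d hd
      have gl := h (lo j) (hlo j)
      have gh := h (hi j) (hhi j)
      have gdl := gd.2 A (Finset.Subset.refl A) (self_ok A)
      have ghl := gh.2 A (Finset.Subset.refl A) (self_ok A)
      have r1 := lgrow hA h2 ((hlh j).trans (Nat.add_le_add_right h1 g))
      have r2 := lgrow hA h1 (h2.trans (hlh j))
      rw [hcR, abs_le]
      constructor <;> linarith [gd.1, gl.1, xl.1, xl.2, xh.1, xh.2]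
    · rintro ⟨x, hx⟩
      obtain ⟨A, hA, h0⟩ := hcN n (k + k) hn hkk e (fun i => hDn _ (heD i)) x
      have hE : cN * (((k + k : ℕ) : ℝ) + 1) * Real.log n ≤ 2 * |cN| * R := by
        have h1 := mul_le_mul_of_nonneg_right (le_abs_self cN) hKR0
        have h2 := mul_le_mul_of_nonneg_left hKR hcN0
        linarith
      set E : ℝ := cN * (((k + k : ℕ) : ℝ) + 1) * Real.log n with hEdef
      have h : ∀ i, Real.logb 2 (nbr A (e i)).card ≤ (M U x (e i) : ℝ) + E ∧
          ∀ A' ⊆ A, A.card ≤ 2 * (n + 1) * A'.card →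
            (M U x (e i) : ℝ) - E ≤ Real.logb 2 (nbr A' (e i)).card := fun i => h0 i
      refine ⟨A, hA, fun d hd => ?_⟩
      obtain ⟨j, h1, h2⟩ := hcov' d hd
      have gl := h (Fin.castAdd k j)
      have gh := h (Fin.natAdd k j)
      rw [hel j] at gl
      rw [her j] at gh
      have m1 : (M U x (lo j) : ℝ) ≤ M U x d := by exact_mod_cast M_mono U x h1
      have m2 : (M U x d : ℝ) ≤ M U x (hi j) := by exact_mod_cast M_mono U x h2
      have hxd := abs_le.1 (hx d hd)
      have r1 := lgrow hA (h1.trans h2) (hlh j)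
      have ghl := gh.2 A (Finset.Subset.refl A) (self_ok A)
      rw [hcR]
      constructor
      · have r3 := lmono hA h2
        linarith [gl.1, hxd.1, hxd.2]
      · intro A' hA' hc'
        have r4 := lmono (sub_nonempty hA hc') h1
        have gl2 := gl.2 A' hA' hc'
        linarith [gl.1, hxd.1, hxd.2]

end Pool.Agent.Lib.MP_f4f1a8_lc.KR
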